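import Pool.Agent.MP_656653_lc.Defs
import Pool.Agent.MP_c6cf52_lc.Tools

/-! Constructions inside a generic model. -/

namespace Pool.Agent.MP_656653_lc

open Pool.Agent.MP_c6cf52_lc Gen Name

universe u

theorem isOpn_iff {M : Type u} {E : M → M → Prop} {A R O : M} (h : IsLin E A R) :
    IsOpn E A R O ↔ (∀ x, E x O → E x A) ∧ ∀ x, E x O →
      ((∃ a, E a A ∧ App E R a x) → ∃ a, E a A ∧ App E R a x ∧
        ∀ y, E y A → App E R a y → App E R y x → E y O) ∧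
      ((∃ a, E a A ∧ App E R x a) → ∃ a, E a A ∧ App E R x a ∧
        ∀ y, E y A → App E R y a → App E R x y → E y O) := by
  refine and_congr_right fun hO => forall₂_congr fun x hx => ⟨fun H => ?_, fun ⟨h₁, h₂⟩ => ?_⟩
  · have hA := hO x hx
    rcases H with ⟨a, b, a₁, b₁, a₂, b₂, H⟩ | ⟨a, a₁, a₂, H⟩ | ⟨b, b₁, b₂, H⟩ | H
    · exact ⟨fun _ => ⟨a, a₁, a₂, fun y c d e => H y c d (h.2.1 _ _ _ c hA b₁ e b₂)⟩,
        fun _ => ⟨b, b₁, b₂, fun y c d e => H y c (h.2.1 _ _ _ a₁ hA c a₂ e) d⟩⟩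
    · exact ⟨fun _ => ⟨a, a₁, a₂, fun y c d _ => H y c d⟩,
        fun ⟨b, b₁, b₂⟩ => ⟨b, b₁, b₂, fun y c _ e => H y c (h.2.1 _ _ _ a₁ hA c a₂ e)⟩⟩
    · exact ⟨fun ⟨a, a₁, a₂⟩ => ⟨a, a₁, a₂, fun y c _ e => H y c (h.2.1 _ _ _ c hA b₁ e b₂)⟩,
        fun _ => ⟨b, b₁, b₂, fun y c d _ => H y c d⟩⟩
    · exact ⟨fun ⟨a, a₁, a₂⟩ => ⟨a, a₁, a₂, fun y c _ _ => H y c⟩,
        fun ⟨a, a₁, a₂⟩ => ⟨a, a₁, a₂, fun y c _ _ => H y c⟩⟩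
  · have hA := hO x hx
    have k : ∀ y, E y A → (App E R y x → E y O) → (App E R x y → E y O) → E y O :=
      fun y c d e => (h.2.2 y x c hA).elim d fun H => H.elim (fun H => H ▸ hx) e
    by_cases e₁ : ∃ a, E a A ∧ App E R a x <;> by_cases e₂ : ∃ a, E a A ∧ App E R x a
    · obtain ⟨a, a₁, a₂, a₃⟩ := h₁ e₁
      obtain ⟨b, b₁, b₂, b₃⟩ := h₂ e₂
      exact Or.inl ⟨a, b, a₁, b₁, a₂, b₂, fun y c d e => k y c (a₃ y c d) (b₃ y c e)⟩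
    · obtain ⟨a, a₁, a₂, a₃⟩ := h₁ e₁
      exact Or.inr (Or.inl ⟨a, a₁, a₂, fun y c d => k y c (a₃ y c d) fun e => absurd ⟨y, c, e⟩ e₂⟩)
    · obtain ⟨b, b₁, b₂, b₃⟩ := h₂ e₂
      exact Or.inr (Or.inr (Or.inl ⟨b, b₁, b₂, fun y c d =>
        k y c (fun e => absurd ⟨y, c, e⟩ e₁) (b₃ y c d)⟩))
    · exact Or.inr (Or.inr (Or.inr fun y c =>
        k y c (fun e => absurd ⟨y, c, e⟩ e₁) fun e => absurd ⟨y, c, e⟩ e₂))

variable {P : Type u} [Preorder P] [OrderTop P] {g : Gen P}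

theorem exists_prod (A B : g.M) : ∃ c, ∀ a b, g.E a A → g.E b B → g.E (pr a b) c := by
  obtain ⟨c₀, h₀⟩ := exists_upair A B
  obtain ⟨c₁, h₁⟩ := exists_union c₀
  obtain ⟨c₂, h₂⟩ := exists_power c₁
  obtain ⟨c₃, h₃⟩ := exists_power c₂
  refine ⟨c₃, fun a b ha hb => (h₃ _).2 fun y hy => (h₂ _).2 fun z hz => (h₁ _).2 ?_⟩
  have : z = a ∨ z = b := ((isPair_pr a b y).1 hy).elim (fun H => Or.inl ((H z).1 hz))
    fun H => (H z).1 hz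
  rcases this with rfl | rfl
  exacts [⟨A, ha, (h₀ _).2 (Or.inl rfl)⟩, ⟨B, hb, (h₀ _).2 (Or.inr rfl)⟩]

theorem exists_rel {Ψ : ∀ (M : Type (u + 1)), (M → M → Prop) → (ℕ → M) → Prop} (h : UDef Ψ)
    (l : List g.M) (A B : g.M) : ∃ f, (∀ p, g.E p f → ∃ a b, g.E a A ∧ g.E b B ∧ IsPair g.E p a b) ∧
      ∀ a b, App g.E f a b ↔ g.E a A ∧ g.E b B ∧
        Ψ g.M g.E (cons a (cons b (env (g.v emp) l))) := by
  obtain ⟨φ, h⟩ := h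
  obtain ⟨c, hc⟩ := exists_prod A B
  have hU : UDef.{u + 1} (fun _ E w => ∃ a b, E a (w 1) ∧ E b (w 2) ∧ IsPair E (w 0) a b ∧
      Sat E φ (cons a (cons b (fun k => w (k + 3))))) := by
    refine UDef.ex (UDef.ex ((UDef.mem _ _).and ((UDef.mem _ _).and ((UDef.isPair _ _ _).and
      ((UDef.sat φ (cons 1 (cons 0 (fun k => k + 5)))).congr fun M E w => ?_)))))
    have : (fun k => w (cons 1 (cons 0 fun k => k + 5) k)) =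
        cons (w 1) (cons (w 0) fun k => w (k + 5)) := by
      funext k
      rcases k with _ | _ | k <;> rfl
    rw [this]
  obtain ⟨f, hf⟩ := sep_udef hU (A :: B :: l) c
  have hf' : ∀ p, g.E p f ↔ g.E p c ∧ ∃ a b, g.E a A ∧ g.E b B ∧ IsPair g.E p a b ∧
      Sat g.E φ (cons a (cons b (env (g.v emp) l))) := hf
  simp only [h] at hf'
  refine ⟨f, fun p hp => ?_, fun a b => ?_⟩
  · obtain ⟨-, a, b, h₁, h₂, h₃, -⟩ := (hf' p).1 hp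
    exact ⟨a, b, h₁, h₂, h₃⟩
  · rw [app_iff, hf']
    refine ⟨fun ⟨_, a', b', h₁, h₂, h₃, h₄⟩ => ?_,
      fun ⟨h₁, h₂, h₃⟩ => ⟨hc a b h₁ h₂, a, b, h₁, h₂, isPair_pr a b, h₃⟩⟩
    obtain ⟨rfl, rfl⟩ := pr_inj.1 (isPair_iff.1 h₃)
    exact ⟨h₁, h₂, h₄⟩

theorem ud_comp : UDef.{u + 1} (fun _ E w => ∃ b, App E (w 2) (w 0) b ∧ App E (w 3) b (w 1)) :=
  UDef.ex ((UDef.app _ _ _).and (UDef.app _ _ _))

theorem ud_comp' : UDef.{u + 1} (fun _ E w => ∃ b, App E (w 2) b (w 0) ∧ App E (w 3) b (w 1)) :=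
  UDef.ex ((UDef.app _ _ _).and (UDef.app _ _ _))

theorem ud_comp'' : UDef.{u + 1} (fun _ E w => ∃ b, App E (w 2) b (w 0) ∧ App E (w 3) (w 1) b) :=
  UDef.ex ((UDef.app _ _ _).and (UDef.app _ _ _))

theorem exists_comp {f f' X Y Y' Z : g.M} (h : IsFun g.E f X Y) (h' : IsFun g.E f' Y' Z)
    (hY : ∀ y, g.E y Y → g.E y Y') :
    ∃ k, IsFun g.E k X Z ∧ ∀ a c, App g.E k a c → ∃ b, App g.E f a b ∧ App g.E f' b c := by
  obtain ⟨k, k₁, k₂⟩ := exists_rel ud_comp [f, f'] X Z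
  refine ⟨k, ⟨k₁, fun a ha => ?_⟩, fun a c H => ((k₂ a c).1 H).2.2⟩
  obtain ⟨b, b₁, b₂⟩ := fun_ex h ha
  obtain ⟨c, c₁, c₂⟩ := fun_ex h' (hY b b₁)
  refine ⟨c, (k₂ a c).2 ⟨ha, c₁, b, b₂, c₂⟩, fun c' H => ?_⟩
  obtain ⟨-, -, b', d₁, d₂⟩ := (k₂ a c').1 H
  obtain rfl := fun_uniq h b₂ d₁
  exact fun_uniq h' d₂ c₂

def Ok {M : Type u} (E : M → M → Prop) (S k : M) : Prop := ∀ x a, App E k x a → E a S ∧
  (∀ y, E y x → ∃ c, App E k y c ∧ E c a) ∧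
    ∀ a', E a' a → E a' S → ∃ y, E y x ∧ ∃ c, App E k y c ∧ ¬ E c a'

theorem exists_enum {w S : g.M} (hw : IsOrd g.E w)
    (tr : ∀ x y z, g.E z w → g.E y z → g.E x y → g.E x z) (hS : ∀ a, g.E a S → g.E a w)
    (unb : ∀ a, g.E a w → ∃ b, g.E b S ∧ g.E a b)
    (bnd : ∀ h x, g.E x w → ∃ d, g.E d w ∧ ∀ y c, g.E y x → g.E c w → App g.E h y c →
      ∃ c', g.E c' d ∧ App g.E h y c') : ∃ h, IsInc g.E h w S g.E g.E := by
  have U : ∀ x k k' a a', Ok g.E S k → Ok g.E S k' → App g.E k x a → App g.E k' x a' → a = a' := by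
    intro x
    induction x using E_wf.induction with
    | _ x ih =>
      have : ∀ k k' a a', Ok g.E S k → Ok g.E S k' → App g.E k x a → App g.E k' x a' →
          ¬ g.E a' a := fun k k' a a' h h' e e' H => by
        obtain ⟨y, a₁, c, a₂, a₃⟩ := (h x a e).2.2 a' H (h' x a' e').1
        obtain ⟨c', b₁, b₂⟩ := (h' x a' e').2.1 y a₁
        exact a₃ (ih y a₁ k k' c c' h h' a₂ b₁ ▸ b₂)
      intro k k' a a' h h' e e'
      exact ((hw.2 a a' (hS _ (h x a e).1) (hS _ (h' x a' e').1)).resolve_left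
        (this k' k a' a h' h e' e)).resolve_right (this k k' a a' h h' e e')
  have hU : UDef.{u + 1} (fun _ E w => ∃ k, Ok E (w 2) k ∧ App E k (w 0) (w 1)) := by
    unfold Ok
    repeat' first
      | exact UDef.mem _ _ | exact UDef.app _ _ _ | apply UDef.and | apply UDef.not
      | apply UDef.imp | apply UDef.all | apply UDef.ex
  obtain ⟨h, h₁, h₂⟩ := exists_rel hU [S] w S
  replace h₂ : ∀ x a, App g.E h x a ↔ g.E x w ∧ g.E a S ∧ ∃ k, Ok g.E S k ∧ App g.E k x a := h₂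
  have ok : Ok g.E S h := fun x a H => by
    obtain ⟨a₁, a₂, k, a₃, a₄⟩ := (h₂ x a).1 H
    refine ⟨a₂, fun y hy => ?_, fun a' b₁ b₂ => ?_⟩
    · obtain ⟨c, c₁, c₂⟩ := (a₃ x a a₄).2.1 y hy
      exact ⟨c, (h₂ y c).2 ⟨hw.1 _ _ a₁ hy, (a₃ y c c₁).1, k, a₃, c₁⟩, c₂⟩
    · obtain ⟨y, hy, c, c₁, c₂⟩ := (a₃ x a a₄).2.2 a' b₁ b₂
      exact ⟨y, hy, c, (h₂ y c).2 ⟨hw.1 _ _ a₁ hy, (a₃ y c c₁).1, k, a₃, c₁⟩, c₂⟩
  have tot : ∀ x, g.E x w → ∃ a, App g.E h x a := by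
    intro x
    induction x using E_wf.induction with
    | _ x ih =>
      intro hx
      obtain ⟨d, d₁, d₂⟩ := bnd h x hx
      obtain ⟨b, b₁, b₂⟩ := unb d d₁
      obtain ⟨a, ⟨a₁, a₂⟩, a₃⟩ := E_wf.has_min
        {a | g.E a S ∧ ∀ y, g.E y x → ∃ c, App g.E h y c ∧ g.E c a} ⟨b, b₁, fun y hy => by
          obtain ⟨c, hc⟩ := ih y hy (hw.1 _ _ hx hy)
          obtain ⟨c', c₁, c₂⟩ := d₂ y c hy (hS _ (ok y c hc).1) hc
          exact ⟨c', c₂, tr _ _ _ (hS _ b₁) b₂ c₁⟩⟩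
      have hV : UDef.{u + 1} (fun _ E w => (E (w 0) (w 2) ∧ App E (w 4) (w 0) (w 1)) ∨
          (w 0 = w 2 ∧ w 1 = w 3)) :=
        ((UDef.mem _ _).and (UDef.app _ _ _)).or ((UDef.eq _ _).and (UDef.eq _ _))
      obtain ⟨k, -, k₂⟩ := exists_rel hV [x, a, h] w S
      replace k₂ : ∀ y c, App g.E k y c ↔ g.E y w ∧ g.E c S ∧
        ((g.E y x ∧ App g.E h y c) ∨ (y = x ∧ c = a)) := k₂
      have k₃ : ∀ y c, g.E y x → App g.E h y c → App g.E k y c := fun y c e e' =>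
        (k₂ y c).2 ⟨hw.1 _ _ hx e, (ok y c e').1, Or.inl ⟨e, e'⟩⟩
      refine ⟨a, (h₂ x a).2 ⟨hx, a₁, k, fun y c H => ?_, (k₂ x a).2 ⟨hx, a₁, Or.inr ⟨rfl, rfl⟩⟩⟩⟩
      obtain ⟨-, e₀, ⟨e, e'⟩ | ⟨rfl, rfl⟩⟩ := (k₂ y c).1 H
      · refine ⟨e₀, fun z hz => ?_, fun a' f₁ f₂ => ?_⟩
        · obtain ⟨c', c₁, c₂⟩ := (ok y c e').2.1 z hz
          exact ⟨c', k₃ z c' (tr _ _ _ hx e hz) c₁, c₂⟩
        · obtain ⟨z, hz, c', c₁, c₂⟩ := (ok y c e').2.2 a' f₁ f₂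
          exact ⟨z, hz, c', k₃ z c' (tr _ _ _ hx e hz) c₁, c₂⟩
      · refine ⟨e₀, fun z hz => ?_, fun a' f₁ f₂ => ?_⟩
        · obtain ⟨c', c₁, c₂⟩ := a₂ z hz
          exact ⟨c', k₃ z c' hz c₁, c₂⟩
        · by_contra hc
          refine a₃ a' ⟨f₂, fun z hz => ?_⟩ f₁
          obtain ⟨c', c₁⟩ := ih z hz (hw.1 _ _ hx hz)
          exact ⟨c', c₁, by_contra fun H => hc ⟨z, hz, c', k₃ z c' hz c₁, H⟩⟩
  refine ⟨h, ⟨h₁, fun x hx => ?_⟩, fun x x' a a' e e' H => ?_⟩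
  · obtain ⟨a, ha⟩ := tot x hx
    exact ⟨a, ha, fun a' e => U x h h a' a ok ok e ha⟩
  · obtain ⟨c, c₁, c₂⟩ := (ok x' a' e').2.1 x H
    exact U x h h c a ok ok c₁ e ▸ c₂

end Pool.Agent.MP_656653_lc
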