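import Pool.Agent.MP_656653_lc.Emb

/-! Combinatorics of named relations on the ordinals. -/

set_option synthInstance.maxSize 1000000

namespace Pool.Agent.MP_656653_lc

open Set Filter

theorem exists_lim : ∃ δ : Om, Lim δ := by
  choose f hf using fun a : Om => exists_gt a
  let a : ℕ → Om := fun n => f^[n] ⊥
  have ha : ∀ n, a n < a (n + 1) := fun n => by
    simp only [a, Function.iterate_succ_apply']; exact hf _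
  obtain ⟨δ, h₁, h₂⟩ := (wellFounded_lt (α := Om)).has_min {b | ∀ n, a n < b}
    ((exists_bound (countable_range a)).imp fun b hb n => hb _ ⟨n, rfl⟩)
  refine ⟨δ, h₁ 0, fun γ hγ => ?_⟩
  obtain ⟨n, hn⟩ := not_forall.1 fun H => h₂ γ H hγ
  exact ⟨_, (not_lt.1 hn).trans_lt (ha n), h₁ _⟩

noncomputable def om0 : Om := (wellFounded_lt (α := Om)).min {δ | Lim δ} exists_lim

theorem lim_om0 : Lim om0 := (wellFounded_lt (α := Om)).min_mem {δ | Lim δ} exists_lim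

theorem not_lim {a : Om} (h : a < om0) : ¬ Lim a :=
  fun H => (wellFounded_lt (α := Om)).not_lt_min {δ | Lim δ} H h

theorem fin_Iic {a : Om} (h : a < om0) : (Iic a).Finite := by
  induction a using WellFoundedLT.induction with
  | ind a ih =>
    rw [← Iio_insert]
    refine Finite.insert _ ?_
    have := not_lim h
    rw [Lim, not_and_or] at this
    rcases this with H | H
    · simp [le_bot_iff.1 (not_lt.1 H)]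
    · push Not at H
      obtain ⟨γ, h₁, h₂⟩ := H
      exact (ih γ h₁ (h₁.trans h)).subset fun x hx => not_lt.1 fun H => (h₂ x H).not_gt hx

theorem exists_ij (a : Om) : ∃ f : Om → Om, InjOn f (Iio a) ∧ ∀ ξ, f ξ < om0 := by
  have h : (Iio om0).Infinite := lim_om0.infinite fun β hβ => ⟨β, hβ, le_rfl, hβ⟩
  obtain ⟨f, hf⟩ := countable_iff_exists_injOn.1 (cnt_Iio a)
  exact ⟨fun ξ => (h.natEmbedding _ (f ξ)).1, fun x hx y hy e =>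
    hf hx hy ((h.natEmbedding _).injective (Subtype.ext e)), fun ξ => (h.natEmbedding _ (f ξ)).2⟩

noncomputable def ij (a : Om) : Om → Om := (exists_ij a).choose

theorem ij_inj {a x y : Om} (hx : x < a) (hy : y < a) (h : ij a x = ij a y) : x = y :=
  (exists_ij a).choose_spec.1 hx hy h

theorem ij_lt (a ξ : Om) : ij a ξ < om0 := (exists_ij a).choose_spec.2 ξ

abbrev St.vo (s : St) (σ : V) : Set (Om × Om) := s.val σ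

theorem ev_eU : ∀ᶠ D in Fl, ∀ K, Cl D K → ∀ a, has K (eU a) ↔ has K a := by
  filter_upwards [ev_cf eU, ev_cf eU.symm] with D h₁ h₂ K hK a
  exact ⟨fun h => by simpa using h₂ K hK _ h, h₁ K hK a⟩

theorem u_mono : ∀ᶠ D in Fl, ∀ s, Sit D s → ∀ N δ, Sub D s N δ → ∀ σ ∈ N,
    (∀ ξ, has s.K ξ → ∃ a, (ξ, a) ∈ s.vo σ) →
    (∀ ξ ξ' a, (ξ, a) ∈ s.vo σ → (ξ', a) ∈ s.vo σ → ξ = ξ') →
    (∀ x ∈ s.vo σ, ∀ y ∈ s.vo σ, ∀ z ∈ s.vo σ, x.1 ≤ y.1 → y.1 ≤ z.1 → ∀ γ,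
      U.ag γ (eU x.2) (eU z.2) → U.ag γ (eU y.2) (eU z.2)) → False := by
  filter_upwards [ev_eU, unbN, nbU,
    elemS (fun s (a : V × Om × U) (y : Om × Om) => y ∈ s.vo a.1 ∧ U.ag a.2.1 a.2.2 (eU y.2)),
    elemS (fun s (a : V × Om) (ξ : Om) => (ξ, a.2) ∈ s.vo a.1),
    compX (fun s (σ : V × ℕ) (y : X) => ∃ z, z ∈ s.vo σ.1 ∧ (nt y.1 0).2 = eU z.2 ∧
      y.2 ≤ (nt y.1 0).2.ht ∧ ∀ z', z' ∈ s.vo σ.1 → z.1 ≤ z'.1 → U.ag y.2 (eU z.2) (eU z'.2))]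
    with D h₁ h₂ h₃ h₄ h₅ h₆ s hs N δ hN σ hσ tot inj btw
  obtain ⟨a₀, ha₀⟩ := tot δ hN.hd
  have haK := (hs.cl.has_pair.1 ha₀.1).2
  have hht : δ ≤ (eU a₀).ht := not_lt.1 fun H => by
    obtain ⟨ξ, a₁, a₂⟩ := h₅ s hs N δ hN (σ, a₀) (hN.cl.has_pair.2
      ⟨hσ, (h₁ N hN.cl a₀).1 (hN.has_u.2 H)⟩) δ hN.hd ha₀
    exact (hN.iff.1 a₁).ne (inj _ _ _ a₂ ha₀)
  have hF := h₆ s hs N hN.cl hN.sub hN.hP (σ, 0) (hN.cl.has_pair.2 ⟨hσ, hN.cl.has_nat _⟩)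
  obtain ⟨x, ⟨-, z, x₁, x₂, -, x₃⟩, y, ⟨-, z', y₁, y₂, -, y₃⟩, H⟩ := h₃ s hs N δ hN _ hF
    (h₂ s hs N δ hN _ hF fun β hβ => ⟨([(⊥, eU a₀)], β), ⟨hs.cl.has_pair.2 ⟨hs.cl.has_list.2 (by
      simp only [List.mem_singleton, forall_eq]
      exact hs.cl.has_pair.2 ⟨hs.bas.bot, (h₁ _ hs.cl _).2 haK⟩), hs.has_le hN hβ.le⟩,
      (δ, a₀), ha₀, rfl, hβ.le.trans hht, fun z' a₁ a₂ => by
        obtain ⟨m, -, m₁, -, m₂, -⟩ := U.minmax β (eU z'.2)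
        obtain ⟨y, b₁, b₂, b₃⟩ := h₄ s hs N δ hN (σ, β, m) (hN.cl.has_pair.2 ⟨hσ, hN.cl.has_pair.2
          ⟨hN.iff.2 hβ, hN.has_u.2 (m₂.trans_lt hβ)⟩⟩) z' a₁.1 ⟨a₁, m₁⟩
        exact btw y b₂ _ ha₀ z' a₁ (hN.iff.1 (hN.cl.has_prod.1 b₁).1).le a₂ β
          (b₃.symm.trans m₁)⟩, le_rfl⟩) 0 fun x ⟨_, _, _, _, h, _⟩ => h
  rw [x₂, y₂] at H
  rcases le_total z.1 z'.1 with h | h
  exacts [H ((x₃ z' y₁ h).mono (min_le_left _ _)), H ((y₃ z x₁ h).mono (min_le_right _ _)).symm]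

def lexO (S : Set (Om × Om)) (a b : Om) : Prop :=
  ∃ n < om0, (b, n) ∈ S ∧ (a, n) ∉ S ∧ ∀ m < n, ((a, m) ∈ S ↔ (b, m) ∈ S)

theorem lexO.asymm {S a b} (h : lexO S a b) : ¬ lexO S b a := by
  obtain ⟨n, -, a₁, a₂, a₃⟩ := h
  rintro ⟨m, -, b₁, b₂, b₃⟩
  rcases lt_trichotomy n m with h | rfl | h
  exacts [a₂ ((b₃ n h).1 a₁), a₂ b₁, b₂ ((a₃ m h).1 b₁)]

theorem u_real : ∀ᶠ D in Fl, ∀ s, Sit D s → (∀ z ∈ s.K, ∃ N δ, Sub D s N δ ∧ z ∈ N) → ∀ σ ∈ s.K,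
    (∀ β, has s.K β → ∃ a, β ≤ a ∧ (a, om0) ∈ s.vo σ) →
    (∀ a b, (a, om0) ∈ s.vo σ → (b, om0) ∈ s.vo σ → eU a < eU b → lexO (s.vo σ) a b) → False := by
  filter_upwards [ev_eU, ev_const om0,
    elemS (fun s (a : V × Om × List Om) (t : Om) => (t, om0) ∈ s.vo a.1 ∧
      ∀ m ≤ a.2.1, ((t, m) ∈ s.vo a.1 ↔ m ∈ a.2.2)),
    elemS (fun s (a : V × Om × U × Om) (t : Om) => (t, om0) ∈ s.vo a.1 ∧ a.2.2.2 < t ∧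
      U.ag a.2.1 a.2.2.1 (eU t))] with D h₁ h₂ h₃ h₄ s hs md σ hσ unb inc
  obtain ⟨N, δ, hN, hσN⟩ := md σ hσ
  have key : ∀ x y z, (x, om0) ∈ s.vo σ → (y, om0) ∈ s.vo σ → (z, om0) ∈ s.vo σ → δ < x →
      U.ag δ (eU x) (eU z) → eU x < eU y → eU y < eU z → False := by
    intro x y z hx hy hz hδ e l₁ l₂
    obtain ⟨n₁, a₀, a₁, a₂, a₃⟩ := inc x y hx hy l₁
    obtain ⟨n₂, b₀, b₁, b₂, b₃⟩ := inc y z hy hz l₂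
    have hn := max_lt a₀ b₀
    obtain ⟨L, hL⟩ := exists_ls ((fin_Iic hn).subset (sep_subset _ fun m => (y, m) ∈ s.vo σ))
    have k : ∀ m ≤ max n₁ n₂, has N m := fun m h => hN.bas.down (h₂ N hN.cl) (h.trans hn.le)
    obtain ⟨t, t₁, t₂, t₃⟩ := h₃ s hs N δ hN (σ, max n₁ n₂, L) (hN.cl.has_pair.2 ⟨hσN,
      hN.cl.has_pair.2 ⟨k _ le_rfl, hN.cl.has_list.2 fun m hm => k m (hL.le hm).1⟩⟩) y
      (hs.cl.has_pair.1 hy.1).1 ⟨hy, fun m hm => ⟨fun H => hL.ge ⟨hm, H⟩, fun H => (hL.le H).2⟩⟩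
    have t₄ : ∀ m ≤ max n₁ n₂, ((t, m) ∈ s.vo σ ↔ (y, m) ∈ s.vo σ) := fun m hm =>
      (t₃ m hm).trans ⟨fun H => (hL.le H).2, fun H => hL.ge ⟨hm, H⟩⟩
    have c₁ : lexO (s.vo σ) x t := ⟨n₁, a₀, (t₄ _ (le_max_left _ _)).2 a₁, a₂, fun m hm =>
      (a₃ m hm).trans (t₄ m (hm.le.trans (le_max_left _ _))).symm⟩
    have c₂ : lexO (s.vo σ) t z := ⟨n₂, b₀, b₁, fun H => b₂ ((t₄ _ (le_max_right _ _)).1 H),
      fun m hm => (t₄ m (hm.le.trans (le_max_right _ _))).trans (b₃ m hm)⟩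
    have := U.alone (U.convex (not_lt.1 fun H => c₁.asymm (inc t x t₂ hx H))
      (not_lt.1 fun H => c₂.asymm (inc z t hz t₂ H)) e).symm (hN.has_u.1 ((h₁ N hN.cl t).2 t₁))
    exact (hN.iff.1 t₁).not_gt (eU.injective this ▸ hδ)
  obtain ⟨N', δ', hN', h'⟩ := md (enc (σ, δ)) (hs.cl.has_pair.2 ⟨hσ, hN.hd⟩)
  obtain ⟨c₁, c₂⟩ := hN'.cl.has_pair.1 h'
  obtain ⟨z, z₁, z₂⟩ := unb δ' hN'.hd
  obtain ⟨m, -, m₁, -, m₂, -⟩ := U.minmax δ (eU z)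
  have k : ∀ β, has N' β → ∃ t, has N' t ∧ (t, om0) ∈ s.vo σ ∧ β < t ∧ U.ag δ m (eU t) :=
    fun β hβ => h₄ s hs N' δ' hN' (σ, δ, m, β) (hN'.cl.has_pair.2 ⟨c₁, hN'.cl.has_pair.2 ⟨c₂,
      hN'.cl.has_pair.2 ⟨hN'.has_u.2 (m₂.trans_lt (hN'.iff.1 c₂)), hβ⟩⟩⟩) z
      (hs.cl.has_pair.1 z₂.1).1 ⟨z₂, (hN'.iff.1 hβ).trans_le z₁, m₁⟩
  obtain ⟨x, x₁, x₂, x₃, x₄⟩ := k δ c₂
  obtain ⟨y, y₁, y₂, y₃, y₄⟩ := k x x₁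
  have z₃ := (hN'.iff.1 y₁).trans_le z₁
  have y₅ := x₃.trans y₃
  have z₅ := y₅.trans z₃
  rcases lt_or_gt_of_ne (eU.injective.ne y₃.ne) with a | a <;>
    rcases lt_or_gt_of_ne (eU.injective.ne z₃.ne) with b | b <;>
    rcases lt_or_gt_of_ne (eU.injective.ne (y₃.trans z₃).ne) with c | c
  exacts [key x y z x₂ y₂ z₂ x₃ (x₄.symm.trans m₁) a b, (a.trans b).asymm c,
    key x z y x₂ z₂ y₂ x₃ (x₄.symm.trans y₄) c b, key z x y z₂ x₂ y₂ z₅ (m₁.symm.trans y₄) c a,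
    key y x z y₂ x₂ z₂ y₅ (y₄.symm.trans m₁) a c, key y z x y₂ z₂ x₂ y₅ (y₄.symm.trans x₄) b c,
    (b.trans a).asymm c, key z y x z₂ y₂ x₂ z₅ (m₁.symm.trans x₄) b a]

def St.Hf (s : St) (σ τ : V) (i : ℕ) (d : Bool) (ξ : Om) : Prop :=
  ∃ x, x ∈ s.vx τ ∧ ξ < x.2 ∧ (s.r σ (nt x.1 i).1 ξ ↔ d = true)

def St.Rc (s : St) (σ τ : V) (i : ℕ) (d : Bool) (a : Om) : Prop :=
  s.Hf σ τ i d a ∧ ∀ ξ < a, s.Hf σ τ i d ξ → (s.r σ a ξ ↔ d = true)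

instance {α : Type*} [Code α] (σ τ : α → V) [Cf τ] (i : α → ℕ) (d : α → Bool) (f : α → Om) :
    Def (fun s a => s.Rc (σ a) (τ a) (i a) (d a) (f a)) := by
  have := Cf.comp τ (fun x : α × Om => x.1)
  unfold St.Rc St.Hf; infer_instance

theorem nb_rec {D s} (hs : Sit D s) {σ} (h : ¬ s.NB σ) : ∃ τ ∈ s.K, ∃ i d,
    ∀ β, has s.K β → ∃ a, has s.K a ∧ β ≤ a ∧ s.Rc σ τ i d a := by
  unfold St.NB at h
  push Not at h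
  obtain ⟨τ, h₁, h₂, i, -, h₃, h₄⟩ := h
  have hK : ∀ x ∈ s.vx τ, has s.K (nt x.1 i).1 := fun x hx =>
    (hs.cl.has_prod.1 (hs.has_nt (hs.cl.has_prod.1 hx.1).1 i)).1
  obtain ⟨d, hd⟩ : ∃ d, ∀ β, has s.K β → ∃ x ∈ s.vx τ, β ≤ x.2 ∧ s.Hf σ τ i d (nt x.1 i).1 := by
    by_contra hc
    push Not at hc
    obtain ⟨β₁, a₁, a₂⟩ := hc true
    obtain ⟨β₂, b₁, b₂⟩ := hc false
    obtain ⟨x, x₁, x₂⟩ := h₂ (max β₁ β₂) (by rcases max_choice β₁ β₂ with e | e <;> rwa [e])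
    obtain ⟨γ, c₁, c₂⟩ := hs.bas.up (hK x x₁)
    obtain ⟨y, y₁, y₂⟩ := h₂ γ c₁
    by_cases e : s.r σ (nt y.1 i).1 (nt x.1 i).1
    · exact a₂ x x₁ (le_of_max_le_left x₂) ⟨y, y₁, c₂.trans_le y₂, by simpa⟩
    · exact b₂ x x₁ (le_of_max_le_right x₂) ⟨y, y₁, c₂.trans_le y₂, by simpa⟩
  refine ⟨τ, h₁.1, i, d, fun β hβ => ?_⟩
  obtain ⟨x, x₁, x₂, x₃⟩ := hd β hβ
  obtain ⟨a, ⟨a₁, a₂, a₃, a₄⟩, a₅⟩ := (wellFounded_lt (α := Om)).has_min {c | has s.K c ∧ x.2 ≤ c ∧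
      s.Hf σ τ i d c ∧ ∀ ξ < x.2, s.Hf σ τ i d ξ → (s.r σ c ξ ↔ d = true)}
    ⟨_, hK x x₁, h₃ x x₁, x₃, fun ξ hξ ⟨y, y₁, y₂, y₃⟩ => by
      rcases h₄ x x₁ y y₁ with e | e
      · rwa [e]
      · rwa [e.2.2 ξ (lt_min hξ y₂)]⟩
  refine ⟨a, a₁, x₂.trans a₂, a₃, fun ξ hξ H => ?_⟩
  rcases lt_or_ge ξ x.2 with e | e
  · exact a₄ ξ e H
  have : ¬ ∀ η < x.2, s.Hf σ τ i d η → (s.r σ ξ η ↔ d = true) :=
    fun H' => a₅ ξ ⟨hs.bas.down a₁ hξ.le, e, H, H'⟩ hξ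
  simp only [not_forall, exists_prop] at this
  obtain ⟨η, b₁, b₂, b₃⟩ := this
  have b₄ := a₄ η b₁ b₂
  cases d
  · simp only [Bool.false_eq_true, iff_false] at b₄ ⊢
    exact fun H' => b₄ (r_trans H' (by simpa using b₃))
  · simp only [iff_true] at b₄ ⊢
    rcases r_tri (r := s.r σ) η ξ with H' | rfl | H'
    exacts [r_trans b₄ H', b₄, absurd H' (by simpa using b₃)]

def St.Fr (s : St) (σ : V) (γ a : Om) : Prop := γ ≤ a ∧ ∀ a' < a, ¬ agA (s.r σ) γ a a'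

def St.Ch (s : St) (σ : V) (γ a n : Om) : Prop := ∃ ξ, ξ < γ ∧ n = ij γ ξ ∧ ¬ s.r σ a ξ

theorem ll_rec {D s} (hs : Sit D s) {σ} (h : ¬ s.LL σ) : ∃ γ, has s.K γ ∧
    ∀ β, has s.K β → ∃ a, has s.K a ∧ β ≤ a ∧ s.Fr σ γ a := by
  unfold St.LL at h
  push Not at h
  obtain ⟨γ, h₁, h₂⟩ := h
  refine ⟨γ, h₁, fun β hβ => ?_⟩
  obtain ⟨a, a₁, a₂⟩ := h₂ (max β γ) (by rcases max_choice β γ with e | e <;> rwa [e])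
  obtain ⟨c, c₁, c₂⟩ := (wellFounded_lt (α := Om)).has_min {c | agA (s.r σ) γ a c} ⟨a, agA.refl _ _⟩
  have := max_le_iff.1 (not_lt.1 fun H => a₂ c H c₁)
  exact ⟨c, hs.bas.down a₁ (not_lt.1 (c₂ a (agA.refl _ _))), this.1, this.2,
    fun a' H H' => c₂ a' (c₁.trans H') H⟩

theorem St.Fr.lex {s : St} {σ γ a b} (ha : s.Fr σ γ a) (hb : s.Fr σ γ b) (h : s.r σ a b) :
    ∃ n, s.Ch σ γ b n ∧ ¬ s.Ch σ γ a n ∧ ∀ m < n, (s.Ch σ γ a m ↔ s.Ch σ γ b m) := by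
  have hn : ¬ agA (s.r σ) γ a b := by
    rcases lt_trichotomy a b with e | rfl | e
    exacts [fun H => hb.2 a e H.symm, absurd h (r_irr _), ha.2 b e]
  have mono : ∀ m, s.Ch σ γ a m → s.Ch σ γ b m := fun m ⟨ξ, a₁, a₂, a₃⟩ =>
    ⟨ξ, a₁, a₂, fun H => a₃ (r_trans h H)⟩
  obtain ⟨ξ, a₁, a₂⟩ : ∃ ξ < γ, s.r σ a ξ ∧ ¬ s.r σ b ξ := by
    by_contra hc
    push Not at hc
    exact hn (Or.inr ⟨ha.1, hb.1, fun ξ hξ => ⟨hc ξ hξ, r_trans h⟩⟩)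
  obtain ⟨n, ⟨n₁, n₂⟩, n₃⟩ := (wellFounded_lt (α := Om)).has_min
    {n | s.Ch σ γ b n ∧ ¬ s.Ch σ γ a n} ⟨_, ⟨ξ, a₁, rfl, a₂.2⟩,
      fun ⟨ξ', b₁, b₂, b₃⟩ => b₃ (ij_inj a₁ b₁ b₂ ▸ a₂.1)⟩
  exact ⟨n, n₁, n₂, fun m hm => ⟨mono m, fun H => by_contra fun H' => n₃ m ⟨H, H'⟩ hm⟩⟩

end Pool.Agent.MP_656653_lc
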