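import Pool.Agent.MP_656653_lc.Br1
import Pool.Agent.MP_656653_lc.Br2

/-! The ordinals and the target line in the model. -/

set_option synthInstance.maxSize 1000000

namespace Pool.Agent.MP_656653_lc

open Set Filter
open Pool.Agent.MP_c6cf52_lc hiding tr

structure Top.Rep {D} (T : Top D) (x : T.g.M) (R : Om → Om → Prop) : Prop where
  pr : ∀ p, T.g.E p x → ∃ a b, has T.K a ∧ has T.K b ∧ R a b ∧ p = Gen.pr (T.o a) (T.o b)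
  iff : ∀ {a b}, has T.K a → has T.K b → (App T.g.E x (T.o a) (T.o b) ↔ R a b)

section
variable {D : Set Dp} {T : Top D}

theorem Top.Rep.app {x R} (h : T.Rep x R) {s t} (H : App T.g.E x s t) :
    ∃ a b, has T.K a ∧ has T.K b ∧ R a b ∧ s = T.o a ∧ t = T.o b := by
  obtain ⟨a, b, h₁, h₂, h₃, h₄⟩ := h.pr _ (Gen.app_iff.1 H)
  exact ⟨a, b, h₁, h₂, h₃, Gen.pr_inj.1 h₄⟩

theorem Top.rep_of {x} {R : Om → Om → Prop} (h : ∀ p, T.g.E p x ↔ ∃ a b, has T.K a ∧ has T.K b ∧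
    R a b ∧ p = Gen.pr (T.o a) (T.o b)) : T.Rep x R := by
  refine ⟨fun p => (h p).1, fun {a b} ha hb => Gen.app_iff.trans ((h _).trans
    ⟨fun ⟨a', b', h₁, h₂, h₃, h₄⟩ => ?_, fun H => ⟨a, b, ha, hb, H, rfl⟩⟩)⟩
  obtain ⟨e, e'⟩ := Gen.pr_inj.1 h₄
  rwa [Top.o_inj ha h₁ e, Top.o_inj hb h₂ e']

theorem Top.o_w1 {a} (h : has T.K a) : T.g.E (T.o a) T.w1 := Top.E_w1.2 ⟨a, h, rfl⟩

theorem Top.isOrd_w1 : IsOrd T.g.E T.w1 := Gen.isOrd_setN wfO triO T.om fun _ _ _ _ => trivial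

theorem Top.isOrd_o {a} (h : has T.K a) : IsOrd T.g.E (T.o a) := by
  have := (T.ord a).2 h
  unfold Top.o
  unfold oN at this ⊢
  rw [Name.ordN_eq] at this ⊢
  exact Gen.isOrd_setN wfO triO this fun _ _ h h' => h.trans h'

theorem Top.isLim_o (n : N0 D) {a} (h : has T.K a) : IsLim T.g.E (T.o a) ↔ Lim a := by
  have b := n.bas T.cl
  constructor
  · rintro ⟨⟨x, hx⟩, H⟩
    obtain ⟨c, c₁, -⟩ := (Top.E_o h).1 hx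
    refine ⟨bot_le.trans_lt c₁, fun γ hγ => ?_⟩
    have hγ' := b.down h hγ.le
    obtain ⟨y, y₁, y₂⟩ := H _ ((Top.o_lt hγ' h).2 hγ)
    obtain ⟨d, d₁, d₂, rfl⟩ := (Top.E_o h).1 y₁
    exact ⟨d, (Top.o_lt hγ' d₂).1 y₂, d₁⟩
  · refine fun H => ⟨⟨_, (Top.o_lt b.bot h).2 H.1⟩, fun x hx => ?_⟩
    obtain ⟨c, c₁, c₂, rfl⟩ := (Top.E_o h).1 hx
    obtain ⟨d, d₁, d₂⟩ := H.2 c c₁
    have := b.down h d₂.le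
    exact ⟨_, (Top.o_lt this h).2 d₂, (Top.o_lt c₂ this).2 d₁⟩

end

theorem bnd : ∀ᶠ D in Fl, D.Countable → ∀ (T : Top D) h x, T.g.E x T.w1 → ∃ d, T.g.E d T.w1 ∧
    ∀ y c, T.g.E y x → T.g.E c T.w1 → App T.g.E h y c → ∃ c', T.g.E c' d ∧ App T.g.E h y c' := by
  filter_upwards [ev_n0, capt, modl, elemS (fun s (a : V × Om) (b : Om) => (a.2, b) ∈ s.vo a.1)]
    with D n h₁ h₂ h₃ hD T h x hx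
  obtain ⟨ξ, a₁, rfl⟩ := Top.E_w1.1 hx
  obtain ⟨ν, b₁, -, b₂⟩ := h₁ hD T h
  obtain ⟨N, δ, c₁, c₂, c₃⟩ := h₂ hD T ν b₁ _ a₁
  refine ⟨_, Top.o_w1 c₁.hd, fun y c hy hc H => ?_⟩
  obtain ⟨η, d₁, d₂, rfl⟩ := (Top.E_o a₁).1 hy
  obtain ⟨b, d₃, rfl⟩ := Top.E_w1.1 hc
  obtain ⟨b', e₁, e₂⟩ := h₃ _ (b₁.sit n) N δ c₁ (ν.sA, η) (c₁.cl.has_pair.2
    ⟨(c₁.cl.has_tag.1 c₃).2.2.2.2.2.1, c₁.bas.down c₂ d₁.le⟩) b d₃ ((b₂ η b d₂ d₃).2 H)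
  exact ⟨_, (Top.o_lt (c₁.sub e₁) c₁.hd).2 (c₁.iff.1 e₁), (b₂ η b' d₂ (c₁.sub e₁)).1 e₂⟩

theorem grd (R : Om → Om → Om → Prop) : ∀ᶠ D in Fl, D.Countable → ∀ (T : Top D) a, has T.K a →
    ∃ x, T.Rep x (R a) := by
  filter_upwards [capt, intl (fun _ (a : Om) (y : Om × Om) => R a y.1 y.2)] with D h₁ h₂ hD T a ha
  obtain ⟨ν, b₁, -⟩ := h₁ hD T T.w1
  obtain ⟨x, hx⟩ := h₂ T ν b₁ a ha
  exact ⟨x, Top.rep_of hx⟩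

theorem inj_om : ∀ᶠ D in Fl, D.Countable → ∀ (T : Top D) a, has T.K a → ∀ B,
    (∀ x, T.g.E x B → T.g.E x (T.o a)) → ∃ i, IsInj T.g.E i B (T.o om0) := by
  filter_upwards [ev_n0, ev_const om0, grd (fun a ξ m => ξ < a ∧ m = ij a ξ)]
    with D n h₁ h₂ hD T a ha B hB
  obtain ⟨x, hx⟩ := h₂ hD T a ha
  have h0 := h₁ _ T.cl
  have k : ∀ ξ, has T.K (ij a ξ) := fun ξ => (n.bas T.cl).down h0 (ij_lt a ξ).le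
  obtain ⟨i, i₁, i₂⟩ := exists_rel (UDef.app 2 0 1) [x] B (T.o om0)
  replace i₂ : ∀ s t, App T.g.E i s t ↔ T.g.E s B ∧ T.g.E t (T.o om0) ∧ App T.g.E x s t := i₂
  refine ⟨i, ⟨i₁, fun s hs => ?_⟩, fun s s' t H H' => ?_⟩
  · obtain ⟨ξ, a₁, a₂, rfl⟩ := (Top.E_o ha).1 (hB s hs)
    refine ⟨_, (i₂ _ _).2 ⟨hs, (Top.o_lt (k ξ) h0).2 (ij_lt a ξ), (hx.iff a₂ (k ξ)).2 ⟨a₁, rfl⟩⟩,
      fun t H => ?_⟩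
    obtain ⟨ξ', m, b₁, -, ⟨-, rfl⟩, b₂, rfl⟩ := hx.app ((i₂ _ _).1 H).2.2
    rw [Top.o_inj a₂ b₁ b₂]
  · obtain ⟨ξ, m, b₁, b₀, ⟨b₃, rfl⟩, rfl, rfl⟩ := hx.app ((i₂ _ _).1 H).2.2
    obtain ⟨ξ', m, -, c₀, ⟨c₃, rfl⟩, rfl, c₄⟩ := hx.app ((i₂ _ _).1 H').2.2
    rw [ij_inj b₃ c₃ (Top.o_inj b₀ c₀ c₄)]

theorem no_inj : ∀ᶠ D in Fl, D.Countable → ∀ (T : Top D) x Z, T.g.E x T.w1 →
    (∀ β, has T.K β → ∃ a, has T.K a ∧ β ≤ a ∧ ∃ n, T.g.E n x ∧ App T.g.E Z n (T.o a)) →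
    (∀ n c c', App T.g.E Z n c → App T.g.E Z n c' → c = c') → False := by
  filter_upwards [bnd] with D h hD T x Z hx h₁ h₂
  obtain ⟨d, d₁, d₂⟩ := h hD T Z x hx
  obtain ⟨δ, a₁, rfl⟩ := Top.E_w1.1 d₁
  obtain ⟨a, b₁, b₂, n, b₃, b₄⟩ := h₁ δ a₁
  obtain ⟨c, c₁, c₂⟩ := d₂ n _ b₃ (Top.o_w1 b₁) b₄
  rw [h₂ n _ _ c₂ b₄, Top.o_lt b₁ a₁] at c₁
  exact c₁.not_ge b₂

theorem ords : ∀ᶠ D in Fl, D.Countable → ∀ T : Top D,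
    (IsOrd T.g.E (T.o om0) ∧ IsLim T.g.E (T.o om0) ∧
      ∀ a, T.g.E a (T.o om0) → ¬ IsLim T.g.E a) ∧
    IsCard T.g.E T.w1 ∧ T.g.E (T.o om0) T.w1 ∧
      ∀ m, IsCard T.g.E m → T.g.E (T.o om0) m → ¬ T.g.E m T.w1 := by
  filter_upwards [ev_n0, ev_const om0, inj_om, no_inj] with D n h₁ h₂ h₃ hD T
  have h0 := h₁ _ T.cl
  refine ⟨⟨Top.isOrd_o h0, (Top.isLim_o n h0).2 lim_om0, fun a ha => ?_⟩, ⟨Top.isOrd_w1,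
    fun a ha ⟨f, hf⟩ => ?_⟩, Top.o_w1 h0, fun m hm a b => ?_⟩
  · obtain ⟨c, c₁, c₂, rfl⟩ := (Top.E_o h0).1 ha
    rw [Top.isLim_o n c₂]
    exact not_lim c₁
  · obtain ⟨Z, -, hZ⟩ := exists_rel (UDef.app 2 1 0) [f] a T.w1
    replace hZ : ∀ s t, App T.g.E Z s t ↔ T.g.E s a ∧ T.g.E t T.w1 ∧ App T.g.E f t s := hZ
    refine h₃ hD T a Z ha (fun β hβ => ?_) fun k c c' H H' =>
      hf.2 _ _ _ ((hZ _ _).1 H).2.2 ((hZ _ _).1 H').2.2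
    obtain ⟨k, k₁, k₂⟩ := Gen.fun_ex hf.1 (Top.o_w1 hβ)
    exact ⟨β, hβ, le_rfl, k, k₁, (hZ _ _).2 ⟨k₁, Top.o_w1 hβ, k₂⟩⟩
  · obtain ⟨c, c₁, rfl⟩ := Top.E_w1.1 b
    exact hm.2 _ a (h₂ hD T c c₁ _ fun _ h => h)

theorem u_mono' : ∀ᶠ D in Fl, D.Countable → ∀ (T : Top D) S (R : Om → Om → Prop), T.Rep S R →
    (∀ a, ¬ R a a) → (∀ a b c γ, R a b → R b c → U.ag γ (eU a) (eU c) → U.ag γ (eU b) (eU c)) →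
    ¬ ∃ h, IsInc T.g.E h T.w1 T.w1 T.g.E (App T.g.E S) := by
  filter_upwards [ev_n0, capt, modl, u_mono] with D n h₁ h₂ h₃
  rintro hD T S R hS irr btw ⟨h, a₁, a₂⟩
  obtain ⟨ν, b₁, -, b₂⟩ := h₁ hD T h
  obtain ⟨N, δ, c₁, -, c₃⟩ := h₂ hD T ν b₁ _ T.cl.emp
  have k : ∀ x ∈ (T.st ν).vo ν.sA, has T.K x.1 ∧ has T.K x.2 ∧ App T.g.E h (T.o x.1) (T.o x.2) :=
    fun x hx => have := T.cl.has_prod.1 hx.1; ⟨this.1, this.2, (b₂ _ _ this.1 this.2).1 hx⟩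
  have k' : ∀ x ∈ (T.st ν).vo ν.sA, ∀ y ∈ (T.st ν).vo ν.sA, x.1 ≤ y.1 → x.2 = y.2 ∨ R x.2 y.2 :=
    fun x hx y hy e => by
      obtain ⟨d₁, d₂, d₃⟩ := k x hx
      obtain ⟨e₁, e₂, e₃⟩ := k y hy
      rcases e.eq_or_lt with e | e
      · exact Or.inl (Top.o_inj d₂ e₂ (Gen.fun_uniq a₁ d₃ (e ▸ e₃)))
      · exact Or.inr ((hS.iff d₂ e₂).1 (a₂ _ _ _ _ d₃ e₃ ((Top.o_lt d₁ e₁).2 e)))
  have k'' : ∀ ξ ξ' a, (ξ, a) ∈ (T.st ν).vo ν.sA → (ξ', a) ∈ (T.st ν).vo ν.sA → ¬ ξ < ξ' :=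
    fun ξ ξ' a hx hy e => by
      obtain ⟨d₁, d₂, d₃⟩ := k _ hx
      obtain ⟨e₁, -, e₃⟩ := k _ hy
      exact irr a ((hS.iff d₂ d₂).1 (a₂ _ _ _ _ d₃ e₃ ((Top.o_lt d₁ e₁).2 e)))
  refine h₃ _ (b₁.sit n) N δ c₁ _ (c₁.cl.has_tag.1 c₃).2.2.2.2.2.1 (fun ξ hξ => ?_)
    (fun ξ ξ' a x y => le_antisymm (not_lt.1 (k'' _ _ _ y x)) (not_lt.1 (k'' _ _ _ x y)))
    fun x hx y hy z hz e e' γ H => ?_
  · obtain ⟨b, d₁, d₂⟩ := Gen.fun_ex a₁ (Top.o_w1 hξ)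
    obtain ⟨a, d₃, rfl⟩ := Top.E_w1.1 d₁
    exact ⟨a, (b₂ ξ a hξ d₃).2 d₂⟩
  · rcases k' x hx y hy e with f | f
    · rwa [← f]
    rcases k' y hy z hz e' with f' | f'
    · rw [f']; exact U.ag.refl _ _
    · exact btw _ _ _ γ f f' H

theorem aron_u : ∀ᶠ D in Fl, D.Countable → ∀ (T : Top D) S, T.Rep S (fun a b => eU a < eU b) →
    Aron T.g.E (T.o om0) T.w1 T.w1 S := by
  filter_upwards [ev_n0, capt, modl, u_mono', u_real, inj_om, ev_const om0,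
    grd (fun _ a b => eU b < eU a)] with D n h₁ h₂ h₃ h₄ h₅ h₆ h₇ hD T S hS
  have h0 := h₆ _ T.cl
  refine ⟨⟨fun x hx => ?_, fun x y z hx hy hz => ?_, fun x y hx hy => ?_⟩, ?_,
    h₃ hD T S _ hS (fun _ => lt_irrefl _) fun a b c γ e e' H =>
      (U.convex e.le e'.le H).symm.trans H, ?_, ?_⟩
  · obtain ⟨a, ha, rfl⟩ := Top.E_w1.1 hx
    rw [hS.iff ha ha]
    exact lt_irrefl _
  · obtain ⟨a, ha, rfl⟩ := Top.E_w1.1 hx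
    obtain ⟨b, hb, rfl⟩ := Top.E_w1.1 hy
    obtain ⟨c, hc, rfl⟩ := Top.E_w1.1 hz
    rw [hS.iff ha hb, hS.iff hb hc, hS.iff ha hc]
    exact lt_trans
  · obtain ⟨a, ha, rfl⟩ := Top.E_w1.1 hx
    obtain ⟨b, hb, rfl⟩ := Top.E_w1.1 hy
    rw [hS.iff ha hb, hS.iff hb ha]
    exact (lt_trichotomy _ _).imp id (Or.imp (fun e => congrArg T.o (eU.injective e)) id)
  · obtain ⟨j, j₁, j₂⟩ := exists_rel (UDef.eq 0 1) [] T.w1 T.w1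
    replace j₂ : ∀ s t, App T.g.E j s t ↔ T.g.E s T.w1 ∧ T.g.E t T.w1 ∧ s = t := j₂
    exact ⟨j, ⟨⟨j₁, fun a ha => ⟨a, (j₂ _ _).2 ⟨ha, ha, rfl⟩, fun b H => ((j₂ _ _).1 H).2.2.symm⟩⟩,
      fun a a' b H H' => ((j₂ _ _).1 H).2.2.trans ((j₂ _ _).1 H').2.2.symm⟩,
      fun b hb => ⟨b, (j₂ _ _).2 ⟨hb, hb, rfl⟩⟩⟩
  · obtain ⟨S', hS'⟩ := h₇ hD T _ h0
    rintro ⟨h, a₁, a₂⟩
    refine h₃ hD T S' _ hS' (fun _ => lt_irrefl _) (fun a b c γ e e' H =>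
      (U.convex e'.le e.le H.symm).symm) ⟨h, a₁, fun x x' y y' e e' H => ?_⟩
    obtain ⟨a, b, b₁, b₂, b₃, rfl, rfl⟩ := hS.app (a₂ _ _ _ _ e e' H)
    exact (hS'.iff b₂ b₁).2 b₃
  rintro ⟨B, C, h, a₁, a₂, a₃, a₄, a₅⟩
  have hU : UDef.{2} (fun _ E w => E (w 0) (w 2) ∧ (w 1 = w 3 ∨ ∃ x, App E (w 4) (w 0) x ∧
      E (w 1) x)) :=
    (UDef.mem _ _).and ((UDef.eq _ _).or (UDef.ex ((UDef.app _ _ _).and (UDef.mem _ _))))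
  obtain ⟨Z, -, hZ⟩ := exists_rel hU [B, T.o om0, h] T.w1 T.w1
  replace hZ : ∀ s t, App T.g.E Z s t ↔ T.g.E s T.w1 ∧ T.g.E t T.w1 ∧ T.g.E s B ∧
    (t = T.o om0 ∨ ∃ x, App T.g.E h s x ∧ T.g.E t x) := hZ
  obtain ⟨ν, b₁, -, b₂⟩ := h₁ hD T Z
  have k : ∀ a, (a, om0) ∈ (T.st ν).vo ν.sA ↔ has T.K a ∧ T.g.E (T.o a) B := fun a =>
    ⟨fun H => have := (T.cl.has_pair.1 H.1).1; ⟨this, ((hZ _ _).1 ((b₂ _ _ this h0).1 H)).2.2.1⟩,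
      fun H => (b₂ _ _ H.1 h0).2 ((hZ _ _).2 ⟨Top.o_w1 H.1, Top.o_w1 h0, H.2, Or.inl rfl⟩)⟩
  have k' : ∀ a x, has T.K a → App T.g.E h (T.o a) x → ∀ m < om0,
      ((a, m) ∈ (T.st ν).vo ν.sA ↔ T.g.E (T.o m) x) := fun a x ha e m hm => by
    have hm' := (n.bas T.cl).down h0 hm.le
    rw [b₂ a m ha hm', hZ]
    refine ⟨fun H => H.2.2.2.elim (fun H => absurd (Top.o_inj hm' h0 H) hm.ne) fun ⟨x', c₁, c₂⟩ =>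
      Gen.fun_uniq a₄ c₁ e ▸ c₂, fun H => ⟨Top.o_w1 ha, Top.o_w1 hm', (Gen.fun_mem a₄ e).1,
      Or.inr ⟨x, e, H⟩⟩⟩
  refine h₄ _ (b₁.sit n) (fun z hz => (h₂ hD T ν b₁ z hz).imp fun N => Exists.imp fun δ H =>
    ⟨H.1, H.2.1⟩) _ (T.cl.has_tag.1 b₁.hK).2.2.2.2.2.1 (fun β hβ => ?_) fun a b ha hb e => ?_
  · by_contra hc
    refine a₂ (h₅ hD T β hβ B fun x hx => ?_)
    obtain ⟨a, c₁, rfl⟩ := Top.E_w1.1 (a₁ x hx)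
    exact (Top.o_lt c₁ hβ).2 (not_le.1 fun H => hc ⟨a, H, (k a).2 ⟨c₁, hx⟩⟩)
  · obtain ⟨c₁, c₂⟩ := (k a).1 ha
    obtain ⟨d₁, d₂⟩ := (k b).1 hb
    obtain ⟨x, -, x₂⟩ := Gen.fun_ex a₄ c₂
    obtain ⟨y, y₁, y₂⟩ := Gen.fun_ex a₄ d₂
    obtain ⟨m, m₁, m₂, m₃⟩ := a₅ _ _ _ _ x₂ y₂ ((hS.iff c₁ d₁).2 e)
    obtain ⟨m, m₄, m₅, rfl⟩ := (Top.E_o h0).1 (a₃ y y₁ m m₁)
    refine ⟨m, m₄, (k' b y d₁ y₂ m m₄).2 m₁, fun H => m₂ ((k' a x c₁ x₂ m m₄).1 H), fun l hl => ?_⟩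
    rw [k' a x c₁ x₂ l (hl.trans m₄), k' b y d₁ y₂ l (hl.trans m₄)]
    exact m₃ _ ((Top.o_lt ((n.bas T.cl).down m₅ hl.le) m₅).2 hl)

end Pool.Agent.MP_656653_lc
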