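import Pool.Agent.MP_656653_lc.U

/-! Coding of objects by sets, closed sets, and the filter of large closure families. -/

namespace Pool.Agent.MP_656653_lc

open Set Filter

abbrev V := ZFSet.{0}

class Code (α : Type*) where
  enc : α → V
  inj : Function.Injective enc

export Code (enc)

section
variable {α β γ : Type*}

instance : Code V := ⟨id, Function.injective_id⟩

instance [Code α] [Code β] : Code (α × β) :=
  ⟨fun p => ZFSet.pair (enc p.1) (enc p.2), fun a b h => by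
    have := ZFSet.pair_inj.1 h
    exact Prod.ext (Code.inj this.1) (Code.inj this.2)⟩

theorem pair_ne_empty (a b : V) : ZFSet.pair a b ≠ ∅ := by
  intro h
  have : ({a} : V) ∈ ZFSet.pair a b := by simp [ZFSet.pair]
  rw [h] at this
  exact ZFSet.notMem_empty _ this

def encL [Code α] : List α → V
  | [] => ∅
  | a :: l => ZFSet.pair (enc a) (encL l)

theorem encL_inj [Code α] : Function.Injective (encL : List α → V) := by
  intro l
  induction l with
  | nil => intro l' h; cases l' with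
    | nil => rfl
    | cons b l' => exact absurd h.symm (pair_ne_empty _ _)
  | cons a l ih => intro l' h; cases l' with
    | nil => exact absurd h (pair_ne_empty _ _)
    | cons b l' =>
      have := ZFSet.pair_inj.1 h
      rw [Code.inj this.1, ih this.2]

instance [Code α] : Code (List α) := ⟨encL, encL_inj⟩

noncomputable instance [Code α] : Code (Finset α) :=
  ⟨fun s => ZFSet.range (fun x : s => enc x.1), fun s t h => by
    have key : ∀ s t : Finset α, ZFSet.range (fun x : s => enc x.1) =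
        ZFSet.range (fun x : t => enc x.1) → s ⊆ t := by
      intro s t h a ha
      have : enc a ∈ ZFSet.range (fun x : s => enc x.1) := ZFSet.mem_range.2 ⟨⟨a, ha⟩, rfl⟩
      rw [h] at this
      obtain ⟨b, hb⟩ := ZFSet.mem_range.1 this
      exact Code.inj hb ▸ b.2
    exact (key s t h).antisymm (key t s h.symm)⟩

theorem mem_enc_finset [Code α] {s : Finset α} {z : V} : z ∈ enc s ↔ ∃ a ∈ s, enc a = z := by
  simp [enc, ZFSet.mem_range]

@[reducible] def Code.ofInj [Code β] (f : α → β) (h : Function.Injective f) : Code α :=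
  ⟨fun a => enc (f a), Code.inj.comp h⟩

instance : Code ℕ := Code.ofInj (fun n => List.replicate n (∅ : V)) (List.replicate_left_injective _)

instance : Code Bool := Code.ofInj Bool.toNat (by decide)

@[reducible] noncomputable def Code.ofType (α : Type) : Code α :=
  ⟨fun a => Ordinal.toZFSet (Ordinal.typein WellOrderingRel a), fun _ _ h =>
    (Ordinal.typein WellOrderingRel).injective (Ordinal.toZFSet_injective h)⟩

noncomputable instance : Code Om := Code.ofType _
noncomputable instance : Code U := Code.ofType _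

def has [Code α] (K : Set V) (a : α) : Prop := enc a ∈ K

noncomputable def allc (α : Type*) [Code α] [Small.{0} α] : V := ZFSet.range (enc : α → V)

theorem mem_allc [Code α] [Small.{0} α] {z : V} : z ∈ allc α ↔ ∃ a : α, enc a = z :=
  ZFSet.mem_range

theorem enc_mem_allc [Code α] [Small.{0} α] (a : α) : enc a ∈ allc α := mem_allc.2 ⟨a, rfl⟩

open Classical in
noncomputable def eps (x : V) : V := if h : ∃ y, y ∈ x then h.choose else ∅

theorem eps_mem {x y : V} (h : y ∈ x) : eps x ∈ x := by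
  unfold eps
  rw [dif_pos ⟨y, h⟩]
  exact Exists.choose_spec (⟨y, h⟩ : ∃ y, y ∈ x)

abbrev Dp := V × (V → V → Prop)

structure Cl (D : Set Dp) (K : Set V) : Prop where
  emp : ∅ ∈ K
  ins : ∀ {a x : V}, a ∈ K → x ∈ K → insert a x ∈ K
  uni : ∀ {x : V}, x ∈ K → x.sUnion ∈ K
  int : ∀ {x y : V}, x ∈ K → y ∈ K → x ∩ y ∈ K
  prod : ∀ {x y : V}, x ∈ K → y ∈ K → x.prod y ∈ K
  const : ∀ d ∈ D, d.1 ∈ K
  sep : ∀ d ∈ D, ∀ {a x : V}, a ∈ K → x ∈ K → x.sep (d.2 a) ∈ K
  eps : ∀ {x : V}, x ∈ K → eps x ∈ K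
  cnt : ∀ {x : V}, x ∈ K → (x : Set V).Countable → ∀ {y}, y ∈ x → y ∈ K

namespace Cl

variable {D D' : Set Dp} {K K' : Set V}

theorem mono (h : Cl D K) (h' : D' ⊆ D) : Cl D' K :=
  ⟨h.emp, h.ins, h.uni, h.int, h.prod, fun d hd => h.const d (h' hd),
    fun d hd => h.sep d (h' hd), h.eps, h.cnt⟩

theorem inter (h : Cl D K) (h' : Cl D K') : Cl D (K ∩ K') :=
  ⟨⟨h.emp, h'.emp⟩, fun a x => ⟨h.ins a.1 x.1, h'.ins a.2 x.2⟩, fun x => ⟨h.uni x.1, h'.uni x.2⟩,
    fun a x => ⟨h.int a.1 x.1, h'.int a.2 x.2⟩, fun a x => ⟨h.prod a.1 x.1, h'.prod a.2 x.2⟩,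
    fun d hd => ⟨h.const d hd, h'.const d hd⟩,
    fun d hd _ _ a x => ⟨h.sep d hd a.1 x.1, h'.sep d hd a.2 x.2⟩,
    fun x => ⟨h.eps x.1, h'.eps x.2⟩, fun x c _ y => ⟨h.cnt x.1 c y, h'.cnt x.2 c y⟩⟩

variable (h : Cl D K)
include h

theorem sing {a : V} (ha : a ∈ K) : ({a} : V) ∈ K := by
  have := h.ins ha h.emp
  rwa [LawfulSingleton.insert_empty_eq] at this

theorem pair_iff {a b : V} : ZFSet.pair a b ∈ K ↔ a ∈ K ∧ b ∈ K := by
  constructor
  · intro H
    have h₁ : ({a, b} : V) ∈ K := h.cnt H (by simp [ZFSet.pair]) (by simp [ZFSet.pair])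
    exact ⟨h.cnt h₁ (by simp) (by simp), h.cnt h₁ (by simp) (by simp)⟩
  · rintro ⟨ha, hb⟩
    exact h.ins (h.sing ha) (h.sing (h.ins ha (h.sing hb)))

theorem union {a b : V} (ha : a ∈ K) (hb : b ∈ K) : a ∪ b ∈ K := h.uni (h.ins ha (h.sing hb))

theorem has_pair [Code α] [Code β] {a : α} {b : β} : has K (a, b) ↔ has K a ∧ has K b :=
  h.pair_iff

theorem has_prod [Code α] [Code β] {a : α × β} : has K a ↔ has K a.1 ∧ has K a.2 :=
  h.pair_iff

theorem has_list [Code α] {l : List α} : has K l ↔ ∀ a ∈ l, has K a := by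
  induction l with
  | nil => exact iff_of_true h.emp (by simp)
  | cons a l ih =>
    rw [List.forall_mem_cons, ← ih]
    exact h.pair_iff

theorem has_finset [Code α] {s : Finset α} : has K s ↔ ∀ a ∈ s, has K a := by
  classical
  constructor
  · intro H a ha
    refine h.cnt H ?_ (mem_enc_finset.2 ⟨a, ha, rfl⟩)
    refine (s.countable_toSet.image enc).mono fun z hz => ?_
    exact mem_enc_finset.1 hz
  · induction s using Finset.induction_on with
    | empty =>
      intro _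
      have : enc (∅ : Finset α) = ∅ := by ext z; simp [mem_enc_finset]
      exact (show enc (∅ : Finset α) ∈ K from this ▸ h.emp)
    | insert a s _ ih =>
      intro H
      have : enc (insert a s) = insert (enc a) (enc s) := by
        ext z; simp [mem_enc_finset, eq_comm]
      unfold has
      rw [this]
      exact h.ins (H a (Finset.mem_insert_self _ _))
        (ih fun b hb => H b (Finset.mem_insert_of_mem hb))

theorem has_nat (n : ℕ) : has K n :=
  (h.has_list (l := List.replicate n (∅ : V))).2 fun a ha => by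
    rw [List.eq_of_mem_replicate ha]; exact h.emp

theorem has_bool (b : Bool) : has K b := h.has_nat _

theorem wit {x y : V} (hx : x ∈ K) (hy : y ∈ x) : ∃ z ∈ x, z ∈ K := ⟨_, eps_mem hy, h.eps hx⟩

end Cl

/-- Types all of whose elements lie in every closed set. -/
class Alw (α : Type*) [Code α] : Prop where
  out : ∀ {D K}, Cl D K → ∀ a : α, has K a

instance : Alw ℕ := ⟨fun h => h.has_nat⟩
instance : Alw Bool := ⟨fun h => h.has_bool⟩
instance [Code α] [Alw α] : Alw (List α) := ⟨fun h _ => h.has_list.2 fun a _ => Alw.out h a⟩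
instance [Code α] [Alw α] [Code β] [Alw β] : Alw (α × β) :=
  ⟨fun h _ => h.has_prod.2 ⟨Alw.out h _, Alw.out h _⟩⟩

theorem Cl.alw [Code α] [Alw α] {D K} (h : Cl D K) (a : α) : has K a := Alw.out h a

def Fl : Filter (Set Dp) where
  sets := {S | ∃ D₀ : Set Dp, D₀.Countable ∧ ∀ D, D₀ ⊆ D → D ∈ S}
  univ_sets := ⟨∅, countable_empty, fun _ _ => trivial⟩
  sets_of_superset := fun ⟨D₀, h₁, h₂⟩ h => ⟨D₀, h₁, fun D hD => h (h₂ D hD)⟩
  inter_sets := fun ⟨D₀, h₁, h₂⟩ ⟨D₁, h₃, h₄⟩ => ⟨D₀ ∪ D₁, h₁.union h₃, fun D hD =>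
    ⟨h₂ D (subset_union_left.trans hD), h₄ D (subset_union_right.trans hD)⟩⟩

theorem Fl.ex {p : Set Dp → Prop} (h : ∀ᶠ D in Fl, p D) : ∃ D, D.Countable ∧ p D := by
  obtain ⟨D, h₁, h₂⟩ := h
  exact ⟨D, h₁, h₂ D subset_rfl⟩

theorem ev_sup {D₀ : Set Dp} (h : D₀.Countable) : ∀ᶠ D in Fl, D₀ ⊆ D := ⟨D₀, h, fun _ h => h⟩

theorem ev_const [Code α] (c : α) : ∀ᶠ D in Fl, ∀ K, Cl D K → has K c := by
  filter_upwards [ev_sup (countable_singleton (enc c, fun _ _ => True))] with D hD K h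
  exact h.const _ (hD rfl)

theorem ev_sep [Code α] (φ : α → V → Prop) :
    ∀ᶠ D in Fl, ∀ K, Cl D K → ∀ a, has K a → ∀ x ∈ K, x.sep (φ a) ∈ K := by
  filter_upwards [ev_sup (countable_singleton
    ((∅ : V), fun (a y : V) => ∃ a', enc a' = a ∧ φ a' y))] with D hD K h a ha x hx
  have := h.sep _ (hD rfl) ha hx
  convert this using 2
  ext y
  exact ⟨fun H => ⟨a, rfl, H⟩, fun ⟨a', e, H⟩ => Code.inj e ▸ H⟩

theorem ev_set [Code α] [Code β] (R : α → β → Prop) : ∀ᶠ D in Fl, ∀ K, Cl D K → ∀ a, has K a →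
    ∀ B ∈ K, ∃ S ∈ K, S ⊆ B ∧ (∀ z ∈ S, ∃ y : β, enc y = z) ∧
      ∀ y, enc y ∈ S ↔ enc y ∈ B ∧ R a y := by
  filter_upwards [ev_sep (fun a z => ∃ y, enc y = z ∧ R a y)] with D hD K h a ha B hB
  refine ⟨_, hD K h a ha B hB, ZFSet.sep_subset, fun z hz => ?_, fun y => ?_⟩
  · obtain ⟨y, e, -⟩ := (ZFSet.mem_sep.1 hz).2
    exact ⟨y, e⟩
  · rw [ZFSet.mem_sep]
    exact and_congr_right fun _ => ⟨fun ⟨y', e, H⟩ => Code.inj e ▸ H, fun H => ⟨y, rfl, H⟩⟩

theorem ev_wit [Code α] [Code β] (R : α → β → Prop) : ∀ᶠ D in Fl, ∀ K, Cl D K → ∀ a, has K a →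
    ∀ B ∈ K, (∃ y, enc y ∈ B ∧ R a y) → ∃ y, has K y ∧ enc y ∈ B ∧ R a y := by
  filter_upwards [ev_set R] with D hD K h a ha B hB ⟨y, hy⟩
  obtain ⟨S, h₁, -, h₃, h₄⟩ := hD K h a ha B hB
  obtain ⟨z, hz, hzK⟩ := h.wit h₁ ((h₄ y).2 hy)
  obtain ⟨y, rfl⟩ := h₃ z hz
  exact ⟨y, hzK, (h₄ y).1 hz⟩

theorem ev_wit_small [Code α] [Code β] [Small.{0} β] (R : α → β → Prop) :
    ∀ᶠ D in Fl, ∀ K, Cl D K → ∀ a, has K a → (∃ y, R a y) → ∃ y, has K y ∧ R a y := by
  filter_upwards [ev_wit R, ev_const (allc β)] with D hD hc K h a ha ⟨y, hy⟩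
  obtain ⟨y, h₁, -, h₂⟩ := hD K h a ha _ (hc K h) ⟨y, enc_mem_allc y, hy⟩
  exact ⟨y, h₁, h₂⟩

theorem ev_cnt [Code α] [Code β] [Small.{0} β] (R : α → β → Prop) :
    ∀ᶠ D in Fl, ∀ K, Cl D K → ∀ a, has K a → {y | R a y}.Countable → ∀ y, R a y → has K y := by
  filter_upwards [ev_set R, ev_const (allc β)] with D hD hc K h a ha hcnt y hy
  obtain ⟨S, h₁, -, h₃, h₄⟩ := hD K h a ha _ (hc K h)
  refine h.cnt h₁ ((hcnt.image enc).mono fun z hz => ?_) ((h₄ y).2 ⟨enc_mem_allc y, hy⟩)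
  obtain ⟨y, rfl⟩ := h₃ z hz
  exact ⟨y, ((h₄ y).1 hz).2, rfl⟩

/-- Functions under which closed sets are eventually closed. -/
class Cf [Code α] [Code β] (f : α → β) : Prop where
  out : ∀ᶠ D in Fl, ∀ K, Cl D K → ∀ a, has K a → has K (f a)

variable [Code α] [Code β] [Code γ]

instance : Cf (fun a : α => a) := ⟨Eventually.of_forall fun _ _ _ _ h => h⟩

instance (c : β) : Cf (fun _ : α => c) :=
  ⟨by filter_upwards [ev_const c] with D hD K h _ _ using hD K h⟩

instance (f : α → β × γ) [h : Cf f] : Cf (fun a => (f a).1) :=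
  ⟨by filter_upwards [h.out] with D hD K h a ha using (h.has_prod.1 (hD K h a ha)).1⟩

instance (f : α → β × γ) [h : Cf f] : Cf (fun a => (f a).2) :=
  ⟨by filter_upwards [h.out] with D hD K h a ha using (h.has_prod.1 (hD K h a ha)).2⟩

instance (f : α → β) (g : α → γ) [h : Cf f] [h' : Cf g] : Cf (fun a => (f a, g a)) :=
  ⟨by filter_upwards [h.out, h'.out] with D hD hD' K h a ha using
    h.has_pair.2 ⟨hD K h a ha, hD' K h a ha⟩⟩

instance (priority := high) Cf.small [Small.{0} β] (f : α → β) : Cf f := ⟨by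
  filter_upwards [ev_wit_small (fun a y => f a = y)] with D hD K h a ha
  obtain ⟨y, h₁, rfl⟩ := hD K h a ha ⟨_, rfl⟩
  exact h₁⟩

theorem Cf.comp (g : β → γ) (f : α → β) [h : Cf f] [h' : Cf g] : Cf (fun a => g (f a)) :=
  ⟨by filter_upwards [h.out, h'.out] with D hD hD' K h a ha using hD' K h _ (hD K h a ha)⟩

theorem ev_cf (f : α → β) [h : Cf f] : ∀ᶠ D in Fl, ∀ K, Cl D K → ∀ a, has K a → has K (f a) :=
  h.out

end

/-! ### Hulls -/

theorem exists_closed {α : Type*} {ι : Type*} [Countable ι] (F : ι → α → α → α) (C : Set α)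
    (hC : C.Countable) : ∃ K, C ⊆ K ∧ K.Countable ∧ ∀ i, ∀ a ∈ K, ∀ b ∈ K, F i a b ∈ K := by
  let S : ℕ → Set α := fun n => Nat.rec C (fun _ s => s ∪ ⋃ i, image2 (F i) s s) n
  have hS : Monotone S := monotone_nat_of_le_succ fun n => subset_union_left
  refine ⟨⋃ n, S n, subset_iUnion S 0, countable_iUnion fun n => ?_, fun i a ha b hb => ?_⟩
  · induction n with
    | zero => exact hC
    | succ n ih => exact ih.union (countable_iUnion fun i => ih.image2 ih _)
  · obtain ⟨n, hn⟩ := mem_iUnion.1 ha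
    obtain ⟨m, hm⟩ := mem_iUnion.1 hb
    exact mem_iUnion.2 ⟨max n m + 1, Or.inr (mem_iUnion.2 ⟨i,
      mem_image2_of_mem (hS (le_max_left _ _) hn) (hS (le_max_right _ _) hm)⟩)⟩

open Classical in
noncomputable def nth (n : ℕ) (x : V) : V :=
  if h : ∃ f : ℕ → V, (x : Set V) = range f then h.choose n else ∅

/-- The closure operations. -/
noncomputable def cop (D : Set Dp) : Fin 6 ⊕ ℕ ⊕ D ⊕ D → V → V → V
  | .inl 0 => fun _ _ => ∅
  | .inl 1 => fun a x => insert a x
  | .inl 2 => fun _ x => x.sUnion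
  | .inl 3 => fun a x => a ∩ x
  | .inl 4 => fun a x => a.prod x
  | .inl 5 => fun _ x => eps x
  | .inr (.inl n) => fun _ x => nth n x
  | .inr (.inr (.inl d)) => fun _ _ => d.1.1
  | .inr (.inr (.inr d)) => fun a x => x.sep (d.1.2 a)

theorem cl_of_cop {D : Set Dp} {K : Set V} (h0 : ∅ ∈ K)
    (h : ∀ i, ∀ a ∈ K, ∀ b ∈ K, cop D i a b ∈ K) : Cl D K := by
  refine ⟨h0, fun a x => h (.inl 1) _ a _ x, fun x => h (.inl 2) _ x _ x,
    fun a x => h (.inl 3) _ a _ x, fun a x => h (.inl 4) _ a _ x,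
    fun d hd => h (.inr (.inr (.inl ⟨d, hd⟩))) _ h0 _ h0,
    fun d hd _ _ a x => h (.inr (.inr (.inr ⟨d, hd⟩))) _ a _ x,
    fun x => h (.inl 5) _ x _ x, fun {x} hx hc y hy => ?_⟩
  have h' : ∃ f : ℕ → V, (x : Set V) = range f := hc.exists_eq_range ⟨y, hy⟩
  obtain ⟨n, hn⟩ : y ∈ range h'.choose := h'.choose_spec ▸ hy
  have := h (.inr (.inl n)) _ hx _ hx
  simp only [cop, nth, dif_pos h'] at this
  exact hn ▸ this

theorem Cl.cop {D : Set Dp} {K : Set V} (h : Cl D K) : ∀ i, ∀ a ∈ K, ∀ b ∈ K, cop D i a b ∈ K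
  | .inl 0, _, _, _, _ => h.emp
  | .inl 1, _, a, _, x => h.ins a x
  | .inl 2, _, _, _, x => h.uni x
  | .inl 3, _, a, _, x => h.int a x
  | .inl 4, _, a, _, x => h.prod a x
  | .inl 5, _, _, _, x => h.eps x
  | .inr (.inl n), _, _, x, hx => by
    simp only [Pool.Agent.MP_656653_lc.cop, nth]
    split_ifs with h'
    · have e := h'.choose_spec
      refine h.cnt hx (e ▸ countable_range _) ?_
      change _ ∈ (x : Set V)
      conv_lhs => rw [e]
      exact mem_range_self _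
    · exact h.emp
  | .inr (.inr (.inl d)), _, _, _, _ => h.const _ d.2
  | .inr (.inr (.inr d)), _, a, _, x => h.sep _ d.2 a x

theorem exists_zf {S : Set V} (h : Small.{0} S) : ∃ x : V, (x : Set V) = S :=
  ⟨ZFSet.range (fun y : S => y.1), by ext z; simp⟩

theorem exists_hull {D : Set Dp} (hD : D.Countable) :
    ∃ N : V, (N : Set V).Countable ∧ Cl D N := by
  have := hD.to_subtype
  obtain ⟨K, h₁, h₂, h₃⟩ := exists_closed (cop D) {∅} (countable_singleton _)
  have := h₂.to_subtype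
  obtain ⟨N, rfl⟩ := exists_zf (S := K) inferInstance
  exact ⟨N, h₂, cl_of_cop (h₁ rfl) h₃⟩

/-! ### Heights of models -/

open Classical in
noncomputable def dl (N : Set V) : Om :=
  if h : ∃ a : Om, ¬ has N a then (wellFounded_lt (α := Om)).min {a | ¬ has N a} h else ⊥

theorem exists_not_has {N : Set V} (h : N.Countable) : ∃ a : Om, ¬ has N a := by
  by_contra hc
  push Not at hc
  exact Om_unc ((h.preimage_of_injOn (f := (enc : Om → V)) Code.inj.injOn).mono fun a _ => hc a)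

theorem dl_congr {N N' : Set V} (h : ∀ a : Om, has N a ↔ has N' a) : dl N = dl N' := by
  have e : (fun a : Om => has N a) = fun a => has N' a := funext fun a => propext (h a)
  let f : (Om → Prop) → Om := fun p => by
    classical exact if h : ∃ a : Om, ¬ p a then (wellFounded_lt (α := Om)).min {a | ¬ p a} h else ⊥
  exact congrArg f e

/-- The basic facts on ordinals and points of the target line in a closed set. -/
structure Bas (K : Set V) : Prop where
  down : ∀ {a b : Om}, has K a → b ≤ a → has K b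
  up : ∀ {a : Om}, has K a → ∃ b, has K b ∧ a < b
  bot : has K (⊥ : Om)
  ht : ∀ {t : U}, has K t ↔ has K t.ht
  hdl : ∀ {N : V}, N ∈ K → has K (dl N)

theorem ev_bas : ∀ᶠ D in Fl, ∀ K, Cl D K → Bas K := by
  filter_upwards [ev_cnt (fun a b : Om => b ≤ a), ev_wit_small (fun a b : Om => a < b),
    ev_const (⊥ : Om), ev_cf U.ht, ev_cnt (fun (a : Om) (t : U) => t.ht ≤ a),
    ev_cf (fun N : V => dl N)] with D h₁ h₂ h₃ h₄ h₅ h₆ K h
  exact ⟨fun ha hb => h₁ K h _ ha (cnt_Iic _) _ hb, fun ha => h₂ K h _ ha (exists_gt _), h₃ K h,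
    ⟨h₄ K h _, fun ht => h₅ K h _ ht (U.cnt_ht _) _ le_rfl⟩, fun hN => h₆ K h _ hN⟩

theorem Bas.has_iff {N : Set V} (h : Bas N) (hc : N.Countable) {a : Om} : has N a ↔ a < dl N := by
  have hn := exists_not_has hc
  unfold dl
  rw [dif_pos hn]
  constructor
  · intro ha
    by_contra h'
    exact (wellFounded_lt (α := Om)).min_mem {a | ¬ has N a} hn (h.down ha (not_lt.1 h'))
  · intro ha
    by_contra h'
    exact (wellFounded_lt (α := Om)).not_lt_min {a | ¬ has N a} h' ha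

end Pool.Agent.MP_656653_lc
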