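import Pool.Agent.MP_656653_lc.StepQ3

/-! The forcing for the embedding: density arguments for continuity. -/

set_option synthInstance.maxSize 1000000

namespace Pool.Agent.MP_656653_lc

open Set Filter

theorem exists_rmax {r : Om → Om → Prop} (irr : ∀ a, ¬ r a a)
    (tr : ∀ a b c, r a b → r b c → r a c) {S : Set Om} (hS : S.Finite) (c : Om) :
    ∃ b ∈ insert c S, ∀ x ∈ insert c S, ¬ r b x := by
  induction S, hS using Set.Finite.induction_on with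
  | empty => exact ⟨c, Or.inl rfl, by simpa using irr c⟩
  | @insert a S _ _ ih =>
    obtain ⟨b, h₁, h₂⟩ := ih
    by_cases h : r b a
    · refine ⟨a, Or.inr (Or.inl rfl), ?_⟩
      rintro x (rfl | rfl | hx)
      exacts [fun H => h₂ x (Or.inl rfl) (tr _ _ _ h H), irr _,
        fun H => h₂ x (Or.inr hx) (tr _ _ _ h H)]
    · refine ⟨b, h₁.imp id Or.inr, ?_⟩
      rintro x (rfl | rfl | hx)
      exacts [h₂ x (Or.inl rfl), h, h₂ x (Or.inr hx)]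

theorem dens2_coreL : ∀ᶠ D in Fl, ∀ s σ f T, Ctx D s σ f T → ∀ a t u a' δ, (a, t) ∈ f → u < t →
    has s.K u → has s.K a' → δ ∈ lvl T → s.r σ a' a → (∀ q ∈ f, s.r σ q.1 a → s.r σ q.1 a') → δ ≤ a' →
    (∀ γ ∈ lvl T, δ < γ → a' < γ ∧ ¬ U.ag γ t u) → agA (s.r σ) δ a' a → ¬ s.LoA σ δ a' →
    ∃ w, has s.K w ∧ u < w ∧ s.Val2 σ (insert (a', w) f) T := by
  filter_upwards [fill] with D h₁ s σ f T h a t u a' δ hp hu huK ha hδ h₂ h₃ h₄ h₅ h₆ h₇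
  have hs := h.sit
  have hv := h.val
  have hK := hs.cl.has_pair.1 (h.fK _ hp)
  have hI := inv_occ hs hv h.fK hδ h₄ hp h₆
  have hd : ∀ q ∈ f, q.1 ≠ a' := fun q hq e => r_irr _ (e ▸ h₃ q hq (e ▸ h₂) :)
  have h₈ : ¬ s.HiA σ δ a' := fun H => H a hK.1 h₆ h₂
  obtain ⟨lo, hi, b₁, b₂, b₃, b₄, b₅, b₆⟩ := gap hv h.ff ha hδ hI fun H =>
    ((hv.lev hδ).2.2 _ hp).1.2 H.1 a' ha h₆.symm h₂
  have b₇ : hi ≤ t := (b₄ _ hp h₆).2 h₂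
  have b₈ : ∀ γ ∈ lvl T, δ < γ → ¬ U.ag γ lo hi := fun γ i₁ i₂ => gap_split hv i₁ i₂
    (fun q hq H => hd q hq (H.alone (h₅ γ i₁ i₂).1).symm) b₃ b₅ (b₆.imp And.left id)
  have b₉ : ∀ q ∈ f, s.r σ a' q.1 → t ≤ q.2 := fun q hq H => not_lt.1 fun H' =>
    r_asymm H (h₃ q hq ((hv.2.1 q hq _ hp).2 H'))
  obtain ⟨w, w₁, w₂, -, w₃⟩ := h₁ s σ f T h a' δ t ha hδ h₄ (fun γ i j => (h₅ γ i j).1) hd hI h₇ h₈
    (max lo u) t (by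
      rcases max_choice lo u with e | e <;> rw [e]
      · rcases b₅ with H | ⟨q, hq, rfl, -⟩
        exacts [hs.bas.ht.2 (hs.bas.down (hs.bas.down ha h₄) H), (hs.cl.has_prod.1 (h.fK q hq)).2]
      · exact huK)
    (b₁.trans (U.convex (le_max_left _ _) (max_lt (b₃.trans_le b₇) hu).le b₁.symm))
    (U.ag.refl _ _) (max_lt (b₃.trans_le b₇) hu)
    (fun q hq H => ⟨fun H' => ((b₄ q hq H).1 H').trans (le_max_left _ _), b₉ q hq⟩)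
    fun γ i j H => by
      rcases max_choice lo u with e | e <;> rw [e] at H
      exacts [b₈ γ i j (U.convex b₃.le b₇ H), (h₅ γ i j).2 H.symm]
  exact ⟨w, w₁, (le_max_right _ _).trans_lt w₂, w₃⟩

theorem dens2L : ∀ᶠ D in Fl, ∀ s σ f T, Ctx D s σ f T → ∀ a t u, (a, t) ∈ f → u < t →
    has s.K u → (∃ c, has s.K c ∧ s.r σ c a) → ∃ a', has s.K a' ∧ s.r σ a' a ∧
      ((∀ c, has s.K c → ¬ (s.r σ a' c ∧ s.r σ c a)) ∨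
        ∃ w, has s.K w ∧ u < w ∧ s.Val2 σ (insert (a', w) f) T) := by
  filter_upwards [dens2_coreL, lemE, elemS (fun s (x : V × Om × Om) (c : Om) =>
    s.r x.1 x.2.1 c ∧ s.r x.1 c x.2.2)] with D h₁ h₂ h₃ s σ f T h a t u hp hu huK ⟨c₀, hc₀, hc₁⟩
  have hs := h.sit
  have hv := h.val
  have hK := hs.cl.has_pair.1 (h.fK _ hp)
  by_cases H : ∃ a', has s.K a' ∧ s.r σ a' a ∧ ∀ c, has s.K c → ¬ (s.r σ a' c ∧ s.r σ c a)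
  · obtain ⟨a', a₁, a₂, a₃⟩ := H
    exact ⟨a', a₁, a₂, Or.inl a₃⟩
  push Not at H
  obtain ⟨δ, ⟨hδ, hδa⟩, hmax⟩ := exists_max_image {δ ∈ lvl T | δ ≤ a} id
    (h.lf.subset (sep_subset _ _)) ⟨⊥, Or.inl rfl, bot_le⟩
  have htop : ∀ γ ∈ lvl T, δ < γ → a < γ := fun γ i₁ i₂ =>
    not_le.1 fun i₃ => i₂.not_ge (hmax γ ⟨i₁, i₃⟩)
  by_cases hLo : s.LoA σ δ a
  · have hδ0 : ⊥ < δ := bot_lt_iff_ne_bot.2 fun e => hLo c₀ hc₀ (e ▸ agA_bot _ _) hc₁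
    obtain ⟨τ, -, rfl, N, hN⟩ := h.md' hδ hδ0
    obtain ⟨μ, ⟨hμ, hμ'⟩, hmax'⟩ := exists_max_image {γ ∈ lvl T | γ < τ.1} id
      (h.lf.subset (sep_subset _ _)) ⟨⊥, Or.inl rfl, hδ0⟩
    obtain ⟨β, b₁, b₂⟩ := hN.sub.lim.ev h.ff
      (Q := fun q β => s.r σ q.1 a → ¬ agA (s.r σ) β a q.1)
      (fun _ _ _ i H H' H'' => H H' (H''.mono i)) fun q hq => by
        by_contra hc
        push Not at hc
        exact hLo _ (hs.cl.has_prod.1 (h.fK q hq)).1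
          (agA_lim hN.sub.lim fun γ hγ => (hc γ hγ).2) (hc ⊥ hδ0).1
    obtain ⟨c, c₁, c₂, c₃⟩ := (h₂ s hs N _ hN.sub σ hN.sg h.nice a hK.1 hδa _ (max_lt b₁ hμ')).1
    obtain ⟨β', d₁, d₂⟩ := hN.sub.lim.2 _ (max_lt c₁ (max_lt b₁ hμ'))
    simp only [max_lt_iff] at d₁
    obtain ⟨a', e₁, e₂, e₃⟩ := (h₂ s hs N _ hN.sub σ hN.sg h.nice a hK.1 hδa _ d₂).1
    have ha' := hs.has_le hN.sub e₁.le
    refine ⟨a', ha', e₃, Or.inr (h₁ s σ f T h a t u a' μ hp hu huK ha' hμ e₃ (fun q hq i => ?_)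
      (d₁.2.2.le.trans (e₂.le (d₂.le.trans hδa))) (fun γ i₁ i₂ => ?_) (e₂.mono d₁.2.2.le).symm
      fun i => i c (hs.has_le hN.sub c₁.le)
        ((e₂.mono d₁.2.2.le).symm.trans (c₂.mono (le_max_right _ _))) ?_)⟩
    · exact r_of_ag i (fun j => (b₂ q hq i) j.symm) (agA.refl _ _) (e₂.mono d₁.2.1.le)
    · have i₃ : τ.1 ≤ γ := not_lt.1 fun i₃ => i₂.not_ge (hmax' γ ⟨i₁, i₃⟩)
      exact ⟨e₁.trans_le i₃, fun i₄ => ((hv.lev hδ).2.2 _ hp).1.1 hLo u (i₄.mono i₃) hu⟩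
    · exact r_of_ag c₃ (fun j => (fun i : agA (s.r σ) β' a c => r_irr (r := s.r σ) c (by have := c₃; rwa [← i.symm.alone d₁.1] at this)) j.symm) (agA.refl _ _) (e₂)
  · unfold St.LoA at hLo
    push Not at hLo
    obtain ⟨c, c₁, c₂, c₃⟩ := hLo
    obtain ⟨b, b₁, b₂, b₃, b₄⟩ : ∃ b, has s.K b ∧ s.r σ b a ∧ ¬ s.r σ b c ∧
        ∀ q ∈ f, s.r σ q.1 a → ¬ s.r σ b q.1 := by
      obtain ⟨b, i₁, i₂⟩ := exists_rmax (r := fun x y => s.r σ x y) (fun _ => r_irr _)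
        (fun _ _ _ i i' => r_trans i i') ((h.ff.image Prod.fst).inter_of_left {x | s.r σ x a}) c
      refine ⟨b, ?_, ?_, i₂ c (Or.inl rfl), fun q hq i => i₂ _ (Or.inr ⟨⟨q, hq, rfl⟩, i⟩)⟩
      · rcases i₁ with rfl | ⟨⟨q, hq, rfl⟩, -⟩
        exacts [c₁, (hs.cl.has_prod.1 (h.fK q hq)).1]
      · rcases i₁ with rfl | i₁
        exacts [c₃, i₁.2]
    obtain ⟨a', e₁, e₂, e₃, e₄⟩ : ∃ a', has s.K a' ∧ s.r σ b a' ∧ s.r σ a' a ∧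
        ∀ γ ∈ lvl T, δ < γ → a' < γ := by
      obtain ⟨a', e₁, e₂, e₃⟩ := H b b₁ b₂
      refine exists_next (S := lvl T) δ (fun i => ⟨a', e₁, e₂, e₃,
        fun γ i₁ i₂ => absurd i₂ (i γ i₁).not_gt⟩) fun ε i₁ i₂ i₃ => ?_
      obtain ⟨τ, -, rfl, N, hN⟩ := h.md' i₁ i₂
      rcases lt_or_ge b τ.1 with i₄ | i₄
      · obtain ⟨a', j₁, j₂, j₃⟩ := h₃ s hs N _ hN.sub (σ, b, a) (by
          simp only [hN.sub.cl.has_pair, hN.sub.iff]; exact ⟨hN.sg, i₄, htop _ i₁ i₂⟩) a' e₁ ⟨e₂, e₃⟩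
        exact ⟨a', hN.sub.sub j₁, j₂, j₃, fun γ k₁ k₂ => (hN.sub.iff.1 j₁).trans_le (i₃ γ k₁ k₂)⟩
      · obtain ⟨β, j₁, j₂⟩ := hN.sub.lim.2 _ (htop _ i₁ i₂)
        obtain ⟨a', j₃, j₄, j₅⟩ := (h₂ s hs N _ hN.sub σ hN.sg h.nice b b₁ i₄ β j₂).2
        exact ⟨a', hs.has_le hN.sub j₃.le, j₅,
          r_of_ag b₂ (fun j => (fun i : agA (s.r σ) β a b => r_irr (r := s.r σ) a (by have := b₂; rwa [← i.alone j₁] at this)) j.symm) (j₄) (agA.refl _ _),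
          fun γ k₁ k₂ => j₃.trans_le (i₃ γ k₁ k₂)⟩
    have k : ∀ x, ¬ s.r σ b x → s.r σ x a' := fun x i => by
      rcases r_tri (r := s.r σ) b x with j | rfl | j
      exacts [absurd j i, e₂, r_trans j e₂]
    have e₅ : agA (s.r σ) δ a' a := (c₂.symm.convex (k c b₃) e₃).symm.trans c₂.symm
    exact ⟨a', e₁, e₃, Or.inr (h₁ s σ f T h a t u a' δ hp hu huK e₁ hδ e₃
      (fun q hq i => k _ (b₄ q hq i)) (e₅.symm.le hδa) (fun γ i₁ i₂ => ⟨e₄ γ i₁ i₂, fun i =>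
        hu.ne' (U.alone i (((hv.lev i₁).1 _ hp).1 (htop γ i₁ i₂)))⟩) e₅
      fun i => i c c₁ (e₅.trans c₂) (k c b₃))⟩

theorem dens2_coreR : ∀ᶠ D in Fl, ∀ s σ f T, Ctx D s σ f T → ∀ a t u a' δ, (a, t) ∈ f → t < u →
    has s.K u → has s.K a' → δ ∈ lvl T → s.r σ a a' → (∀ q ∈ f, s.r σ a q.1 → s.r σ a' q.1) → δ ≤ a' →
    (∀ γ ∈ lvl T, δ < γ → a' < γ ∧ ¬ U.ag γ t u) → agA (s.r σ) δ a' a → ¬ s.HiA σ δ a' →
    ∃ w, has s.K w ∧ w < u ∧ s.Val2 σ (insert (a', w) f) T := by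
  filter_upwards [fill] with D h₁ s σ f T h a t u a' δ hp hu huK ha hδ h₂ h₃ h₄ h₅ h₆ h₇
  have hs := h.sit
  have hv := h.val
  have hK := hs.cl.has_pair.1 (h.fK _ hp)
  have hI := inv_occ hs hv h.fK hδ h₄ hp h₆
  have hd : ∀ q ∈ f, q.1 ≠ a' := fun q hq e => r_irr _ (e ▸ h₃ q hq (e ▸ h₂) :)
  have h₈ : ¬ s.LoA σ δ a' := fun H => H a hK.1 h₆ h₂
  obtain ⟨lo, hi, b₁, b₂, b₃, b₄, b₅, b₆⟩ := gap hv h.ff ha hδ hI fun H =>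
    ((hv.lev hδ).2.2 _ hp).2.2 H.2 a' ha h₆.symm h₂
  have b₇ : t ≤ lo := (b₄ _ hp h₆).1 h₂
  have b₈ : ∀ γ ∈ lvl T, δ < γ → ¬ U.ag γ lo hi := fun γ i₁ i₂ => gap_split hv i₁ i₂
    (fun q hq H => hd q hq (H.alone (h₅ γ i₁ i₂).1).symm) b₃ b₅ (b₆.imp And.left id)
  have b₉ : ∀ q ∈ f, s.r σ q.1 a' → q.2 ≤ t := fun q hq H => not_lt.1 fun H' =>
    r_asymm H (h₃ q hq ((hv.2.1 _ hp q hq).2 H'))
  obtain ⟨w, w₁, -, w₂, w₃⟩ := h₁ s σ f T h a' δ t ha hδ h₄ (fun γ i j => (h₅ γ i j).1) hd hI h₈ h₇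
    t (min hi u) hK.2 (U.ag.refl _ _)
    (U.convex (lt_min (b₇.trans_lt b₃) hu).le (min_le_left _ _) b₂) (lt_min (b₇.trans_lt b₃) hu)
    (fun q hq H => ⟨b₉ q hq, fun H' => (min_le_left _ _).trans ((b₄ q hq H).2 H')⟩)
    fun γ i j H => by
      rcases min_choice hi u with e | e <;> rw [e] at H
      exacts [b₈ γ i j ((U.convex b₇ b₃.le H).symm.trans H), (h₅ γ i j).2 H]
  exact ⟨w, w₁, w₂.trans_le (min_le_right _ _), w₃⟩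

theorem dens2R : ∀ᶠ D in Fl, ∀ s σ f T, Ctx D s σ f T → ∀ a t u, (a, t) ∈ f → t < u →
    has s.K u → (∃ c, has s.K c ∧ s.r σ a c) → ∃ a', has s.K a' ∧ s.r σ a a' ∧
      ((∀ c, has s.K c → ¬ (s.r σ c a' ∧ s.r σ a c)) ∨
        ∃ w, has s.K w ∧ w < u ∧ s.Val2 σ (insert (a', w) f) T) := by
  filter_upwards [dens2_coreR, lemE, elemS (fun s (x : V × Om × Om) (c : Om) =>
    s.r x.1 c x.2.1 ∧ s.r x.1 x.2.2 c)] with D h₁ h₂ h₃ s σ f T h a t u hp hu huK ⟨c₀, hc₀, hc₁⟩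
  have hs := h.sit
  have hv := h.val
  have hK := hs.cl.has_pair.1 (h.fK _ hp)
  by_cases H : ∃ a', has s.K a' ∧ s.r σ a a' ∧ ∀ c, has s.K c → ¬ (s.r σ c a' ∧ s.r σ a c)
  · obtain ⟨a', a₁, a₂, a₃⟩ := H
    exact ⟨a', a₁, a₂, Or.inl a₃⟩
  push Not at H
  obtain ⟨δ, ⟨hδ, hδa⟩, hmax⟩ := exists_max_image {δ ∈ lvl T | δ ≤ a} id
    (h.lf.subset (sep_subset _ _)) ⟨⊥, Or.inl rfl, bot_le⟩
  have htop : ∀ γ ∈ lvl T, δ < γ → a < γ := fun γ i₁ i₂ =>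
    not_le.1 fun i₃ => i₂.not_ge (hmax γ ⟨i₁, i₃⟩)
  by_cases hLo : s.HiA σ δ a
  · have hδ0 : ⊥ < δ := bot_lt_iff_ne_bot.2 fun e => hLo c₀ hc₀ (e ▸ agA_bot _ _) hc₁
    obtain ⟨τ, -, rfl, N, hN⟩ := h.md' hδ hδ0
    obtain ⟨μ, ⟨hμ, hμ'⟩, hmax'⟩ := exists_max_image {γ ∈ lvl T | γ < τ.1} id
      (h.lf.subset (sep_subset _ _)) ⟨⊥, Or.inl rfl, hδ0⟩
    obtain ⟨β, b₁, b₂⟩ := hN.sub.lim.ev h.ff
      (Q := fun q β => s.r σ a q.1 → ¬ agA (s.r σ) β a q.1)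
      (fun _ _ _ i H H' H'' => H H' (H''.mono i)) fun q hq => by
        by_contra hc
        push Not at hc
        exact hLo _ (hs.cl.has_prod.1 (h.fK q hq)).1
          (agA_lim hN.sub.lim fun γ hγ => (hc γ hγ).2) (hc ⊥ hδ0).1
    obtain ⟨c, c₁, c₂, c₃⟩ := (h₂ s hs N _ hN.sub σ hN.sg h.nice a hK.1 hδa _ (max_lt b₁ hμ')).2
    obtain ⟨β', d₁, d₂⟩ := hN.sub.lim.2 _ (max_lt c₁ (max_lt b₁ hμ'))
    simp only [max_lt_iff] at d₁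
    obtain ⟨a', e₁, e₂, e₃⟩ := (h₂ s hs N _ hN.sub σ hN.sg h.nice a hK.1 hδa _ d₂).2
    have ha' := hs.has_le hN.sub e₁.le
    refine ⟨a', ha', e₃, Or.inr (h₁ s σ f T h a t u a' μ hp hu huK ha' hμ e₃ (fun q hq i => ?_)
      (d₁.2.2.le.trans (e₂.le (d₂.le.trans hδa))) (fun γ i₁ i₂ => ?_) (e₂.mono d₁.2.2.le).symm
      fun i => i c (hs.has_le hN.sub c₁.le)
        ((e₂.mono d₁.2.2.le).symm.trans (c₂.mono (le_max_right _ _))) ?_)⟩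
    · exact r_of_ag i (b₂ q hq i) (e₂.mono d₁.2.1.le) (agA.refl _ _)
    · have i₃ : τ.1 ≤ γ := not_lt.1 fun i₃ => i₂.not_ge (hmax' γ ⟨i₁, i₃⟩)
      exact ⟨e₁.trans_le i₃, fun i₄ => ((hv.lev hδ).2.2 _ hp).2.1 hLo u (i₄.mono i₃) hu⟩
    · exact r_of_ag c₃ (fun i : agA (s.r σ) β' a c => r_irr (r := s.r σ) c (by have := c₃; rwa [← i.symm.alone d₁.1] at this)) (e₂) (agA.refl _ _)
  · unfold St.HiA at hLo
    push Not at hLo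
    obtain ⟨c, c₁, c₂, c₃⟩ := hLo
    obtain ⟨b, b₁, b₂, b₃, b₄⟩ : ∃ b, has s.K b ∧ s.r σ a b ∧ ¬ s.r σ c b ∧
        ∀ q ∈ f, s.r σ a q.1 → ¬ s.r σ q.1 b := by
      obtain ⟨b, i₁, i₂⟩ := exists_rmax (r := fun x y => s.r σ y x) (fun _ => r_irr _)
        (fun _ _ _ i i' => r_trans i' i) ((h.ff.image Prod.fst).inter_of_left {x | s.r σ a x}) c
      refine ⟨b, ?_, ?_, i₂ c (Or.inl rfl), fun q hq i => i₂ _ (Or.inr ⟨⟨q, hq, rfl⟩, i⟩)⟩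
      · rcases i₁ with rfl | ⟨⟨q, hq, rfl⟩, -⟩
        exacts [c₁, (hs.cl.has_prod.1 (h.fK q hq)).1]
      · rcases i₁ with rfl | i₁
        exacts [c₃, i₁.2]
    obtain ⟨a', e₁, e₂, e₃, e₄⟩ : ∃ a', has s.K a' ∧ s.r σ a' b ∧ s.r σ a a' ∧
        ∀ γ ∈ lvl T, δ < γ → a' < γ := by
      obtain ⟨a', e₁, e₂, e₃⟩ := H b b₁ b₂
      refine exists_next (S := lvl T) δ (fun i => ⟨a', e₁, e₂, e₃,
        fun γ i₁ i₂ => absurd i₂ (i γ i₁).not_gt⟩) fun ε i₁ i₂ i₃ => ?_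
      obtain ⟨τ, -, rfl, N, hN⟩ := h.md' i₁ i₂
      rcases lt_or_ge b τ.1 with i₄ | i₄
      · obtain ⟨a', j₁, j₂, j₃⟩ := h₃ s hs N _ hN.sub (σ, b, a) (by
          simp only [hN.sub.cl.has_pair, hN.sub.iff]; exact ⟨hN.sg, i₄, htop _ i₁ i₂⟩) a' e₁ ⟨e₂, e₃⟩
        exact ⟨a', hN.sub.sub j₁, j₂, j₃, fun γ k₁ k₂ => (hN.sub.iff.1 j₁).trans_le (i₃ γ k₁ k₂)⟩
      · obtain ⟨β, j₁, j₂⟩ := hN.sub.lim.2 _ (htop _ i₁ i₂)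
        obtain ⟨a', j₃, j₄, j₅⟩ := (h₂ s hs N _ hN.sub σ hN.sg h.nice b b₁ i₄ β j₂).1
        exact ⟨a', hs.has_le hN.sub j₃.le, j₅,
          r_of_ag b₂ (fun i : agA (s.r σ) β a b => r_irr (r := s.r σ) a (by have := b₂; rwa [← i.alone j₁] at this)) (agA.refl _ _) (j₄),
          fun γ k₁ k₂ => j₃.trans_le (i₃ γ k₁ k₂)⟩
    have k : ∀ x, ¬ s.r σ x b → s.r σ a' x := fun x i => by
      rcases r_tri (r := s.r σ) b x with j | rfl | j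
      exacts [r_trans e₂ j, e₂, absurd j i]
    have e₅ : agA (s.r σ) δ a' a := (c₂.convex e₃ (k c b₃)).symm
    exact ⟨a', e₁, e₃, Or.inr (h₁ s σ f T h a t u a' δ hp hu huK e₁ hδ e₃
      (fun q hq i => k _ (b₄ q hq i)) (e₅.symm.le hδa) (fun γ i₁ i₂ => ⟨e₄ γ i₁ i₂, fun i =>
        hu.ne (U.alone i (((hv.lev i₁).1 _ hp).1 (htop γ i₁ i₂)))⟩) e₅
      fun i => i c c₁ (e₅.trans c₂) (k c b₃))⟩

end Pool.Agent.MP_656653_lc
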