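import Pool.Agent.MP_656653_lc.Hull
import Pool.Agent.MP_656653_lc.StepQ4

/-! The conditions of the iteration. -/

set_option synthInstance.maxSize 1000000

namespace Pool.Agent.MP_656653_lc

open Set Filter Item

noncomputable instance : DecidableEq Item := Classical.decEq _

noncomputable def trc (ν : Tag) (N : V) : Trc := (dl N, N ∩ ν.nm)

def wS (ν : Tag) (p : C) : Set X := {x | atm ν x ∈ p}

def TS (ν : Tag) (p : C) : Set Trc := {τ | ∃ N, cn N ∈ p ∧ has (N : Set V) ν ∧ τ = trc ν N}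

theorem wS_fin (ν : Tag) (p : C) : (wS ν p).Finite :=
  p.finite_toSet.preimage (f := atm ν) fun _ _ _ _ h => by cases h; rfl

theorem TS_fin (ν : Tag) (p : C) : (TS ν p).Finite :=
  (p.finite_toSet.image fun z => trc ν z.ext).subset fun _ ⟨N, h, _, e⟩ => ⟨cn N, h, e.symm⟩

open Classical in
noncomputable def res (W : V) (p : C) : C := p.filter (has (W : Set V))

theorem mem_res {W : V} {p : C} {x} : x ∈ res W p ↔ x ∈ p ∧ has (W : Set V) x := by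
  simp [res]

theorem coe_res (W : V) (p : C) : (res W p : Set Item) = {x ∈ (p : Set Item) | has (W : Set V) x} :=
  Set.ext fun _ => mem_res

theorem res_mono {W : V} {p q : C} (h : ∀ x ∈ p, has (W : Set V) x → x ∈ q) :
    res W p ⊆ res W q := fun x hx => mem_res.2 ⟨h x (mem_res.1 hx).1 (mem_res.1 hx).2, (mem_res.1 hx).2⟩

def St.Val (s : St) (ν : Tag) (w : Set X) (T : Set Trc) : Prop :=
  (ν.k2 = true ∧ (∀ x ∈ w, x = mkX (pt x)) ∧ s.Val2 ν.sA (pt '' w) T) ∨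
    (ν.k2 = false ∧ s.Val1 ν.sA ν.sF ν.fl w T)

section
variable {α β : Type*} [Code α] [Code β]

instance Grd.coe (f : α → Finset β) [h : Cf f] : Grd (fun _ a y => y ∈ (↑(f a) : Set β)) :=
  Grd.finset f

theorem cf_tag (f : Tag → V) (h : ∀ D K, Cl D K → ∀ ν, has K ν → f ν ∈ K) : Cf f :=
  ⟨Eventually.of_forall h⟩

instance (f : α → Tag) [Cf f] : Cf (fun a => (f a).sA) :=
  have := cf_tag Tag.sA fun _ _ h _ H => (h.has_tag.1 H).2.2.2.2.2.1
  Cf.comp Tag.sA f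

instance (f : α → Tag) [Cf f] : Cf (fun a => (f a).sF) :=
  have := cf_tag Tag.sF fun _ _ h _ H => (h.has_tag.1 H).2.2.2.2.2.2
  Cf.comp Tag.sF f

instance (σ : α → V) (f : α → Finset Pt) (δ : α → Om) :
    Def (fun s a => s.Lev (σ a) (f a) (δ a)) := by
  unfold St.Lev St.End; infer_instance

instance (σ F : α → V) [Cf F] (φ : α → Bool) : Def (fun s a => s.H1 (σ a) (F a) (φ a)) := by
  have := Cf.comp F (fun x : (α × V) × List (List ℕ) => x.1.1)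
  unfold St.H1; infer_instance

end

theorem def_val2 : Def (fun s (a : V × Finset Pt × Finset Trc) => s.Val2 a.1 a.2.1 a.2.2) := by
  unfold St.Val2; infer_instance

theorem def_val1 : Def (fun s (a : V × V × Bool × Finset X × Finset Trc) =>
    s.Val1 a.1 a.2.1 a.2.2.1 a.2.2.2.1 a.2.2.2.2) := by
  unfold St.Val1; infer_instance

theorem def_val : Def (fun s (a : Tag × Finset X × Finset Trc) => s.Val a.1 a.2.1 a.2.2) := by
  classical
  have := def_val1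
  have := def_val2
  have := Def.comp (fun s (a : V × Finset Pt × Finset Trc) => s.Val2 a.1 a.2.1 a.2.2)
    (fun a : Tag × Finset X × Finset Trc => (a.1.sA, a.2.1.image pt, a.2.2))
  simp only [Finset.coe_image] at this
  have := Def.comp (fun s (a : V × V × Bool × Finset X × Finset Trc) =>
    s.Val1 a.1 a.2.1 a.2.2.1 a.2.2.2.1 a.2.2.2.2)
    (fun a : Tag × Finset X × Finset Trc => (a.1.sA, a.1.sF, a.1.fl, a.2.1, a.2.2))
  unfold St.Val; infer_instance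

def FV (ν : Tag) (b : C) (w : Set X) (T : Set Trc) : Prop :=
  Frc (fun s (_ : Unit) => s.Val ν w T) ν.P b ()

theorem val_frc : ∀ᶠ D in Fl, ∀ (ν : Tag) K g, Sit D ⟨K, ν.P, g⟩ → has K ν → ∀ w T, w.Finite →
    T.Finite → (∀ x ∈ w, has K x) → (∀ x ∈ T, has K x) →
    (St.Val ⟨K, ν.P, g⟩ ν w T ↔ ∃ b ∈ g, FV ν b w T) := by
  filter_upwards [@Def.frc _ _ _ def_val] with D hD ν K g hs hν w T hw hT h₁ h₂
  lift w to Finset X using hw
  lift T to Finset Trc using hT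
  exact hD _ hs (ν, w, T) (hs.cl.has_pair.2 ⟨hν, hs.cl.has_pair.2
    ⟨hs.cl.has_finset.2 h₁, hs.cl.has_finset.2 h₂⟩⟩)

def Abv (w : Set X) (T T' : Set Trc) : Prop :=
  ∀ τ ∈ T', τ ∈ T ∨ ∀ x ∈ w, (∀ p ∈ x.1, pbl τ.1 p) ∧ x.2 < τ.1

theorem Abv.of_sub {w T T'} (h : T' ⊆ T) : Abv w T T' := fun _ hτ => Or.inl (h hτ)

theorem St.Val.abv {s : St} {ν w T T'} (h : s.Val ν w T) (h' : Abv w T T') : s.Val ν w T' := by
  rcases h with ⟨h₀, h₁, h⟩ | ⟨h₀, h⟩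
  · refine Or.inl ⟨h₀, h₁, h.1, h.2.1, h.2.2.1, fun τ hτ => (h' τ hτ).elim (h.2.2.2 τ) fun H => ?_⟩
    have : ∀ p ∈ pt '' w, pbl τ.1 p := by
      rintro _ ⟨x, hx, rfl⟩
      refine (H x hx).1 _ ?_
      rw [h₁ x hx]
      exact List.mem_singleton_self _
    exact ⟨⟨fun p hp => iff_of_true (this p hp).1 (this p hp).2, fun p hp q hq =>
      St.c2_of_bl (h.2.1 p hp q hq) (h.2.1 q hq p hp) (Or.inl (this p hp)),
      fun p hp => St.end_of_bl (this p hp)⟩, fun ⟨p, hp, a⟩ => absurd (this p hp).1 a.not_gt⟩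
  · exact Or.inr ⟨h₀, h.1, h.2.1, h.2.2.1, fun τ hτ => (h' τ hτ).elim (h.2.2.2 τ) fun H =>
      ⟨fun x hx _ => (H x hx).1, fun x hx _ _ a => absurd (H x hx).2 a.not_gt⟩⟩

theorem St.val_empty (s : St) (ν : Tag) (T : Set Trc) : s.Val ν ∅ T := by
  unfold St.Val St.Val1 St.Val2 St.Lev
  cases ν.k2 <;> simp

theorem FV.mono {ν b b' w T T'} (h : FV ν b w T) (hb : b ⊆ b') (h' : Abv w T T') :
    FV ν b' w T' := by
  filter_upwards [Frc.mono h hb] with D hD K g hs H using (hD K g hs H).abv h'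

theorem fv_empty (ν b T) : FV ν b ∅ T := Eventually.of_forall fun _ _ _ _ _ => St.val_empty _ _ _

structure TagOK (ν : Tag) : Prop where
  dt : ∀ d : Dat, (∀ τ ∈ d.2, τ.2 ⊆ ν.nm) → enc d ∈ ν.dt
  k2 : ν.k2 = true → ν.nm = Nm ν.P ∧ (∀ z : V, z ⊆ ν.dt.prod ν.P → z ∈ ν.bb) ∧ Refl ν.W

structure Cond0 (D : Set Dp) (p : C) : Prop where
  sc : SC D p
  atm : ∀ ν x, atm ν x ∈ p → tr ν ∈ p
  ok : ∀ ν, tr ν ∈ p → TagOK ν ∧ FV ν (res ν.W p) (wS ν p) (TS ν p)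

def GT (D : Set Dp) (ν : Tag) : Prop := ∀ b : C, enc b ∈ ν.P ↔ has (ν.W : Set V) b ∧ Cond0 D b ∧
  ∀ ν', tr ν' ∈ b → ∀ _ : ν'.W.rank < ν.W.rank, GT D ν'
termination_by ν.W.rank

structure Vd (D : Set Dp) (ν : Tag) (p : C) : Prop where
  ok : TagOK ν
  gt : GT D ν
  fv : FV ν (res ν.W p) (wS ν p) (TS ν p)

structure PP (D : Set Dp) (p : C) : Prop where
  sc : SC D p
  atm : ∀ ν x, atm ν x ∈ p → tr ν ∈ p
  vd : ∀ ν, tr ν ∈ p → Vd D ν p

variable {D : Set Dp}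

theorem gt_iff {ν : Tag} (h : TW D ν.W) :
    GT D ν ↔ ∀ b : C, enc b ∈ ν.P ↔ has (ν.W : Set V) b ∧ PP D b := by
  rw [GT]
  refine forall_congr' fun b => iff_congr Iff.rfl (and_congr_right fun hb => ⟨fun H => ?_, fun H => ?_⟩)
  · exact ⟨H.1.sc, H.1.atm, fun ν' a => ⟨(H.1.ok ν' a).1,
      H.2 ν' a (rk_lt h.cl (h.cl.has_finset.1 hb _ a)), (H.1.ok ν' a).2⟩⟩
  · exact ⟨⟨H.sc, H.atm, fun ν' a => ⟨(H.vd ν' a).ok, (H.vd ν' a).fv⟩⟩, fun ν' a _ => (H.vd ν' a).gt⟩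

/-- Good tags. -/
structure Tg (D : Set Dp) (ν : Tag) : Prop where
  tw : TW D ν.W
  ok : TagOK ν
  gt : GT D ν

theorem Tg.mem {ν} (h : Tg D ν) {b : C} : enc b ∈ ν.P ↔ has (ν.W : Set V) b ∧ PP D b :=
  (gt_iff h.tw).1 h.gt b

theorem PP.tg {p ν} (h : PP D p) (hν : tr ν ∈ p) : Tg D ν :=
  ⟨h.sc.tr hν, (h.vd ν hν).ok, (h.vd ν hν).gt⟩

theorem Vd.of {ν p q} (h : Vd D ν p) (h₁ : ∀ x ∈ p, has (ν.W : Set V) x → x ∈ q)
    (h₂ : wS ν q = wS ν p) (h₃ : Abv (wS ν p) (TS ν p) (TS ν q)) : Vd D ν q :=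
  ⟨h.ok, h.gt, h₂ ▸ h.fv.mono (res_mono h₁) h₃⟩

structure N0 (D : Set Dp) : Prop where
  bas : ∀ {K}, Cl D K → Bas K
  x : ∀ {K}, Cl D K → allc X ∈ K
  om : ∀ {K}, Cl D K → allc Om ∈ K

theorem ev_n0 : ∀ᶠ D in Fl, N0 D := by
  filter_upwards [ev_bas, ev_const (allc X), ev_const (allc Om)] with D h₁ h₂ h₃
  exact ⟨h₁ _, h₂ _, h₃ _⟩

theorem N0.has_x (n : N0 D) {W} (h : TW D W) (x : X) : has (W : Set V) x :=
  h.trans (n.x h.cl) (enc_mem_allc x)

theorem N0.has_om (n : N0 D) {W} (h : TW D W) (x : Om) : has (W : Set V) x :=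
  h.trans (n.om h.cl) (enc_mem_allc x)

theorem bx_nm {ν : Tag} {z : V} (h : z ∈ ν.nm) : Bx D ν z :=
  fun _ hW h' => hW.trans (hW.cl.has_tag.1 h').2.2.1 h

theorem bx_bb {ν : Tag} {z : V} (h : z ∈ ν.bb) : Bx D ν z :=
  fun _ hW h' => hW.trans (hW.cl.has_tag.1 h').2.2.2.2.1 h

theorem N0.trc_eq (n : N0 D) {ν : Tag} {N N' : V} (h : ∀ z, Bx D ν z → (z ∈ N ↔ z ∈ N')) :
    trc ν N = trc ν N' := by
  refine Prod.ext (dl_congr fun a => h _ fun _ hW _ => n.has_om hW a) (ZFSet.ext fun z => ?_)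
  simp only [trc, ZFSet.mem_inter]
  exact and_congr_left fun H => h z (bx_nm H)

theorem N0.trc_inter (n : N0 D) {ν : Tag} {N W : V} (h : TW D W) (h' : has (W : Set V) ν) :
    trc ν (N ∩ W) = trc ν N :=
  n.trc_eq fun z hz => ZFSet.mem_inter.trans (and_iff_left (hz W h h'))

theorem N0.has_atm (n : N0 D) {W ν x} (h : TW D W) : has (W : Set V) (atm ν x) ↔ has (W : Set V) ν :=
  h.cl.has_atm.trans (and_iff_left (n.has_x h x))

theorem TW.has_sub {W : V} (h : TW D W) {ν : Tag} (h' : has (W : Set V) ν) {α} [Code α] {x : α}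
    (hx : has (ν.W : Set V) x) : has (W : Set V) x := h.sub h' hx

theorem pp_empty : PP D ∅ :=
  ⟨⟨by simp, by simp, by simp, by simp⟩, by simp, by simp⟩

theorem PP.res (n : N0 D) {p W} (h : PP D p) (hW : TW D W) : PP D (res W p) := by
  refine ⟨coe_res W p ▸ h.sc.res hW.cl, fun ν x a => ?_, fun ν a => ?_⟩
  · rw [mem_res] at a ⊢
    exact ⟨h.atm ν x a.1, hW.cl.has_tr.2 ((n.has_atm hW).1 a.2)⟩
  · rw [mem_res, hW.cl.has_tr] at a
    refine (h.vd ν a.1).of (fun x b c => mem_res.2 ⟨b, hW.has_sub a.2 c⟩) (Set.ext fun x => ?_)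
      (Abv.of_sub fun _ ⟨N, b, c⟩ => ⟨N, (mem_res.1 b).1, c⟩)
    exact mem_res.trans (and_iff_left ((n.has_atm hW).2 a.2))

theorem PP.res_mem (n : N0 D) {p ν} (h : PP D p) (hν : tr ν ∈ p) :
    enc (MP_656653_lc.res ν.W p) ∈ ν.P :=
  (h.tg hν).mem.2 ⟨(h.sc.tr hν).cl.has_finset.2 fun _ a => (mem_res.1 a).2, h.res n (h.sc.tr hν)⟩

theorem wS_union (ν p q) : wS ν (p ∪ q) = wS ν p ∪ wS ν q := by ext; simp [wS]

theorem TS_union (ν p q) : TS ν (p ∪ q) = TS ν p ∪ TS ν q := by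
  ext; simp [TS, or_and_right, exists_or]

theorem wS_out (n : N0 D) {W ν} {u : C} (hW : TW D W) (hu : ∀ x ∈ u, has (W : Set V) x)
    (h : ¬ has (W : Set V) ν) : wS ν u = ∅ :=
  eq_empty_of_forall_notMem fun _ a => h ((n.has_atm hW).1 (hu _ a))

theorem TS_out {W ν} {u : C} (hW : TW D W) (hu : ∀ x ∈ u, has (W : Set V) x)
    (h : ¬ has (W : Set V) ν) : TS ν u = ∅ :=
  eq_empty_of_forall_notMem fun _ ⟨_, a, b, _⟩ => h (hW.trans (hW.cl.has_cn.1 (hu _ a)) b)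

theorem wS_in (n : N0 D) {W ν} {p u : C} (hW : TW D W) (hu : res W p ⊆ u)
    (h : has (W : Set V) ν) : wS ν p ⊆ wS ν u :=
  fun _ a => hu (mem_res.2 ⟨a, (n.has_atm hW).2 h⟩)

theorem TS_in (n : N0 D) {ν ν'} {p u : C} (hp : SC D p) (hν : tr ν ∈ p) (hu : res ν.W p ⊆ u)
    (h : has (ν.W : Set V) ν') : TS ν' p ⊆ TS ν' u := fun _ ⟨N, a, b, c⟩ =>
  ⟨N ∩ ν.W, hu (mem_res.2 ⟨hp.red hν a, (hp.tr hν).has_inter (hp.cn a)⟩), has_inter.2 ⟨b, h⟩,
    c.trans (n.trc_inter (hp.tr hν) h).symm⟩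

theorem PP.union (n : N0 D) {p u ν} (h : PP D p) (hν : tr ν ∈ p) (hu : enc u ∈ ν.P)
    (hr : MP_656653_lc.res ν.W p ⊆ u) : PP D (p ∪ u) := by
  obtain ⟨h₁, h₂⟩ := (h.tg hν).mem.1 hu
  have hW := h.sc.tr hν
  replace h₁ := hW.cl.has_finset.1 h₁
  refine ⟨?_, fun ν' x a => ?_, fun ν' a => ?_⟩
  · rw [Finset.coe_union]
    exact h.sc.union hν h₂.sc h₁ fun x a b => hr (mem_res.2 ⟨a, b⟩)
  · rw [Finset.mem_union] at a ⊢
    exact a.imp (h.atm _ _) (h₂.atm _ _)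
  by_cases e : has (ν.W : Set V) ν'
  · have a' : tr ν' ∈ u := (Finset.mem_union.1 a).elim
      (fun b => hr (mem_res.2 ⟨b, hW.cl.has_tr.2 e⟩)) id
    refine (h₂.vd ν' a').of (fun x b _ => Finset.mem_union_right _ b) ?_ (Abv.of_sub ?_)
    · rw [wS_union, union_eq_right.2 (wS_in n hW hr e)]
    · rw [TS_union, union_eq_right.2 (TS_in n h.sc hν hr e)]
  · have a' : tr ν' ∈ p := (Finset.mem_union.1 a).resolve_right
      fun b => e (hW.cl.has_tr.1 (h₁ _ b))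
    refine (h.vd ν' a').of (fun x b _ => Finset.mem_union_left _ b) ?_ (Abv.of_sub ?_)
    · rw [wS_union, wS_out n hW h₁ e, union_empty]
    · rw [TS_union, TS_out hW h₁ e, union_empty]

theorem TW.not_self {ν : Tag} (h : TW D ν.W) : ¬ has (ν.W : Set V) ν :=
  fun a => lt_irrefl _ (rk_lt' h.cl a)

theorem res_union {W : V} {p u : C} (h₁ : ∀ x ∈ u, has (W : Set V) x) (hr : res W p ⊆ u) :
    res W (p ∪ u) = u := by
  ext x
  rw [mem_res, Finset.mem_union]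
  exact ⟨fun a => a.1.elim (fun b => hr (mem_res.2 ⟨b, a.2⟩)) id, fun a => ⟨Or.inr a, h₁ x a⟩⟩

theorem PP.ext (n : N0 D) {p u ν x} (h : PP D p) (hν : tr ν ∈ p) (hu : enc u ∈ ν.P)
    (hr : MP_656653_lc.res ν.W p ⊆ u) (hv : FV ν u (insert x (wS ν p)) (TS ν p)) :
    PP D (insert (Item.atm ν x) (p ∪ u)) := by
  have h' := h.union n hν hu hr
  have hW := h.sc.tr hν
  have h₁ := hW.cl.has_finset.1 ((h.tg hν).mem.1 hu).1
  have hT : ∀ ν', TS ν' (insert (Item.atm ν x) (p ∪ u)) = TS ν' (p ∪ u) := fun ν' => by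
    ext; simp [TS]
  refine ⟨?_, fun ν' x a => ?_, fun ν' a => ?_⟩
  · rw [Finset.coe_insert]; exact h'.sc.atm _ _
  · rcases Finset.mem_insert.1 a with a | a
    · cases a; simp [hν]
    · exact Finset.mem_insert_of_mem (h'.atm _ _ a)
  have a' := (Finset.mem_insert.1 a).resolve_left (by simp)
  by_cases e : ν' = ν
  · subst e
    refine ⟨(h.vd _ hν).ok, (h.vd _ hν).gt, ?_⟩
    have : wS ν' (insert (Item.atm ν' x) (p ∪ u)) = insert x (wS ν' (p ∪ u)) := by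
      ext; simp [wS]
    rw [this, hT, wS_union, TS_union, wS_out n hW h₁ hW.not_self, TS_out hW h₁ hW.not_self,
      union_empty, union_empty]
    exact hv.mono (fun y b => mem_res.2 ⟨by simp [b], h₁ y b⟩) (Abv.of_sub subset_rfl)
  · refine (h'.vd ν' a').of (fun x b _ => Finset.mem_insert_of_mem b) ?_ (Abv.of_sub (hT _).le)
    ext; simp [wS, e]

theorem PP.top (n : N0 D) {p ν} (h : PP D p) (hν : Tg D ν) (hp : ∀ x ∈ p, has (ν.W : Set V) x) :
    PP D (insert (tr ν) p) := by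
  have hT : ∀ ν', TS ν' (insert (tr ν) p) = TS ν' p := fun ν' => by ext; simp [TS]
  have hw : ∀ ν', wS ν' (insert (tr ν) p) = wS ν' p := fun ν' => by ext; simp [wS]
  refine ⟨?_, fun ν' x a => ?_, fun ν' a => ?_⟩
  · rw [Finset.coe_insert]; exact h.sc.top hν.tw hp
  · exact Finset.mem_insert_of_mem (h.atm _ _ ((Finset.mem_insert.1 a).resolve_left (by simp)))
  rcases Finset.mem_insert.1 a with a | a
  · cases a
    refine ⟨hν.ok, hν.gt, ?_⟩
    rw [hw, wS_out n hν.tw hp hν.tw.not_self]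
    exact fv_empty _ _ _
  · exact (h.vd ν' a).of (fun x b _ => Finset.mem_insert_of_mem b) (hw _) (Abv.of_sub (hT _).le)

theorem am_fin (s t : C) : (am s t).Finite := by
  refine (s.finite_toSet.union t.finite_toSet).union
    ((s.finite_toSet.image2 (fun a b : Item => cn (a.ext ∩ b.ext)) t.finite_toSet).subset ?_)
  rintro _ ⟨N, ν, a, b, -, rfl⟩
  exact ⟨_, a, _, b, rfl⟩

noncomputable def amF (s t : C) : C := (am_fin s t).toFinset

theorem mem_amF {s t : C} {x} : x ∈ amF s t ↔ x ∈ s ∪ t ∨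
    ∃ N ν, cn N ∈ s ∧ tr ν ∈ t ∧ has (N : Set V) ν ∧ x = cn (N ∩ ν.W) := by
  simp [amF, am, or_assoc]

theorem sub_amF {s t : C} : s ∪ t ⊆ amF s t := fun _ a => mem_amF.2 (Or.inl a)

theorem has_amF {K} (h : Cl D K) {s t : C} (hs : has K s) (ht : has K t) : has K (amF s t) := by
  rw [h.has_finset] at hs ht ⊢
  intro x hx
  rcases mem_amF.1 hx with a | ⟨N, ν, a, b, -, rfl⟩
  · exact (Finset.mem_union.1 a).elim (hs x) (ht x)
  · exact h.has_cn.2 (h.int (h.has_cn.1 (hs _ a)) (h.ext_mem (ht _ b)))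

theorem TS_amF (n : N0 D) {s t : C} (ht : SC D t) (ν) : TS ν (amF s t) ⊆ TS ν (s ∪ t) := by
  rintro _ ⟨N, a, b, rfl⟩
  rcases mem_amF.1 a with a | ⟨N', ν', a', c, -, e⟩
  · exact ⟨N, a, b, rfl⟩
  · cases e
    exact ⟨N', Finset.mem_union_left _ a', (has_inter.1 b).1,
      n.trc_inter (ht.tr c) (has_inter.1 b).2⟩

theorem PP.glue (n : N0 D) {s t : C} {M} (hs : PP D s) (hM : cn M ∈ s) (ht : SC D t)
    (h₁ : ∀ x ∈ t, has (M : Set V) x) (h₂ : ∀ x ∈ s, has (M : Set V) x → x ∈ t)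
    (h₃ : ∀ ν x, Item.atm ν x ∈ t → tr ν ∈ t)
    (hv : ∀ ν, tr ν ∈ t → (tr ν ∉ s ∧ Vd D ν t) ∨ Vd D ν (s ∪ t)) : PP D (amF s t) := by
  have cM := (hs.sc.cn hM).cl
  have hw : ∀ ν, wS ν (amF s t) = wS ν s ∪ wS ν t := fun ν => by ext; simp [wS, mem_amF]
  have hT := TS_amF (s := s) n ht
  refine ⟨?_, fun ν x a => ?_, fun ν a => ?_⟩
  · rw [amF, Finite.coe_toFinset]; exact hs.sc.am hM ht h₁ h₂
  · refine sub_amF ?_
    simp only [mem_amF, Finset.mem_union, reduceCtorEq, and_false, exists_false, or_false] at a ⊢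
    exact a.imp (hs.atm _ _) (h₃ _ _)
  by_cases e : tr ν ∈ t
  · rcases hv ν e with ⟨b, c⟩ | c
    · refine c.of (fun x d _ => sub_amF (Finset.mem_union_right _ d)) ?_ fun τ hτ => ?_
      · rw [hw]; exact union_eq_right.2 fun x d => absurd (hs.atm _ _ d) b
      rcases (TS_union _ _ _).le (hT ν hτ) with ⟨N, d₁, d₂, rfl⟩ | d
      swap
      · exact Or.inl d
      obtain ⟨N', f₁, f₂, f₃, f₄, f₅⟩ := hs.sc.minrep d₁ d₂
      rw [n.trc_eq (N' := N') fun z hz => ⟨fun H => f₄ z H hz, fun H => f₃ H⟩]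
      by_cases k : has (M : Set V) (cn N')
      · exact Or.inl ⟨N', h₂ _ f₁ k, f₂, rfl⟩
      refine Or.inr fun x hx => ?_
      have c' := hs.sc.cn f₁
      have b' := n.bas c'.cl
      have : has (N' : Set V) x := hs.sc.pos hM f₁ k (cM.has_tr.1 (h₁ _ e)) f₂ f₅ _
        (cM.has_atm.1 (h₁ _ hx)).2 fun _ hW _ => n.has_x hW x
      rw [c'.cl.has_prod, c'.cl.has_list] at this
      exact ⟨fun p hp => ((has_pt c'.cl b').1 (this.1 p hp)).imp (b'.has_iff c'.cnt).1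
        (b'.has_iff c'.cnt).1, (b'.has_iff c'.cnt).1 this.2⟩
    · exact c.of (fun x d _ => sub_amF d) (by rw [hw, wS_union]) (Abv.of_sub (hT ν))
  · have a' : tr ν ∈ s := by simpa [mem_amF, e] using a
    refine (hs.vd ν a').of (fun x d _ => sub_amF (Finset.mem_union_left _ d)) ?_
      (Abv.of_sub fun τ hτ => ?_)
    · rw [hw]; exact union_eq_left.2 fun x d => absurd (h₃ _ _ d) e
    · refine ((TS_union _ _ _).le (hT ν hτ)).resolve_right fun ⟨N, d₁, d₂, _⟩ => e ?_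
      exact h₂ _ a' (cM.has_tr.2 (cM.sub_cn (ht.cn d₁) (h₁ _ d₁) d₂))

theorem PP.node (n : N0 D) {p N} (h : PP D p) (hN : CN D N) (hp : has (N : Set V) p) :
    PP D (amF {cn N} p) := by
  have : PP D {cn N} := by
    refine ⟨⟨fun a => ?_, by simp, by simp, fun a b _ _ => Or.inl ?_⟩, by simp, by simp⟩
    · obtain rfl : _ = N := by simpa using a
      exact hN
    · simp_all
  refine this.glue n (Finset.mem_singleton_self _) h.sc (hN.cl.has_finset.1 hp) (fun x a b => ?_)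
    h.atm fun ν a => Or.inl ⟨by simp, h.vd ν a⟩
  rw [Finset.mem_singleton.1 a] at b
  exact absurd (rk_lt hN.cl b) (lt_irrefl _)

end Pool.Agent.MP_656653_lc
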