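import Pool.Agent.MP_c6cf52_lc.Defs

namespace Pool.Agent.MP_656653_lc

open Pool.Agent.MP_c6cf52_lc

universe u

variable {M : Type u} (E : M → M → Prop)

/-- `a` is nonempty and has no greatest element. -/
def IsLim (a : M) : Prop := (∃ x, E x a) ∧ ∀ x, E x a → ∃ y, E y a ∧ E x y

/-- `R` is a strict linear order on `A`. -/
def IsLin (A R : M) : Prop :=
  (∀ a, E a A → ¬ App E R a a) ∧
  (∀ a b c, E a A → E b A → E c A → App E R a b → App E R b c → App E R a c) ∧
  ∀ a b, E a A → E b A → App E R a b ∨ a = b ∨ App E R b a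

/-- `f` is a function from `X` to `Y`, strictly increasing from `r` to `s`. -/
def IsInc (f X Y : M) (r s : M → M → Prop) : Prop :=
  IsFun E f X Y ∧ ∀ a a' b b', App E f a b → App E f a' b' → r a a' → s b b'

/-- Lexicographic order on sets of ordinals. -/
def LexLt (x y : M) : Prop := ∃ n, E n y ∧ ¬ E n x ∧ ∀ m, E m n → (E m x ↔ E m y)

/-- `(A, R)` is an Aronszajn line, where `w` is omega and `w1` is omega one. -/
def Aron (w w1 A R : M) : Prop :=
  IsLin E A R ∧ (∃ j, IsInj E j w1 A ∧ ∀ b, E b A → ∃ a, App E j a b) ∧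
  (¬ ∃ h, IsInc E h w1 A E (App E R)) ∧
  (¬ ∃ h, IsInc E h w1 A E (fun a b => App E R b a)) ∧
  ¬ ∃ B C h, (∀ x, E x B → E x A) ∧ (¬ ∃ i, IsInj E i B w) ∧
    (∀ x, E x C → ∀ n, E n x → E n w) ∧ IsInc E h B C (App E R) (LexLt E)

/-- `O` is open in the open interval topology of `(A, R)`. -/
def IsOpn (A R O : M) : Prop :=
  (∀ x, E x O → E x A) ∧ ∀ x, E x O →
    (∃ a b, E a A ∧ E b A ∧ App E R a x ∧ App E R x b ∧
      ∀ y, E y A → App E R a y → App E R y b → E y O) ∨
    (∃ a, E a A ∧ App E R a x ∧ ∀ y, E y A → App E R a y → E y O) ∨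
    (∃ b, E b A ∧ App E R x b ∧ ∀ y, E y A → App E R y b → E y O) ∨
    ∀ y, E y A → E y O

/-- `f` is an injective, order preserving, continuous map from `(A, R)` to `(B, S)`. -/
def LotsEmb (f A R B S : M) : Prop :=
  IsInj E f A B ∧ IsInc E f A B (App E R) (App E S) ∧
    ∀ O O', IsOpn E B S O → (∀ a, E a O' ↔ ∃ b, App E f a b ∧ E b O) → IsOpn E A R O'

end Pool.Agent.MP_656653_lc
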