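import Pool.Agent.MP_656653_lc.Tree

/-! Consequences of elementarity. -/

set_option synthInstance.maxSize 1000000

namespace Pool.Agent.MP_656653_lc

open Set Filter

theorem has_pt {D K} (h : Cl D K) (hb : Bas K) {p : Pt} : has K p ↔ has K p.1 ∧ has K p.2.ht := by
  rw [h.has_prod, hb.ht]

theorem Sub.has_pt {D s N δ} (h : Sub D s N δ) {p : Pt} : has N p ↔ pbl δ p := by
  rw [MP_656653_lc.has_pt h.cl h.bas, h.iff, h.iff]; rfl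

theorem Sub.has_u {D s N δ} (h : Sub D s N δ) {t : U} : has N t ↔ t.ht < δ := by
  rw [h.bas.ht, h.iff]

theorem Sub.has_lt {D s N δ} (h : Sub D s N δ) {x : X} (hx : has N x) : x.2 < δ :=
  h.iff.1 (h.cl.has_prod.1 hx).2

theorem Sit.has_d0 {D s} (h : Sit D s) : has s.K d0 :=
  (has_pt h.cl h.bas).2 ⟨h.bas.bot, d0_ht ▸ h.bas.bot⟩

theorem Sit.has_nt {D s} (h : Sit D s) {x : List Pt} (hx : has s.K x) (i : ℕ) :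
    has s.K (nt x i) := by
  rcases lt_or_ge i x.length with hi | hi
  · exact h.cl.has_list.1 hx _ (nt_mem hi)
  · unfold nt
    rw [List.getD_eq_default _ _ hi]
    exact h.has_d0

theorem Sit.has_pj {D s} (h : Sit D s) {x : List Pt} (hx : has s.K x) (I : List ℕ) :
    has s.K (pj I x) :=
  h.cl.has_list.2 (List.forall_mem_map.2 fun i _ => h.has_nt hx i)

theorem Sit.has_le {D s N δ} (h : Sit D s) (hN : Sub D s N δ) {γ : Om} (hγ : γ ≤ δ) :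
    has s.K γ := h.bas.down hN.hd hγ

theorem elemA {α : Type*} [Code α] (Φ : St → α → Om → Prop)
    [Def (fun s (x : α × Om) => Φ s x.1 x.2)] :
    ∀ᶠ D in Fl, ∀ s, Sit D s → ∀ N δ, Sub D s N δ → ∀ a, has N a →
      (∀ γ < δ, Φ s a γ) → ∀ γ, has s.K γ → Φ s a γ := by
  filter_upwards [elemS (fun s a γ => ¬ Φ s a γ)] with D hD s hs N δ hN a ha H γ hγ
  by_contra hc
  obtain ⟨γ', h₁, h₂⟩ := hD s hs N δ hN a ha γ hγ hc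
  exact h₂ (H γ' (hN.iff.1 h₁))

theorem unbN : ∀ᶠ D in Fl, ∀ s, Sit D s → ∀ N δ, Sub D s N δ → ∀ F, s.Adm N F →
    (∀ β < δ, ∃ x, x ∈ F ∧ β ≤ x.2) → s.Unb F := by
  filter_upwards [elemA (fun s (τ : V) β => ∃ x : X, x ∈ s.vx τ ∧ β ≤ x.2)]
    with D hD
  rintro s hs N δ hN _ ⟨τ, h₁, _, rfl⟩ H
  exact hD s hs N δ hN τ h₁ H

theorem rep : ∀ᶠ D in Fl, ∀ s, Sit D s → ∀ N δ, Sub D s N δ → ∀ σ ∈ N, s.LL σ → ∀ γ < δ,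
    ∀ x : List Pt, has s.K x → ∃ y, has N y ∧ eqv (s.r σ) γ x y := by
  filter_upwards [elemS (fun s (a : V × Om) (β : Om) => ∀ c : Om, has s.K c →
    ∃ c', c' < β ∧ agA (s.r a.1) a.2 c c')] with D hD s hs N δ hN σ hσ hL γ hγ x hx
  obtain ⟨β, h₁, h₂⟩ := hL γ (hs.has_le hN hγ.le)
  obtain ⟨β, h₁, h₂⟩ := hD s hs N δ hN (σ, γ) (hN.cl.has_pair.2 ⟨hσ, hN.iff.2 hγ⟩) β h₁ h₂
  obtain ⟨y, h₃, h₄⟩ := exists_all2 (R := peq (s.r σ) γ) (Q := has N) (x := x) fun p hp => by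
    obtain ⟨c, h₃, h₄⟩ := h₂ p.1 (hs.cl.has_prod.1 (hs.cl.has_list.1 hx p hp)).1
    obtain ⟨m, -, h₅, -, h₆, -⟩ := U.minmax γ p.2
    exact ⟨(c, m), hN.has_pt.2 ⟨h₃.trans (hN.iff.1 h₁), h₆.trans_lt hγ⟩, h₄, h₅.symm⟩
  exact ⟨y, hN.cl.has_list.2 h₃, h₄⟩

theorem nbU : ∀ᶠ D in Fl, ∀ s, Sit D s → ∀ N δ, Sub D s N δ → ∀ F, s.Adm N F → s.Unb F → ∀ i,
    (∀ x ∈ F, x.2 ≤ (nt x.1 i).2.ht) →
    ∃ x ∈ F, ∃ y ∈ F, ¬ U.ag (min x.2 y.2) (nt x.1 i).2 (nt y.1 i).2 := by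
  obtain ⟨e, he⟩ := exists_surjective_nat ℚ
  filter_upwards [elemS (fun s (a : V × ℕ × ℕ × Om) (y : X × Om) => y.1 ∈ s.vx a.1 ∧
    a.2.2.2 ≤ y.2 ∧ y.2 < y.1.2 ∧ (nt y.1.1 a.2.1).2.val y.2 = e a.2.2.1)]
    with D hD
  rintro s hs N δ hN _ ⟨τ, h₁, _, rfl⟩ hu i hp
  by_contra hc
  push Not at hc
  obtain ⟨δ', h₂, h₃⟩ := hs.bas.up hN.hd
  obtain ⟨x, hx, h₄⟩ := hu δ' h₂
  have h₅ : δ < (nt x.1 i).2.ht := h₃.trans_le (h₄.trans (hp x hx))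
  obtain ⟨⟨q, hq⟩, -⟩ := (nt x.1 i).2.spec.1 δ h₅
  obtain ⟨n, rfl⟩ := he q
  refine hN.lim.infinite (fun β hβ => ?_) (U.col_fin (nt x.1 i).2 (e n))
  obtain ⟨⟨y, ξ⟩, h₆, h₇, h₈, h₉, h⟩ := hD s hs N δ hN (τ, i, n, β)
    (by simp only [hN.cl.has_pair, hN.cl.has_nat, true_and]; exact ⟨h₁, hN.iff.2 hβ⟩)
    (x, δ) (hs.cl.has_pair.2 ⟨hx.1, hN.hd⟩) ⟨hx, hβ.le, h₃.trans_le h₄, hq⟩
  have hξ : ξ < δ := hN.iff.1 (hN.cl.has_pair.1 h₆).2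
  refine ⟨ξ, ⟨hξ.trans h₅, ?_⟩, h₈, hξ⟩
  rw [hc x hx y h₇ ξ (lt_min (hξ.trans (h₃.trans_le h₄)) h₉)]
  exact h

theorem lemE0 : ∀ᶠ D in Fl, ∀ s, Sit D s → ∀ N δ, Sub D s N δ → ∀ σ ∈ N, s.Nice σ →
    ∀ a, has s.K a → δ ≤ a → ∀ β < δ, ∀ dir : Bool,
      ∃ c < δ, agA (s.r σ) β a c ∧ ¬ (s.r σ a c ↔ dir = true) := by
  filter_upwards [rep, unbN, compX (fun s (a : V × Om × Om × Bool) (y : X) =>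
    a.2.1 ≤ y.2 ∧ y.2 ≤ (nt y.1 0).1 ∧ agA (s.r a.1) a.2.1 a.2.2.1 (nt y.1 0).1 ∧
      ∀ ξ < y.2, agA (s.r a.1) a.2.1 a.2.2.1 ξ → (s.r a.1 (nt y.1 0).1 ξ ↔ a.2.2.2 = true))]
    with D h₁ h₂ h₃ s hs N δ hN σ hσ hn a ha hδ β hβ dir
  by_contra hc
  push Not at hc
  have hx : has s.K [(a, d0.2)] := hs.cl.has_list.2 (by
    simpa using hs.cl.has_pair.2 ⟨ha, (hs.cl.has_prod.1 hs.has_d0).2⟩)
  obtain ⟨y, h₄, h₅⟩ := h₁ s hs N δ hN σ hσ hn.1 β hβ _ hx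
  have h₆ : agA (s.r σ) β a (nt y 0).1 := (h₅.nt 0).1
  have h₇ : has N (nt y 0).1 :=
    (hN.cl.has_prod.1 (hN.cl.has_list.1 h₄ _ (nt_mem (h₅.1 ▸ Nat.one_pos)))).1
  have hF := h₃ s hs N hN.cl hN.sub hN.hP (σ, β, (nt y 0).1, dir)
    (by simp only [hN.cl.has_pair, hN.cl.has_bool, and_true]; exact ⟨hσ, hN.iff.2 hβ, h₇⟩)
  obtain ⟨x, hx, x', hx', H⟩ := hn.2.adm hs (hF.mono hN.sub) (h₂ s hs N δ hN _ hF fun γ hγ =>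
    ⟨([(a, d0.2)], max β γ), ⟨hs.cl.has_pair.2 ⟨hx, hs.has_le hN (max_lt hβ hγ).le⟩,
      le_max_left _ _, (max_lt hβ hγ).le.trans hδ, h₆.symm, fun ξ hξ H =>
        hc ξ (hξ.trans (max_lt hβ hγ)) (h₆.trans H)⟩, le_max_right _ _⟩) 0 fun x hx => hx.2.2.1
  obtain ⟨-, -, a₁, a₂, a₃⟩ := hx
  obtain ⟨-, -, b₁, b₂, b₃⟩ := hx'
  refine H (Or.inr ⟨(min_le_left _ _).trans a₁, (min_le_right _ _).trans b₁, fun ξ hξ => ?_⟩)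
  by_cases h : agA (s.r σ) β (nt y 0).1 ξ
  · exact (a₃ ξ (hξ.trans_le (min_le_left _ _)) h).trans
      (b₃ ξ (hξ.trans_le (min_le_right _ _)) h).symm
  · exact ⟨fun H => r_of_ag H (fun H' => h (a₂.trans H')) (a₂.symm.trans b₂) (agA.refl _ _),
      fun H => r_of_ag H (fun H' => h (b₂.trans H')) (b₂.symm.trans a₂) (agA.refl _ _)⟩

theorem lemE : ∀ᶠ D in Fl, ∀ s, Sit D s → ∀ N δ, Sub D s N δ → ∀ σ ∈ N, s.Nice σ →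
    ∀ a, has s.K a → δ ≤ a → ∀ β < δ, (∃ c < δ, agA (s.r σ) β a c ∧ s.r σ c a) ∧
      ∃ c < δ, agA (s.r σ) β a c ∧ s.r σ a c := by
  filter_upwards [lemE0] with D hD s hs N δ hN σ hσ hn a ha hδ β hβ
  obtain ⟨c, h₁, h₂, h₃⟩ := hD s hs N δ hN σ hσ hn a ha hδ β hβ true
  obtain ⟨c', h₁', h₂', h₃'⟩ := hD s hs N δ hN σ hσ hn a ha hδ β hβ false
  refine ⟨⟨c, h₁, h₂, ?_⟩, c', h₁', h₂', by simpa using h₃'⟩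
  rcases r_tri (r := s.r σ) c a with h | rfl | h
  exacts [h, absurd h₁ hδ.not_gt, absurd (by simpa using h) h₃]

theorem cone : ∀ᶠ D in Fl, ∀ s, Sit D s → ∀ N δ, Sub D s N δ → ∀ σ ∈ N, s.LL σ →
    ∀ F, s.Adm N F → ∀ x ∈ F, δ ≤ x.2 → ∀ γ < δ, ∃ F', s.Adm N F' ∧
      (∀ y, y ∈ F' ↔ y ∈ F ∧ γ ≤ y.2 ∧ eqv (s.r σ) γ x.1 y.1) ∧ s.Unb F' := by
  filter_upwards [rep, unbN, compX (fun s (a : V × V × Om × List Pt) (y : X) =>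
    y ∈ s.vx a.2.1 ∧ a.2.2.1 ≤ y.2 ∧ eqv (s.r a.1) a.2.2.1 a.2.2.2 y.1)]
    with D h₁ h₂ h₃
  rintro s hs N δ hN σ hσ hn _ ⟨τ, hτ, _, rfl⟩ x hx hδ γ hγ
  obtain ⟨z, h₄, h₅⟩ := h₁ s hs N δ hN σ hσ hn γ hγ x.1 (hs.cl.has_prod.1 hx.1).1
  have hF := h₃ s hs N hN.cl hN.sub hN.hP (σ, τ, γ, z)
    (by simp only [hN.cl.has_pair]; exact ⟨hσ, hτ, hN.iff.2 hγ, h₄⟩)
  refine ⟨_, hF, fun y => ⟨fun h => ⟨h.2.1, h.2.2.1, h₅.trans h.2.2.2⟩,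
    fun h => ⟨h.1.1, h.1, h.2.1, h₅.symm.trans h.2.2⟩⟩, h₂ s hs N δ hN _ hF fun β hβ =>
      ⟨x, ⟨hx.1, hx, hγ.le.trans hδ, h₅.symm⟩, hβ.le.trans hδ⟩⟩

def agS (r : Om → Om → Prop) (b : Bool) (γ : Om) (p q : Pt) : Prop :=
  (b = true → agA r γ p.1 q.1) ∧ (b = false → U.ag γ p.2 q.2)

instance {α : Type*} [Code α] (σ : α → V) (b : α → Bool) (γ : α → Om) (f g : α → Pt) :
    Def (fun s a => agS (s.r (σ a)) (b a) (γ a) (f a) (g a)) := by unfold agS; infer_instance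

def St.Pr (s : St) (σ : V) (Z : Set X) (z : List Pt) (γ : Om) : Prop :=
  ∀ β : Om, has s.K β → ∃ y, y ∈ Z ∧ β ≤ y.2 ∧ γ ≤ y.2 ∧ eqv (s.r σ) γ z y.1

instance {α : Type*} [Code α] (σ τ : α → V) [Cf τ] (z : α → List Pt) (γ : α → Om) :
    Def (fun s a => s.Pr (σ a) (s.vx (τ a)) (z a) (γ a)) := by
  have := Cf.comp τ (fun x : α × Om => x.1)
  unfold St.Pr; infer_instance

theorem pr0 : ∀ᶠ D in Fl, ∀ s, Sit D s → ∀ N δ, Sub D s N δ → ∀ σ ∈ N, s.LL σ →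
    ∀ F, s.Adm N F → ∀ x ∈ F, δ ≤ x.2 → ∀ γ < δ, s.Pr σ F x.1 γ := by
  filter_upwards [cone] with D hD s hs N δ hN σ hσ hn F hF x hx hδ γ hγ β hβ
  obtain ⟨F', -, h₁, h₂⟩ := hD s hs N δ hN σ hσ hn F hF x hx hδ γ hγ
  obtain ⟨y, h₃, h₄⟩ := h₂ β hβ
  exact ⟨y, ((h₁ y).1 h₃).1, h₄, ((h₁ y).1 h₃).2⟩

theorem fs_step : ∀ᶠ D in Fl, ∀ s, Sit D s → ∀ N δ, Sub D s N δ → ∀ σ ∈ N, s.Nice σ →
    ∀ Z, s.Adm N Z → (∀ z, z ∈ Z → ∀ γ ≤ z.2, (z.1, γ) ∈ Z) → (∀ z, z ∈ Z → prp z) →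
    ∀ z γ, has N z → γ < δ → s.Pr σ Z z γ → ∀ i < z.length, ∀ b p,
      ∃ z' γ', has N z' ∧ γ ≤ γ' ∧ γ' < δ ∧ s.Pr σ Z z' γ' ∧ eqv (s.r σ) γ z z' ∧
        ¬ agS (s.r σ) b γ' (nt z' i) p := by
  filter_upwards [pr0, unbN, nbU, compX (fun s (a : V × V × Om × List Pt) (y : X) =>
    y ∈ s.vx a.2.1 ∧ a.2.2.1 ≤ y.2 ∧ eqv (s.r a.1) a.2.2.1 a.2.2.2 y.1 ∧
      s.Pr a.1 (s.vx a.2.1) y.1 y.2),
    elemS (fun s (a : V × V × ℕ × Bool) (y : X × X) => y.1 ∈ s.vx a.2.1 ∧ y.2 ∈ s.vx a.2.1 ∧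
      ¬ agS (s.r a.1) a.2.2.2 (min y.1.2 y.2.2) (nt y.1.1 a.2.2.1) (nt y.2.1 a.2.2.1))]
    with D h₁ h₂ h₃ h₄ h₅
  rintro s hs N δ hN σ hσ hn _ ⟨τ, hτ, hτ', rfl⟩ hd hp z γ hz hγ hP i hi b p
  have hF := h₄ s hs N hN.cl hN.sub hN.hP (σ, τ, γ, z)
    (by simp only [hN.cl.has_pair]; exact ⟨hσ, hτ, hN.iff.2 hγ, hz⟩)
  have hu := h₂ s hs N δ hN _ hF fun β hβ => by
    obtain ⟨y, a₁, a₂, -, a₃⟩ := hP δ hN.hd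
    have a₄ := hd y a₁ _ ((max_lt hβ hγ).le.trans a₂)
    exact ⟨(y.1, max β γ), ⟨a₄.1, a₄, le_max_right _ _, a₃,
      h₁ s hs N δ hN σ hσ hn.1 _ ⟨τ, hτ, hτ', rfl⟩ y a₁ a₂ _ (max_lt hβ hγ)⟩, le_max_left _ _⟩
  obtain ⟨ρ, hρ, hρ', e⟩ := hF
  have hF : s.Adm N (s.vx ρ) := ⟨ρ, hρ, hρ', rfl⟩
  have e' : ∀ y : X, y ∈ s.vx ρ → y ∈ s.vx τ ∧ γ ≤ y.2 ∧ eqv (s.r σ) γ z y.1 ∧
      s.Pr σ (s.vx τ) y.1 y.2 := fun y hy => (e.ge hy).2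
  rw [e] at hu
  have hpp : ∀ y : X, y ∈ s.vx ρ → ppr y.2 (nt y.1 i) := fun y hy =>
    hp y (e' y hy).1 _ (nt_mem ((e' y hy).2.2.1.1 ▸ hi))
  obtain ⟨x, hx, y, hy, H⟩ : ∃ x ∈ (s.vx ρ : Set X), ∃ y ∈ (s.vx ρ : Set X),
      ¬ agS (s.r σ) b (min x.2 y.2) (nt x.1 i) (nt y.1 i) := by
    cases b
    · obtain ⟨x, hx, y, hy, H⟩ := h₃ s hs N δ hN _ hF hu i fun x hx => (hpp x hx).2
      exact ⟨x, hx, y, hy, fun h => H (h.2 rfl)⟩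
    · obtain ⟨x, hx, y, hy, H⟩ := hn.2.adm hs (hF.mono hN.sub) hu i fun x hx => (hpp x hx).1
      exact ⟨x, hx, y, hy, fun h => H (h.1 rfl)⟩
  obtain ⟨⟨x, y⟩, a₁, hx, hy, H⟩ := h₅ s hs N δ hN (σ, ρ, i, b)
    (by simp only [hN.cl.has_pair, hN.cl.has_nat, hN.cl.has_bool, and_true]; exact ⟨hσ, hρ⟩)
    (x, y) (hs.cl.has_pair.2 ⟨hx.1, hy.1⟩) ⟨hx, hy, H⟩
  obtain ⟨a₂, a₃⟩ := hN.cl.has_pair.1 a₁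
  by_cases h : agS (s.r σ) b x.2 (nt x.1 i) p
  · refine ⟨y.1, y.2, (hN.cl.has_prod.1 a₃).1, (e' y hy).2.1, hN.has_lt a₃, (e' y hy).2.2.2,
      (e' y hy).2.2.1, fun h' => H ⟨fun e => ?_, fun e => ?_⟩⟩
    · exact ((h.1 e).mono (min_le_left _ _)).trans ((h'.1 e).mono (min_le_right _ _)).symm
    · exact ((h.2 e).mono (min_le_left _ _)).trans ((h'.2 e).mono (min_le_right _ _)).symm
  · exact ⟨x.1, x.2, (hN.cl.has_prod.1 a₂).1, (e' x hx).2.1, hN.has_lt a₂, (e' x hx).2.2.2,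
      (e' x hx).2.2.1, h⟩

theorem fs : ∀ᶠ D in Fl, ∀ s, Sit D s → ∀ N δ, Sub D s N δ → ∀ σ ∈ N, s.Nice σ →
    ∀ Z, s.Adm N Z → (∀ z, z ∈ Z → ∀ γ ≤ z.2, (z.1, γ) ∈ Z) → (∀ z, z ∈ Z → prp z) →
    ∀ w, (w, δ) ∈ Z → ∃ z γ, has N z ∧ γ < δ ∧ (z, γ) ∈ Z ∧ spl (s.r σ) γ z w := by
  filter_upwards [fs_step, pr0, rep, elemS (fun s (a : V × V × Om × List Pt) (y : List Pt) =>
    (y, a.2.2.1) ∈ s.vx a.2.1 ∧ eqv (s.r a.1) a.2.2.1 a.2.2.2 y)]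
    with D h₁ h₂ h₃ h₄ s hs N δ hN σ hσ hn Z hZ hd hp w hw
  have key : ∀ n ≤ w.length, ∃ z γ, has N z ∧ γ < δ ∧ s.Pr σ Z z γ ∧ z.length = w.length ∧
      ∀ i < n, psp (s.r σ) γ (nt z i) (nt w i) := by
    intro n hn'
    induction n with
    | zero =>
      obtain ⟨z, a₁, a₂⟩ := h₃ s hs N δ hN σ hσ hn.1 ⊥ hN.lim.1 w (hs.cl.has_pair.1 (hZ.has hw)).1
      refine ⟨z, ⊥, a₁, hN.lim.1, fun β hβ => ?_, a₂.1.symm, by simp⟩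
      obtain ⟨y, b₁, b₂, b₃, b₄⟩ := h₂ s hs N δ hN σ hσ hn.1 Z hZ _ hw le_rfl ⊥ hN.lim.1 β hβ
      exact ⟨y, b₁, b₂, b₃, a₂.symm.trans b₄⟩
    | succ n ih =>
      obtain ⟨z, γ, a₁, a₂, a₃, a₄, a₅⟩ := ih (by omega)
      obtain ⟨z', γ', b₁, b₂, b₃, b₄, b₅, b₆⟩ := h₁ s hs N δ hN σ hσ hn Z hZ hd hp z γ a₁ a₂ a₃ n
        (by omega) true (nt w n)
      obtain ⟨z'', γ'', c₁, c₂, c₃, c₄, c₅, c₆⟩ := h₁ s hs N δ hN σ hσ hn Z hZ hd hp z' γ' b₁ b₃ b₄ n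
        (by have := b₅.1; omega) false (nt w n)
      refine ⟨z'', γ'', c₁, c₃, c₄, c₅.1.symm.trans (b₅.1.symm.trans a₄), fun i hi => ?_⟩
      rcases Nat.lt_succ_iff_lt_or_eq.1 hi with hi | rfl
      · exact ((a₅ i hi).congr ((b₅.trans (c₅.mono b₂)).nt i) (peq.refl _ _)).mono (b₂.trans c₂)
      · exact ⟨fun H => b₆ ⟨fun _ => (c₅.nt i).1.trans (H.mono c₂), by simp⟩,
          fun H => c₆ ⟨by simp, fun _ => H⟩⟩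
  obtain ⟨z, γ, a₁, a₂, a₃, a₄, a₅⟩ := key _ le_rfl
  obtain ⟨y, b₁, -, b₂, b₃⟩ := a₃ ⊥ hs.bas.bot
  obtain ⟨τ, hτ, -, rfl⟩ := hZ
  obtain ⟨z', c₁, c₂, c₃⟩ := h₄ s hs N δ hN (σ, τ, γ, z)
    (by simp only [hN.cl.has_pair]; exact ⟨hσ, hτ, hN.iff.2 a₂, a₁⟩) y.1
    (hs.cl.has_prod.1 b₁.1).1 ⟨hd y b₁ γ b₂, b₃⟩
  exact ⟨z', γ, c₁, a₂, c₂, spl.congr ⟨a₄, a₄ ▸ a₅⟩ c₃ (eqv.refl _ _)⟩

theorem St.Unb.two {D s} (hs : Sit D s) {F} (hF : s.Adm s.K F) (h : s.Unb F) :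
    ∃ x ∈ F, ∃ y ∈ F, x.2 ≠ y.2 := by
  obtain ⟨x, hx, -⟩ := h ⊥ hs.bas.bot
  obtain ⟨β, h₁, h₂⟩ := hs.bas.up (hs.cl.has_prod.1 (hF.has hx)).2
  obtain ⟨y, hy, h₃⟩ := h β h₁
  exact ⟨x, hx, y, hy, (h₂.trans_le h₃).ne⟩

theorem good_empty : ∀ᶠ D in Fl, ∀ s, Sit D s → ∀ N τ, Sub D s N τ.1 → s.IsTr τ N → ∀ σ,
    s.Good σ τ ∅ := by
  filter_upwards [unbN, compX (fun s (a : V) (y : X) => y ∈ s.vx a ∧ y.1 = [])]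
    with D h₁ h₂ s hs N τ hN hτ σ
  rw [St.good_iff hτ]
  rintro x - hx _ ⟨ρ, a₁, a₂, rfl⟩ hT β hβ
  obtain rfl : x = [] := List.eq_nil_iff_forall_not_mem.2 hx
  by_contra hc
  push Not at hc
  have hF := h₂ s hs N hN.cl hN.sub hN.hP ρ a₁
  obtain ⟨F', b₁, b₂, b₃, b₄⟩ := St.null_iff.1 hT _ (hF.mono hN.sub) (fun y hy => hy.2.1)
    (h₁ s hs N _ hN _ hF fun γ hγ => by
      obtain ⟨y, c₁, c₂, c₃⟩ := hc (max β γ) (max_lt hβ hγ) (le_max_left _ _)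
      exact ⟨y, ⟨c₁.1, c₁, List.length_eq_zero_iff.1 c₃.1.symm⟩, c₂ ▸ le_max_right _ _⟩)
  obtain ⟨x, hx, y, hy, H⟩ := b₃.two hs b₁
  refine b₄ x hx y hy H ?_
  rw [(b₂ hx).2.2, (b₂ hy).2.2]
  exact ⟨rfl, by simp⟩

end Pool.Agent.MP_656653_lc
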