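import Pool.Agent.MP_656653_lc.Top

/-! The generic embedding. -/

set_option synthInstance.maxSize 1000000

namespace Pool.Agent.MP_656653_lc

open Set Filter Item

theorem loc : ∀ᶠ D in Fl, D.Countable → ∀ ν : Tag, ν.k2 = true → ∀ q, PP D q → tr ν ∈ q →
    ∀ z : V, ∃ K g, Sit D ⟨K, ν.P, g⟩ ∧ res ν.W q ∈ g ∧ z ∈ K ∧ has K ν ∧
      (St.Nice ⟨K, ν.P, g⟩ ν.sA → Ctx D ⟨K, ν.P, g⟩ ν.sA (pt '' wS ν q) (TS ν q) ∧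
        St.Dich ⟨K, ν.P, g⟩ ν.sA) ∧
      ∀ y, has K y → St.Val2 ⟨K, ν.P, g⟩ ν.sA (insert y (pt '' wS ν q)) (TS ν q) →
        ∃ r, PP D r ∧ q ⊆ r ∧ atm ν (mkX y) ∈ r := by
  filter_upwards [ev_n0, val_frc, val_of, sub_node, pprime, dich] with D n h₁ h₂ h₃ h₄ h₅
  intro hD ν hk q hq hν z
  have hν' := hq.tg hν
  obtain ⟨K, g, hs, c₁, c₂⟩ := exists_sit' hD (hq.res_mem n hν) (z, q)
  obtain ⟨c₂, c₃⟩ := hs.cl.has_pair.1 c₂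
  have hK := hs.cl.has_tr.1 (hs.cl.has_finset.1 c₃ _ hν)
  obtain ⟨-, v₁, v₂⟩ := (h₂ ν K g hs hK q c₃ (hq.vd ν hν) c₁).resolve_right fun H => by
    simp [hk] at H
  refine ⟨K, g, hs, c₁, c₂, hK, fun hn => ⟨⟨hs, hn, (wS_fin _ _).image _, TS_fin _ _, v₂, ?_, ?_⟩,
    h₅ hD ν hν' hk (h₄ hD ν hν') K g hs _ (hs.cl.has_tag.1 hK).2.2.2.2.2.1 hn⟩, fun y hy hv => ?_⟩
  · rintro _ ⟨x, a, rfl⟩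
    exact hs.has_nt (hs.cl.has_prod.1 (has_wS hs.cl c₃ ν x a)).1 0
  · rintro _ ⟨N, a₁, a₂, rfl⟩
    exact ⟨N, md_mk hν'.ok hk (h₃ ν (h₄ hD ν hν') K g hs q c₃ hq.sc hν c₁ N a₁ a₂) a₂⟩
  obtain ⟨c, a₁, a₂⟩ := (h₁ ν K g hs hK (insert (mkX y) (wS ν q)) (TS ν q) ((wS_fin _ _).insert _)
    (TS_fin _ _) (fun x hx => hx.elim (fun e => e ▸ (has_mkX hs.cl hs.bas).2 hy)
      (has_wS hs.cl c₃ ν x)) (has_TS hs.cl hs.bas c₃ hK)).1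
    (Or.inl ⟨hk, fun x hx => hx.elim (fun e => e ▸ rfl) (v₁ x), by rwa [image_insert_eq]⟩)
  obtain ⟨u, u₁, u₂, u₃⟩ := hs.dir a₁ c₁
  exact ⟨_, hq.ext n hν (hs.subP u₁) u₃ (a₂.mono u₂ (Abv.of_sub subset_rfl)),
    fun x hx => by simp [hx], Finset.mem_insert_self _ _⟩

def Top.F {D} (T : Top D) (ν : Tag) (a : Om) (t : U) : Prop := ∃ q ∈ T.G, atm ν (mkX (a, t)) ∈ q

theorem Top.F.has {D} {T : Top D} (n : N0 D) {ν a t} (h : T.F ν a t) : has T.K a ∧ has T.K t := by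
  obtain ⟨q, a₁, a₂⟩ := h
  exact T.cl.has_pair.1 ((has_mkX T.cl (n.bas T.cl)).1 (has_wS T.cl (Top.hK a₁) ν _ a₂))

theorem emb_ord : ∀ᶠ D in Fl, ∀ (T : Top D) ν, T.On ν → ν.k2 = true → ∀ a t a' t',
    T.F ν a t → T.F ν a' t' → ((T.st ν).r ν.sA a a' ↔ t < t') := by
  filter_upwards [ev_n0, val_of] with D n h₁
  rintro T ν h hk a t a' t' ⟨p, p₁, p₂⟩ ⟨q, q₁, q₂⟩
  obtain ⟨r, r₁, r₂, r₃⟩ := Top.dir p₁ q₁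
  have r₄ := (Top.pp r₁).atm _ _ (r₂ p₂)
  obtain ⟨-, -, v⟩ := (h₁ ν _ _ (h.sit n) h.hK r (Top.hK r₁) ((Top.pp r₁).vd ν r₄)
    (Top.res_mem n r₁ r₄)).resolve_right fun H => by simp [hk] at H
  exact v.2.1 (a, t) ⟨_, r₂ p₂, rfl⟩ (a', t') ⟨_, r₃ q₂, rfl⟩

theorem top_frc {α : Type*} [Code α] (Φ : St → α → Prop) [Def Φ] : ∀ᶠ D in Fl, ∀ (T : Top D) ν,
    T.On ν → ∀ a, has T.K a → Φ (T.st ν) a → ∀ p ∈ T.G, ∃ p' ∈ T.G, p ⊆ p' ∧ tr ν ∈ p' ∧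
      ∀ q, p' ⊆ q → ∀ K g, Sit D ⟨K, ν.P, g⟩ → res ν.W q ∈ g → has K a → Φ ⟨K, ν.P, g⟩ a := by
  filter_upwards [ev_n0, Def.frc Φ] with D n h₁ T ν h a ha H p hp
  obtain ⟨b, b₁, b₂⟩ := (h₁ _ (h.sit n) a ha).1 H
  have hW := h.tg.tw
  obtain ⟨c, c₁, c₂⟩ := h
  obtain ⟨r, r₁, r₂, r₃⟩ := Top.dir b₁.1 c₁
  obtain ⟨p', d₁, d₂, d₃⟩ := Top.dir hp r₁
  exact ⟨p', d₁, d₂, d₃ (r₃ c₂), fun q hq K g hs e₁ e₂ => (h₁ _ hs a e₂).2 ⟨_, e₁, b₂.mono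
    fun x hx => mem_res.2 ⟨hq (d₃ (r₂ hx)), hW.cl.has_finset.1 b₁.2 x hx⟩⟩⟩

theorem emb_tot : ∀ᶠ D in Fl, D.Countable → ∀ (T : Top D) ν, T.On ν → ν.k2 = true →
    (T.st ν).Nice ν.sA → ∀ a, has T.K a → ∃ t, T.F ν a t := by
  filter_upwards [ev_n0, loc, top_frc (fun s (ν : Tag) => s.Nice ν.sA), dens1]
    with D n h₁ h₂ h₃ hD T ν h hk hn a ha
  obtain ⟨p, p₁, -, p₂, p₃⟩ := h₂ T ν h _ h.hK hn _ Top.emp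
  obtain ⟨q, q₁, y, e, t, q₂⟩ := Top.dens 4 (z := enc (ν, a)) (T.cl.has_pair.2 ⟨h.hK, ha⟩) T.om p₁
    fun q hq hpq => by
      obtain ⟨K, g, hs, a₁, a₂, a₃, a₄, a₅⟩ := h₁ hD ν hk q hq (hpq p₂) (enc a)
      obtain ⟨b₁, b₂⟩ := a₄ (p₃ q hpq K g hs a₁ a₃)
      obtain ⟨t, c₁, c₂⟩ := h₃ _ _ _ _ b₁ b₂ (TS_inj n hq.sc ν) a a₂
      obtain ⟨r, r₁, r₂, r₃⟩ := a₅ _ (hs.cl.has_pair.2 ⟨a₂, c₁⟩) c₂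
      exact ⟨r, r₁, r₂, _, rfl, t, r₃⟩
  obtain rfl := Code.inj e
  exact ⟨t, q, q₁, q₂⟩

theorem emb_L : ∀ᶠ D in Fl, D.Countable → ∀ (T : Top D) ν, T.On ν → ν.k2 = true →
    (T.st ν).Nice ν.sA → ∀ a t u, T.F ν a t → u < t → has T.K u →
    (∃ c, has T.K c ∧ (T.st ν).r ν.sA c a) → ∃ a', has T.K a' ∧ (T.st ν).r ν.sA a' a ∧
      ((∀ c, has T.K c → ¬ ((T.st ν).r ν.sA a' c ∧ (T.st ν).r ν.sA c a)) ∨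
        ∃ w, u < w ∧ T.F ν a' w) := by
  filter_upwards [ev_n0, loc, top_frc (fun s (x : V × Om) => s.Nice x.1 ∧
    (∃ c, has s.K c ∧ s.r x.1 c x.2) ∧ ¬ ∃ a', has s.K a' ∧ s.r x.1 a' x.2 ∧
      ∀ c, has s.K c → ¬ (s.r x.1 a' c ∧ s.r x.1 c x.2)), dens2L, emb_ord]
    with D n h₁ h₂ h₃ h₄ hD T ν h hk hn a t u hF hu huK hc
  by_contra H
  obtain ⟨ha, ht⟩ := hF.has n
  obtain ⟨p₀, p₄, p₅⟩ := id hF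
  obtain ⟨p, p₁, p₆, p₂, p₃⟩ := h₂ T ν h (ν.sA, a) (T.cl.has_pair.2
    ⟨(T.cl.has_tag.1 h.hK).2.2.2.2.2.1, ha⟩)
    ⟨hn, hc, fun ⟨a', b₁, b₂, b₃⟩ => H ⟨a', b₁, b₂, Or.inl b₃⟩⟩ _ p₄
  obtain ⟨q, q₁, y, e, c, w, q₂, q₃, q₄⟩ := Top.dens 5 (z := enc (ν, u, t))
    (T.cl.has_pair.2 ⟨h.hK, T.cl.has_pair.2 ⟨huK, ht⟩⟩) T.om p₁ fun q hq hpq => by
      obtain ⟨K, g, hs, a₁, a₂, a₃, a₄, a₅⟩ := h₁ hD ν hk q hq (hpq p₂) (enc (a, u))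
      replace a₂ := hs.cl.has_pair.1 a₂
      obtain ⟨b₀, b₃, b₄⟩ := p₃ q hpq K g hs a₁ (hs.cl.has_pair.2
        ⟨(hs.cl.has_tag.1 a₃).2.2.2.2.2.1, a₂.1⟩)
      have m : (a, t) ∈ pt '' wS ν q := ⟨_, hpq (p₆ p₅), rfl⟩
      obtain ⟨a', c₁, c₂, c₃ | ⟨w, c₃, c₄, c₅⟩⟩ := h₃ _ _ _ _ (a₄ b₀).1 a t u m hu a₂.2 b₃
      · exact absurd ⟨a', c₁, c₂, c₃⟩ b₄
      obtain ⟨r, r₁, r₂, r₃⟩ := a₅ _ (hs.cl.has_pair.2 ⟨c₁, c₃⟩) c₅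
      exact ⟨r, r₁, r₂, _, rfl, a', w, c₄, (c₅.2.1 _ (Or.inl rfl) _ (Or.inr m)).1 c₂, r₃⟩
  obtain rfl := Code.inj e
  have hF' : T.F ν c w := ⟨q, q₁, q₄⟩
  exact H ⟨c, (hF'.has n).1, (h₄ T ν h hk _ _ _ _ hF' hF).2 q₃, Or.inr ⟨w, q₂, hF'⟩⟩

theorem emb_R : ∀ᶠ D in Fl, D.Countable → ∀ (T : Top D) ν, T.On ν → ν.k2 = true →
    (T.st ν).Nice ν.sA → ∀ a t u, T.F ν a t → t < u → has T.K u →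
    (∃ c, has T.K c ∧ (T.st ν).r ν.sA a c) → ∃ a', has T.K a' ∧ (T.st ν).r ν.sA a a' ∧
      ((∀ c, has T.K c → ¬ ((T.st ν).r ν.sA c a' ∧ (T.st ν).r ν.sA a c)) ∨
        ∃ w, w < u ∧ T.F ν a' w) := by
  filter_upwards [ev_n0, loc, top_frc (fun s (x : V × Om) => s.Nice x.1 ∧
    (∃ c, has s.K c ∧ s.r x.1 x.2 c) ∧ ¬ ∃ a', has s.K a' ∧ s.r x.1 x.2 a' ∧
      ∀ c, has s.K c → ¬ (s.r x.1 c a' ∧ s.r x.1 x.2 c)), dens2R, emb_ord]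
    with D n h₁ h₂ h₃ h₄ hD T ν h hk hn a t u hF hu huK hc
  by_contra H
  obtain ⟨ha, ht⟩ := hF.has n
  obtain ⟨p₀, p₄, p₅⟩ := id hF
  obtain ⟨p, p₁, p₆, p₂, p₃⟩ := h₂ T ν h (ν.sA, a) (T.cl.has_pair.2
    ⟨(T.cl.has_tag.1 h.hK).2.2.2.2.2.1, ha⟩)
    ⟨hn, hc, fun ⟨a', b₁, b₂, b₃⟩ => H ⟨a', b₁, b₂, Or.inl b₃⟩⟩ _ p₄
  obtain ⟨q, q₁, y, e, c, w, q₂, q₃, q₄⟩ := Top.dens 5 (z := enc (ν, t, u))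
    (T.cl.has_pair.2 ⟨h.hK, T.cl.has_pair.2 ⟨ht, huK⟩⟩) T.om p₁ fun q hq hpq => by
      obtain ⟨K, g, hs, a₁, a₂, a₃, a₄, a₅⟩ := h₁ hD ν hk q hq (hpq p₂) (enc (a, u))
      replace a₂ := hs.cl.has_pair.1 a₂
      obtain ⟨b₀, b₃, b₄⟩ := p₃ q hpq K g hs a₁ (hs.cl.has_pair.2
        ⟨(hs.cl.has_tag.1 a₃).2.2.2.2.2.1, a₂.1⟩)
      have m : (a, t) ∈ pt '' wS ν q := ⟨_, hpq (p₆ p₅), rfl⟩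
      obtain ⟨a', c₁, c₂, c₃ | ⟨w, c₃, c₄, c₅⟩⟩ := h₃ _ _ _ _ (a₄ b₀).1 a t u m hu a₂.2 b₃
      · exact absurd ⟨a', c₁, c₂, c₃⟩ b₄
      obtain ⟨r, r₁, r₂, r₃⟩ := a₅ _ (hs.cl.has_pair.2 ⟨c₁, c₃⟩) c₅
      exact ⟨r, r₁, r₂, _, rfl, a', w, (c₅.2.1 _ (Or.inr m) _ (Or.inl rfl)).1 c₂, c₄, r₃⟩
  obtain rfl := Code.inj e
  have hF' : T.F ν c w := ⟨q, q₁, q₄⟩
  exact H ⟨c, (hF'.has n).1, (h₄ T ν h hk _ _ _ _ hF hF').2 q₂, Or.inr ⟨w, q₃, hF'⟩⟩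

/-- Definable relations on the ordinals are sets of the model. -/
theorem intl {α : Type*} [Code α] (Φ : St → α → Om × Om → Prop)
    [Def (fun s (x : α × Om × Om) => Φ s x.1 x.2)] : ∀ᶠ D in Fl, ∀ (T : Top D) ν, T.On ν →
    ∀ z, has T.K z → ∃ x : T.g.M, ∀ p, T.g.E p x ↔ ∃ a b, has T.K a ∧ has T.K b ∧
      Φ (T.st ν) z (a, b) ∧ p = MP_c6cf52_lc.Gen.pr (T.o a) (T.o b) := by
  filter_upwards [ev_n0, compS Φ] with D n h₁ T ν h z hz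
  have hs := h.sit n
  obtain ⟨σ, a₁, a₂, a₃⟩ := h₁ _ hs _ hs.cl subset_rfl hs.hP z hz
  obtain ⟨x, hx⟩ := Top.exists_rN true a₁
  refine ⟨x, fun p => (hx p).trans (exists₂_congr fun a b => and_congr_right fun ha =>
    and_congr_right fun hb => and_congr_left fun _ => ?_)⟩
  have hab := T.cl.has_pair.2 ⟨ha, hb⟩
  refine Iff.trans ?_ ((a₃ (a, b)).trans (and_iff_right hab))
  exact ⟨fun ⟨q, b₁, b₂⟩ => ⟨hab, q, ⟨b₁, (h.tg.mem.1 (ZFSet.pair_mem_prod.1 (a₂ b₂)).2).1⟩, b₂⟩,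
    fun ⟨_, q, b₁, b₂⟩ => ⟨q, b₁.1, b₂⟩⟩

end Pool.Agent.MP_656653_lc
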