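import Pool.Agent.MP_656653_lc.Code

/-! Generic filters over closed sets, simple names, definable properties. -/

namespace Pool.Agent.MP_656653_lc

open Set Filter

abbrev Pt := Om × U
abbrev X := List Pt × Om

structure Tag where
  W : V
  P : V
  nm : V
  dt : V
  bb : V
  k2 : Bool
  fl : Bool
  sA : V
  sF : V

instance : Code Tag :=
  Code.ofInj (fun ν => (ν.W, ν.P, ν.nm, ν.dt, ν.bb, ν.k2, ν.fl, ν.sA, ν.sF)) (by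
    rintro ⟨⟩ ⟨⟩ h
    simp only [Prod.mk.injEq] at h
    simp [h])

theorem Cl.has_tag {D K} (h : Cl D K) {ν : Tag} : has K ν ↔ ν.W ∈ K ∧ ν.P ∈ K ∧ ν.nm ∈ K ∧
    ν.dt ∈ K ∧ ν.bb ∈ K ∧ ν.sA ∈ K ∧ ν.sF ∈ K := by
  change has K (ν.W, ν.P, ν.nm, ν.dt, ν.bb, ν.k2, ν.fl, ν.sA, ν.sF) ↔ _
  simp only [h.has_pair, h.has_bool, true_and]
  rfl

inductive Item
  | cn (N : V)
  | tr (ν : Tag)
  | atm (ν : Tag) (x : X)

noncomputable def Item.cd : Item → ℕ × V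
  | .cn N => (0, N)
  | .tr ν => (1, enc ν)
  | .atm ν x => (2, enc (ν, x))

noncomputable instance : Code Item := Code.ofInj Item.cd (by
  rintro (a | a | ⟨a, x⟩) (b | b | ⟨b, y⟩) h <;> simp only [Item.cd, Prod.mk.injEq] at h <;>
    first | omega | skip
  · rw [h.2]
  · rw [Code.inj h.2]
  · have := Code.inj h.2
    rw [Prod.mk.injEq] at this
    rw [this.1, this.2])

theorem Cl.has_cn {D K} (h : Cl D K) {N : V} : has K (Item.cn N) ↔ N ∈ K :=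
  (h.has_pair (a := (0 : ℕ)) (b := N)).trans (and_iff_right (h.has_nat _))

theorem Cl.has_tr {D K} (h : Cl D K) {ν : Tag} : has K (Item.tr ν) ↔ has K ν :=
  (h.has_pair (a := (1 : ℕ)) (b := enc ν)).trans (and_iff_right (h.has_nat _))

theorem Cl.has_atm {D K} (h : Cl D K) {ν : Tag} {x : X} :
    has K (Item.atm ν x) ↔ has K ν ∧ has K x :=
  ((h.has_pair (a := (2 : ℕ)) (b := enc (ν, x))).trans (and_iff_right (h.has_nat _))).trans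
    h.has_pair

abbrev C := Finset Item

structure St where
  K : Set V
  P : V
  g : Set C

noncomputable def Nm (P : V) : V := ((allc X).prod P).powerset

structure Sit (D : Set Dp) (s : St) : Prop where
  cl : Cl D s.K
  bas : Bas s.K
  hP : s.P ∈ s.K
  hN : Nm s.P ∈ s.K
  subP : ∀ {b}, b ∈ s.g → enc b ∈ s.P
  subK : ∀ {b}, b ∈ s.g → has s.K b
  dir : ∀ {a b}, a ∈ s.g → b ∈ s.g → ∃ c ∈ s.g, a ⊆ c ∧ b ⊆ c
  up : ∀ {a b}, b ∈ s.g → a ⊆ b → enc a ∈ s.P → a ∈ s.g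
  ne : ∃ b, b ∈ s.g
  dec : ∀ {E}, E ∈ s.K → ∃ b ∈ s.g, enc b ∈ E ∨ ∀ b' : C, enc b' ∈ s.P → b ⊆ b' → enc b' ∉ E

theorem Sit.mono {D D' s} (h : Sit D s) (h' : D' ⊆ D) : Sit D' s :=
  ⟨h.cl.mono h', h.bas, h.hP, h.hN, h.subP, h.subK, h.dir, h.up, h.ne, h.dec⟩

structure Sub (D : Set Dp) (s : St) (N : Set V) (δ : Om) : Prop where
  cl : Cl D N
  bas : Bas N
  sub : N ⊆ s.K
  hP : s.P ∈ N
  gen : ∀ {E}, E ∈ N → (∃ b ∈ s.g, enc b ∈ E) → ∃ b ∈ s.g, enc b ∈ E ∧ has N b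
  iff : ∀ {a : Om}, has N a ↔ a < δ
  hd : has s.K δ

theorem Sub.lim {D s N δ} (h : Sub D s N δ) : Lim δ :=
  ⟨h.iff.1 h.bas.bot, fun γ hγ => by
    obtain ⟨b, h₁, h₂⟩ := h.bas.up (h.iff.2 hγ)
    exact ⟨b, h₂, h.iff.1 h₁⟩⟩

theorem exists_sit {p : Set Dp → Prop} (h : ∀ᶠ D in Fl, p D) {P : V} {b : C} (hb : enc b ∈ P) :
    ∃ D K g, p D ∧ D.Countable ∧ K.Countable ∧ Sit D ⟨K, P, g⟩ ∧ b ∈ g := by
  obtain ⟨D, hD, hp, hbas, h₁, h₂, h₃, h₄⟩ := Fl.ex (h.and (ev_bas.and ((ev_const P).and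
    ((ev_const (Nm P)).and ((ev_const b).and
      (ev_wit (fun (a : C × V) (c : C) => a.1 ⊆ c ∧ enc c ∈ a.2)))))))
  obtain ⟨K, hK, hc⟩ := exists_hull hD
  obtain ⟨e, he⟩ := hK.exists_eq_range ⟨_, hc.emp⟩
  have step : ∀ n, ∀ a : C, has (K : Set V) a → enc a ∈ P → ∃ c : C, has (K : Set V) c ∧
      enc c ∈ P ∧ a ⊆ c ∧ (enc c ∈ e n ∨ ∀ b' : C, enc b' ∈ P → c ⊆ b' → enc b' ∉ e n) := by
    intro n a ha haP
    by_cases H : ∃ c : C, enc c ∈ P ∧ a ⊆ c ∧ enc c ∈ e n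
    · obtain ⟨c, h₅, h₆, h₇, h₈⟩ := h₄ K hc (a, e n)
        (hc.has_pair.2 ⟨ha, show e n ∈ (K : Set V) from he ▸ mem_range_self n⟩) P (h₁ K hc) H
      exact ⟨c, h₅, h₆, h₇, Or.inl h₈⟩
    · exact ⟨a, ha, haP, subset_rfl, Or.inr fun b' h₅ h₆ h₇ => H ⟨b', h₅, h₆, h₇⟩⟩
  choose! f f₁ f₂ f₃ f₄ using step
  let q : ℕ → C := fun n => Nat.rec b f n
  have hq : ∀ n, has (K : Set V) (q n) ∧ enc (q n) ∈ P := by
    intro n
    induction n with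
    | zero => exact ⟨h₃ K hc, hb⟩
    | succ n ih => exact ⟨f₁ n _ ih.1 ih.2, f₂ n _ ih.1 ih.2⟩
  have hm : Monotone q := monotone_nat_of_le_succ fun n => f₃ n _ (hq n).1 (hq n).2
  refine ⟨D, K, {c | enc c ∈ P ∧ ∃ n, c ⊆ q n}, hp, hD, hK, ⟨hc, hbas K hc, h₁ K hc, h₂ K hc,
    fun h => h.1, ?_, ?_, ?_, ⟨b, hb, 0, subset_rfl⟩, ?_⟩, hb, 0, subset_rfl⟩
  · rintro c ⟨-, n, hn⟩
    exact hc.has_finset.2 fun a ha => hc.has_finset.1 (hq n).1 a (hn ha)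
  · rintro a c ⟨-, n, hn⟩ ⟨-, m, hm'⟩
    exact ⟨q (max n m), ⟨(hq _).2, _, subset_rfl⟩, hn.trans (hm (le_max_left _ _)),
      hm'.trans (hm (le_max_right _ _))⟩
  · rintro a c ⟨-, n, hn⟩ h₅ h₆
    exact ⟨h₆, n, h₅.trans hn⟩
  · intro E hE
    obtain ⟨n, rfl⟩ : E ∈ range e := he ▸ hE
    exact ⟨q (n + 1), ⟨(hq (n + 1)).2, n + 1, subset_rfl⟩, f₄ n _ (hq n).1 (hq n).2⟩

section
variable {α β γ : Type*} [Code α] [Code β] [Code γ]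

def St.val (s : St) (σ : V) : Set α := {x | has s.K x ∧ ∃ b ∈ s.g, enc (x, b) ∈ σ}

theorem St.val_has {s : St} {σ : V} {x : α} (h : x ∈ s.val σ) : has s.K x := h.1

theorem St.val_bd {s : St} {σ : V} {x : α} (h : x ∈ s.val σ) : enc x ∈ σ.sUnion.sUnion := by
  obtain ⟨-, b, -, h⟩ := h
  refine ZFSet.mem_sUnion.2 ⟨{enc x}, ZFSet.mem_sUnion.2 ⟨_, h, ?_⟩, by simp⟩
  change _ ∈ ZFSet.pair (enc x) (enc b)
  simp [ZFSet.pair]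

class Def (Φ : St → α → Prop) : Prop where
  out : ∃ F : V → C → α → Prop, (∀ P b b' a, b ⊆ b' → F P b a → F P b' a) ∧
    ∀ᶠ D in Fl, ∀ s, Sit D s → ∀ a, has s.K a → (Φ s a ↔ ∃ b ∈ s.g, F s.P b a)

def Frc (Φ : St → α → Prop) (P : V) (b : C) (a : α) : Prop :=
  ∀ᶠ D in Fl, ∀ K g, Sit D ⟨K, P, g⟩ → (∃ b' ∈ g, b ⊆ b') → Φ ⟨K, P, g⟩ a

omit [Code α] in
theorem Frc.mono {Φ : St → α → Prop} {P b b' a} (h : Frc Φ P b a) (h' : b ⊆ b') :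
    Frc Φ P b' a := by
  filter_upwards [h] with D hD K g hs ⟨c, hc, h₁⟩ using hD K g hs ⟨c, hc, h'.trans h₁⟩

/-- Deciding a property of conditions. -/
theorem ev_dec (F : V → C → α → Prop) : ∀ᶠ D in Fl, ∀ s, Sit D s → ∀ a, has s.K a →
    ∃ b ∈ s.g, F s.P b a ∨ ∀ b' : C, enc b' ∈ s.P → b ⊆ b' → ¬ F s.P b' a := by
  filter_upwards [ev_set (fun (a : V × α) (b : C) => F a.1 b a.2)] with D hD s hs a ha
  obtain ⟨S, h₁, -, -, h₂⟩ := hD _ hs.cl (s.P, a) (hs.cl.has_pair.2 ⟨hs.hP, ha⟩) _ hs.hP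
  obtain ⟨b, hb, h | h⟩ := hs.dec h₁
  · exact ⟨b, hb, Or.inl ((h₂ b).1 h).2⟩
  · exact ⟨b, hb, Or.inr fun b' h₃ h₄ h₅ => h b' h₃ h₄ ((h₂ b').2 ⟨h₃, h₅⟩)⟩

theorem Def.frc (Φ : St → α → Prop) [h : Def Φ] :
    ∀ᶠ D in Fl, ∀ s, Sit D s → ∀ a, has s.K a → (Φ s a ↔ ∃ b ∈ s.g, Frc Φ s.P b a) := by
  obtain ⟨F, hm, hF⟩ := h.out
  filter_upwards [hF, ev_dec F] with D hD hd s hs a ha
  constructor
  · intro H
    obtain ⟨b, hb, H⟩ := (hD s hs a ha).1 H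
    refine ⟨b, hb, ?_⟩
    filter_upwards [hF, ev_const a] with D' hD' hc K g hs' ⟨c, hc', h₁⟩
    exact (hD' _ hs' a (hc _ hs'.cl)).2 ⟨c, hc', hm _ _ _ _ h₁ H⟩
  · rintro ⟨b, hb, H⟩
    obtain ⟨b₁, hb₁, h₁ | h₁⟩ := hd s hs a ha
    · exact (hD s hs a ha).2 ⟨b₁, hb₁, h₁⟩
    · exfalso
      obtain ⟨c, hc, h₂, h₃⟩ := hs.dir hb hb₁
      obtain ⟨D', K, g, ⟨h₄, h₅, h₆⟩, -, -, hs', hc'⟩ :=
        exists_sit (H.and (hF.and (ev_const a))) (hs.subP hc)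
      obtain ⟨b₂, hb₂, h₇⟩ := (h₅ _ hs' a (h₆ _ hs'.cl)).1 (h₄ K g hs' ⟨c, hc', h₂⟩)
      obtain ⟨c', hc'', h₈, h₉⟩ := hs'.dir hc' hb₂
      exact h₁ c' (hs'.subP hc'') (h₃.trans h₈) (hm _ _ _ _ h₉ h₇)

theorem Def.congr {Φ Ψ : St → α → Prop} (h : Def Φ)
    (e : ∀ᶠ D in Fl, ∀ s, Sit D s → ∀ a, has s.K a → (Φ s a ↔ Ψ s a)) : Def Ψ := by
  obtain ⟨F, hm, hF⟩ := h.out
  refine ⟨F, hm, ?_⟩
  filter_upwards [hF, e] with D hD he s hs a ha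
  rw [← he s hs a ha, hD s hs a ha]

theorem Def.congr' {Φ Ψ : St → α → Prop} (h : Def Φ) (e : ∀ s a, Φ s a ↔ Ψ s a) : Def Ψ :=
  h.congr (Eventually.of_forall fun _ s _ a _ => e s a)

theorem Def.atom (R : V → C → α → Prop) : Def (fun s a => ∃ b ∈ s.g, R s.P b a) := by
  refine ⟨fun P b a => ∃ b₀, b₀ ⊆ b ∧ enc b₀ ∈ P ∧ R P b₀ a,
    fun P b b' a h ⟨b₀, h₁, h₂⟩ => ⟨b₀, h₁.trans h, h₂⟩, Eventually.of_forall fun D s hs a _ => ?_⟩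
  exact ⟨fun ⟨b, hb, h⟩ => ⟨b, hb, b, subset_rfl, hs.subP hb, h⟩,
    fun ⟨b, hb, b₀, h₁, h₂, h⟩ => ⟨b₀, hs.up hb h₁ h₂, h⟩⟩

theorem Def.groundP (R : V → α → Prop) : Def (fun s a => R s.P a) :=
  (Def.atom fun P _ a => R P a).congr (Eventually.of_forall fun _ _ hs _ _ =>
    ⟨fun ⟨_, _, h⟩ => h, fun h => hs.ne.imp fun _ hb => ⟨hb, h⟩⟩)

theorem Def.comp (Φ : St → β → Prop) [h : Def Φ] (f : α → β) [hf : Cf f] :
    Def (fun s a => Φ s (f a)) := by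
  obtain ⟨F, hm, hF⟩ := h.out
  refine ⟨fun P b a => F P b (f a), fun P b b' a => hm P b b' _, ?_⟩
  filter_upwards [hF, hf.out] with D hD hc s hs a ha using hD s hs _ (hc _ hs.cl a ha)

instance Def.not (Φ : St → α → Prop) [h : Def Φ] : Def (fun s a => ¬ Φ s a) := by
  obtain ⟨F, hm, hF⟩ := h.out
  refine ⟨fun P b a => ∀ b' : C, enc b' ∈ P → b ⊆ b' → ¬ F P b' a,
    fun P b b' a h H c h₁ h₂ => H c h₁ (h.trans h₂), ?_⟩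
  filter_upwards [hF, ev_dec F] with D hD hd s hs a ha
  rw [hD s hs a ha]
  constructor
  · intro H
    obtain ⟨b, hb, h | h⟩ := hd s hs a ha
    exacts [absurd ⟨b, hb, h⟩ H, ⟨b, hb, h⟩]
  · rintro ⟨b, hb, H⟩ ⟨b', hb', H'⟩
    obtain ⟨c, hc, h₁, h₂⟩ := hs.dir hb hb'
    exact H c (hs.subP hc) h₁ (hm _ _ _ _ h₂ H')

instance Def.and (Φ Ψ : St → α → Prop) [h : Def Φ] [h' : Def Ψ] :
    Def (fun s a => Φ s a ∧ Ψ s a) := by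
  obtain ⟨F, hm, hF⟩ := h.out
  obtain ⟨F', hm', hF'⟩ := h'.out
  refine ⟨fun P b a => F P b a ∧ F' P b a,
    fun P b b' a h H => ⟨hm _ _ _ _ h H.1, hm' _ _ _ _ h H.2⟩, ?_⟩
  filter_upwards [hF, hF'] with D hD hD' s hs a ha
  rw [hD s hs a ha, hD' s hs a ha]
  constructor
  · rintro ⟨⟨b, hb, H⟩, b', hb', H'⟩
    obtain ⟨c, hc, h₁, h₂⟩ := hs.dir hb hb'
    exact ⟨c, hc, hm _ _ _ _ h₁ H, hm' _ _ _ _ h₂ H'⟩
  · rintro ⟨b, hb, H, H'⟩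
    exact ⟨⟨b, hb, H⟩, b, hb, H'⟩

instance Def.or (Φ Ψ : St → α → Prop) [Def Φ] [Def Ψ] : Def (fun s a => Φ s a ∨ Ψ s a) :=
  (inferInstance : Def (fun s a => ¬ (¬ Φ s a ∧ ¬ Ψ s a))).congr' fun _ _ => by tauto

instance (priority := low) Def.imp (Φ Ψ : St → α → Prop) [Def Φ] [Def Ψ] :
    Def (fun s a => Φ s a → Ψ s a) :=
  (inferInstance : Def (fun s a => ¬ (Φ s a ∧ ¬ Ψ s a))).congr' fun _ _ => by tauto

instance Def.iff (Φ Ψ : St → α → Prop) [Def Φ] [Def Ψ] : Def (fun s a => Φ s a ↔ Ψ s a) :=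
  (inferInstance : Def (fun s a => (Φ s a ∧ Ψ s a) ∨ (¬ Φ s a ∧ ¬ Ψ s a))).congr'
    fun _ _ => by tauto

theorem Def.exB (B : V → α → V)
    (hB : ∀ᶠ D in Fl, ∀ s, Sit D s → ∀ a, has s.K a → B s.P a ∈ s.K)
    (Φ : St → α → β → Prop) [h : Def (fun s (x : α × β) => Φ s x.1 x.2)] :
    Def (fun s a => ∃ y, has s.K y ∧ enc y ∈ B s.P a ∧ Φ s a y) := by
  obtain ⟨F, hm, hF⟩ := h.out
  refine ⟨fun P b a => ∃ y, enc y ∈ B P a ∧ F P b (a, y),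
    fun P b b' a h ⟨y, h₁, h₂⟩ => ⟨y, h₁, hm _ _ _ _ h h₂⟩, ?_⟩
  filter_upwards [hF, hB, ev_wit (fun (x : V × C × α) (y : β) => F x.1 x.2.1 (x.2.2, y))]
    with D hD hB hw s hs a ha
  constructor
  · rintro ⟨y, h₁, h₂, h₃⟩
    obtain ⟨b, hb, h⟩ := (hD s hs (a, y) (hs.cl.has_pair.2 ⟨ha, h₁⟩)).1 h₃
    exact ⟨b, hb, y, h₂, h⟩
  · rintro ⟨b, hb, h⟩
    obtain ⟨y, h₁, h₂, h₃⟩ := hw _ hs.cl (s.P, b, a)
      (hs.cl.has_pair.2 ⟨hs.hP, hs.cl.has_pair.2 ⟨hs.subK hb, ha⟩⟩) _ (hB s hs a ha) h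
    exact ⟨y, h₁, h₂, (hD s hs (a, y) (hs.cl.has_pair.2 ⟨ha, h₁⟩)).2 ⟨b, hb, h₃⟩⟩

/-- Guards: properties that put the variable into the model and bound it. -/
class Grd (R : St → α → β → Prop) : Prop where
  out : ∃ B : V → α → V, ∀ᶠ D in Fl, ∀ s, Sit D s → ∀ a, has s.K a →
    B s.P a ∈ s.K ∧ ∀ y, R s a y → has s.K y ∧ enc y ∈ B s.P a

instance Def.exG (R Φ : St → α → β → Prop) [hR : Grd R]
    [Def (fun s (x : α × β) => R s x.1 x.2)] [Def (fun s (x : α × β) => Φ s x.1 x.2)] :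
    Def (fun s a => ∃ y, R s a y ∧ Φ s a y) := by
  obtain ⟨B, hB⟩ := hR.out
  refine (Def.exB B (hB.mono fun D h s hs a ha => (h s hs a ha).1)
    (fun s a y => R s a y ∧ Φ s a y)).congr (hB.mono fun D h s hs a ha => ?_)
  exact ⟨fun ⟨y, _, _, h⟩ => ⟨y, h⟩, fun ⟨y, h'⟩ =>
    ⟨y, ((h s hs a ha).2 y h'.1).1, ((h s hs a ha).2 y h'.1).2, h'⟩⟩

instance Def.allG (R Φ : St → α → β → Prop) [Grd R]
    [Def (fun s (x : α × β) => R s x.1 x.2)] [Def (fun s (x : α × β) => Φ s x.1 x.2)] :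
    Def (fun s a => ∀ y, R s a y → Φ s a y) :=
  (inferInstance : Def (fun s a => ¬ ∃ y, R s a y ∧ ¬ Φ s a y)).congr' fun _ _ => by simp

theorem Grd.of_small [Small.{0} β] (R : St → α → β → Prop)
    (h : ∀ᶠ D in Fl, ∀ s, Sit D s → ∀ a, has s.K a → ∀ y, R s a y → has s.K y) : Grd R := by
  refine ⟨fun _ _ => allc β, ?_⟩
  filter_upwards [h, ev_const (allc β)] with D hD hc s hs a ha
  exact ⟨hc _ hs.cl, fun y hy => ⟨hD s hs a ha y hy, enc_mem_allc y⟩⟩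

instance Grd.has [Small.{0} β] : Grd (fun s (_ : α) (y : β) => has s.K y) :=
  Grd.of_small _ (Eventually.of_forall fun _ _ _ _ _ _ h => h)

instance Grd.val (σ : α → V) [h : Cf σ] : Grd (fun s a (y : β) => y ∈ s.val (σ a)) := by
  refine ⟨fun _ a => (σ a).sUnion.sUnion, ?_⟩
  filter_upwards [h.out] with D hD s hs a ha
  exact ⟨hs.cl.uni (hs.cl.uni (hD _ hs.cl a ha)), fun y hy => ⟨hy.1, St.val_bd hy⟩⟩

instance Grd.lt (f : α → Om) : Grd (fun _ a (y : Om) => y < f a) :=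
  Grd.of_small _ (by
    filter_upwards [ev_cf f] with D hD s hs a ha y hy using hs.bas.down (hD _ hs.cl a ha) hy.le)

instance Grd.le (f : α → Om) : Grd (fun _ a (y : Om) => y ≤ f a) :=
  Grd.of_small _ (by
    filter_upwards [ev_cf f] with D hD s hs a ha y hy using hs.bas.down (hD _ hs.cl a ha) hy)

instance Grd.ltNat (f : α → ℕ) : Grd (fun _ a (y : ℕ) => y < f a) :=
  Grd.of_small _ (Eventually.of_forall fun _ _ hs _ _ y _ => hs.cl.has_nat y)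

instance Grd.finset (f : α → Finset β) [h : Cf f] : Grd (fun _ a y => y ∈ f a) := by
  refine ⟨fun _ a => enc (f a), ?_⟩
  filter_upwards [h.out] with D hD s hs a ha
  exact ⟨hD _ hs.cl a ha, fun y hy => ⟨hs.cl.has_finset.1 (hD _ hs.cl a ha) y hy,
    mem_enc_finset.2 ⟨y, hy, rfl⟩⟩⟩

instance Grd.list (f : α → List β) [h : Cf f] : Grd (fun _ a y => y ∈ f a) := by
  classical
  refine ⟨fun _ a => enc (f a).toFinset, ?_⟩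
  filter_upwards [h.out] with D hD s hs a ha
  have := hs.cl.has_list.1 (hD _ hs.cl a ha)
  exact ⟨hs.cl.has_finset.2 fun y hy => this y (List.mem_toFinset.1 hy), fun y hy => ⟨this y hy,
    mem_enc_finset.2 ⟨y, List.mem_toFinset.2 hy, rfl⟩⟩⟩

/-- Names of subsets of `X` in the model. -/
def St.nam (s : St) (σ : V) : Prop := σ ∈ s.K ∧ σ ∈ Nm s.P

instance Grd.nam : Grd (fun s (_ : α) (σ : V) => s.nam σ) :=
  ⟨fun P _ => Nm P, Eventually.of_forall fun _ _ hs _ _ => ⟨hs.hN, fun _ h => h⟩⟩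

/-- Elements of a set that lie in the model. -/
def St.inn (s : St) (B σ : V) : Prop := σ ∈ s.K ∧ σ ∈ B

instance Grd.inn (B : α → V) [h : Cf B] : Grd (fun s a (σ : V) => s.inn (B a) σ) :=
  ⟨fun _ a => B a, h.out.mono fun _ hD _ hs a ha => ⟨hD _ hs.cl a ha, fun _ h => h⟩⟩

instance Def.has (f : α → β) [h : Cf f] : Def (fun s a => has s.K (f a)) :=
  (Def.groundP fun _ _ => True).congr (h.out.mono fun _ hD _ hs a ha =>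
    iff_of_true trivial (hD _ hs.cl a ha))

instance Def.nam (f : α → V) [h : Cf f] : Def (fun s a => s.nam (f a)) :=
  (Def.groundP fun P a => f a ∈ Nm P).congr (h.out.mono fun _ hD _ hs a ha =>
    (and_iff_right (hD _ hs.cl a ha)).symm)

instance Def.inn (B f : α → V) [h : Cf f] : Def (fun s a => s.inn (B a) (f a)) :=
  (Def.groundP fun _ a => f a ∈ B a).congr (h.out.mono fun _ hD _ hs a ha =>
    (and_iff_right (hD _ hs.cl a ha)).symm)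

instance Def.val (σ : α → V) (f : α → β) [h : Cf f] : Def (fun s a => f a ∈ s.val (σ a)) :=
  (Def.atom fun _ b a => enc (f a, b) ∈ σ a).congr (h.out.mono fun _ hD _ hs a ha =>
    (and_iff_right (hD _ hs.cl a ha)).symm)

instance (priority := high) Def.ground (R : α → Prop) : Def (fun _ a => R a) :=
  Def.groundP fun _ a => R a

/-! ### Comprehension and elementarity -/

theorem compB (Φ : St → α → β → Prop) [h : Def (fun s (x : α × β) => Φ s x.1 x.2)] :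
    ∀ᶠ D in Fl, ∀ s, Sit D s → ∀ N, Cl D N → N ⊆ s.K → s.P ∈ N → ∀ a, has N a → ∀ B ∈ N,
      ∃ σ ∈ N, σ ⊆ B.prod s.P ∧ ∀ y, y ∈ s.val σ ↔ has s.K y ∧ enc y ∈ B ∧ Φ s a y := by
  obtain ⟨F, hm, hF⟩ := h.out
  filter_upwards [hF, ev_set (fun (x : V × α) (y : β × C) => F x.1 y.2 (x.2, y.1))]
    with D hD hS s hs N hN hNK hP a ha B hB
  obtain ⟨S, h₁, h₂, -, h₃⟩ := hS N hN (s.P, a) (hN.has_pair.2 ⟨hP, ha⟩) _ (hN.prod hB hP)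
  refine ⟨S, h₁, h₂, fun y => and_congr_right fun hy => ?_⟩
  rw [hD s hs (a, y) (hs.cl.has_pair.2 ⟨hNK ha, hy⟩)]
  constructor
  · rintro ⟨b, hb, h⟩
    obtain ⟨h₄, h₅⟩ := (h₃ (y, b)).1 h
    exact ⟨(ZFSet.pair_mem_prod.1 h₄).1, b, hb, h₅⟩
  · rintro ⟨h₄, b, hb, h⟩
    exact ⟨b, hb, (h₃ (y, b)).2 ⟨ZFSet.pair_mem_prod.2 ⟨h₄, hs.subP hb⟩, h⟩⟩

theorem compS [Small.{0} β] (Φ : St → α → β → Prop)
    [Def (fun s (x : α × β) => Φ s x.1 x.2)] :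
    ∀ᶠ D in Fl, ∀ s, Sit D s → ∀ N, Cl D N → N ⊆ s.K → s.P ∈ N → ∀ a, has N a →
      ∃ σ ∈ N, σ ⊆ (allc β).prod s.P ∧ ∀ y, y ∈ s.val σ ↔ has s.K y ∧ Φ s a y := by
  filter_upwards [compB Φ, ev_const (allc β)] with D hD hc s hs N hN hNK hP a ha
  obtain ⟨σ, h₁, h₂, h₃⟩ := hD s hs N hN hNK hP a ha (allc β) (hc N hN)
  exact ⟨σ, h₁, h₂, fun y => by rw [h₃, and_iff_right (enc_mem_allc y)]⟩

theorem compV (Φ : St → α → β → Prop) [Def (fun s (x : α × β) => Φ s x.1 x.2)] :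
    ∀ᶠ D in Fl, ∀ s, Sit D s → ∀ N, Cl D N → N ⊆ s.K → s.P ∈ N → ∀ a, has N a → ∀ τ ∈ N,
      ∃ σ ∈ N, ∀ y, y ∈ s.val σ ↔ y ∈ s.val τ ∧ Φ s a y := by
  have := Def.comp (fun s (x : α × β) => Φ s x.1 x.2) (fun x : (V × α) × β => (x.1.2, x.2))
  have : Def (fun s (x : (V × α) × β) => x.2 ∈ s.val x.1.1) := Def.val _ _
  filter_upwards [compB (fun s (a : V × α) (y : β) => y ∈ s.val a.1 ∧ Φ s a.2 y)] with D hD s hs N hN hNK hP a ha τ hτ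
  obtain ⟨σ, h₁, -, h₃⟩ := hD s hs N hN hNK hP (τ, a) (hN.has_pair.2 ⟨hτ, ha⟩) _
    (hN.uni (hN.uni hτ))
  exact ⟨σ, h₁, fun y => (h₃ y).trans ⟨fun h => h.2.2, fun h => ⟨h.1.1, St.val_bd h.1, h⟩⟩⟩

/-- The admissible subsets of `X` named in `N`. -/
def St.Adm (s : St) (N : Set V) (S : Set X) : Prop := ∃ σ ∈ N, s.nam σ ∧ S = s.val σ

abbrev St.vx (s : St) (σ : V) : Set X := s.val σ

theorem St.Adm.mono {s : St} {N N' : Set V} {S} (h : s.Adm N S) (h' : N ⊆ N') : s.Adm N' S := by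
  obtain ⟨σ, h₁, h₂⟩ := h
  exact ⟨σ, h' h₁, h₂⟩

theorem St.Adm.has {s : St} {N : Set V} {S} (h : s.Adm N S) {x} (hx : x ∈ S) : has s.K x := by
  obtain ⟨σ, -, -, rfl⟩ := h
  exact hx.1

theorem compX (Φ : St → α → X → Prop) [Def (fun s (x : α × X) => Φ s x.1 x.2)] :
    ∀ᶠ D in Fl, ∀ s, Sit D s → ∀ N, Cl D N → N ⊆ s.K → s.P ∈ N → ∀ a, has N a →
      s.Adm N {y | has s.K y ∧ Φ s a y} := by
  filter_upwards [compS Φ] with D hD s hs N hN hNK hP a ha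
  obtain ⟨σ, h₁, h₂, h₃⟩ := hD s hs N hN hNK hP a ha
  exact ⟨σ, h₁, ⟨hNK h₁, ZFSet.mem_powerset.2 h₂⟩, Set.ext fun y => (h₃ y).symm⟩

theorem elemB (Φ : St → α → β → Prop) [h : Def (fun s (x : α × β) => Φ s x.1 x.2)] :
    ∀ᶠ D in Fl, ∀ s, Sit D s → ∀ N δ, Sub D s N δ → ∀ a, has N a → ∀ B ∈ N,
      (∃ y, has s.K y ∧ enc y ∈ B ∧ Φ s a y) → ∃ y, has N y ∧ enc y ∈ B ∧ Φ s a y := by
  obtain ⟨F, hm, hF⟩ := h.out
  filter_upwards [hF,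
    ev_set (fun (x : V × V × α) (b : C) => ∃ y : β, enc y ∈ x.2.1 ∧ F x.1 b (x.2.2, y)),
    ev_wit (fun (x : V × C × α) (y : β) => F x.1 x.2.1 (x.2.2, y))]
    with D hD hS hw s hs N δ hN a ha B hB ⟨y, h₁, h₂, h₃⟩
  obtain ⟨S, h₄, -, -, h₅⟩ := hS N hN.cl (s.P, B, a)
    (hN.cl.has_pair.2 ⟨hN.hP, hN.cl.has_pair.2 ⟨hB, ha⟩⟩) _ hN.hP
  obtain ⟨b, hb, h⟩ := (hD s hs (a, y) (hs.cl.has_pair.2 ⟨hN.sub ha, h₁⟩)).1 h₃
  obtain ⟨b, hb, h₆, h₇⟩ := hN.gen h₄ ⟨b, hb, (h₅ b).2 ⟨hs.subP hb, y, h₂, h⟩⟩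
  obtain ⟨y, h₈, h₉, h⟩ := hw N hN.cl (s.P, b, a)
    (hN.cl.has_pair.2 ⟨hN.hP, hN.cl.has_pair.2 ⟨h₇, ha⟩⟩) _ hB ((h₅ b).1 h₆).2
  exact ⟨y, h₈, h₉, (hD s hs (a, y) (hs.cl.has_pair.2 ⟨hN.sub ha, hN.sub h₈⟩)).2 ⟨b, hb, h⟩⟩

theorem elemS [Small.{0} β] (Φ : St → α → β → Prop)
    [Def (fun s (x : α × β) => Φ s x.1 x.2)] :
    ∀ᶠ D in Fl, ∀ s, Sit D s → ∀ N δ, Sub D s N δ → ∀ a, has N a →
      ∀ y, has s.K y → Φ s a y → ∃ y, has N y ∧ Φ s a y := by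
  filter_upwards [elemB Φ, ev_const (allc β)] with D hD hc s hs N δ hN a ha y h₁ h₂
  obtain ⟨y, h₃, -, h₄⟩ := hD s hs N δ hN a ha _ (hc N hN.cl) ⟨y, h₁, enc_mem_allc y, h₂⟩
  exact ⟨y, h₃, h₄⟩

theorem elemV (Φ : St → α → β → Prop) [Def (fun s (x : α × β) => Φ s x.1 x.2)] :
    ∀ᶠ D in Fl, ∀ s, Sit D s → ∀ N δ, Sub D s N δ → ∀ a, has N a → ∀ τ ∈ N,
      ∀ y, y ∈ s.val τ → Φ s a y → ∃ y, has N y ∧ y ∈ s.val τ ∧ Φ s a y := by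
  have := Def.comp (fun s (x : α × β) => Φ s x.1 x.2) (fun x : (V × α) × β => (x.1.2, x.2))
  have : Def (fun s (x : (V × α) × β) => x.2 ∈ s.val x.1.1) := Def.val _ _
  filter_upwards [elemB (fun s (a : V × α) (y : β) => y ∈ s.val a.1 ∧ Φ s a.2 y)] with D hD s hs N δ hN a ha τ hτ y h₁ h₂
  obtain ⟨y, h₃, -, h₄⟩ := hD s hs N δ hN (τ, a) (hN.cl.has_pair.2 ⟨hτ, ha⟩) _
    (hN.cl.uni (hN.cl.uni hτ)) ⟨y, h₁.1, St.val_bd h₁, h₁, h₂⟩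
  exact ⟨y, h₃, h₄⟩

theorem elemN (Φ : St → α → V → Prop) [Def (fun s (x : α × V) => Φ s x.1 x.2)] :
    ∀ᶠ D in Fl, ∀ s, Sit D s → ∀ N δ, Sub D s N δ → Nm s.P ∈ N → ∀ a, has N a →
      ∀ σ, s.nam σ → Φ s a σ → ∃ σ ∈ N, s.nam σ ∧ Φ s a σ := by
  filter_upwards [elemB Φ] with D hD s hs N δ hN hm a ha σ h₁ h₂
  obtain ⟨y, h₃, h₄, h₅⟩ := hD s hs N δ hN a ha _ hm ⟨σ, h₁.1, h₁.2, h₂⟩
  exact ⟨y, h₃, ⟨hN.sub h₃, h₄⟩, h₅⟩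

end


end Pool.Agent.MP_656653_lc
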