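import Pool.Agent.MP_656653_lc.Elem

/-! Preservation of goodness. -/

set_option synthInstance.maxSize 1000000

namespace Pool.Agent.MP_656653_lc

open Set Filter

theorem thin : ∀ᶠ D in Fl, ∀ s, Sit D s → ∀ σ ∈ s.K, ∀ Z, s.Adm s.K Z → s.Unb Z →
    ∀ T, s.Adm s.K T → s.Null σ T → ∀ J, (∀ z ∈ Z, inS (s.r σ) T (pj J z.1) z.2) →
    ∃ Z', s.Adm s.K Z' ∧ Z' ⊆ Z ∧ s.Unb Z' ∧ ∀ x ∈ Z', ∀ y ∈ Z', x.2 ≠ y.2 →
      ¬ mat (s.r σ) (min x.2 y.2) (pj J x.1) (pj J y.1) := by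
  filter_upwards [compX (fun s (a : V × V × V × List ℕ) (y : X) => y ∈ s.vx a.2.1 ∧
      ∃ z, z ∈ s.vx a.2.2.1 ∧ y.2 = z.2 ∧ eqv (s.r a.1) z.2 (pj a.2.2.2 z.1) y.1),
    compX (fun s (a : V × V × V × List ℕ) (z : X) => z ∈ s.vx a.2.1 ∧
      inS (s.r a.1) (s.vx a.2.2.1) (pj a.2.2.2 z.1) z.2)] with D h₁ h₂
  rintro s hs σ hσ _ ⟨ζ, hζ, -, rfl⟩ hu _ ⟨τ, hτ, -, rfl⟩ hT J H
  have hF := h₁ s hs _ hs.cl subset_rfl hs.hP (σ, τ, ζ, J)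
    (by simp only [hs.cl.has_pair, hs.cl.alw J, and_true]; exact ⟨hσ, hτ, hζ⟩)
  obtain ⟨_, ⟨ρ, hρ, -, rfl⟩, a₁, a₂, a₃⟩ := St.null_iff.1 hT _ hF (fun y hy => hy.2.1)
    fun β hβ => by
      obtain ⟨z, b₁, b₂⟩ := hu β hβ
      obtain ⟨y, c₁, c₂, c₃⟩ := H z b₁
      exact ⟨y, ⟨c₁.1, c₁, z, b₁, c₂, c₃⟩, c₂ ▸ b₂⟩
  refine ⟨_, h₂ s hs _ hs.cl subset_rfl hs.hP (σ, ζ, ρ, J)
    (by simp only [hs.cl.has_pair, hs.cl.alw J, and_true]; exact ⟨hσ, hζ, hρ⟩),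
    fun y hy => hy.2.1, fun β hβ => ?_, ?_⟩
  · obtain ⟨y, b₁, b₂⟩ := a₂ β hβ
    obtain ⟨-, -, z, c₁, c₂, c₃⟩ := a₁ b₁
    exact ⟨z, ⟨c₁.1, c₁, y, b₁, c₂, c₃⟩, c₂ ▸ b₂⟩
  · rintro x ⟨-, -, x', b₁, b₂, b₃⟩ y ⟨-, -, y', c₁, c₂, c₃⟩ hne hm
    refine a₃ x' b₁ y' c₁ (by rwa [b₂, c₂]) ?_
    rw [b₂, c₂]
    exact hm.congr (b₃.mono (min_le_left _ _)) (c₃.mono (min_le_right _ _))

theorem lemG : ∀ᶠ D in Fl, ∀ s, Sit D s → ∀ N, Cl D N → N ⊆ s.K → s.P ∈ N → ∀ σ ∈ N, s.Dich σ →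
    ∀ Z, s.Adm N Z → ∀ (L : List (Set X × List ℕ)), (∀ e ∈ L, s.Adm N e.1 ∧ s.Null σ e.1) →
    ∀ J, (∀ x ∈ Z, ∀ y ∈ Z, spl (s.r σ) (min x.2 y.2) x.1 y.1 →
      mat (s.r σ) (min x.2 y.2) (pj J x.1) (pj J y.1) →
      ∃ e ∈ L, mat (s.r σ) (min x.2 y.2) (pj e.2 x.1) (pj e.2 y.1)) →
    ∃ T, s.Adm N T ∧ s.Null σ T ∧ ∀ z ∈ Z, prp z →
      (∀ e ∈ L, inS (s.r σ) e.1 (pj e.2 z.1) z.2) → (pj J z.1, z.2) ∈ T := by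
  filter_upwards [thin, compX (fun s (a : V × V × V × List ℕ) (z : X) => z ∈ s.vx a.2.1 ∧
      inS (s.r a.1) (s.vx a.2.2.1) (pj a.2.2.2 z.1) z.2),
    compX (fun s (a : V) (z : X) => z ∈ s.vx a ∧ prp z),
    compX (fun s (a : V × List ℕ) (y : X) => ∃ z, z ∈ s.vx a.1 ∧ y = (pj a.2 z.1, z.2)),
    compX (fun s (a : V × V × List ℕ) (z : X) => z ∈ s.vx a.1 ∧ (pj a.2.2 z.1, z.2) ∈ s.vx a.2.1)]
    with D h₁ h₂ h₃ h₄ h₅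
  rintro s hs N hN hNK hP σ hσ hD _ ⟨ζ, hζ, -, rfl⟩ L hL J H
  obtain ⟨Z₁, ⟨ζ₁, hζ₁, -, rfl⟩, e₁⟩ : ∃ Z₁, s.Adm N Z₁ ∧ ∀ z, z ∈ Z₁ ↔ z ∈ s.vx ζ ∧ prp z ∧
      ∀ e ∈ L, inS (s.r σ) e.1 (pj e.2 z.1) z.2 := by
    clear H
    induction L with
    | nil => exact ⟨_, h₃ s hs N hN hNK hP ζ hζ, fun z =>
        ⟨fun h => ⟨h.2.1, h.2.2, by simp⟩, fun h => ⟨h.1.1, h.1, h.2.1⟩⟩⟩
    | cons e L ih =>
      obtain ⟨_, ⟨ζ₁, hζ₁, -, rfl⟩, e₁⟩ := ih fun e he => hL e (List.mem_cons_of_mem _ he)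
      obtain ⟨⟨τ, hτ, -, e₂⟩, -⟩ := hL e List.mem_cons_self
      refine ⟨_, h₂ s hs N hN hNK hP (σ, ζ₁, τ, e.2)
        (by simp only [hN.has_pair, hN.alw e.2, and_true]; exact ⟨hσ, hζ₁, hτ⟩), fun z => ?_⟩
      simp only [mem_ofPred_eq, List.forall_mem_cons, e₁, St.vx, ← e₂]
      exact ⟨fun h => ⟨h.2.1.1, h.2.1.2.1, h.2.2, h.2.1.2.2⟩,
        fun h => ⟨h.1.1, ⟨h.1, h.2.1, h.2.2.2⟩, h.2.2.1⟩⟩
  refine ⟨_, h₄ s hs N hN hNK hP (ζ₁, J) (hN.has_pair.2 ⟨hζ₁, hN.alw J⟩), St.null_iff.2 ?_,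
    fun z a₁ a₂ a₃ => ⟨hs.cl.has_pair.2 ⟨hs.has_pj (hs.cl.has_prod.1 a₁.1).1 J,
      (hs.cl.has_prod.1 a₁.1).2⟩, z, (e₁ z).2 ⟨a₁, a₂, a₃⟩, rfl⟩⟩
  rintro _ ⟨φ, hφ, -, rfl⟩ a₁ a₂
  have hZ₂ := h₅ s hs _ hs.cl subset_rfl hs.hP (ζ₁, φ, J)
    (by simp only [hs.cl.has_pair, hs.cl.alw J, and_true]; exact ⟨hNK hζ₁, hφ⟩)
  obtain ⟨Z₃, b₁, b₂, b₃, b₄⟩ := (hD _ hZ₂ (fun β hβ => by
    obtain ⟨y, c₁, c₂⟩ := a₂ β hβ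
    obtain ⟨-, z, c₃, rfl⟩ := a₁ c₁
    exact ⟨z, ⟨c₃.1, c₃, c₁⟩, c₂⟩) (fun z hz => ((e₁ z).1 hz.2.1).2.1) false).resolve_right (by simp)
  obtain ⟨_, ⟨ζ₄, hζ₄, -, rfl⟩, c₂, c₃, c₄⟩ : ∃ Z₄, s.Adm s.K Z₄ ∧ Z₄ ⊆ Z₃ ∧ s.Unb Z₄ ∧
      ∀ e ∈ L, ∀ x ∈ Z₄, ∀ y ∈ Z₄, x.2 ≠ y.2 →
        ¬ mat (s.r σ) (min x.2 y.2) (pj e.2 x.1) (pj e.2 y.1) := by
    have hL' : ∀ e ∈ L, s.Adm N e.1 ∧ s.Null σ e.1 ∧ ∀ z ∈ Z₃, inS (s.r σ) e.1 (pj e.2 z.1) z.2 :=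
      fun e he => ⟨(hL e he).1, (hL e he).2, fun z hz => ((e₁ z).1 (b₂ hz).2.1).2.2 e he⟩
    clear H e₁ hL
    induction L with
    | nil => exact ⟨Z₃, b₁, subset_rfl, b₃, by simp⟩
    | cons e L ih =>
      obtain ⟨Z₄, c₁, c₂, c₃, c₄⟩ := ih fun e he => hL' e (List.mem_cons_of_mem _ he)
      obtain ⟨d₁, d₂, d₃⟩ := hL' e List.mem_cons_self
      obtain ⟨Z₅, f₁, f₂, f₃, f₄⟩ := h₁ s hs σ (hNK hσ) Z₄ c₁ c₃ e.1 (d₁.mono hNK) d₂ e.2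
        fun z hz => d₃ z (c₂ hz)
      exact ⟨Z₅, f₁, f₂.trans c₂, f₃, List.forall_mem_cons.2
        ⟨f₄, fun e he x hx y hy => c₄ e he x (f₂ hx) y (f₂ hy)⟩⟩
  refine ⟨_, h₄ s hs _ hs.cl subset_rfl hs.hP (ζ₄, J) (hs.cl.has_pair.2 ⟨hζ₄, hs.cl.alw J⟩),
    ?_, fun β hβ => ?_, ?_⟩
  · rintro _ ⟨-, z, hz, rfl⟩
    exact (b₂ (c₂ hz)).2.2
  · obtain ⟨z, d₁, d₂⟩ := c₃ β hβ
    exact ⟨(pj J z.1, z.2), ⟨(b₂ (c₂ d₁)).2.2.1, z, d₁, rfl⟩, d₂⟩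
  · rintro _ ⟨-, x, hx, rfl⟩ _ ⟨-, y, hy, rfl⟩ hne hm
    obtain ⟨e, he, h⟩ := H x ((e₁ x).1 (b₂ (c₂ hx)).2.1).1 y ((e₁ y).1 (b₂ (c₂ hy)).2.1).1
      (b₄ x (c₂ hx) y (c₂ hy) hne).1 hm
    exact c₄ e he x hx y hy hne h

theorem exists_idx {z x : List Pt} {S : ℕ → Prop} (h : ∀ p ∈ x, ∃ i, S i ∧ nt z i = p) :
    ∃ J, (∀ i ∈ J, S i) ∧ pj J z = x := by
  choose! f h₁ h₂ using h
  refine ⟨x.map f, List.forall_mem_map.2 h₁, ?_⟩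
  unfold pj
  rw [List.map_map]
  conv_rhs => rw [← List.map_id x]
  exact List.map_congr_left h₂

theorem pj_shift (w x : List Pt) : pj ((List.range x.length).map (w.length + ·)) (w ++ x) = x := by
  conv_rhs => rw [← pj_range x]
  unfold pj
  rw [List.map_map]
  exact List.map_congr_left fun i _ => nt_append_right _ _ _

theorem pj_take (w x : List Pt) : pj (List.range w.length) (w ++ x) = w := by
  conv_rhs => rw [← pj_range w]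
  exact List.map_congr_left fun i hi => nt_append_left (List.mem_range.1 hi)

theorem nt_pj_range {n i : ℕ} (h : i < n) (y : List Pt) : nt (pj (List.range n) y) i = nt y i := by
  unfold pj
  rw [nt_map _ _ (by simpa using h), List.getElem_range]

/-- The common core of the two preservation lemmas. -/
theorem lemG' : ∀ᶠ D in Fl, ∀ s, Sit D s → ∀ N τ, Sub D s N τ.1 → s.IsTr τ N → ∀ σ ∈ N,
    s.Dich σ → ∀ Q : Set Pt, (∀ q ∈ Q, has s.K q ∧ ppr τ.1 q) → s.Good σ τ Q →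
    ∀ w : List Pt, has s.K w → prp (w, τ.1) → ∀ Is : List (List ℕ),
    (∀ I ∈ Is, ∀ i ∈ I, i < w.length) → ∀ Z, s.Adm N Z → ∀ β < τ.1,
    (∀ x γ, has s.K x → β ≤ γ → γ < τ.1 → (w ++ x, γ) ∈ Z) →
    (∀ x ∈ Z, ∀ y ∈ Z, spl (s.r σ) (min x.2 y.2) x.1 y.1 →
      ∃ I ∈ Is, mat (s.r σ) (min x.2 y.2) (pj I x.1) (pj I y.1)) →
    ∃ I ∈ Is, s.Good σ τ (Q ∪ {p | p ∈ pj I w}) := by
  classical
  filter_upwards [lemG] with D h₁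
  intro s hs N τ hN hτ σ hσ hD Q hQ hG w hw hwp Is hIs Z hZ β hβ hZ₁ hZ₂
  by_contra hc
  simp only [St.good_iff hτ] at hc hG
  push Not at hc
  choose! x x₁ x₂ T T₁ T₂ b b₁ b₂ using hc
  let x₀ : List Pt := (Is.flatMap x).filter (· ∈ Q)
  have hx₀ : ∀ p ∈ x₀, p ∈ Q := fun p hp => by simpa using (List.mem_filter.1 hp).2
  have hx₀K : has s.K x₀ := hs.cl.has_list.2 fun p hp => (hQ p (hx₀ p hp)).1
  let J₀ := (List.range x₀.length).map (w.length + ·)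
  have hJ : ∀ I ∈ Is, ∃ J, (∀ i ∈ J, i ∈ J₀ ∨ i ∈ I) ∧ pj J (w ++ x₀) = x I := by
    intro I hI
    refine exists_idx fun p hp => ?_
    rcases x₂ I hI p hp with h | h
    · obtain ⟨i, hi, e⟩ := exists_nt (x := x₀) (p := p)
        (List.mem_filter.2 ⟨List.mem_flatMap.2 ⟨I, hI, hp⟩, by simpa using h⟩)
      exact ⟨w.length + i, Or.inl (List.mem_map.2 ⟨i, List.mem_range.2 hi, rfl⟩),
        (nt_append_right _ _ _).trans e⟩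
    · obtain ⟨i, hi, e⟩ := List.mem_map.1 h
      exact ⟨i, Or.inr hi, (nt_append_left (hIs I hI i hi)).trans e⟩
  choose! J J₁ J₂ using hJ
  obtain ⟨T₀, a₁, a₂, a₃⟩ := h₁ s hs N hN.cl hN.sub hN.hP σ hσ hD Z hZ (Is.map fun I => (T I, J I))
    (List.forall_mem_map.2 fun I hI => ⟨T₁ I hI, T₂ I hI⟩) J₀ fun y hy y' hy' h h' => by
      obtain ⟨I, hI, h''⟩ := hZ₂ y hy y' hy' h
      refine ⟨_, List.mem_map.2 ⟨I, hI, rfl⟩, all2_pj.2 fun i hi => ?_⟩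
      exact (J₁ I hI i hi).elim (all2_pj.1 h' i) (all2_pj.1 h'' i)
  obtain ⟨β', c₁, c₂⟩ := hN.lim.ev (List.finite_toSet Is) (Q := fun I β => b I ≤ β)
    (fun _ _ _ h h' => h'.trans h) fun I hI => ⟨b I, b₁ I hI, le_rfl⟩
  obtain ⟨γ, d₁, d₂, d₃⟩ := hG x₀ hx₀K hx₀ T₀ a₁ a₂ _ (max_lt hβ c₁)
  refine d₃ ⟨(x₀, γ), ?_, rfl, eqv.refl _ _⟩
  have := a₃ (w ++ x₀, γ) (hZ₁ x₀ γ hx₀K ((le_max_left _ _).trans d₂) d₁) (fun p hp => by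
    rcases List.mem_append.1 hp with h | h
    exacts [(hwp p h).mono d₁.le, (hQ p (hx₀ p h)).2.mono d₁.le])
    (List.forall_mem_map.2 fun I hI => by
      simp only [J₂ I hI]
      exact b₂ I hI γ d₁ ((c₂ I hI).trans ((le_max_right _ _).trans d₂)))
  simpa only [J₀, pj_shift] using this

theorem lemB : ∀ᶠ D in Fl, ∀ s, Sit D s → ∀ N τ, Sub D s N τ.1 → s.IsTr τ N → ∀ σ ∈ N,
    s.Dich σ → ∀ Q : Set Pt, (∀ q ∈ Q, has s.K q ∧ ppr τ.1 q) → s.Good σ τ Q →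
    ∀ F Z Is, (∀ x ∈ F, prp x) → s.Adm N Z → s.Large σ true F Z Is → ∀ w, (w, τ.1) ∈ Z →
    ∃ I ∈ Is, s.Good σ τ (Q ∪ {p | p ∈ pj I w}) := by
  filter_upwards [lemG', compX (fun s (a : V × ℕ) (y : X) =>
    a.2 ≤ y.1.length ∧ (pj (List.range a.2) y.1, y.2) ∈ s.vx a.1)] with D h₁ h₂
  rintro s hs N τ hN hτ σ hσ hD Q hQ hG F _ Is hF ⟨ζ, hζ, -, rfl⟩ hL w hw
  have hIs : ∀ I ∈ Is, ∀ i ∈ I, i < w.length := by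
    intro I hI i hi
    obtain ⟨x, a₁, a₂, a₃⟩ := hL.2.2.2.2 _ hw I hI
    have := a₃.symm.prp (prp.mono (hF x a₁) a₂) (nt w i) (List.mem_map.2 ⟨i, hi, rfl⟩)
    by_contra hc
    unfold nt at this
    rw [List.getD_eq_default _ _ (not_lt.1 hc)] at this
    exact hN.lim.1.not_ge this.1
  refine h₁ s hs N τ hN hτ σ hσ hD Q hQ hG w (hs.cl.has_pair.1 hw.1).1 (hL.2.2.1 _ hw) Is hIs _
    (h₂ s hs N hN.cl hN.sub hN.hP (ζ, w.length) (hN.cl.has_pair.2 ⟨hζ, hN.cl.has_nat _⟩))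
    ⊥ hN.lim.1 (fun x γ hx _ hγ => ⟨?_, by simp, ?_⟩) ?_
  · refine hs.cl.has_pair.2 ⟨hs.cl.has_list.2 fun p hp => ?_, hs.has_le hN hγ.le⟩
    rcases List.mem_append.1 hp with h | h
    exacts [hs.cl.has_list.1 (hs.cl.has_pair.1 hw.1).1 p h, hs.cl.has_list.1 hx p h]
  · simp only [pj_take]
    exact hL.2.1 _ hw γ hγ.le
  · rintro x ⟨-, a₁, a₂⟩ y ⟨-, b₁, b₂⟩ h
    obtain ⟨-, I, hI, h'⟩ := hL.2.2.2.1 _ (hL.2.1 _ a₂ _ (min_le_left x.2 y.2)) _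
      (hL.2.1 _ b₂ _ (min_le_right x.2 y.2)) rfl
      (all2_pj.2 fun i hi => h.2 i ((List.mem_range.1 hi).trans_le a₁))
    refine ⟨I, hI, all2_pj.2 fun i hi => ?_⟩
    have := all2_pj.1 h' i hi
    rwa [nt_pj_range (hIs I hI i hi), nt_pj_range (hIs I hI i hi)] at this

theorem lemC : ∀ᶠ D in Fl, ∀ s, Sit D s → ∀ N τ, Sub D s N τ.1 → s.IsTr τ N → ∀ σ ∈ N,
    s.Dich σ → ∀ Q : Set Pt, (∀ q ∈ Q, has s.K q ∧ ppr τ.1 q) → s.Good σ τ Q →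
    ∀ (a : Om) (t : Bool → U) (β : Om), has s.K a → τ.1 ≤ a → (∀ ε, has s.K (t ε)) →
    (∀ ε, τ.1 ≤ (t ε).ht) → β < τ.1 → U.Opp β τ.1 (t true) (t false) →
    ∃ ε, s.Good σ τ (insert (a, t ε) Q) := by
  filter_upwards [lemG', compX (fun _ (a : Om × U × U) (y : X) => 2 ≤ y.1.length ∧ a.1 ≤ y.2 ∧
    (nt y.1 0).1 = (nt y.1 1).1 ∧ U.ag a.1 a.2.1 (nt y.1 0).2 ∧ U.ag a.1 a.2.2 (nt y.1 1).2 ∧
    U.Opp a.1 y.2 (nt y.1 0).2 (nt y.1 1).2)] with D h₁ h₂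
  intro s hs N τ hN hτ σ hσ hD Q hQ hG a t β ha ha' ht ht' hβ ho
  obtain ⟨m, -, m₁, -, m₂, -⟩ := U.minmax β (t true)
  obtain ⟨m', -, m₁', -, m₂', -⟩ := U.minmax β (t false)
  have hw : has s.K [(a, t true), (a, t false)] := hs.cl.has_list.2 (by
    simpa using ⟨hs.cl.has_pair.2 ⟨ha, ht _⟩, hs.cl.has_pair.2 ⟨ha, ht _⟩⟩)
  obtain ⟨I, hI, H⟩ := h₁ s hs N τ hN hτ σ hσ hD Q hQ hG [(a, t true), (a, t false)] hw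
    (by simpa [prp] using ⟨⟨ha', ht' _⟩, ha', ht' _⟩) [[0], [1]] (by simp) _
    (h₂ s hs N hN.cl hN.sub hN.hP (β, m, m') (by
      simp only [hN.cl.has_pair, hN.has_u]
      exact ⟨hN.iff.2 hβ, m₂.trans_lt hβ, m₂'.trans_lt hβ⟩)) β hβ
    (fun x γ hx h h' => ⟨hs.cl.has_pair.2 ⟨hs.cl.has_list.2 fun p hp => by
      rcases List.mem_append.1 hp with h | h
      exacts [hs.cl.has_list.1 hw p h, hs.cl.has_list.1 hx p h], hs.has_le hN h'.le⟩,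
      by simp, h, rfl, m₁, m₁', ho.mono h'.le⟩) (by
      rintro x ⟨-, a₁, a₂, a₃, a₄, a₅, a₆⟩ y ⟨-, b₁, b₂, b₃, b₄, b₅, b₆⟩ h
      have p₀ := h.2 0 (by omega)
      have p₁ := h.2 1 (by omega)
      by_cases hm : s.r σ (nt x.1 0).1 (nt y.1 0).1 ↔ (nt x.1 0).2 < (nt y.1 0).2
      · exact ⟨[0], by simp, all2_pj.2 (by simpa using ⟨p₀, hm⟩)⟩
      · refine ⟨[1], by simp, all2_pj.2 (by
          simp only [List.mem_singleton, forall_eq]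
          refine ⟨p₁, ?_⟩
          rw [← a₃, ← b₃]
          have e₁ := U.Opp.lt (a₄.symm.trans b₄) (a₅.symm.trans b₅) (a₆.mono (min_le_left _ y.2))
            (b₆.mono (min_le_right x.2 _)) p₀.2
          have e₂ := U.Opp.lt (b₄.symm.trans a₄) (b₅.symm.trans a₅) (b₆.mono (min_le_right x.2 _))
            (a₆.mono (min_le_left _ y.2)) p₀.symm.2
          rcases p₀.lt_or with h' | h'
          · exact iff_of_false (fun H => hm (iff_of_true H h')) (e₁ h').not_gt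
          · refine iff_of_true ?_ (e₂ h')
            by_contra H
            exact hm (iff_of_false H h'.not_gt))⟩)
  simp only [List.mem_cons, List.not_mem_nil, or_false] at hI
  rcases hI with rfl | rfl
  · refine ⟨true, ?_⟩
    convert H using 1
    ext p; simp [pj, nt, or_comm]
  · refine ⟨false, ?_⟩
    convert H using 1
    ext p; simp [pj, nt, or_comm]

end Pool.Agent.MP_656653_lc
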