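import Pool.Agent.MP_656653_lc.SC

/-! Uncountable hulls. -/

namespace Pool.Agent.MP_656653_lc

open Set

theorem exists_fix {α : Type*} (G : Set α → Set α) (Q : Set α → Prop) (hG : ∀ y, Q y → Q (G y))
    (hU : ∀ (f : Om → Set α) (S : Set Om), (∀ ξ ∈ S, Q (f ξ)) → Q (⋃ ξ ∈ S, f ξ)) :
    ∃ W, Q W ∧ ∀ x : Set α, x.Countable → x ⊆ W → ∃ y, x ⊆ y ∧ G y ⊆ W := by
  let S : Om → Set α := (wellFounded_lt (α := Om)).fix fun ξ ih => G (⋃ η, ⋃ h : η < ξ, ih η h)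
  have hS : ∀ ξ, S ξ = G (⋃ η ∈ Iio ξ, S η) := fun ξ => by
    simp only [S]; rw [WellFounded.fix_eq]; rfl
  have hQ : ∀ ξ, Q (S ξ) := fun ξ => by
    induction ξ using WellFoundedLT.induction with
    | ind ξ ih => rw [hS]; exact hG _ (hU S _ ih)
  refine ⟨⋃ ξ ∈ univ, S ξ, hU S _ fun ξ _ => hQ ξ, fun x hx h => ?_⟩
  have : ∀ a : x, ∃ ξ, a.1 ∈ S ξ := fun a => by simpa using h a.2
  choose i hi using this
  have := hx.to_subtype
  obtain ⟨b, hb⟩ := exists_bound (countable_range i)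
  exact ⟨⋃ η ∈ Iio b, S η, fun a ha => mem_biUnion (hb _ ⟨⟨a, ha⟩, rfl⟩) (hi ⟨a, ha⟩),
    hS b ▸ subset_biUnion_of_mem (u := S) (mem_univ b)⟩

theorem exists_hull2 {D : Set Dp} (hD : D.Countable) (F : V → V) (x : V) (A : V → Prop)
    (Q : Set V → Prop)
    (q₁ : ∀ (S : Set V) (f : V → Set V), Q S → (∀ z ∈ S, Q (f z)) → Q (⋃ z ∈ S, f z))
    (q₂ : ∀ (f : Om → Set V) (S : Set Om), (∀ ξ ∈ S, Q (f ξ)) → Q (⋃ ξ ∈ S, f ξ))
    (q₃ : ∀ S : Set V, S.Countable → Q S)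
    (q₄ : ∀ S, Q S → Q {z : V | (z : Set V).Countable ∧ (z : Set V) ⊆ S})
    (q₅ : ∀ a, Q {z : V | A a ∧ z ∈ a}) (q₆ : ∀ S T, Q S → Q T → Q (S ∪ T)) :
    ∃ W, Q W ∧ Cl D W ∧ x ∈ W ∧ (∀ y ∈ W, F y ∈ W) ∧ (∀ a ∈ W, A a → ∀ z ∈ a, z ∈ W) ∧
      ∀ z : V, (z : Set V).Countable → (z : Set V) ⊆ W → z ∈ W := by
  have := hD.to_subtype
  obtain ⟨W, h₁, h₂⟩ := exists_fix (fun y => ((⋃ a ∈ y, (⋃ b ∈ y, range fun i => cop D i a b) ∪
    ({F a} ∪ {z : V | A a ∧ z ∈ a})) ∪ {x}) ∪ {z : V | (z : Set V).Countable ∧ (z : Set V) ⊆ y}) Q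
    (fun y hy => q₆ _ _ (q₆ _ _ (q₁ _ _ hy fun a _ => q₆ _ _
      (q₁ _ _ hy fun b _ => q₃ _ (countable_range _))
      (q₆ _ _ (q₃ _ (countable_singleton _)) (q₅ a))) (q₃ _ (countable_singleton _))) (q₄ _ hy)) q₂
  have om : ∀ z : V, (z : Set V).Countable → (z : Set V) ⊆ W → z ∈ W := fun z a b => by
    obtain ⟨y, c, d⟩ := h₂ _ a b
    exact d (Or.inr ⟨a, c⟩)
  refine ⟨W, h₁, cl_of_cop (om _ (by simp) (by simp)) fun i a ha b hb => ?_, ?_, fun a ha => ?_,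
    fun a ha h z hz => ?_, om⟩
  · obtain ⟨y, c, d⟩ := h₂ {a, b} (by simp) (by simp [insert_subset_iff, ha, hb])
    exact d (Or.inl (Or.inl (mem_biUnion (c (by simp) : a ∈ y)
      (Or.inl (mem_biUnion (c (by simp) : b ∈ y) ⟨i, rfl⟩)))))
  · obtain ⟨y, -, d⟩ := h₂ ∅ (by simp) (by simp)
    exact d (Or.inl (Or.inr rfl))
  · obtain ⟨y, c, d⟩ := h₂ {a} (by simp) (by simp [ha])
    exact d (Or.inl (Or.inl (mem_biUnion (c rfl : a ∈ y) (Or.inr (Or.inl rfl)))))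
  · obtain ⟨y, c, d⟩ := h₂ {a} (by simp) (by simp [ha])
    exact d (Or.inl (Or.inl (mem_biUnion (c rfl : a ∈ y) (Or.inr (Or.inr ⟨h, hz⟩)))))

theorem small_of_sub (a : V) {S : Set V} (h : S ⊆ a) : Small.{0} S :=
  @small_subset _ _ _ h (ZFSet.small_coe a)

theorem exists_tw {D : Set Dp} (hD : D.Countable) (F : V → V) (x : V) :
    ∃ W : V, TW D W ∧ x ∈ W ∧ ∀ y ∈ W, F y ∈ W := by
  obtain ⟨W, h₁, h₂, h₃, h₄, h₅, h₆⟩ := exists_hull2 hD F x (fun _ => True) (fun S => Small.{0} S)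
    (fun S f _ h => by
      have : ∀ z : S, Small.{0} (f z) := fun z => h z z.2
      rw [biUnion_eq_iUnion]
      infer_instance)
    (fun f S h => by
      have : ∀ z : S, Small.{0} (f z) := fun z => h z z.2
      rw [biUnion_eq_iUnion]
      infer_instance)
    (fun S h => by have := h.to_subtype; infer_instance)
    (fun S h => by
      obtain ⟨y, rfl⟩ := exists_zf h
      exact small_of_sub y.powerset fun z hz => ZFSet.mem_powerset.2 hz.2)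
    (fun a => small_of_sub a fun z hz => hz.2)
    (fun S T _ _ => inferInstance)
  obtain ⟨W, rfl⟩ := exists_zf h₁
  exact ⟨W, ⟨h₂, fun a b => h₅ _ a trivial _ b, fun a b => h₆ _ a b⟩, h₃, h₄⟩

section Sm

variable (T : Type)

abbrev Lb := ℕ → T ⊕ Om

def Sm (S : Set V) : Prop := ∃ f : Lb T → V, S ⊆ range f

variable {T}

theorem Lb.surj : ∃ e : Lb T → ℕ → Lb T, Function.Surjective e :=
  ⟨fun l n m => l (Nat.pair n m), fun g => ⟨fun k => g k.unpair.1 k.unpair.2, by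
    funext n m; simp⟩⟩

theorem Sm.mono {S S' : Set V} (h : Sm T S) (h' : S' ⊆ S) : Sm T S' :=
  h.imp fun _ H => h'.trans H

theorem Sm.idx {ι : Type*} (g : Lb T → ι) (S : Set ι) (hS : S ⊆ range g) (f : ι → Set V)
    (h : ∀ z ∈ S, Sm T (f z)) : Sm T (⋃ z ∈ S, f z) := by
  obtain ⟨e, he⟩ := Lb.surj (T := T)
  choose! F hF using h
  refine ⟨fun l => F (g (e l 0)) (e l 1), fun y hy => ?_⟩
  obtain ⟨z, h₁, h₂⟩ := mem_iUnion₂.1 hy
  obtain ⟨a, rfl⟩ := hS h₁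
  obtain ⟨b, rfl⟩ := hF _ h₁ h₂
  obtain ⟨l, hl⟩ := he fun n => if n = 0 then a else b
  exact ⟨l, by simp [hl]⟩

theorem Sm.bind {S : Set V} (hS : Sm T S) (f : V → Set V) (h : ∀ z ∈ S, Sm T (f z)) :
    Sm T (⋃ z ∈ S, f z) := by
  obtain ⟨g, hg⟩ := hS
  exact Sm.idx g S hg f h

theorem Sm.om (f : Om → Set V) (S : Set Om) (h : ∀ z ∈ S, Sm T (f z)) : Sm T (⋃ z ∈ S, f z) :=
  Sm.idx (fun l => (l 0).elim (fun _ => ⊥) id) S (fun a _ => ⟨fun _ => .inr a, rfl⟩) f h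

theorem Sm.sing (a : V) : Sm T {a} := ⟨fun _ => a, by rintro _ rfl; exact ⟨fun _ => .inr ⊥, rfl⟩⟩

theorem Sm.union {S S' : Set V} (h : Sm T S) (h' : Sm T S') : Sm T (S ∪ S') := by
  classical
  obtain ⟨b, hb⟩ := exists_gt (⊥ : Om)
  refine (Sm.om (fun ξ => if ξ = ⊥ then S else S') univ fun ξ _ => ?_).mono ?_
  · split_ifs; exacts [h, h']
  · rintro x (hx | hx)
    · exact mem_biUnion (mem_univ ⊥) (by simpa)
    · exact mem_biUnion (mem_univ b) (by simpa [hb.ne'])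

theorem exists_surjective_nat_om : ∃ g : Om → ℕ, Function.Surjective g := by
  have : Infinite Om := by
    by_contra h
    rw [not_infinite_iff_finite] at h
    exact Om_unc (to_countable _)
  exact ⟨_, Function.invFun_surjective (Infinite.natEmbedding Om).injective⟩

theorem Sm.cnt {S : Set V} (h : S.Countable) : Sm T S := by
  obtain ⟨g, hg⟩ := exists_surjective_nat_om
  rcases S.eq_empty_or_nonempty with rfl | hne
  · exact (Sm.sing ∅).mono (empty_subset _)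
  obtain ⟨f, rfl⟩ := h.exists_eq_range hne
  refine (Sm.om (fun ξ => {f (g ξ)}) univ fun _ _ => Sm.sing _).mono ?_
  rintro _ ⟨n, rfl⟩
  obtain ⟨ξ, rfl⟩ := hg n
  exact mem_biUnion (mem_univ ξ) rfl

theorem Sm.subs {S : Set V} (h : Sm T S) :
    Sm T {z : V | (z : Set V).Countable ∧ (z : Set V) ⊆ S} := by
  obtain ⟨e, he⟩ := Lb.surj (T := T)
  obtain ⟨f, hf⟩ := h
  refine ((Sm.sing ∅).union (S' := range fun l => ZFSet.range fun n => f (e l n))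
    ⟨_, subset_rfl⟩).mono fun z hz => ?_
  rcases (z : Set V).eq_empty_or_nonempty with h | h
  · exact Or.inl (SetLike.coe_injective (by simpa using h))
  obtain ⟨g, hg⟩ := hz.1.exists_eq_range h
  choose k hk using fun n => hf (hz.2 (hg ▸ mem_range_self n))
  obtain ⟨l, rfl⟩ := he k
  refine Or.inr ⟨l, SetLike.coe_injective ?_⟩
  rw [hg]
  simp [hk]

noncomputable def evH : WType (fun b : Set (Lb T) => b) → V :=
  WType.elim V fun z => ZFSet.range z.2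

variable (T) in
noncomputable def Her : V := ZFSet.range (evH (T := T))

theorem mem_her {x : V} : x ∈ Her T ↔ Sm T x ∧ ∀ y ∈ x, y ∈ Her T := by
  classical
  constructor
  · intro h
    obtain ⟨⟨b, t⟩, rfl⟩ := ZFSet.mem_range.1 h
    have e : ∀ y, y ∈ evH (WType.mk b t) ↔ ∃ l, evH (t l) = y := fun y => ZFSet.mem_range
    refine ⟨⟨fun l => if h : l ∈ b then evH (t ⟨l, h⟩) else ∅, fun y hy => ?_⟩, fun y hy => ?_⟩
    · obtain ⟨l, rfl⟩ := (e y).1 hy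
      exact ⟨l, dif_pos l.2⟩
    · obtain ⟨l, rfl⟩ := (e y).1 hy
      exact ZFSet.mem_range.2 ⟨_, rfl⟩
  · rintro ⟨⟨f, hf⟩, h⟩
    choose t ht using fun l : {l | f l ∈ x} => ZFSet.mem_range.1 (h _ l.2)
    refine ZFSet.mem_range.2 ⟨WType.mk {l | f l ∈ x} t, ZFSet.ext fun y => ?_⟩
    refine ZFSet.mem_range.trans ⟨?_, fun hy => ?_⟩
    · rintro ⟨l, rfl⟩
      change evH (t l) ∈ x
      rw [ht]; exact l.2
    · obtain ⟨l, rfl⟩ := hf hy
      exact ⟨⟨l, hy⟩, ht _⟩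

theorem her_of_sub {x y : V} (h : x ∈ Her T) (h' : y ⊆ x) : y ∈ Her T :=
  mem_her.2 ⟨(mem_her.1 h).1.mono h', fun z hz => (mem_her.1 h).2 z (h' hz)⟩

theorem her_ins {a x : V} (ha : a ∈ Her T) (hx : x ∈ Her T) : insert a x ∈ Her T :=
  mem_her.2 ⟨((Sm.sing a).union (mem_her.1 hx).1).mono fun z hz => ZFSet.mem_insert_iff.1 hz,
    fun z hz => (ZFSet.mem_insert_iff.1 hz).elim (fun e => e ▸ ha) ((mem_her.1 hx).2 z)⟩

theorem her_cnt {x : V} (h : (x : Set V).Countable) (h' : x ⊆ Her T) : x ∈ Her T :=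
  mem_her.2 ⟨Sm.cnt h, h'⟩

theorem tw_her {D : Set Dp} (h : ∀ d ∈ D, d.1 ∈ Her T) : TW D (Her T) := by
  have tr : ∀ {x y : V}, x ∈ Her T → y ∈ x → y ∈ Her T := fun a b => (mem_her.1 a).2 _ b
  have h0 : (∅ : V) ∈ Her T := her_cnt (by simp) (ZFSet.empty_subset _)
  refine ⟨⟨h0, her_ins, fun {x} hx => mem_her.2 ⟨((mem_her.1 hx).1.bind (fun z => (z : Set V))
    fun z hz => (mem_her.1 (tr hx hz)).1).mono fun z hz => ?_, fun z hz => ?_⟩,
    fun a _ => her_of_sub a fun z hz => (ZFSet.mem_inter.1 hz).1,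
    fun {x y} hx hy => mem_her.2 ⟨((mem_her.1 hx).1.bind (fun a => ⋃ b ∈ (y : Set V), {a.pair b})
      fun a _ => (mem_her.1 hy).1.bind _ fun b _ => Sm.sing _).mono fun z hz => ?_,
      fun z hz => ?_⟩, h, fun _ _ _ _ _ a => her_of_sub a ZFSet.sep_subset, fun {x} hx => ?_,
    fun a _ _ b => tr a b⟩, tr, her_cnt⟩
  · obtain ⟨w, a, b⟩ := ZFSet.mem_sUnion.1 hz
    exact mem_biUnion a b
  · obtain ⟨w, a, b⟩ := ZFSet.mem_sUnion.1 hz
    exact tr (tr hx a) b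
  · obtain ⟨a, ha, b, hb, rfl⟩ := ZFSet.mem_prod.1 hz
    exact mem_biUnion ha (mem_biUnion hb rfl)
  · obtain ⟨a, ha, b, hb, rfl⟩ := ZFSet.mem_prod.1 hz
    refine her_cnt (by simp [ZFSet.pair]) fun w hw => ?_
    rcases ZFSet.mem_pair.1 hw with rfl | rfl
    · exact her_cnt (by simp) fun v hv => ZFSet.mem_singleton.1 hv ▸ tr hx ha
    · refine her_cnt (by simp) fun v hv => ?_
      rcases ZFSet.mem_pair.1 hv with rfl | rfl
      exacts [tr hx ha, tr hy hb]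
  · by_cases e : ∃ y, y ∈ x
    · exact tr hx (eps_mem e.choose_spec)
    · unfold eps; rwa [dif_neg e]

end Sm

/-- Reflecting sets. -/
def Refl (W : V) : Prop := ∀ D : Set Dp, D.Countable → ∃ M : V, Cl D M ∧
  (∀ x y : V, x ∈ M ∩ W → y ∈ x → y ∈ M) ∧
  (∀ x : V, (x : Set V).Countable → x ⊆ M → x ∈ M) ∧ ∀ x : V, x ⊆ M ∩ W → x ∈ W

theorem refl_her (T : Type) : Refl (Her T) := by
  intro D hD
  obtain ⟨M, h₁, h₂, -, -, h₅, h₆⟩ := exists_hull2 hD id ∅ (· ∈ Her T) (Sm T)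
    (fun S f a b => a.bind f b) Sm.om (fun _ => Sm.cnt) (fun _ => Sm.subs)
    (fun a => by
      by_cases h : a ∈ Her T
      · exact (mem_her.1 h).1.mono fun z hz => hz.2
      · exact (Sm.sing ∅).mono fun z hz => absurd hz.1 h)
    (fun _ _ => Sm.union)
  obtain ⟨M, rfl⟩ := exists_zf (S := M) (by
    obtain ⟨f, hf⟩ := h₁
    exact small_subset hf)
  exact ⟨M, h₂, fun x y a b => h₅ x (ZFSet.mem_inter.1 a).1 (ZFSet.mem_inter.1 a).2 y b, h₆,
    fun x hx => mem_her.2 ⟨h₁.mono fun z hz => (ZFSet.mem_inter.1 (hx hz)).1,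
      fun z hz => (ZFSet.mem_inter.1 (hx hz)).2⟩⟩

theorem exists_refl {D : Set Dp} (hD : D.Countable) (x : V) :
    ∃ W : V, TW D W ∧ x ∈ W ∧ Refl W := by
  obtain ⟨W, h₁, h₂, -⟩ := exists_tw hD id x
  have h : ∀ y, y ∈ W → y ∈ Her (Shrink W) := by
    intro y
    induction y using ZFSet.inductionOn with
    | _ y ih =>
      intro hy
      refine mem_her.2 ⟨⟨fun l => (l 0).elim (fun a => ((equivShrink W).symm a).1) fun _ => ∅,
        fun z hz => ⟨fun _ => .inl (equivShrink W ⟨z, h₁.trans hy hz⟩), by simp⟩⟩,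
        fun z hz => ih z hz (h₁.trans hy hz)⟩
  exact ⟨_, tw_her fun d hd => h _ (h₁.cl.const d hd), h x h₂, refl_her _⟩

end Pool.Agent.MP_656653_lc
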