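import Pool.Agent.MP_656653_lc.Cond

/-! Genericity of side conditions, restriction of situations, the dichotomy. -/

set_option synthInstance.maxSize 1000000

namespace Pool.Agent.MP_656653_lc

open Set Filter Item

theorem exists_sit' {D : Set Dp} (hD : D.Countable) {P : V} {b : C} (hb : enc b ∈ P)
    {α : Type*} [Code α] (z : α) : ∃ K g, Sit D ⟨K, P, g⟩ ∧ b ∈ g ∧ has K z := by
  obtain ⟨D', K, g, ⟨h₁, h₂⟩, -, -, h₃, h₄⟩ := exists_sit ((ev_sup hD).and (ev_const z)) hb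
  exact ⟨K, g, h₃.mono h₁, h₄, h₂ _ h₃.cl⟩

theorem exists_cn {D : Set Dp} (hD : D.Countable) {α : Type*} [Code α] (z : α) :
    ∃ N : V, CN D N ∧ has (N : Set V) z := by
  obtain ⟨D', h₀, h₁, h₂⟩ := Fl.ex ((ev_sup hD).and (ev_const z))
  obtain ⟨N, h₃, h₄⟩ := exists_hull h₀
  exact ⟨N, ⟨h₄.mono h₁, h₃⟩, h₂ _ h₄⟩

theorem exists_dt (nm : V) : ∃ dt : V, ∀ d : Dat, (∀ τ ∈ d.2, τ.2 ⊆ nm) → enc d ∈ dt := by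
  refine ⟨ZFSet.range fun d : List X × List (Om × nm.powerset) =>
    enc ((d.1, d.2.map fun τ => (τ.1, τ.2.1)) : Dat), fun d hd => ZFSet.mem_range.2
    ⟨(d.1, d.2.attach.map fun τ => (τ.1.1, ⟨τ.1.2, ZFSet.mem_powerset.2 (hd _ τ.2)⟩)), ?_⟩⟩
  congr 1
  simp only [List.map_map, Function.comp_def]
  exact Prod.ext rfl (List.attach_map_subtype_val _)

noncomputable def dtOf (nm : V) : V := (exists_dt nm).choose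

theorem has_wS {D K} (h : Cl D K) {r : C} (hr : has K r) (ν) : ∀ x ∈ wS ν r, has K x :=
  fun _ a => (h.has_atm.1 (h.has_finset.1 hr _ a)).2

theorem has_trc {D K} (h : Cl D K) (hb : Bas K) {ν : Tag} (hν : has K ν) {N} (hN : N ∈ K) :
    has K (trc ν N) := h.has_pair.2 ⟨hb.hdl hN, h.int hN (h.has_tag.1 hν).2.2.1⟩

theorem has_TS {D K} (h : Cl D K) (hb : Bas K) {r : C} (hr : has K r) {ν} (hν : has K ν) :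
    ∀ x ∈ TS ν r, has K x := by
  rintro _ ⟨N, a, -, rfl⟩
  exact has_trc h hb hν (h.has_cn.1 (h.has_finset.1 hr _ a))

theorem has_res {D K} (h : Cl D K) {r : C} (hr : has K r) (W) : has K (res W r) :=
  h.has_finset.2 fun x a => h.has_finset.1 hr x (mem_res.1 a).1

theorem val_of : ∀ᶠ D in Fl, ∀ (ν : Tag) K g, Sit D ⟨K, ν.P, g⟩ → has K ν → ∀ r : C, has K r →
    Vd D ν r → res ν.W r ∈ g → St.Val ⟨K, ν.P, g⟩ ν (wS ν r) (TS ν r) := by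
  filter_upwards [val_frc] with D hD ν K g hs hν r hr hv hg
  exact (hD ν K g hs hν _ _ (wS_fin _ _) (TS_fin _ _) (has_wS hs.cl hr ν)
    (has_TS hs.cl hs.bas hr hν)).2 ⟨_, hg, hv.fv⟩

def Pp (D : Set Dp) (ν : Tag) : Prop := ∀ M, CN D M → has (M : Set V) ν → ∀ p : C, enc p ∈ ν.P →
  cn (M ∩ ν.W) ∈ p → ∀ E ∈ M, enc p ∈ E →
    ∃ p' : C, enc p' ∈ E ∧ has (M : Set V) p' ∧ ∃ r : C, enc r ∈ ν.P ∧ p ⊆ r ∧ p' ⊆ r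

theorem sub_of : ∀ᶠ D in Fl, ∀ ν, Pp D ν → ∀ K g, Sit D ⟨K, ν.P, g⟩ → ∀ M ∈ K, CN D M →
    has (M : Set V) ν → (∃ p ∈ g, cn (M ∩ ν.W) ∈ p) → Sub D ⟨K, ν.P, g⟩ M (dl M) := by
  filter_upwards [ev_n0, ev_set (fun (a : V) (c : C) => ∃ b, b ⊆ c ∧ enc b ∈ a)]
    with D n hS ν hP K g hs M hM hc hν ⟨p, hp, hp'⟩
  have hPM := (hc.cl.has_tag.1 hν).2.1
  refine ⟨hc.cl, n.bas hc.cl, fun x hx => hs.cl.cnt hM hc.cnt hx, hPM, ?_,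
    (n.bas hc.cl).has_iff hc.cnt, hs.bas.hdl hM⟩
  rintro E hE ⟨b, hb, hbE⟩
  obtain ⟨E', a₁, -, -, a₂⟩ := hS M hc.cl (E ∩ ν.P) (hc.cl.int hE hPM) _ hPM
  obtain ⟨H, b₁, -, -, b₂⟩ := hS K hs.cl (E ∩ ν.P ∩ M)
    (hs.cl.int (hs.cl.int (hs.cl.cnt hM hc.cnt hE) hs.hP) hM) _ hs.hP
  obtain ⟨c, hc', h | h⟩ := hs.dec b₁
  · obtain ⟨-, b', c₁, c₂⟩ := (b₂ c).1 h
    simp only [ZFSet.mem_inter] at c₂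
    exact ⟨b', hs.up hc' c₁ c₂.1.2, c₂.1.1, c₂.2⟩
  · exfalso
    obtain ⟨q₀, c₁, c₂, c₃⟩ := hs.dir hc' hb
    obtain ⟨q, d₁, d₂, d₃⟩ := hs.dir c₁ hp
    obtain ⟨q', e₁, e₂, r, e₃, e₄, e₅⟩ := hP M hc hν q (hs.subP d₁) (d₃ hp') E' a₁
      ((a₂ q).2 ⟨hs.subP d₁, b, c₃.trans d₂, ZFSet.mem_inter.2 ⟨hbE, hs.subP hb⟩⟩)
    obtain ⟨-, b', f₁, f₂⟩ := (a₂ q').1 e₁
    exact h r e₃ (c₂.trans (d₂.trans e₄)) ((b₂ r).2 ⟨e₃, b', f₁.trans e₅, ZFSet.mem_inter.2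
      ⟨f₂, hc.cl.has_finset.2 fun x hx => hc.cl.has_finset.1 e₂ x (f₁ hx)⟩⟩)

theorem sit_res0 {D} (n : N0 D) {ν : Tag} (h : Tg D ν) {K : Set V} {g : Set C} (cl : Cl D K)
    (hν : has K ν) (hN : Nm ν.P ∈ K) (pp : ∀ b ∈ g, PP D b) (subK : ∀ b ∈ g, has K b)
    (dir : ∀ a ∈ g, ∀ b ∈ g, ∃ c ∈ g, a ⊆ c ∧ b ⊆ c)
    (up : ∀ b ∈ g, ∀ a ⊆ b, enc a ∈ ν.P → a ∈ g) (ne : ∃ b, b ∈ g)
    (dec : ∀ E ∈ K, ∃ c ∈ g, enc (res ν.W c) ∈ E ∨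
      ∀ u : C, enc u ∈ ν.P → res ν.W c ⊆ u → enc u ∉ E) :
    Sit D ⟨K, ν.P, {b ∈ g | has (ν.W : Set V) b}⟩ := by
  have key : ∀ c ∈ g, res ν.W c ∈ {b ∈ g | has (ν.W : Set V) b} := fun c hc => by
    have : has (ν.W : Set V) (res ν.W c) := h.tw.cl.has_finset.2 fun _ a => (mem_res.1 a).2
    exact ⟨up c hc _ (fun _ a => (mem_res.1 a).1) (h.mem.2 ⟨this, (pp c hc).res n h.tw⟩), this⟩
  refine ⟨cl, n.bas cl, (cl.has_tag.1 hν).2.1, hN, fun a => h.mem.2 ⟨a.2, pp _ a.1⟩,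
    fun a => subK _ a.1, fun a b => ?_, fun a b c => ⟨up _ a.1 _ b c, (h.mem.1 c).1⟩,
    ne.elim fun b hb => ⟨_, key b hb⟩, fun hE => ?_⟩
  · obtain ⟨c, hc, h₁, h₂⟩ := dir _ a.1 _ b.1
    exact ⟨_, key c hc, fun x hx => mem_res.2 ⟨h₁ hx, h.tw.cl.has_finset.1 a.2 x hx⟩,
      fun x hx => mem_res.2 ⟨h₂ hx, h.tw.cl.has_finset.1 b.2 x hx⟩⟩
  · obtain ⟨c, hc, H⟩ := dec _ hE
    exact ⟨_, key c hc, H⟩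

theorem Tg.union {D} (n : N0 D) {ν ν'} (h : Tg D ν) {c u : C} (hc : enc c ∈ ν.P) (h' : tr ν' ∈ c)
    (hu : enc u ∈ ν'.P) (hr : res ν'.W c ⊆ u) : enc (c ∪ u) ∈ ν.P := by
  obtain ⟨a₁, a₂⟩ := h.mem.1 hc
  rw [h.tw.cl.has_finset] at a₁
  refine h.mem.2 ⟨h.tw.cl.has_finset.2 fun x hx => (Finset.mem_union.1 hx).elim (a₁ x) fun e => ?_,
    a₂.union n h' hu hr⟩
  exact h.tw.has_sub (h.tw.cl.has_tr.1 (a₁ _ h'))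
    ((a₂.sc.tr h').cl.has_finset.1 ((a₂.tg h').mem.1 hu).1 x e)

theorem sit_res : ∀ᶠ D in Fl, ∀ ν, Tg D ν → ∀ K g, Sit D ⟨K, ν.P, g⟩ → ∀ ν', Nm ν'.P ∈ K →
    (∃ r ∈ g, tr ν' ∈ r) → Sit D ⟨K, ν'.P, {b ∈ g | has (ν'.W : Set V) b}⟩ := by
  filter_upwards [ev_n0, ev_set (fun (a : V × V) (c : C) => enc (res a.1 c) ∈ a.2)]
    with D n hS ν h K g hs ν' hN ⟨r, hr, hr'⟩
  obtain ⟨a₁, a₂⟩ := h.mem.1 (hs.subP hr)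
  have h' := a₂.tg hr'
  have hK := hs.cl.has_tr.1 (hs.cl.has_finset.1 (hs.subK hr) _ hr')
  refine sit_res0 n h' hs.cl hK hN (fun b hb => (h.mem.1 (hs.subP hb)).2) (fun b => hs.subK)
    (fun a ha b hb => hs.dir ha hb) (fun b hb a c d => hs.up hb c (h.mem.2 ⟨h.tw.has_sub
      (h.tw.cl.has_tr.1 (h.tw.cl.has_finset.1 a₁ _ hr')) (h'.mem.1 d).1, (h'.mem.1 d).2⟩)) hs.ne
    fun E hE => ?_
  obtain ⟨H, b₁, -, -, b₂⟩ := hS K hs.cl (ν'.W, E)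
    (hs.cl.has_pair.2 ⟨(hs.cl.has_tag.1 hK).1, hE⟩) _ hs.hP
  obtain ⟨c, hc, H | H⟩ := hs.dec b₁
  · exact ⟨c, hc, Or.inl ((b₂ c).1 H).2⟩
  · obtain ⟨c', c₁, c₂, c₃⟩ := hs.dir hc hr
    refine ⟨c', c₁, Or.inr fun u d₁ d₂ d₃ => ?_⟩
    have := h.union n (hs.subP c₁) (c₃ hr') d₁ d₂
    refine H _ this (c₂.trans Finset.subset_union_left) ((b₂ _).2 ⟨this, ?_⟩)
    rwa [res_union (h'.tw.cl.has_finset.1 (h'.mem.1 d₁).1) d₂]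

def Dc (P σ x : V) (c : C) : Prop := (∃ b, b ⊆ c ∧ enc b ∈ P ∧ enc (x, b) ∈ σ) ∨
  ∀ c' : C, enc c' ∈ P → c ⊆ c' → ¬ ∃ b, b ⊆ c' ∧ enc b ∈ P ∧ enc (x, b) ∈ σ

theorem exists_dc {P : V} (σ x : V) {c : C} (h : enc c ∈ P) :
    ∃ c', enc c' ∈ P ∧ c ⊆ c' ∧ Dc P σ x c' := by
  by_cases H : ∀ c' : C, enc c' ∈ P → c ⊆ c' → ¬ ∃ b, b ⊆ c' ∧ enc b ∈ P ∧ enc (x, b) ∈ σ
  · exact ⟨c, h, subset_rfl, Or.inr H⟩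
  · push Not at H
    obtain ⟨c', a, b, d⟩ := H
    exact ⟨c', a, b, Or.inl d⟩

def Cap (P σ W : V) : Prop := ∀ x ∈ W, ∀ c : C, enc c ∈ P → has (W : Set V) c →
  ∃ c', enc c' ∈ P ∧ has (W : Set V) c' ∧ c ⊆ c' ∧ Dc P σ x c'

theorem val_cap : ∀ᶠ D in Fl, ∀ K P g (W : V), Sit D ⟨K, P, g⟩ →
    Sit D ⟨K, P ∩ W, {b ∈ g | has (W : Set V) b}⟩ → Cl D W → ∀ σ ∈ K, Cap P σ W → ∀ x ∈ W,
    x ∈ St.val ⟨K, P ∩ W, {b ∈ g | has (W : Set V) b}⟩ (σ ∩ W) ↔ x ∈ St.val ⟨K, P, g⟩ σ := by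
  filter_upwards [ev_set (fun (a : V × V × V) (c : C) => Dc a.1 a.2.1 a.2.2 c)]
    with D hS K P g W hs hs' hW σ hσ hc x hx
  refine ⟨fun ⟨a, b, c, d⟩ => ⟨a, b, c.1, (ZFSet.mem_inter.1 d).1⟩, fun ⟨a, b, c, d⟩ => ⟨a, ?_⟩⟩
  obtain ⟨H, b₁, -, -, b₂⟩ := hS K hs.cl (P, σ, x)
    (hs.cl.has_pair.2 ⟨hs.hP, hs.cl.has_pair.2 ⟨hσ, a⟩⟩) _ hs'.hP
  obtain ⟨q, hq, h | h⟩ := hs'.dec b₁
  · rcases ((b₂ q).1 h).2 with ⟨b', e₁, e₂, e₃⟩ | e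
    · have : has (W : Set V) b' := hW.has_finset.2 fun y hy => hW.has_finset.1 hq.2 y (e₁ hy)
      exact ⟨b', ⟨hs.up hq.1 e₁ e₂, this⟩, ZFSet.mem_inter.2 ⟨e₃, hW.has_pair.2 ⟨hx, this⟩⟩⟩
    · obtain ⟨r, e₁, e₂, e₃⟩ := hs.dir hq.1 c
      exact absurd ⟨b, e₃, hs.subP c, d⟩ (e r (hs.subP e₁) e₂)
  · obtain ⟨r, e₁, e₂, e₃, e₄⟩ := hc x hx q (hs.subP hq.1) hq.2
    have := ZFSet.mem_inter.2 ⟨e₁, e₂⟩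
    exact absurd ((b₂ r).2 ⟨this, e₄⟩) (h r this e₃)

theorem r_congr {K P P' g g' σ σ'}
    (h : (St.val ⟨K, P', g'⟩ σ' : Set (Om × Om)) = St.val ⟨K, P, g⟩ σ) :
    St.r ⟨K, P', g'⟩ σ' = St.r ⟨K, P, g⟩ σ := by
  unfold St.r St.Lin
  simp only [h]

theorem nam_res {K P g} {W : V} {τ}
    (h : St.nam ⟨K, P ∩ W, {b ∈ g | has (W : Set V) b}⟩ τ) : St.nam ⟨K, P, g⟩ τ ∧
    St.vx ⟨K, P ∩ W, {b ∈ g | has (W : Set V) b}⟩ τ = St.vx ⟨K, P, g⟩ τ := by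
  have h' := ZFSet.mem_powerset.1 h.2
  refine ⟨⟨h.1, ZFSet.mem_powerset.2 fun z hz => ?_⟩, Set.ext fun x =>
    ⟨fun ⟨a, b, c, d⟩ => ⟨a, b, c.1, d⟩, fun ⟨a, b, c, d⟩ => ⟨a, b, ⟨c, ?_⟩, d⟩⟩⟩
  · obtain ⟨a, ha, b, hb, rfl⟩ := ZFSet.mem_prod.1 (h' hz)
    exact ZFSet.pair_mem_prod.2 ⟨ha, (ZFSet.mem_inter.1 hb).1⟩
  · exact (ZFSet.mem_inter.1 (ZFSet.pair_mem_prod.1 (h' d)).2).2

theorem h1_res {K P P' g g' σ σ' φ φ' fl} (hr : St.r ⟨K, P', g'⟩ σ' = St.r ⟨K, P, g⟩ σ)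
    (hφ : St.vx ⟨K, P', g'⟩ φ' = St.vx ⟨K, P, g⟩ φ)
    (hn : ∀ τ, St.nam ⟨K, P', g'⟩ τ → St.nam ⟨K, P, g⟩ τ ∧
      St.vx ⟨K, P', g'⟩ τ = St.vx ⟨K, P, g⟩ τ)
    (h : St.H1 ⟨K, P, g⟩ σ φ fl) : St.H1 ⟨K, P', g'⟩ σ' φ' fl := by
  obtain ⟨⟨h₁, h₂⟩, h₃, h₄, h₅⟩ := h
  refine ⟨⟨?_, fun τ a => ?_⟩, ?_, ?_, fun e ⟨ρ, a, Is, b, c⟩ => h₅ e ⟨ρ, (hn ρ a).1, Is, b, ?_⟩⟩
  · unfold St.LL; rw [hr]; exact h₁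
  · have := (hn τ a).2
    unfold St.vx at this
    rw [hr, this]; exact h₂ τ (hn τ a).1
  · rw [hφ]; exact h₃
  · rw [hφ]; exact h₄
  · unfold St.Large at c ⊢
    rw [hr, hφ, (hn ρ a).2] at c
    exact c

def St.Al (s : St) (σ φ : V) (fl : Bool) : Prop := s.H1 σ φ fl ∧ ¬ ∃ ρ, s.nam ρ ∧
  (∀ x, x ∈ s.vx ρ → x ∈ s.vx φ) ∧ s.Unb (s.vx ρ) ∧
    ∀ x, x ∈ s.vx ρ → ∀ y, y ∈ s.vx ρ → x.2 ≠ y.2 → OK (s.r σ) fl x y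

theorem def_al : Def (fun s (a : V × V × Bool) => s.Al a.1 a.2.1 a.2.2) := by
  unfold St.Al; infer_instance

theorem dich : ∀ᶠ D in Fl, D.Countable → ∀ ν, Tg D ν → ν.k2 = true → Pp D ν → ∀ K g,
    Sit D ⟨K, ν.P, g⟩ → ∀ σ ∈ K, St.Nice ⟨K, ν.P, g⟩ σ → St.Dich ⟨K, ν.P, g⟩ σ := by
  have := Def.atom fun (_ : V) (b : C) (a : Tag × X) => atm a.1 a.2 ∈ b
  filter_upwards [ev_n0, @Def.frc _ _ _ def_al,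
    Def.frc (fun s (a : V × V × Bool) => ¬ s.H1 a.1 a.2.1 a.2.2), val_frc, val_of, sub_of, sit_res,
    val_cap, unbN, ev_const (dtOf ∅),
    compX (fun s (a : Tag) (x : X) => ∃ b ∈ s.g, atm a x ∈ b)]
    with D n h₁ h₂ h₃ h₄ h₅ h₆ h₇ h₈ h₉ h₀
  rintro hD ν hν hk hP K g hs σ hσ hn _ ⟨φ, hφ, -, rfl⟩ hu hp fl
  by_contra hc
  rw [not_or] at hc
  obtain ⟨b, hb, hF⟩ := (h₁ _ hs (σ, φ, fl) (hs.cl.has_pair.2 ⟨hσ, hs.cl.has_pair.2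
    ⟨hφ, hs.cl.has_bool _⟩⟩)).1 ⟨⟨hn, hu, hp, fun e ⟨ρ, a, Is, _, c⟩ =>
      hc.2 ⟨e, _, ⟨ρ, a.1, a, rfl⟩, Is, c⟩⟩, fun ⟨ρ, a, c⟩ => hc.1 ⟨_, ⟨ρ, a.1, a, rfl⟩, c⟩⟩
  obtain ⟨hbW, hbP⟩ := hν.mem.1 (hs.subP hb)
  dsimp only at hF
  clear hc hp hu hn hb hs hσ hφ K g
  obtain ⟨D', a₀, a₁, a₂, a₃⟩ := Fl.ex ((ev_sup hD).and ((ev_const (ν.P, σ, φ, b)).and
    (ev_wit fun (a : V × V × V × C) (c : C) => a.2.2.2 ⊆ c ∧ Dc a.1 a.2.1 a.2.2.1 c)))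
  obtain ⟨M', m₁, m₂, m₃, m₄⟩ := (hν.ok.k2 hk).2.2 D' a₀
  have m₅ := a₂ _ m₁
  simp only [m₁.has_pair] at m₅
  have hW : TW D (M' ∩ ν.W) := ⟨coe_inter _ _ ▸ (m₁.mono a₁).inter hν.tw.cl, fun a c =>
    ZFSet.mem_inter.2 ⟨m₂ _ _ a c, hν.tw.trans (ZFSet.mem_inter.1 a).2 c⟩, fun a c =>
    ZFSet.mem_inter.2 ⟨m₃ _ a fun y hy => (ZFSet.mem_inter.1 (c hy)).1,
      hν.tw.om a fun y hy => (ZFSet.mem_inter.1 (c hy)).2⟩⟩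
  have cap : ∀ σ ∈ M', Cap ν.P σ (M' ∩ ν.W) := fun σ hσ x hx c c₁ c₂ => by
    obtain ⟨c', d₁, d₂, d₃, d₄⟩ := a₃ _ m₁ (ν.P, σ, x, c) (by
      simp only [m₁.has_pair]
      exact ⟨m₅.1, hσ, (ZFSet.mem_inter.1 hx).1, (has_inter.1 c₂).1⟩) _ m₅.1 (exists_dc σ x c₁)
    exact ⟨c', d₂, has_inter.2 ⟨d₁, (hν.mem.1 d₂).1⟩, d₃, d₄⟩
  have hbW' : has ((M' ∩ ν.W : V) : Set V) b := has_inter.2 ⟨m₅.2.2.2, hbW⟩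
  have hWW : ∀ {α : Type 1} [Code α] {x : α}, has ((M' ∩ ν.W : V) : Set V) x → has (ν.W : Set V) x :=
    fun a => (has_inter.1 a).2
  generalize M' ∩ ν.W = W at hW cap hbW' hWW m₄
  obtain ⟨ν', e₁, e₂, e₃, e₄, e₅, e₆, hν', hνW⟩ : ∃ ν' : Tag, ν'.W = W ∧ ν'.P = ν.P ∩ W ∧
      ν'.k2 = false ∧ ν'.fl = fl ∧ ν'.sA = σ ∩ W ∧ ν'.sF = φ ∩ W ∧ Tg D ν' ∧
      has (ν.W : Set V) ν' := by
    refine ⟨⟨W, ν.P ∩ W, ∅, dtOf ∅, ∅, false, fl, σ ∩ W, φ ∩ W⟩, rfl, rfl, rfl, rfl, rfl, rfl,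
      ⟨hW, ⟨(exists_dt ∅).choose_spec, fun e => by cases e⟩, (gt_iff hW).2 fun c => ?_⟩,
      hν.tw.cl.has_tag.2 ⟨m₄ _ subset_rfl, m₄ _ fun _ a => (ZFSet.mem_inter.1 a).2, hν.tw.cl.emp,
        h₉ _ hν.tw.cl, hν.tw.cl.emp, m₄ _ fun _ a => (ZFSet.mem_inter.1 a).2,
        m₄ _ fun _ a => (ZFSet.mem_inter.1 a).2⟩⟩
    rw [ZFSet.mem_inter, hν.mem]
    exact ⟨fun a => ⟨a.2, a.1.2⟩, fun a => ⟨⟨hWW a.1, a.2⟩, a.1⟩⟩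
  subst e₁
  have clA : ∀ c : C, enc c ∈ ν.P → tr ν' ∈ c → b ⊆ c → ∀ z : V, ∃ K g, Sit D ⟨K, ν.P, g⟩ ∧ c ∈ g ∧
      z ∈ K ∧ has K ν' ∧ St.Al ⟨K, ν.P, g⟩ σ φ fl ∧
      Sit D ⟨K, ν'.P, {b ∈ g | has (ν'.W : Set V) b}⟩ ∧
      St.r ⟨K, ν'.P, {b ∈ g | has (ν'.W : Set V) b}⟩ ν'.sA = St.r ⟨K, ν.P, g⟩ σ ∧
      St.vx ⟨K, ν'.P, {b ∈ g | has (ν'.W : Set V) b}⟩ ν'.sF = St.vx ⟨K, ν.P, g⟩ φ := by
    intro c c₁ c₂ c₃ z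
    obtain ⟨K, g, hs, hc, hz⟩ := exists_sit' hD c₁ (z, Nm ν'.P, ν', σ, φ, fl)
    have hz' := hz
    simp only [hs.cl.has_pair] at hz'
    have hs' := h₆ ν hν K g hs ν' hz'.2.1 ⟨c, hc, c₂⟩
    have k := h₇ K ν.P g ν'.W hs (e₂ ▸ hs') hW.cl
    refine ⟨K, g, hs, hc, hz'.1, hz'.2.2.1, (h₁ _ hs (σ, φ, fl) (by
      simp only [hs.cl.has_pair]; exact hz'.2.2.2)).2 ⟨c, hc, hF.mono c₃⟩, hs', r_congr ?_, ?_⟩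
    · rw [e₂, e₅]
      exact Set.ext fun x => k σ hz'.2.2.2.1 (cap σ m₅.2.1) (enc x)
        (hW.cl.has_prod.2 ⟨n.has_om hW _, n.has_om hW _⟩)
    · rw [e₂, e₆]
      exact Set.ext fun x => k φ hz'.2.2.2.2.1 (cap φ m₅.2.2.1) (enc x) (n.has_x hW x)
  have top : ∀ c : C, enc c ∈ ν'.P → enc (insert (tr ν') c) ∈ ν.P := fun c hc => by
    obtain ⟨c₁, c₂⟩ := hν'.mem.1 hc
    rw [hW.cl.has_finset] at c₁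
    refine hν.mem.2 ⟨hν.tw.cl.has_finset.2 fun x hx => ?_, c₂.top n hν' c₁⟩
    rcases Finset.mem_insert.1 hx with rfl | hx
    exacts [hν.tw.cl.has_tr.2 hνW, hWW (c₁ x hx)]
  have clB : ∀ K g, Sit D ⟨K, ν'.P, g⟩ → has K ν' → b ∈ g → St.H1 ⟨K, ν'.P, g⟩ ν'.sA ν'.sF fl := by
    intro K g hs hK hb
    have f : ∀ K, Cl D K → has K ν' → has K (ν'.sA, ν'.sF, fl) := fun K h a =>
      h.has_pair.2 ⟨(h.has_tag.1 a).2.2.2.2.2.1, h.has_pair.2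
        ⟨(h.has_tag.1 a).2.2.2.2.2.2, h.has_bool _⟩⟩
    by_contra hc
    obtain ⟨c₀, c₁, c₂⟩ := (h₂ _ hs _ (f _ hs.cl hK)).1 hc
    obtain ⟨c, c₃, c₄, c₅⟩ := hs.dir c₁ hb
    obtain ⟨K', g', d₁, d₂, -, d₃, d₄, d₅, d₆, d₇⟩ := clA _ (top c (hs.subP c₃))
      (Finset.mem_insert_self _ _) (c₅.trans (Finset.subset_insert _ _)) ∅
    have d₈ := hν'.mem.1 (hs.subP c₃)
    refine (h₂ _ d₅ _ (f _ d₁.cl d₃)).2 ⟨c, ⟨d₁.up d₂ (Finset.subset_insert _ _)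
      (hν.mem.2 ⟨hWW d₈.1, d₈.2⟩), d₈.1⟩, c₂.mono c₄⟩ (h1_res d₆ d₇ (fun τ => ?_) d₄.1)
    rw [e₂]; exact nam_res
  have hbP' : enc b ∈ ν'.P := hν'.mem.2 ⟨hbW', hbP⟩
  obtain ⟨q₁W, q₁P⟩ := hν.mem.1 (top b hbP')
  obtain ⟨M, hM, hM'⟩ := exists_cn hD (ν, ν', insert (tr ν') b)
  simp only [hM.cl.has_pair] at hM'
  have hN := hM.inter hν.tw.cl
  have q₂P := q₁P.node n hN (has_inter.2 ⟨hM'.2.2, q₁W⟩)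
  have q₂W := has_amF hν.tw.cl (s := {cn (M ∩ ν.W)}) (hν.tw.cl.has_finset.2 fun x hx =>
    Finset.mem_singleton.1 hx ▸ hν.tw.has_inter hM) q₁W
  have q₂T := TS_amF (s := {cn (M ∩ ν.W)}) n q₁P.sc ν'
  have q₂s : {cn (M ∩ ν.W)} ∪ insert (tr ν') b ⊆ _ := sub_amF
  have q₂w : wS ν' (amF {cn (M ∩ ν.W)} (insert (tr ν') b)) = ∅ := by
    rw [← wS_out n hW (hW.cl.has_finset.1 hbW') hW.not_self]
    ext; simp [wS, mem_amF]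
  generalize amF {cn (M ∩ ν.W)} (insert (tr ν') b) = q at q₂P q₂W q₂T q₂s q₂w
  have hq : tr ν' ∈ q := q₂s (by simp)
  have hbq : b ⊆ q := fun x hx => q₂s (by simp [hx])
  obtain ⟨K, g, hs, c₁, c₂⟩ := exists_sit' hD (q₂P.res_mem n hq) (ν', q, dl M)
  simp only [hs.cl.has_pair] at c₂
  have H := clB K g hs c₂.1 (hs.up c₁ (fun x hx => mem_res.2
    ⟨hbq hx, hW.cl.has_finset.1 hbW' x hx⟩) hbP')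
  obtain ⟨x, x₁, x₂⟩ := H.2.1 _ c₂.2.2
  have hT : ∀ τ ∈ TS ν' q, ¬ x.2 < τ.1 := fun τ hτ a => by
    obtain ⟨N, d₁, d₂, rfl⟩ := q₂T hτ
    simp only [Finset.mem_union, Finset.mem_singleton, Finset.mem_insert, reduceCtorEq, false_or,
      cn.injEq] at d₁
    rcases d₁ with rfl | d₁
    · rw [n.trc_inter hν.tw hνW] at a
      exact absurd a x₂.not_gt
    · exact absurd (hW.trans (hW.cl.has_cn.1 (hW.cl.has_finset.1 hbW' _ d₁)) d₂) hW.not_self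
  obtain ⟨c, c₃, c₄⟩ := (h₃ ν' K g hs c₂.1 {x} (TS ν' q) (finite_singleton _) (TS_fin _ _)
    (by rintro _ rfl; exact x₁.1) (has_TS hs.cl hs.bas c₂.2.1 c₂.1)).1 (Or.inr ⟨e₃,
      fun _ => e₄ ▸ H, by rintro _ rfl; exact x₁, by rintro _ rfl _ rfl a; exact absurd rfl a,
      fun τ hτ => ⟨by rintro _ rfl a; exact absurd a (hT τ hτ),
        by rintro _ rfl _ rfl _ _; exact Or.inl (eqv.refl _ _)⟩⟩)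
  obtain ⟨u, u₁, u₂, u₃⟩ := hs.dir c₃ c₁
  have q₃P := q₂P.ext n (x := x) hq (hs.subP u₁) u₃ (by
    rw [q₂w, insert_empty_eq]; exact c₄.mono u₂ (Abv.of_sub subset_rfl))
  have q₃W := (hν.mem.1 (hν.union n (hν.mem.2 ⟨q₂W, q₂P⟩) hq (hs.subP u₁) u₃)).1
  obtain ⟨K, g, hs, d₂, d₀, d₃, d₄, d₅, d₆, d₇⟩ := clA _ (hν.mem.2 ⟨hν.tw.cl.has_finset.2
    fun y hy => (Finset.mem_insert.1 hy).elim (fun e => e ▸ (n.has_atm hν.tw).2 hνW)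
      (hν.tw.cl.has_finset.1 q₃W y), q₃P⟩) (by simp [hq]) (fun y hy => by simp [hbq hy]) M
  have hS := h₅ ν hP K g hs M d₀ hM hM'.1 ⟨_, d₂, by simp [q₂s (Finset.mem_union_left _
    (Finset.mem_singleton_self _))]⟩
  have hA := h₀ _ hs M hM.cl hS.sub hS.hP ν' hM'.2.1
  have hU := h₈ _ hs M _ hS _ hA fun β hβ => ⟨x, ⟨(hs.cl.has_atm.1 (hs.cl.has_finset.1
    (hs.subK d₂) _ (Finset.mem_insert_self _ _))).2, _, d₂, Finset.mem_insert_self _ _⟩,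
    hβ.le.trans x₂⟩
  obtain ⟨ρ, -, f₁, f₂⟩ := hA
  have key : ∀ r ∈ g, tr ν' ∈ r → St.Val1 ⟨K, ν'.P, {b ∈ g | has (ν'.W : Set V) b}⟩ ν'.sA ν'.sF
      ν'.fl (wS ν' r) (TS ν' r) := fun r hr a => by
    have k := (hν.mem.1 (hs.subP hr)).2
    have k' := hν'.mem.1 (k.res_mem n a)
    refine ((h₄ ν' K _ d₅ d₃ r (hs.subK hr) (k.vd _ a) ⟨hs.up hr (fun _ a => (mem_res.1 a).1)
      (hν.mem.2 ⟨hWW k'.1, k'.2⟩), k'.1⟩).resolve_left fun a => ?_).2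
    rw [e₃] at a
    exact absurd a.1 (by simp)
  refine d₄.2 ⟨ρ, f₁, ?_⟩
  rw [St.vx, ← f₂]
  refine ⟨fun y ⟨_, r, a₁, a₂⟩ => ?_, hU, fun y ⟨_, r, a₁, a₂⟩ z ⟨_, r', a₃, a₄⟩ e => ?_⟩
  · rw [← d₇]
    exact (key r a₁ ((hν.mem.1 (hs.subP a₁)).2.atm _ _ a₂)).2.1 y a₂
  · obtain ⟨t, t₁, t₂, t₃⟩ := hs.dir a₁ a₃
    rw [← d₆, ← e₄]
    exact (key t t₁ ((hν.mem.1 (hs.subP t₁)).2.atm _ _ (t₂ a₂))).2.2.1 y (t₂ a₂) z (t₃ a₄)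
      fun e' => e (e' ▸ rfl)

end Pool.Agent.MP_656653_lc
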