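import Pool.Agent.MP_656653_lc.Iter1

/-! Properness of the initial segments of the iteration. -/

set_option synthInstance.maxSize 1000000

namespace Pool.Agent.MP_656653_lc

open Set Filter Item

def Bel (D : Set Dp) (ν : Tag) (N N' : V) : Prop :=
  has (N' : Set V) (trc ν N) ∧ (trc ν N).1 < (trc ν N').1 ∧ ∀ z ∈ N, Bx D ν z → z ∈ N'

theorem N0.chain {D} (n : N0 D) {s} (hs : SC D s) {ν : Tag} {N N'} (hN : cn N ∈ s) (hN' : cn N' ∈ s)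
    (h : has (N : Set V) ν) (h' : has (N' : Set V) ν) :
    trc ν N = trc ν N' ∨ Bel D ν N N' ∨ Bel D ν N' N := by
  have k : ∀ {A B : V}, CN D B → has (B : Set V) ν → (∃ A₁ ∈ B, CN D A₁ ∧
      ∀ z, Bx D ν z → (z ∈ A ↔ z ∈ A₁)) → Bel D ν A B := by
    rintro A B c d ⟨A₁, a₁, a₂, a₃⟩
    have := has_trc c.cl (n.bas c.cl) d a₁
    rw [← n.trc_eq a₃] at this
    exact ⟨this, ((n.bas c.cl).has_iff c.cnt).1 (c.cl.has_prod.1 this).1,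
      fun z hz b => c.cl.cnt a₁ a₂.cnt ((a₃ z b).1 hz)⟩
  exact (hs.chain hN hN' h h').imp n.trc_eq (Or.imp (k (hs.cn hN') h') (k (hs.cn hN) h))

theorem TS_inj {D} (n : N0 D) {p : C} (hs : SC D p) (ν) :
    ∀ a ∈ TS ν p, ∀ b ∈ TS ν p, a.1 = b.1 → a = b := by
  rintro _ ⟨N, a₁, a₂, rfl⟩ _ ⟨N', b₁, b₂, rfl⟩ e
  rcases n.chain hs a₁ b₁ a₂ b₂ with h | h | h
  exacts [h, absurd e h.2.1.ne, absurd e h.2.1.ne']

theorem md_mk {D} {ν : Tag} (h : TagOK ν) (hk : ν.k2 = true) {K g} {N : V}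
    (hS : Sub D ⟨K, ν.P, g⟩ N (dl N)) (hν : has (N : Set V) ν) :
    Md D ⟨K, ν.P, g⟩ ν.sA (trc ν N) N := by
  have := hS.cl.has_tag.1 hν
  refine ⟨hS, ⟨hS.sub, fun ρ => ?_⟩, (h.k2 hk).1 ▸ this.2.2.1, this.2.2.2.2.2.1⟩
  rw [← (h.k2 hk).1]
  exact ZFSet.mem_inter

theorem sub_node : ∀ᶠ D in Fl, ∀ ν, Pp D ν → ∀ K g, Sit D ⟨K, ν.P, g⟩ → ∀ r : C, has K r → SC D r →
    tr ν ∈ r → res ν.W r ∈ g → ∀ N, cn N ∈ r → has (N : Set V) ν →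
    Sub D ⟨K, ν.P, g⟩ N (dl N) := by
  filter_upwards [sub_of] with D h ν hP K g hs r a₁ a₂ a₃ a₄ N a₅ a₆
  exact h ν hP K g hs N (hs.cl.has_cn.1 (hs.cl.has_finset.1 a₁ _ a₅)) (a₂.cn a₅) a₆
    ⟨_, a₄, mem_res.2 ⟨a₂.cls a₅ a₃ a₆, (a₂.tr a₃).has_inter (a₂.cn a₅)⟩⟩

theorem has_mkX {D K} (h : Cl D K) (hb : Bas K) {q : Pt} : has K (mkX q) ↔ has K q := by
  unfold mkX
  rw [h.has_pair, h.has_list, and_iff_left hb.bot]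
  simp

theorem pt_mkX (q : Pt) : pt (mkX q) = q := rfl

def Cpy (a : Tag × List X × List Trc) (y : Dat × C) (p : C) : Prop :=
  y.2 = res a.1.W p ∧ ls a.2.1 ∪ ls y.1.1 = wS a.1 p ∧ ls a.2.2 ∪ ls y.1.2 = TS a.1 p

theorem step : ∀ᶠ D in Fl, D.Countable → ∀ ν, Tg D ν → Pp D ν → ∀ p, PP D p → tr ν ∈ p →
    ∀ M, CN D M → ∀ M₀, cn M₀ ∈ p → has (M₀ : Set V) ν → M₀ ⊆ M →
    (∀ z ∈ M, Bx D ν z → z ∈ M₀) → ∀ E ∈ M, enc p ∈ E → (∀ q : C, enc q ∈ E → PP D q ∧ tr ν ∈ q) →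
    ∃ q : C, enc q ∈ E ∧ has (M : Set V) q ∧ ∃ u : C, enc u ∈ ν.P ∧ res ν.W p ⊆ u ∧ res ν.W q ⊆ u ∧
      FV ν u (wS ν p ∪ wS ν q) (TS ν p ∪ TS ν q) := by
  filter_upwards [ev_n0, val_frc, val_of, sub_of, sub_node, dich, v3D, v3Q,
    ev_set (fun (a : V × Tag × List X × List Trc) (y : Dat × C) => ∃ p, enc p ∈ a.1 ∧ Cpy a.2 y p),
    ev_wit (fun (a : (Tag × List X × List Trc) × Dat × C) (p : C) => Cpy a.1 a.2 p),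
    ev_set (fun (a : V × Dat) (b : C) => enc (a.2, b) ∈ a.1)]
    with D n h₁ h₂ h₃ h₄ h₅ h₆ h₇ h₈ h₉ h₀
  intro hD ν hν hP p hp hνp M hM M₀ m₁ m₂ m₃ m₄ E hE hpE hEq
  have hνM : has (M : Set V) ν := m₃ m₂
  have tM := hM.cl.has_tag.1 hνM
  obtain ⟨w₀, hw₀⟩ := exists_ls ((wS_fin ν p).subset (sep_subset _ fun x => has (M : Set V) x))
  obtain ⟨T₀, hT₀⟩ := exists_ls ((TS_fin ν p).subset (sep_subset _ fun x => has (M : Set V) x))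
  have ha : has (M : Set V) (ν, w₀, T₀) := hM.cl.has_pair.2 ⟨hνM, hM.cl.has_pair.2
    ⟨hM.cl.has_list.2 fun x hx => (hw₀.le hx).2, hM.cl.has_list.2 fun x hx => (hT₀.le hx).2⟩⟩
  obtain ⟨S, s₁, s₂, -, s₃⟩ := h₈ M hM.cl (E, ν, w₀, T₀) (hM.cl.has_pair.2 ⟨hE, ha⟩) _
    (hM.cl.prod tM.2.2.2.1 tM.2.1)
  obtain ⟨K, g, hs, c₁, c₂⟩ := exists_sit' hD (hp.res_mem n hνp) (M, p)
  obtain ⟨c₂, c₃⟩ := hs.cl.has_pair.1 c₂
  have e₀ : M₀ ∩ ν.W = M ∩ ν.W := ZFSet.ext fun z => by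
    simp only [ZFSet.mem_inter]
    exact and_congr_left fun a => ⟨fun b => m₃ b, fun b => m₄ z b (bx_W a)⟩
  have hS := h₃ ν hP K g hs M c₂ hM hνM ⟨_, c₁, mem_res.2
    ⟨e₀ ▸ hp.sc.cls m₁ hνp m₂, hν.tw.has_inter hM⟩⟩
  have hνK : has K ν := hS.sub hνM
  have e₁ : trc ν M₀ = trc ν M := n.trc_eq fun z a => ⟨fun b => m₃ b, fun b => m₄ z b a⟩
  have hτ : trc ν M ∈ TS ν p := ⟨M₀, m₁, m₂, e₁.symm⟩
  have hT : ∀ τ ∈ TS ν p, has (M : Set V) τ ∨ dl M ≤ τ.1 := by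
    rintro _ ⟨N, a₁, a₂, rfl⟩
    rcases n.chain hp.sc a₁ m₁ a₂ m₂ with h | h | h
    · rw [h, e₁]; exact Or.inr le_rfl
    · exact Or.inl (m₃ h.1)
    · rw [Bel, e₁] at h; exact Or.inr h.2.1.le
  have hv := h₂ ν K g hs hνK p c₃ (hp.vd ν hνp) c₁
  have real : ∀ d : Dat, ls d.1 = {x ∈ wS ν p | ¬ has (M : Set V) x} →
      ls d.2 = {x ∈ TS ν p | ¬ has (M : Set V) x} → d ∈ St.vd ⟨K, ν.P, g⟩ S := by
    intro d a₁ a₂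
    refine ⟨hs.cl.has_prod.2 ⟨hs.cl.has_list.2 fun x hx => has_wS hs.cl c₃ ν x (a₁.le hx).1,
      hs.cl.has_list.2 fun x hx => has_TS hs.cl hs.bas c₃ hνK x (a₂.le hx).1⟩, _, c₁,
      (s₃ _).2 ⟨ZFSet.pair_mem_prod.2 ⟨hν.ok.dt d fun τ h => ?_, hs.subP c₁⟩, p, hpE, rfl, ?_, ?_⟩⟩
    · obtain ⟨N, -, -, rfl⟩ := (a₂.le h).1
      exact fun z hz => (ZFSet.mem_inter.1 hz).2
    · simp only [hw₀, a₁]; ext; simp only [mem_union, mem_sep_iff]; tauto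
    · simp only [hT₀, a₂]; ext; simp only [mem_union, mem_sep_iff]; tauto
  have copy : ∀ d ∈ St.vd ⟨K, ν.P, g⟩ S, ∃ q : C, has K q ∧ enc q ∈ E ∧ res ν.W q ∈ g ∧
      wS ν q = {x ∈ wS ν p | has (M : Set V) x} ∪ ls d.1 ∧
      TS ν q = {x ∈ TS ν p | has (M : Set V) x} ∪ ls d.2 ∧
      St.Val ⟨K, ν.P, g⟩ ν (wS ν q) (TS ν q) := by
    rintro d ⟨a₁, b, a₂, a₃⟩
    obtain ⟨q, b₁, b₂, b₃, b₄, b₅⟩ := h₉ K hs.cl ((ν, w₀, T₀), d, b) (hs.cl.has_pair.2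
      ⟨hS.sub ha, hs.cl.has_pair.2 ⟨a₁, hs.subK a₂⟩⟩) E (hS.sub hE) ((s₃ (d, b)).1 a₃).2
    obtain rfl : b = res ν.W q := b₃
    exact ⟨q, b₁, b₂, a₂, hw₀ ▸ b₄.symm, hT₀ ▸ b₅.symm,
      h₂ ν K g hs hνK q b₁ ((hEq q b₂).1.vd ν (hEq q b₂).2) a₂⟩
  obtain ⟨d, ⟨d₀, d₁⟩, d₂, d₃⟩ : ∃ d ∈ St.vd ⟨K, ν.P, g⟩ S, has (M : Set V) d ∧
      St.Val ⟨K, ν.P, g⟩ ν (wS ν p ∪ ls d.1) (TS ν p ∪ ls d.2) := by
    rcases hv with ⟨hk, hx, hv⟩ | ⟨hk, hv⟩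
    · have e₂ : {q ∈ pt '' wS ν p | has (M : Set V) q} = pt '' {x ∈ wS ν p | has (M : Set V) x} := by
        ext q
        constructor
        · rintro ⟨⟨x, a, rfl⟩, b⟩
          exact ⟨x, ⟨a, hx x a ▸ (has_mkX hM.cl hS.bas).2 b⟩, rfl⟩
        · rintro ⟨x, ⟨a, b⟩, rfl⟩
          exact ⟨⟨x, a, rfl⟩, (has_mkX hM.cl hS.bas).1 (hx x a ▸ b)⟩
      have e₃ : ∀ d : Dat, ls (yl d) = pt '' ls d.1 := fun d => by ext; simp [ls, yl]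
      obtain ⟨d, a₁, a₂, a₃⟩ := h₇ _ hs _ _ _ (md_mk hν.ok hk hS hνM)
        (h₅ hD ν hν hk hP K g hs _ (hS.sub tM.2.2.2.2.2.1)) _ _ ((wS_fin ν p).image pt) (TS_fin ν p)
        hv (by
          rintro _ ⟨x, a, rfl⟩
          exact hs.has_nt (hs.cl.has_prod.1 (has_wS hs.cl c₃ ν x a)).1 0) hτ hT (TS_inj n hp.sc ν)
        S s₁ (by
          rintro _ ⟨N, a₁, a₂, rfl⟩ a₃
          refine ⟨N, md_mk hν.ok hk (h₄ ν hP K g hs p c₃ hp.sc hνp c₁ N a₁ a₂) a₂, ?_, ?_⟩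
          · rw [← e₁] at a₃
            have b := bx_bb (D := D) ((hν.ok.k2 hk).2.1 S s₂)
            rcases n.chain hp.sc m₁ a₁ m₂ a₂ with h | h | h
            exacts [absurd (congrArg Prod.fst h) a₃.ne, h.2.2 S (m₄ S s₁ b) b,
              absurd h.2.1 a₃.not_gt]
          · rintro _ ⟨N', b₁, b₂, rfl⟩ b₃
            rcases n.chain hp.sc b₁ a₁ b₂ a₂ with h | h | h
            exacts [absurd (congrArg Prod.fst h) b₃.ne, h.1, absurd h.2.1 b₃.not_gt])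
        (fun Y l a₁ a₂ => real _ (by
          ext x
          simp only [ls, List.mem_map, mem_setOf_eq]
          constructor
          · rintro ⟨q, b, rfl⟩
            obtain ⟨⟨y, b₁, rfl⟩, b₂⟩ := a₁.le b
            exact ⟨hx y b₁ ▸ b₁, fun H => b₂ ((has_mkX hM.cl hS.bas).1 H)⟩
          · rintro ⟨b₁, b₂⟩
            exact ⟨pt x, a₁.ge ⟨⟨x, b₁, rfl⟩, fun H => b₂ (hx x b₁ ▸ (has_mkX hM.cl hS.bas).2 H)⟩,
              (hx x b₁).symm⟩) a₂) (fun d hd => by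
          obtain ⟨q, b₁, b₂, b₃, b₄, b₅, b₆⟩ := copy d hd
          refine ⟨?_, fun a ha => ?_⟩
          · rw [e₂, e₃, ← image_union, ← b₄, ← b₅]
            exact (b₆.resolve_right fun H => by simp [hk] at H).2.2
          · obtain ⟨N, f₁, f₂, rfl⟩ := b₅.ge (Or.inr ha)
            exact ⟨N, md_mk hν.ok hk
              (h₄ ν hP K g hs q b₁ (hEq q b₂).1.sc (hEq q b₂).2 b₃ N f₁ f₂) f₂⟩)
      obtain ⟨q, -, -, -, b₄, -, b₆⟩ := copy d a₁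
      refine ⟨d, a₁, a₂, Or.inl ⟨hk, fun x h => h.elim (hx x) fun h =>
        (b₆.resolve_right fun H => by simp [hk] at H).2.1 x (b₄.ge (Or.inr h)), ?_⟩⟩
      rwa [image_union, ← e₃]
    · obtain ⟨d, a₁, a₂, a₃⟩ := h₆ _ hs _ _ hS _ tM.2.2.2.2.2.1 _ _ _ _ (wS_fin ν p) (TS_fin ν p) hv
        hT ⟨_, hτ⟩ S s₁ real fun d hd => by
          obtain ⟨q, -, -, -, b₄, b₅, b₆⟩ := copy d hd
          rw [← b₄, ← b₅]
          exact (b₆.resolve_left fun H => by simp [hk] at H).2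
      exact ⟨d, a₁, a₂, Or.inr ⟨hk, a₃⟩⟩
  obtain ⟨H, a₁, -, -, a₂⟩ := h₀ M hM.cl (S, d) (hM.cl.has_pair.2 ⟨s₁, d₂⟩) _ tM.2.1
  obtain ⟨b, b₁, b₂, b₃⟩ := hS.gen a₁ (d₁.imp fun b h => ⟨h.1, (a₂ b).2 ⟨hs.subP h.1, h.2⟩⟩)
  obtain ⟨q, f₁, f₂, f₃, f₄, f₅⟩ := h₉ M hM.cl ((ν, w₀, T₀), d, b) (hM.cl.has_pair.2
    ⟨ha, hM.cl.has_pair.2 ⟨d₂, b₃⟩⟩) E hE ((s₃ (d, b)).1 ((a₂ b).1 b₂).2).2
  obtain rfl : b = res ν.W q := f₃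
  have e₂ : wS ν p ∪ wS ν q = wS ν p ∪ ls d.1 := by
    rw [← show _ = wS ν q from f₄, ← union_assoc, hw₀, union_eq_left.2 (sep_subset _ _)]
  have e₃ : TS ν p ∪ TS ν q = TS ν p ∪ ls d.2 := by
    rw [← show _ = TS ν q from f₅, ← union_assoc, hT₀, union_eq_left.2 (sep_subset _ _)]
  rw [← e₂, ← e₃] at d₃
  obtain ⟨c, k₁, k₂⟩ := (h₁ ν K g hs hνK _ _ ((wS_fin _ _).union (wS_fin _ _))
    ((TS_fin _ _).union (TS_fin _ _))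
    (fun x h => h.elim (has_wS hs.cl c₃ ν x) (has_wS hs.cl (hS.sub f₁) ν x))
    (fun x h => h.elim (has_TS hs.cl hs.bas c₃ hνK x)
      (has_TS hs.cl hs.bas (hS.sub f₁) hνK x))).1 d₃
  obtain ⟨u₀, k₃, k₄, k₅⟩ := hs.dir c₁ b₁
  obtain ⟨u, k₆, k₇, k₈⟩ := hs.dir k₃ k₁
  exact ⟨q, f₂, f₁, u, hs.subP k₆, k₄.trans k₇, k₅.trans k₇, k₂.mono k₈ (Abv.of_sub subset_rfl)⟩

theorem pprime : ∀ᶠ D in Fl, D.Countable → ∀ ν, Tg D ν → Pp D ν := by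
  filter_upwards [ev_n0, step, ev_set (fun (a : V × C) (c : C) => enc c ∈ a.1 ∧ a.2 ⊆ c)]
    with D n h₁ h₂ hD ν₀
  induction e : ν₀.W.rank using WellFoundedLT.induction generalizing ν₀ with
  | ind o ih =>
  intro h₀ M hM hν p hp hc E hE hpE
  obtain ⟨p₁, p₂⟩ := h₀.mem.1 hp
  have hW := h₀.tw
  obtain ⟨E', a₁, -, a₂, a₃⟩ := h₂ M hM.cl (E, res M p) (hM.cl.has_pair.2
    ⟨hE, hM.cl.has_finset.2 fun x hx => (mem_res.1 hx).2⟩) _ (hM.cl.has_tag.1 hν).2.1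
  have hpE' := (a₃ p).2 ⟨hp, hpE, fun x hx => (mem_res.1 hx).1⟩
  have fin : ∀ s t : C, has (ν₀.W : Set V) s → has (ν₀.W : Set V) t → PP D (amF s t) →
      enc (amF s t) ∈ ν₀.P := fun s t a b c => h₀.mem.2 ⟨has_amF hW.cl a b, c⟩
  have cM := (p₂.sc.cn hc).cl
  by_cases H : ∃ ν, tr ν ∈ p ∧ has (M : Set V) ν
  swap
  · obtain ⟨z, b₁, b₂⟩ := hM.cl.wit a₁ hpE'
    obtain ⟨q, rfl⟩ := a₂ z b₁
    obtain ⟨b₃, b₄, b₅⟩ := (a₃ q).1 b₁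
    obtain ⟨q₁, q₂⟩ := h₀.mem.1 b₃
    have b₆ := cM.has_finset.1 (has_inter.2 ⟨b₂, q₁⟩)
    exact ⟨q, b₄, b₂, _, fin p q p₁ q₁ (p₂.glue n hc q₂.sc b₆
      (fun x a b => b₅ (mem_res.2 ⟨a, (has_inter.1 b).1⟩)) q₂.atm fun ν a => Or.inl
      ⟨fun b => H ⟨ν, b, hM.cl.has_tr.1 (has_inter.1 (b₆ _ a)).1⟩, q₂.vd ν a⟩),
      Finset.subset_union_left.trans sub_amF, Finset.subset_union_right.trans sub_amF⟩
  obtain ⟨ν, ⟨b₁, b₂⟩, hmax⟩ := exists_max_image {ν | tr ν ∈ p ∧ has (M : Set V) ν}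
    (fun ν => ν.W.rank) ((p.finite_toSet.preimage (f := tr) fun _ _ _ _ h => by
      cases h; rfl).subset fun _ h => h.1) H
  have hνW := hW.cl.has_tr.1 (hW.cl.has_finset.1 p₁ _ b₁)
  have hν' := p₂.tg b₁
  have hW' := hν'.tw
  obtain ⟨q, c₁, c₂, u, c₃, c₄, c₅, c₆⟩ := h₁ hD ν hν' (ih _ (e ▸ rk_lt' hW.cl hνW) ν rfl hν') p p₂
    b₁ M hM _ hc (has_inter.2 ⟨b₂, hνW⟩) (fun _ a => (ZFSet.mem_inter.1 a).1)
    (fun z a b => ZFSet.mem_inter.2 ⟨a, b _ hW hνW⟩) E' a₁ hpE' fun q hq =>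
    ⟨(h₀.mem.1 ((a₃ q).1 hq).1).2, ((a₃ q).1 hq).2.2 (mem_res.2 ⟨b₁, hM.cl.has_tr.2 b₂⟩)⟩
  obtain ⟨b₃, b₄, b₅⟩ := (a₃ q).1 c₁
  obtain ⟨q₁, q₂⟩ := h₀.mem.1 b₃
  have b₆ := cM.has_finset.1 (has_inter.2 ⟨c₂, q₁⟩)
  have b₇ : tr ν ∈ q := b₅ (mem_res.2 ⟨b₁, hM.cl.has_tr.2 b₂⟩)
  obtain ⟨u₁, u₂⟩ := hν'.mem.1 c₃
  replace u₁ := hW'.cl.has_finset.1 u₁
  obtain ⟨s₁, s₂⟩ := h₀.mem.1 (h₀.union n hp b₁ c₃ c₄)
  have u₃ : ∀ x ∈ res (M ∩ ν₀.W) u, has (ν.W : Set V) x := fun x a => u₁ x (mem_res.1 a).1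
  have e₁ : p ∪ u ∪ (q ∪ res (M ∩ ν₀.W) u) = p ∪ q ∪ u := by
    ext x
    simp only [Finset.mem_union, mem_res]
    tauto
  refine ⟨q, b₄, c₂, _, fin (p ∪ u) (q ∪ res (M ∩ ν₀.W) u) s₁ (hW.cl.has_finset.2 fun x a =>
      (Finset.mem_union.1 a).elim (hW.cl.has_finset.1 q₁ x) fun b => (has_inter.1 (mem_res.1 b).2).2)
    (s₂.glue n (Finset.mem_union_left _ hc) ?_ (fun x a => (Finset.mem_union.1 a).elim (b₆ x)
      fun b => (mem_res.1 b).2) (fun x a b => ?_) (fun ν' x a => ?_) fun ν' a => ?_),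
    Finset.subset_union_left.trans (Finset.subset_union_left.trans sub_amF),
    Finset.subset_union_left.trans (Finset.subset_union_right.trans sub_amF)⟩
  · rw [Finset.coe_union]
    refine q₂.sc.union b₇ (coe_res _ _ ▸ u₂.sc.res cM) u₃ fun x a b => ?_
    exact mem_res.2 ⟨c₅ (mem_res.2 ⟨a, b⟩), b₆ x a⟩
  · rw [Finset.mem_union] at a ⊢
    exact a.imp (fun a => b₅ (mem_res.2 ⟨a, (has_inter.1 b).1⟩)) fun a => mem_res.2 ⟨a, b⟩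
  · rw [Finset.mem_union] at a ⊢
    exact a.imp (q₂.atm _ _) fun a => mem_res.2 ⟨u₂.atm _ _ (mem_res.1 a).1,
      cM.has_tr.2 (cM.has_atm.1 (mem_res.1 a).2).1⟩
  by_cases f : has (ν.W : Set V) ν'
  · have a' : tr ν' ∈ u := (Finset.mem_union.1 a).elim
      (fun b => c₅ (mem_res.2 ⟨b, hW'.cl.has_tr.2 f⟩)) fun b => (mem_res.1 b).1
    rw [e₁]
    refine Or.inr ((u₂.vd ν' a').of (fun x b _ => Finset.mem_union_right _ b) ?_ (Abv.of_sub ?_))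
    · rw [wS_union, wS_union, union_eq_right.2 (union_subset (wS_in n hW' c₄ f) (wS_in n hW' c₅ f))]
    · rw [TS_union, TS_union]
      exact union_subset (union_subset (TS_in n p₂.sc b₁ c₄ f) (TS_in n q₂.sc b₇ c₅ f)) subset_rfl
  by_cases f' : ν' = ν
  · subst f'
    rw [e₁]
    refine Or.inr ⟨hν'.ok, hν'.gt, ?_⟩
    rw [wS_union, wS_union, TS_union, TS_union, wS_out n hW' u₁ f, TS_out hW' u₁ f, union_empty,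
      union_empty]
    exact c₆.mono (fun x b => mem_res.2 ⟨Finset.mem_union_right _ b, u₁ x b⟩)
      (Abv.of_sub subset_rfl)
  have a' : tr ν' ∈ q := (Finset.mem_union.1 a).resolve_right fun b => f (hW'.cl.has_tr.1 (u₃ _ b))
  refine Or.inl ⟨fun b => ?_, (q₂.vd ν' a').of (fun x b _ => Finset.mem_union_left _ b) ?_
    (Abv.of_sub ?_)⟩
  · have b' : tr ν' ∈ p := (Finset.mem_union.1 b).resolve_right fun b => f (hW'.cl.has_tr.1 (u₁ _ b))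
    rcases p₂.sc.tot b' b₁ trivial trivial with k | k | k
    · exact f' (by cases k; rfl)
    · exact f (hW'.cl.has_tr.1 (k.tr hW'))
    · exact (rk_lt (p₂.sc.tr b').cl (k.tr (p₂.sc.tr b'))).not_ge
        (hmax ν' ⟨b', hM.cl.has_tr.1 (has_inter.1 (b₆ _ a')).1⟩)
  · rw [wS_union, wS_out n hW' u₃ f, union_empty]
  · rw [TS_union, TS_out hW' u₃ f, union_empty]

end Pool.Agent.MP_656653_lc
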