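import Pool.Agent.MP_656653_lc.Br3

/-! Every Aronszajn line of the model embeds continuously in the target line. -/

set_option synthInstance.maxSize 1000000

namespace Pool.Agent.MP_656653_lc

open Set Filter
open Pool.Agent.MP_c6cf52_lc hiding tr

structure Top.Ln {D} (T : Top D) (ν : Tag) (A R j : T.g.M) (J : Om → T.g.M) : Prop where
  inj : IsInj T.g.E j T.w1 A
  app : ∀ {a}, has T.K a → App T.g.E j (T.o a) (J a)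
  sur : ∀ {y}, T.g.E y A → ∃ a, has T.K a ∧ J a = y
  iff : ∀ {a b}, has T.K a → has T.K b → ((T.st ν).r ν.sA a b ↔ App T.g.E R (J a) (J b))

theorem Top.Ln.eq {D} {T : Top D} {ν A R j J} (h : T.Ln ν A R j J) {a y} (ha : has T.K a)
    (e : App T.g.E j (T.o a) y) : y = J a := Gen.fun_uniq h.inj.1 e (h.app ha)

theorem Top.Ln.mem {D} {T : Top D} {ν A R j J} (h : T.Ln ν A R j J) {a} (ha : has T.K a) :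
    T.g.E (J a) A := (Gen.fun_mem h.inj.1 (h.app ha)).2

theorem exists_ln : ∀ᶠ D in Fl, D.Countable → ∀ (T : Top D) A R, Aron T.g.E (T.o om0) T.w1 A R →
    ∃ ν j J, T.On ν ∧ ν.k2 = true ∧ T.Ln ν A R j J := by
  filter_upwards [capt] with D h₁
  rintro hD T A R ⟨lin, ⟨j, j₁, j₂⟩, -⟩
  have hU : UDef.{2} (fun _ E w => ∃ b b', App E (w 2) (w 0) b ∧ App E (w 2) (w 1) b' ∧
      App E (w 3) b b') :=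
    UDef.ex (UDef.ex ((UDef.app _ _ _).and ((UDef.app _ _ _).and (UDef.app _ _ _))))
  obtain ⟨Z, -, hZ⟩ := exists_rel hU [j, R] T.w1 T.w1
  replace hZ : ∀ s t, App T.g.E Z s t ↔ T.g.E s T.w1 ∧ T.g.E t T.w1 ∧
    ∃ b b', App T.g.E j s b ∧ App T.g.E j t b' ∧ App T.g.E R b b' := hZ
  obtain ⟨ν, a₁, a₂, a₃⟩ := h₁ hD T Z
  have : Nonempty T.g.M := ⟨T.w1⟩
  choose! J J₁ J₂ using fun a (ha : has T.K a) => Gen.fun_ex j₁.1 (Top.o_w1 ha)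
  have k : ∀ a b, has T.K a → has T.K b →
      ((a, b) ∈ (T.st ν).val ν.sA ↔ App T.g.E R (J a) (J b)) := fun a b ha hb => by
    rw [a₃ a b ha hb, hZ]
    refine ⟨fun ⟨_, _, x, y, c₁, c₂, c₃⟩ => ?_,
      fun H => ⟨Top.o_w1 ha, Top.o_w1 hb, _, _, J₂ a ha, J₂ b hb, H⟩⟩
    rwa [Gen.fun_uniq j₁.1 c₁ (J₂ a ha), Gen.fun_uniq j₁.1 c₂ (J₂ b hb)] at c₃
  have hL : (T.st ν).Lin ν.sA := fun a ha b hb c hc => by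
    rw [k a a ha ha, k a b ha hb, k b c hb hc, k a c ha hc, k b a hb ha]
    exact ⟨lin.1 _ (J₁ a ha), lin.2.1 _ _ _ (J₁ a ha) (J₁ b hb) (J₁ c hc),
      (lin.2.2 _ _ (J₁ a ha) (J₁ b hb)).imp id (Or.imp (fun e : J a = J b =>
        Top.o_inj ha hb (j₁.2 _ _ _ (J₂ a ha) (e ▸ J₂ b hb))) id)⟩
  refine ⟨ν, j, J, a₁, a₂, j₁, J₂ _, fun hy => ?_, fun {a b} ha hb => ?_⟩
  · obtain ⟨x, hx⟩ := j₂ _ hy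
    obtain ⟨a, b₁, rfl⟩ := Top.E_w1.1 (Gen.fun_mem j₁.1 hx).1
    exact ⟨a, b₁, Gen.fun_uniq j₁.1 (J₂ a b₁) hx⟩
  · rw [← k a b ha hb]
    exact ⟨fun H => H.elim (fun H => (H.2.2.resolve_right fun H => H.1 hL).2) fun H =>
      absurd hb H.1, fun H => Or.inl ⟨ha, hb, Or.inl ⟨hL, H⟩⟩⟩

theorem ln_nb : ∀ᶠ D in Fl, D.Countable → ∀ (T : Top D) A R, Aron T.g.E (T.o om0) T.w1 A R →
    ∀ ν j J, T.On ν → T.Ln ν A R j J → (T.st ν).NB ν.sA := by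
  filter_upwards [ev_n0, bnd, intl (fun s (z : V × V × ℕ × Bool) (y : Om × Om) =>
    s.Rc z.1 z.2.1 z.2.2.1 z.2.2.2 y.1)] with D n h₁ h₂
  rintro hD T A R ⟨-, -, no₁, no₂, -⟩ ν j J hν h
  by_contra hc
  obtain ⟨τ, a₁, i, d, a₂⟩ := nb_rec (hν.sit n) hc
  obtain ⟨x, hx⟩ := h₂ T ν hν (ν.sA, τ, i, d) (T.cl.has_pair.2
    ⟨(T.cl.has_tag.1 hν.hK).2.2.2.2.2.1, T.cl.has_pair.2 ⟨a₁, T.cl.alw _⟩⟩)
  have hx' : T.Rep x fun a _ => (T.st ν).Rc ν.sA τ i d a := Top.rep_of hx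
  obtain ⟨S, hS⟩ := Gen.sep_udef (UDef.app 1 0 0) [x] T.w1
  replace hS : ∀ y, T.g.E y S ↔ T.g.E y T.w1 ∧ App T.g.E x y y := hS
  obtain ⟨f, f₁, f₂⟩ := exists_enum (S := S) Top.isOrd_w1 (fun a b c hc e e' => by
    obtain ⟨c, c₁, rfl⟩ := Top.E_w1.1 hc
    exact (Top.isOrd_o c₁).1 _ _ e e') (fun a ha => ((hS a).1 ha).1) (fun a ha => by
    obtain ⟨β, b₁, rfl⟩ := Top.E_w1.1 ha
    obtain ⟨β', b₂, b₃⟩ := (n.bas T.cl).up b₁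
    obtain ⟨c, c₁, c₂, c₃⟩ := a₂ β' b₂
    exact ⟨_, (hS _).2 ⟨Top.o_w1 c₁, (hx'.iff c₁ c₁).2 c₃⟩,
      (Top.o_lt b₁ c₁).2 (b₃.trans_le c₂)⟩) (h₁ hD T)
  obtain ⟨k, k₁, k₂⟩ := exists_comp f₁ h.inj.1 fun y hy => ((hS y).1 hy).1
  have key : ∀ a a' c c', App T.g.E k a c → App T.g.E k a' c' → T.g.E a a' → ∃ b b', has T.K b ∧
      has T.K b' ∧ c = J b ∧ c' = J b' ∧ b < b' ∧ ((T.st ν).r ν.sA b' b ↔ d = true) := by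
    intro a a' c c' e e' H
    obtain ⟨b, b₁, b₂⟩ := k₂ a c e
    obtain ⟨b', c₁, c₂⟩ := k₂ a' c' e'
    have := f₂ _ _ _ _ b₁ c₁ H
    obtain ⟨b, -, d₁, -, d₂, rfl, -⟩ := hx'.app ((hS _).1 (Gen.fun_mem f₁ b₁).2).2
    obtain ⟨b', -, e₁, -, e₂, rfl, -⟩ := hx'.app ((hS _).1 (Gen.fun_mem f₁ c₁).2).2
    rw [Top.o_lt d₁ e₁] at this
    exact ⟨b, b', d₁, e₁, h.eq d₁ b₂, h.eq e₁ c₂, this, e₂.2 b this d₂.1⟩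
  cases d
  · refine no₁ ⟨k, k₁, fun a a' c c' e e' H => ?_⟩
    obtain ⟨b, b', b₁, b₂, rfl, rfl, b₃, b₄⟩ := key a a' c c' e e' H
    exact (h.iff b₁ b₂).1 (((r_tri b b').resolve_right fun H =>
      H.elim b₃.ne fun H => by simpa using b₄.1 H))
  · refine no₂ ⟨k, k₁, fun a a' c c' e e' H => ?_⟩
    obtain ⟨b, b', b₁, b₂, rfl, rfl, b₃, b₄⟩ := key a a' c c' e e' H
    exact (h.iff b₂ b₁).1 (b₄.2 rfl)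

theorem def_fr : Def (fun s (x : (V × Om) × Om × Om) => s.Fr x.1.1 x.1.2 x.2.1 ∧
    (x.2.2 = om0 ∨ s.Ch x.1.1 x.1.2 x.2.1 x.2.2)) := by
  unfold St.Fr St.Ch; infer_instance

theorem ln_ll : ∀ᶠ D in Fl, D.Countable → ∀ (T : Top D) A R, Aron T.g.E (T.o om0) T.w1 A R →
    ∀ ν j J, T.On ν → T.Ln ν A R j J → (T.st ν).LL ν.sA := by
  have := def_fr
  filter_upwards [ev_n0, ev_const om0, no_inj, intl (fun s (z : V × Om) (y : Om × Om) =>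
    s.Fr z.1 z.2 y.1 ∧ (y.2 = om0 ∨ s.Ch z.1 z.2 y.1 y.2))] with D n h₀ h₁ h₂
  rintro hD T A R ⟨-, -, -, -, no⟩ ν j J hν h
  by_contra hc
  have h0 := h₀ _ T.cl
  obtain ⟨γ, a₁, a₂⟩ := ll_rec (hν.sit n) hc
  obtain ⟨Z, hZ⟩ := h₂ T ν hν (ν.sA, γ) (T.cl.has_pair.2 ⟨(T.cl.has_tag.1 hν.hK).2.2.2.2.2.1, a₁⟩)
  have hZ' : T.Rep Z fun a m => (T.st ν).Fr ν.sA γ a ∧ (m = om0 ∨ (T.st ν).Ch ν.sA γ a m) :=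
    Top.rep_of hZ
  have hU₀ : UDef.{2} (fun _ E w => ∃ a, App E (w 1) a (w 0) ∧ App E (w 2) a (w 3)) :=
    UDef.ex ((UDef.app _ _ _).and (UDef.app _ _ _))
  obtain ⟨B, hB⟩ := Gen.sep_udef hU₀ [j, Z, T.o om0] A
  replace hB : ∀ y, T.g.E y B ↔ T.g.E y A ∧ ∃ a, App T.g.E j a y ∧ App T.g.E Z a (T.o om0) := hB
  have hB' : ∀ y, T.g.E y B ↔ ∃ a, has T.K a ∧ (T.st ν).Fr ν.sA γ a ∧ y = J a := fun y =>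
    (hB y).trans ⟨fun ⟨_, x, b₁, b₂⟩ => by
      obtain ⟨a, m, c₁, -, c₂, rfl, -⟩ := hZ'.app b₂
      exact ⟨a, c₁, c₂.1, h.eq c₁ b₁⟩, fun ⟨a, b₁, b₂, b₃⟩ => b₃ ▸ ⟨h.mem b₁, _, h.app b₁,
        (hZ'.iff b₁ h0).2 ⟨b₂, Or.inl rfl⟩⟩⟩
  obtain ⟨C, hC⟩ := Gen.exists_power (T.o om0)
  have hU : UDef.{2} (fun _ E w => ∃ a, App E (w 2) a (w 0) ∧
      ∀ m, E m (w 1) ↔ E m (w 4) ∧ App E (w 3) a m) :=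
    UDef.ex ((UDef.app _ _ _).and (UDef.all ((UDef.mem _ _).iff
      ((UDef.mem _ _).and (UDef.app _ _ _)))))
  obtain ⟨f, f₁, f₂⟩ := exists_rel hU [j, Z, T.o om0] B C
  replace f₂ : ∀ y x, App T.g.E f y x ↔ T.g.E y B ∧ T.g.E x C ∧ ∃ a, App T.g.E j a y ∧
    ∀ m, T.g.E m x ↔ T.g.E m (T.o om0) ∧ App T.g.E Z a m := f₂
  refine no ⟨B, C, f, fun y hy => ((hB y).1 hy).1, fun ⟨i, i₁, i₂⟩ => ?_, fun x hx => (hC x).1 hx,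
    ⟨f₁, fun y hy => ?_⟩, fun y y' x x' e e' H => ?_⟩
  · have hU₁ : UDef.{2} (fun _ E w => ∃ b, App E (w 2) (w 1) b ∧ App E (w 3) b (w 0)) :=
      UDef.ex ((UDef.app _ _ _).and (UDef.app _ _ _))
    obtain ⟨Y, -, hY⟩ := exists_rel hU₁ [j, i] (T.o om0) T.w1
    replace hY : ∀ m a, App T.g.E Y m a ↔ T.g.E m (T.o om0) ∧ T.g.E a T.w1 ∧
      ∃ b, App T.g.E j a b ∧ App T.g.E i b m := hY
    refine h₁ hD T _ Y (Top.o_w1 h0) (fun β hβ => ?_) fun m c c' e e' => ?_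
    · obtain ⟨a, b₁, b₂, b₃⟩ := a₂ β hβ
      obtain ⟨m, m₁, m₂⟩ := Gen.fun_ex i₁ ((hB' _).2 ⟨a, b₁, b₃, rfl⟩)
      exact ⟨a, b₁, b₂, m, m₁, (hY _ _).2 ⟨m₁, Top.o_w1 b₁, _, h.app b₁, m₂⟩⟩
    · obtain ⟨-, -, b, b₁, b₂⟩ := (hY _ _).1 e
      obtain ⟨-, -, b', c₁, c₂⟩ := (hY _ _).1 e'
      exact h.inj.2 _ _ _ b₁ (i₂ _ _ _ b₂ c₂ ▸ c₁)
  · obtain ⟨-, a, b₁, -⟩ := (hB y).1 hy
    obtain ⟨x, hx⟩ := Gen.sep_udef (UDef.app 1 2 0) [Z, a] (T.o om0)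
    replace hx : ∀ m, T.g.E m x ↔ T.g.E m (T.o om0) ∧ App T.g.E Z a m := hx
    refine ⟨x, (f₂ y x).2 ⟨hy, (hC x).2 fun m hm => ((hx m).1 hm).1, a, b₁, hx⟩, fun x' e => ?_⟩
    obtain ⟨-, -, a', c₁, c₂⟩ := (f₂ y x').1 e
    obtain rfl := h.inj.2 _ _ _ b₁ c₁
    exact Gen.ext fun m => (c₂ m).trans (hx m).symm
  · have k : ∀ y x, App T.g.E f y x → ∃ a, has T.K a ∧ (T.st ν).Fr ν.sA γ a ∧ y = J a ∧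
        ∀ m < om0, T.g.E (T.o m) x ↔ (T.st ν).Ch ν.sA γ a m := fun y x e => by
      obtain ⟨b₀, -, a', b₁, b₂⟩ := (f₂ y x).1 e
      obtain ⟨a, c₁, c₂, rfl⟩ := (hB' y).1 b₀
      obtain rfl := h.inj.2 _ _ _ b₁ (h.app c₁)
      refine ⟨a, c₁, c₂, rfl, fun m hm => ?_⟩
      have hm' := (n.bas T.cl).down h0 hm.le
      rw [b₂, hZ'.iff c₁ hm', Top.o_lt hm' h0]
      simp [hm, hm.ne, c₂]
    obtain ⟨a, b₁, b₂, rfl, b₃⟩ := k y x e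
    obtain ⟨b, c₁, c₂, rfl, c₃⟩ := k y' x' e'
    obtain ⟨m, m₁, m₂, m₃⟩ := b₂.lex c₂ ((h.iff b₁ c₁).2 H)
    have m₄ : m < om0 := m₁.elim fun ξ H => H.2.1 ▸ ij_lt γ ξ
    refine ⟨T.o m, (c₃ m m₄).2 m₁, fun H => m₂ ((b₃ m m₄).1 H), fun l hl => ?_⟩
    obtain ⟨l, l₁, -, rfl⟩ := (Top.E_o ((n.bas T.cl).down h0 m₄.le)).1 hl
    rw [b₃ l (l₁.trans m₄), c₃ l (l₁.trans m₄), m₃ l l₁]

theorem univ_u : ∀ᶠ D in Fl, D.Countable → ∀ (T : Top D) S, T.Rep S (fun a b => eU a < eU b) →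
    ∀ A R, Aron T.g.E (T.o om0) T.w1 A R → ∃ f, LotsEmb T.g.E f A R T.w1 S := by
  filter_upwards [ev_n0, ev_eU, exists_ln, ln_nb, ln_ll, emb_ord, emb_tot, emb_L, emb_R, aron_u]
    with D n h₀ h₁ h₂ h₃ h₄ h₅ h₆ h₇ h₈ hD T S hS A R hA
  obtain ⟨ν, j, J, hν, hk, h⟩ := h₁ hD T A R hA
  have hn : (T.st ν).Nice ν.sA := ⟨h₃ hD T A R hA ν j J hν h, h₂ hD T A R hA ν j J hν h⟩
  have ord := h₄ T ν hν hk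
  obtain ⟨x, hx⟩ := Top.exists_rN false hν.hK
  have hx' : T.Rep x fun a b => T.F ν a (eU b) := Top.rep_of fun p => (hx p).trans
    (exists₂_congr fun a b => and_congr_right fun _ => and_congr_right fun _ => and_congr_left
      fun _ => exists_congr fun q => and_congr_right fun _ =>
        ⟨fun ⟨_, e, H⟩ => Code.inj e ▸ H, fun H => ⟨ν, rfl, H⟩⟩)
  obtain ⟨f, f₁, f₂⟩ := exists_rel ud_comp' [j, x] A T.w1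
  replace f₂ : ∀ y t, App T.g.E f y t ↔ T.g.E y A ∧ T.g.E t T.w1 ∧
    ∃ s, App T.g.E j s y ∧ App T.g.E x s t := f₂
  have f₃ : ∀ y t, App T.g.E f y t ↔ ∃ a b, has T.K a ∧ has T.K b ∧ T.F ν a (eU b) ∧ y = J a ∧
      t = T.o b := fun y t => (f₂ y t).trans ⟨fun ⟨_, _, s, b₁, b₂⟩ => by
    obtain ⟨a, b, c₁, c₂, c₃, rfl, rfl⟩ := hx'.app b₂
    exact ⟨a, b, c₁, c₂, c₃, h.eq c₁ b₁, rfl⟩, by
    rintro ⟨a, b, c₁, c₂, c₃, rfl, rfl⟩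
    exact ⟨h.mem c₁, Top.o_w1 c₂, _, h.app c₁, (hx'.iff c₁ c₂).2 c₃⟩⟩
  have tot : ∀ a, has T.K a → ∃ b, has T.K b ∧ T.F ν a (eU b) := fun a ha => by
    obtain ⟨t, ht⟩ := h₅ hD T ν hν hk hn a ha
    obtain ⟨b, rfl⟩ := eU.surjective t
    exact ⟨b, (h₀ _ T.cl b).1 (ht.has n).2, ht⟩
  have Jinj : ∀ a b, has T.K a → has T.K b → J a = J b → a = b := fun a b ha hb e =>
    Top.o_inj ha hb (h.inj.2 _ _ _ (h.app ha) (e ▸ h.app hb))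
  have fn : IsFun T.g.E f A T.w1 := ⟨f₁, fun y hy => by
    obtain ⟨a, a₁, rfl⟩ := h.sur hy
    obtain ⟨b, b₁, b₂⟩ := tot a a₁
    refine ⟨_, (f₃ _ _).2 ⟨a, b, a₁, b₁, b₂, rfl, rfl⟩, fun t e => ?_⟩
    obtain ⟨a', b', c₁, c₂, c₃, c₄, rfl⟩ := (f₃ _ _).1 e
    obtain rfl := Jinj _ _ a₁ c₁ c₄
    rw [eU.injective (le_antisymm (not_lt.1 fun H => r_irr _ ((ord _ _ _ _ b₂ c₃).2 H))
      (not_lt.1 fun H => r_irr _ ((ord _ _ _ _ c₃ b₂).2 H)))]⟩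
  refine ⟨f, ⟨fn, fun y y' t e e' => ?_⟩, ⟨fn, fun y y' t t' e e' H => ?_⟩, fun O O' hO hO' => ?_⟩
  · obtain ⟨a, b, c₁, c₂, c₃, rfl, rfl⟩ := (f₃ _ _).1 e
    obtain ⟨a', b', d₁, d₂, d₃, rfl, d₄⟩ := (f₃ _ _).1 e'
    obtain rfl := Top.o_inj c₂ d₂ d₄
    rcases r_tri (r := (T.st ν).r ν.sA) a a' with H | rfl | H
    exacts [absurd ((ord _ _ _ _ c₃ d₃).1 H) (lt_irrefl _), rfl,
      absurd ((ord _ _ _ _ d₃ c₃).1 H) (lt_irrefl _)]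
  · obtain ⟨a, b, c₁, c₂, c₃, rfl, rfl⟩ := (f₃ _ _).1 e
    obtain ⟨a', b', d₁, d₂, d₃, rfl, rfl⟩ := (f₃ _ _).1 e'
    exact (hS.iff c₂ d₂).2 ((ord _ _ _ _ c₃ d₃).1 ((h.iff c₁ d₁).2 H))
  rw [isOpn_iff (h₈ hD T S hS).1] at hO
  rw [isOpn_iff hA.1]
  refine ⟨fun y hy => ((hO' y).1 hy).elim fun _ H => (Gen.fun_mem fn H.1).1, fun y hy => ?_⟩
  obtain ⟨t, t₁, t₂⟩ := (hO' y).1 hy
  obtain ⟨a, b, c₁, c₂, c₃, rfl, rfl⟩ := (f₃ _ _).1 t₁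
  constructor
  · rintro ⟨y, y₁, y₂⟩
    obtain ⟨c, d₁, rfl⟩ := h.sur y₁
    rw [← h.iff d₁ c₁] at y₂
    obtain ⟨e, e₁, e₂⟩ := tot c d₁
    obtain ⟨u, u₁, u₂, u₃⟩ := (hO.2 _ t₂).1 ⟨_, Top.o_w1 e₁, (hS.iff e₁ c₂).2
      ((ord _ _ _ _ e₂ c₃).1 y₂)⟩
    obtain ⟨u, u₄, rfl⟩ := Top.E_w1.1 u₁
    obtain ⟨a', k₁, k₂, k₃⟩ := h₆ hD T ν hν hk hn a _ (eU u) c₃ ((hS.iff u₄ c₂).1 u₂)
      ((h₀ _ T.cl u).2 u₄) ⟨c, d₁, y₂⟩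
    refine ⟨_, h.mem k₁, (h.iff k₁ c₁).1 k₂, fun z z₁ z₂ z₃ => ?_⟩
    obtain ⟨z, z₄, rfl⟩ := h.sur z₁
    rw [← h.iff k₁ z₄] at z₂
    rw [← h.iff z₄ c₁] at z₃
    obtain ⟨w, w₁, w₂⟩ := k₃.resolve_left fun H => H z z₄ ⟨z₂, z₃⟩
    obtain ⟨v, v₁, v₂⟩ := tot z z₄
    exact (hO' _).2 ⟨_, (f₃ _ _).2 ⟨z, v, z₄, v₁, v₂, rfl, rfl⟩, u₃ _ (Top.o_w1 v₁)
      ((hS.iff u₄ v₁).2 (w₁.trans ((ord _ _ _ _ w₂ v₂).1 z₂)))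
      ((hS.iff v₁ c₂).2 ((ord _ _ _ _ v₂ c₃).1 z₃))⟩
  · rintro ⟨y, y₁, y₂⟩
    obtain ⟨c, d₁, rfl⟩ := h.sur y₁
    rw [← h.iff c₁ d₁] at y₂
    obtain ⟨e, e₁, e₂⟩ := tot c d₁
    obtain ⟨u, u₁, u₂, u₃⟩ := (hO.2 _ t₂).2 ⟨_, Top.o_w1 e₁, (hS.iff c₂ e₁).2
      ((ord _ _ _ _ c₃ e₂).1 y₂)⟩
    obtain ⟨u, u₄, rfl⟩ := Top.E_w1.1 u₁
    obtain ⟨a', k₁, k₂, k₃⟩ := h₇ hD T ν hν hk hn a _ (eU u) c₃ ((hS.iff c₂ u₄).1 u₂)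
      ((h₀ _ T.cl u).2 u₄) ⟨c, d₁, y₂⟩
    refine ⟨_, h.mem k₁, (h.iff c₁ k₁).1 k₂, fun z z₁ z₂ z₃ => ?_⟩
    obtain ⟨z, z₄, rfl⟩ := h.sur z₁
    rw [← h.iff z₄ k₁] at z₂
    rw [← h.iff c₁ z₄] at z₃
    obtain ⟨w, w₁, w₂⟩ := k₃.resolve_left fun H => H z z₄ ⟨z₂, z₃⟩
    obtain ⟨v, v₁, v₂⟩ := tot z z₄
    exact (hO' _).2 ⟨_, (f₃ _ _).2 ⟨z, v, z₄, v₁, v₂, rfl, rfl⟩, u₃ _ (Top.o_w1 v₁)
      ((hS.iff v₁ u₄).2 (((ord _ _ _ _ v₂ w₂).1 z₂).trans w₁))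
      ((hS.iff c₂ v₁).2 ((ord _ _ _ _ c₃ v₂).1 z₃))⟩

theorem main : ∃ (M : Type 2) (E : M → M → Prop), IsZFC E ∧ ∃ w w1 : M,
    (IsOrd E w ∧ IsLim E w ∧ ∀ a, E a w → ¬ IsLim E a) ∧
    (IsCard E w1 ∧ E w w1 ∧ ∀ m, IsCard E m → E w m → ¬ E m w1) ∧
    ∃ U S, Aron E w w1 U S ∧ ∀ A R, Aron E w w1 A R → ∃ f, LotsEmb E f A R U S := by
  obtain ⟨D, hD, n, h₁, h₂, h₃, h₄⟩ := Fl.ex (ev_n0.and (ords.and (aron_u.and (univ_u.and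
    (grd fun _ a b => eU a < eU b)))))
  obtain ⟨T⟩ := exists_top hD
  obtain ⟨S, hS⟩ := h₄ hD T ⊥ (n.bas T.cl).bot
  exact ⟨T.g.M, T.g.E, T.g.isZFC, T.o om0, T.w1, (h₁ hD T).1, (h₁ hD T).2, T.w1, S,
    h₂ hD T S hS, h₃ hD T S hS⟩

end Pool.Agent.MP_656653_lc
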