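import Mathlib

/-! The first uncountable ordinal as a type, and a coherent finite-to-one sequence. -/

namespace Pool.Agent.MP_656653_lc

open Set

def Om : Type := (Cardinal.aleph.{0} 1).ord.ToType

noncomputable instance : LinearOrder Om :=
  inferInstanceAs (LinearOrder (Cardinal.aleph.{0} 1).ord.ToType)
instance : WellFoundedLT Om := inferInstanceAs (WellFoundedLT (Cardinal.aleph.{0} 1).ord.ToType)

theorem mk_Om : Cardinal.mk Om = Cardinal.aleph 1 := Cardinal.mk_ord_toType _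

theorem Om_unc : ¬ (univ : Set Om).Countable := by
  rw [countable_univ_iff, ← Cardinal.mk_le_aleph0_iff, mk_Om, not_le]
  exact Cardinal.aleph0_lt_aleph_one

instance : Nonempty Om := by
  by_contra h
  rw [not_nonempty_iff] at h
  exact Om_unc (to_countable _)

noncomputable instance : OrderBot Om := WellFoundedLT.toOrderBot Om

set_option linter.deprecated false in
theorem cnt_Iio (a : Om) : (Iio a).Countable := by
  rw [Cardinal.countable_iff_lt_aleph_one]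
  exact Cardinal.mk_Iio_toType_ord_lt (c := Cardinal.aleph.{0} 1) a

theorem cnt_Iic (a : Om) : (Iic a).Countable := by
  rw [← Iio_insert]; exact (cnt_Iio a).insert a

theorem exists_bound {s : Set Om} (hs : s.Countable) : ∃ b, ∀ a ∈ s, a < b := by
  by_contra h
  push Not at h
  apply Om_unc
  refine (hs.biUnion (fun a _ => cnt_Iic a)).mono ?_
  intro b _
  obtain ⟨a, ha, hab⟩ := h b
  exact mem_biUnion ha hab

instance : NoMaxOrder Om := ⟨fun a => by
  obtain ⟨b, hb⟩ := exists_bound (countable_singleton a)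
  exact ⟨b, hb a rfl⟩⟩

/-- Nonzero limit. -/
def Lim (δ : Om) : Prop := ⊥ < δ ∧ ∀ γ < δ, ∃ γ', γ < γ' ∧ γ' < δ

theorem Lim.finset {δ : Om} (h : Lim δ) (s : Finset Om) (hs : ∀ a ∈ s, a < δ) :
    ∃ β < δ, ∀ a ∈ s, a < β := by
  classical
  induction s using Finset.induction_on with
  | empty => exact ⟨⊥, h.1, by simp⟩
  | insert a s _ ih =>
    obtain ⟨β, hβ, H⟩ := ih fun b hb => hs b (Finset.mem_insert_of_mem hb)
    obtain ⟨γ, h₁, h₂⟩ := h.2 (max a β) (max_lt (hs a (Finset.mem_insert_self _ _)) hβ)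
    refine ⟨γ, h₂, fun b hb => ?_⟩
    rcases Finset.mem_insert.1 hb with rfl | hb
    · exact (le_max_left _ _).trans_lt h₁
    · exact (H b hb).trans ((le_max_right _ _).trans_lt h₁)

theorem Lim.infinite {δ : Om} (h : Lim δ) {s : Set Om} (hs : ∀ β < δ, ∃ a ∈ s, β ≤ a ∧ a < δ) :
    s.Infinite := by
  intro hf
  obtain ⟨β, hβ, H⟩ := h.finset (hf.inter_of_left (Iio δ)).toFinset (by simp)
  obtain ⟨a, ha, h₁, h₂⟩ := hs β hβ
  exact (H a (by simpa using ⟨ha, h₂⟩)).not_ge h₁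

/-- Finitely many eventual requirements below a limit. -/
theorem Lim.ev {ι : Type*} {δ : Om} (h : Lim δ) {s : Set ι} (hs : s.Finite) {Q : ι → Om → Prop}
    (mono : ∀ i β β', β ≤ β' → Q i β → Q i β') (H : ∀ i ∈ s, ∃ β < δ, Q i β) :
    ∃ β < δ, ∀ i ∈ s, Q i β := by
  induction s, hs using Set.Finite.induction_on with
  | empty => exact ⟨⊥, h.1, by simp⟩
  | @insert a s _ _ ih =>
    obtain ⟨β, hβ, H₁⟩ := ih fun i hi => H i (mem_insert_of_mem _ hi)
    obtain ⟨γ, hγ, H₂⟩ := H a (mem_insert _ _)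
    refine ⟨max β γ, max_lt hβ hγ, fun i hi => ?_⟩
    rcases hi with rfl | hi
    · exact mono _ _ _ (le_max_right _ _) H₂
    · exact mono _ _ _ (le_max_left _ _) (H₁ i hi)

theorem exists_en (a : Om) : ∃ f : ℕ → Om, ∀ ξ < a, ∃ n, f n = ξ := by
  obtain ⟨f, hf⟩ := (cnt_Iic a).exists_eq_range ⟨a, mem_Iic.2 le_rfl⟩
  exact ⟨f, fun ξ h => (show ξ ∈ range f from hf ▸ h.le)⟩

noncomputable def en (a : Om) : ℕ → Om := (exists_en a).choose

theorem en_spec {a ξ : Om} (h : ξ < a) : ∃ n, en a n = ξ := (exists_en a).choose_spec ξ h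

open Classical in
noncomputable def co : Om → Om → ℕ :=
  (wellFounded_lt (α := Om)).fix fun a ih ξ =>
    if h : ∃ n, ξ ≤ en a n ∧ en a n < a then
      max (Nat.find h) (ih (en a (Nat.find h)) (Nat.find_spec h).2 ξ) else 0

theorem co_spec {a ξ : Om} (h : ξ < a) : ∃ n, ξ ≤ en a n ∧ en a n < a ∧
    co a ξ = max n (co (en a n) ξ) ∧ ∀ m, ξ ≤ en a m → en a m < a → n ≤ m := by
  classical
  have h' : ∃ n, ξ ≤ en a n ∧ en a n < a := by
    obtain ⟨n, hn⟩ := en_spec h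
    exact ⟨n, hn.ge, hn ▸ h⟩
  refine ⟨Nat.find h', (Nat.find_spec h').1, (Nat.find_spec h').2, ?_,
    fun m h₁ h₂ => Nat.find_min' h' ⟨h₁, h₂⟩⟩
  conv_lhs => unfold co; rw [WellFounded.fix_eq]
  rw [dif_pos h']
  rfl

theorem co_fin (a : Om) (k : ℕ) : {ξ | ξ < a ∧ co a ξ ≤ k}.Finite := by
  induction a using WellFoundedLT.induction generalizing k with
  | ind a ih =>
    have : ∀ n, {ξ | en a n < a ∧ (ξ = en a n ∨ (ξ < en a n ∧ co (en a n) ξ ≤ k))}.Finite := by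
      intro n
      by_cases h : en a n < a
      · exact ((ih _ h k).insert (en a n)).subset fun ξ hξ => hξ.2
      · simp [h]
    refine ((finite_Iic k).biUnion fun n _ => this n).subset ?_
    rintro ξ ⟨h₁, h₂⟩
    obtain ⟨n, h₃, h₄, h₅, -⟩ := co_spec h₁
    rw [h₅, max_le_iff] at h₂
    exact mem_biUnion h₂.1 ⟨h₄, h₃.eq_or_lt.imp id fun h => ⟨h, h₂.2⟩⟩

theorem co_coh_lt (a : Om) : ∀ b < a, {ξ | ξ < b ∧ co a ξ ≠ co b ξ}.Finite := by
  induction a using WellFoundedLT.induction with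
  | ind a ih =>
    intro b hb
    obtain ⟨m, hm⟩ := en_spec hb
    have hc : ∀ c < a, {ξ | ξ < c ∧ ξ < b ∧ co c ξ ≠ co b ξ}.Finite := by
      intro c hc
      rcases lt_trichotomy c b with h | rfl | h
      · exact (ih b hb c h).subset fun ξ hξ => ⟨hξ.1, hξ.2.2.symm⟩
      · simp
      · exact (ih c hc b h).subset fun ξ hξ => hξ.2
    have : ∀ n, {ξ | en a n < a ∧ (ξ = en a n ∨ (ξ < en a n ∧ co (en a n) ξ ≤ n) ∨
        (ξ < en a n ∧ ξ < b ∧ co (en a n) ξ ≠ co b ξ))}.Finite := by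
      intro n
      by_cases h : en a n < a
      · exact (((co_fin (en a n) n).union (hc _ h)).insert (en a n)).subset fun ξ hξ => hξ.2
      · simp [h]
    refine ((finite_Iic m).biUnion fun n _ => this n).subset ?_
    rintro ξ ⟨h₁, h₂⟩
    obtain ⟨n, h₃, h₄, h₅, h₆⟩ := co_spec (h₁.trans hb)
    refine mem_biUnion (h₆ m (hm ▸ h₁.le) (hm ▸ hb)) ⟨h₄, h₃.eq_or_lt.imp id fun h => ?_⟩
    rcases le_total (co (en a n) ξ) n with h' | h'
    · exact Or.inl ⟨h, h'⟩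
    · exact Or.inr ⟨h, h₁, by rwa [h₅, max_eq_right h'] at h₂⟩

theorem co_coh {a b : Om} (h : b ≤ a) : {ξ | ξ < b ∧ co a ξ ≠ co b ξ}.Finite := by
  rcases h.eq_or_lt with rfl | h
  · simp
  · exact co_coh_lt a b h

/-- A ladder: the records from the right. -/
def lad (δ : Om) : Set Om := {ξ | ξ < δ ∧ ∀ η, ξ < η → η < δ → co δ ξ < co δ η}

theorem lad_fin {δ γ : Om} (h : γ < δ) : {ξ | ξ < γ ∧ ξ ∈ lad δ}.Finite :=
  (co_fin δ (co δ γ)).subset fun _ hξ => ⟨hξ.2.1, (hξ.2.2 γ hξ.1 h).le⟩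

theorem lad_inf {δ : Om} (h : Lim δ) : (lad δ).Infinite := by
  refine h.infinite fun β hβ => ?_
  obtain ⟨η, ⟨h₁, h₂⟩, hmin⟩ := (measure (co δ)).wf.has_min {η | β ≤ η ∧ η < δ} ⟨β, le_rfl, hβ⟩
  have hf : {ξ | β ≤ ξ ∧ ξ < δ ∧ co δ ξ ≤ co δ η}.Finite :=
    (co_fin δ (co δ η)).subset fun ξ hξ => hξ.2
  obtain ⟨ξ, ⟨h₃, h₄, h₅⟩, hmax⟩ := hf.exists_maximal ⟨η, h₁, h₂, le_rfl⟩
  refine ⟨ξ, ⟨h₄, fun ζ h₆ h₇ => ?_⟩, h₃, h₄⟩
  by_contra hc
  push Not at hc
  exact (hmax ⟨h₃.trans h₆.le, h₇, hc.trans h₅⟩ h₆.le).not_gt h₆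

end Pool.Agent.MP_656653_lc
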