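import Pool.Agent.MP_656653_lc.Frc

/-! Two-type side conditions. -/

namespace Pool.Agent.MP_656653_lc

open Set Item

def Item.ext : Item → V
  | .cn N => N
  | .tr ν => ν.W
  | .atm _ _ => ∅

def Item.Nd : Item → Prop
  | .atm _ _ => False
  | _ => True

def In (x y : Item) : Prop := has (y.ext : Set V) x

def Lt (s : Set Item) (x y : Item) : Prop :=
  In x y ∨ ∃ ν, tr ν ∈ s ∧ has (ν.W : Set V) x ∧ In (tr ν) y

/-- Transitive, closed, and closed under countable subsets. -/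
structure TW (D : Set Dp) (W : V) : Prop where
  cl : Cl D W
  trans : ∀ {x y : V}, x ∈ W → y ∈ x → y ∈ W
  om : ∀ {x : V}, (x : Set V).Countable → x ⊆ W → x ∈ W

structure CN (D : Set Dp) (N : V) : Prop where
  cl : Cl D N
  cnt : (N : Set V).Countable

structure SC (D : Set Dp) (s : Set Item) : Prop where
  cn : ∀ {N}, cn N ∈ s → CN D N
  tr : ∀ {ν}, tr ν ∈ s → TW D ν.W
  cls : ∀ {N ν}, Item.cn N ∈ s → Item.tr ν ∈ s → has (N : Set V) ν → Item.cn (N ∩ ν.W) ∈ s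
  tot : ∀ {x y}, x ∈ s → y ∈ s → x.Nd → y.Nd → x = y ∨ Lt s x y ∨ Lt s y x

variable {D : Set Dp} {s t : Set Item}

theorem coe_inter (a b : V) : ((a ∩ b : V) : Set V) = (a : Set V) ∩ (b : Set V) := by
  ext; simp

theorem has_inter {α : Type*} [Code α] {a b : V} {x : α} :
    has ((a ∩ b : V) : Set V) x ↔ has (a : Set V) x ∧ has (b : Set V) x := ZFSet.mem_inter

theorem CN.inter {N W} (h : CN D N) (h' : Cl D (W : V)) : CN D (N ∩ W) :=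
  ⟨by rw [coe_inter]; exact h.cl.inter h', by rw [coe_inter]; exact h.cnt.mono inter_subset_left⟩

theorem TW.inter_mem {N W} (h : TW D W) (h' : CN D N) : N ∩ W ∈ W :=
  h.om (h'.inter h.cl).cnt fun _ hx => (ZFSet.mem_inter.1 hx).2

theorem TW.has_inter {N W} (h : TW D W) (h' : CN D N) : has (W : Set V) (cn (N ∩ W)) :=
  h.cl.has_cn.2 (h.inter_mem h')

theorem TW.sub {W : V} (h : TW D W) {ν : Tag} (h' : has (W : Set V) ν) {x : V} (hx : x ∈ ν.W) :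
    x ∈ W := h.trans (h.cl.has_tag.1 h').1 hx

theorem Cl.sub_cn {K} (h : Cl D K) {N : V} (hN : CN D N) (h' : has K (cn N)) {x : V}
    (hx : x ∈ N) : x ∈ K := h.cnt (h.has_cn.1 h') hN.cnt hx

theorem inter_inter {N W W' : V} (h : ∀ x ∈ W', x ∈ W) : N ∩ W ∩ W' = N ∩ W' := by
  ext x
  simp only [ZFSet.mem_inter]
  exact ⟨fun H => ⟨H.1.1, H.2⟩, fun H => ⟨⟨H.1, h x H.2⟩, H.2⟩⟩

theorem Lt.mono {x y} (h : Lt s x y) (h' : s ⊆ t) : Lt t x y :=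
  h.imp id fun ⟨ν, h₁, h₂⟩ => ⟨ν, h' h₁, h₂⟩

theorem Cl.ext_mem {K} (h : Cl D K) {x : Item} (hx : has K x) : x.ext ∈ K := by
  cases x with
  | cn N => exact h.has_cn.1 hx
  | tr ν => exact (h.has_tag.1 (h.has_tr.1 hx)).1
  | atm ν x => exact h.emp

theorem SC.cl (h : SC D s) {x} (hx : x ∈ s) (hn : x.Nd) : Cl D x.ext := by
  cases x with
  | cn N => exact (h.cn hx).cl
  | tr ν => exact (h.tr hx).cl
  | atm ν x => exact hn.elim

theorem rk_lt {K : V} (h : Cl D K) {x : Item} (hx : has (K : Set V) x) : x.ext.rank < K.rank :=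
  ZFSet.rank_lt_of_mem (h.ext_mem hx)

theorem rk_lt' {K : V} (h : Cl D K) {ν : Tag} (hx : has (K : Set V) ν) : ν.W.rank < K.rank :=
  rk_lt h (x := tr ν) (h.has_tr.2 hx)

theorem Lt.rk {x y} (h : Lt s x y) (hs : ∀ ν, tr ν ∈ s → TW D ν.W) (hy : Cl D y.ext) :
    x.ext.rank < y.ext.rank := by
  rcases h with h | ⟨ν, h₁, h₂, h₃⟩
  exacts [rk_lt hy h, (rk_lt (hs ν h₁).cl h₂).trans (rk_lt hy h₃)]

theorem Lt.tr {x ν} (h : Lt s x (tr ν)) (hν : TW D ν.W) : has (ν.W : Set V) x := by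
  rcases h with h | ⟨ν', -, h₂, h₃⟩
  exacts [h, hν.sub (hν.cl.has_tr.1 h₃) h₂]

theorem lt_up {x y ν} (hs : ∀ ν, tr ν ∈ s → TW D ν.W) (hν : tr ν ∈ s) (hy : has (ν.W : Set V) y)
    (h : tr ν = x ∨ Lt s (tr ν) x) : Lt s y x := by
  rcases h with rfl | h | ⟨ν', h₁, h₂, h₃⟩
  exacts [Or.inl hy, Or.inr ⟨ν, hν, hy, h⟩,
    Or.inr ⟨ν', h₁, (hs ν' h₁).sub ((hs ν' h₁).cl.has_tr.1 h₂) hy, h₃⟩]

theorem SC.up (hs : SC D s) {x y N} (hN : Item.cn N ∈ s) (hx : x ∈ s) (hn : x.Nd)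
    (hy : has (N : Set V) y) (h : x = Item.cn N ∨ Lt s (Item.cn N) x) : Lt s y x := by
  rcases h with rfl | h | ⟨ν', h₁, h₂, h₃⟩
  exacts [Or.inl hy, Or.inl ((hs.cl hx hn).sub_cn (hs.cn hN) h hy),
    Or.inr ⟨ν', h₁, (hs.tr h₁).cl.sub_cn (hs.cn hN) h₂ hy, h₃⟩]

theorem SC.res (hs : SC D s) {K} (hK : Cl D K) : SC D {x ∈ s | has K x} := by
  have key : ∀ {x y}, y ∈ s → y.Nd → has K y → Lt s x y → Lt {x ∈ s | has K x} x y := by
    intro x y hy hn hyK h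
    cases y with
    | cn N => exact h.imp id fun ⟨ν, h₁, h₂, h₃⟩ => ⟨ν, ⟨h₁, hK.sub_cn (hs.cn hy) hyK h₃⟩, h₂, h₃⟩
    | tr ν => exact Or.inl (h.tr (hs.tr hy))
    | atm ν x => exact hn.elim
  refine ⟨fun h => hs.cn h.1, fun h => hs.tr h.1, fun h₁ h₂ h₃ => ⟨hs.cls h₁.1 h₂.1 h₃,
    hK.has_cn.2 (hK.int (hK.has_cn.1 h₁.2) (hK.ext_mem h₂.2))⟩, fun hx hy h₁ h₂ => ?_⟩
  exact (hs.tot hx.1 hy.1 h₁ h₂).imp id (Or.imp (key hy.1 h₂ hy.2) (key hx.1 h₁ hx.2))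

theorem SC.red (hs : SC D s) {ν} (hν : Item.tr ν ∈ s) {N} (hN : Item.cn N ∈ s) :
    Item.cn (N ∩ ν.W) ∈ s := by
  induction h : N.rank using WellFoundedLT.induction generalizing N with
  | ind o ih =>
    rcases hs.tot hN hν trivial trivial with e | e | e | ⟨ν', h₁, h₂, h₃⟩
    · cases e
    · have : N ∩ ν.W = N := by
        ext x
        simp only [ZFSet.mem_inter]
        exact and_iff_left_of_imp ((hs.tr hν).cl.sub_cn (hs.cn hN) (e.tr (hs.tr hν)))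
      rwa [this]
    · exact hs.cls hN hν ((hs.cn hN).cl.has_tr.1 e)
    · have h₄ := (hs.cn hN).cl.has_tr.1 h₃
      have := ih _ (h ▸ (ZFSet.rank_lt_of_mem ((hs.tr h₁).inter_mem (hs.cn hN))).trans
        (rk_lt' (hs.cn hN).cl h₄)) (hs.cls hN h₁ h₄) rfl
      rwa [inter_inter fun x => (hs.tr h₁).sub ((hs.tr h₁).cl.has_tr.1 h₂)] at this

theorem SC.union (hs : SC D s) {ν} (hν : Item.tr ν ∈ s) (ht : SC D t)
    (h₁ : ∀ x ∈ t, has (ν.W : Set V) x) (h₂ : ∀ x ∈ s, has (ν.W : Set V) x → x ∈ t) :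
    SC D (s ∪ t) := by
  have hW := hs.tr hν
  have key : ∀ {x y}, x ∈ s → y ∈ t → x.Nd → y.Nd →
      x = y ∨ Lt (s ∪ t) x y ∨ Lt (s ∪ t) y x := by
    intro x y hx hy n₁ n₂
    by_cases h : has (ν.W : Set V) x
    · exact (ht.tot (h₂ x hx h) hy n₁ n₂).imp id (Or.imp (fun H => H.mono subset_union_right)
        fun H => H.mono subset_union_right)
    · refine Or.inr (Or.inr ((lt_up (fun _ => hs.tr) hν (h₁ y hy) ?_).mono subset_union_left))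
      exact (hs.tot hν hx trivial n₁).imp id fun H => H.resolve_right fun H => h (H.tr hW)
  refine ⟨fun h => h.elim hs.cn ht.cn, fun h => h.elim hs.tr ht.tr, ?_, ?_⟩
  · rintro N ν' (a | a) (b | b) c
    · exact Or.inl (hs.cls a b c)
    · have d := hW.cl.has_tr.1 (h₁ _ b)
      have := ht.cls (h₂ _ (hs.red hν a) (hW.has_inter (hs.cn a))) b (has_inter.2 ⟨c, d⟩)
      rw [inter_inter fun x => hW.sub d] at this
      exact Or.inr this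
    · exact Or.inr (ht.cls a (h₂ _ b (hW.cl.has_tr.2 (hW.cl.sub_cn (ht.cn a) (h₁ _ a) c))) c)
    · exact Or.inr (ht.cls a b c)
  · rintro x y (a | a) (b | b) n₁ n₂
    · exact (hs.tot a b n₁ n₂).imp id (Or.imp (fun H => H.mono subset_union_left)
        fun H => H.mono subset_union_left)
    · exact key a b n₁ n₂
    · exact (key b a n₂ n₁).imp Eq.symm Or.symm
    · exact (ht.tot a b n₁ n₂).imp id (Or.imp (fun H => H.mono subset_union_right)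
        fun H => H.mono subset_union_right)

theorem SC.top (hs : SC D s) {ν : Tag} (hW : TW D ν.W) (h : ∀ x ∈ s, has (ν.W : Set V) x) :
    SC D (insert (Item.tr ν) s) := by
  refine ⟨fun a => hs.cn (a.resolve_left (by simp)), ?_, ?_, ?_⟩
  · rintro ν' (a | a)
    · cases a; exact hW
    · exact hs.tr a
  · rintro N ν' a (b | b) c
    · cases b
      have a' := a.resolve_left (by simp)
      exact absurd (rk_lt hW.cl (h _ a')) (rk_lt' (hs.cn a').cl c).not_gt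
    · exact Or.inr (hs.cls (a.resolve_left (by simp)) b c)
  · rintro x y (rfl | a) (rfl | b) n₁ n₂
    exacts [Or.inl rfl, Or.inr (Or.inr (Or.inl (h _ b))), Or.inr (Or.inl (Or.inl (h _ a))),
      (hs.tot a b n₁ n₂).imp id (Or.imp (fun H => H.mono (subset_insert _ _))
        fun H => H.mono (subset_insert _ _))]

theorem SC.atm (hs : SC D s) (ν x) : SC D (insert (Item.atm ν x) s) := by
  refine ⟨fun a => hs.cn (a.resolve_left (by simp)), fun a => hs.tr (a.resolve_left (by simp)),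
    fun a b c => Or.inr (hs.cls (a.resolve_left (by simp)) (b.resolve_left (by simp)) c), ?_⟩
  rintro x y (rfl | a) (rfl | b) n₁ n₂
  exacts [n₁.elim, n₁.elim, n₂.elim, (hs.tot a b n₁ n₂).imp id
    (Or.imp (fun H => H.mono (subset_insert _ _)) fun H => H.mono (subset_insert _ _))]

/-- Sets that lie in every transitive node containing `ν`. -/
def Bx (D : Set Dp) (ν : Tag) (z : V) : Prop := ∀ W : V, TW D W → has (W : Set V) ν → z ∈ W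

def MinR (s : Set Item) (ν : Tag) (N : V) : Prop :=
  ∀ ν', tr ν' ∈ s → has (N : Set V) ν' → ¬ has (ν'.W : Set V) ν

theorem SC.minrep (hs : SC D s) {ν : Tag} {N} (hN : Item.cn N ∈ s) (h : has (N : Set V) ν) :
    ∃ N', Item.cn N' ∈ s ∧ has (N' : Set V) ν ∧ N' ⊆ N ∧ (∀ z ∈ N, Bx D ν z → z ∈ N') ∧
      MinR s ν N' := by
  induction e : N.rank using WellFoundedLT.induction generalizing N with
  | ind o ih =>
    by_cases hm : MinR s ν N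
    · exact ⟨N, hN, h, subset_rfl, fun _ h _ => h, hm⟩
    · unfold MinR at hm
      push Not at hm
      obtain ⟨ν', h₁, h₂, h₃⟩ := hm
      obtain ⟨N', a₁, a₂, a₃, a₄, a₅⟩ := ih _ (e ▸ (ZFSet.rank_lt_of_mem
        ((hs.tr h₁).inter_mem (hs.cn hN))).trans (rk_lt' (hs.cn hN).cl h₂)) (hs.cls hN h₁ h₂)
        (has_inter.2 ⟨h, h₃⟩) rfl
      exact ⟨N', a₁, a₂, fun x hx => (ZFSet.mem_inter.1 (a₃ hx)).1,
        fun z hz b => a₄ z (ZFSet.mem_inter.2 ⟨hz, b _ (hs.tr h₁) h₃⟩) b, a₅⟩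

theorem SC.gap (hs : SC D s) {M} (hM : Item.cn M ∈ s) {x} (hx : x ∈ s) (hn : x.Nd)
    (h : ¬ has (M : Set V) x) : ∃ M', Item.cn M' ∈ s ∧ (x = Item.cn M' ∨ Lt s (Item.cn M') x) ∧
      (M' = M ∨ ∃ R, Item.tr R ∈ s ∧ has (M : Set V) R ∧ has (R.W : Set V) x ∧ M' = M ∩ R.W) := by
  by_cases H : ∃ R, Item.tr R ∈ s ∧ has (M : Set V) R ∧ has (R.W : Set V) x
  · obtain ⟨R, ⟨h₁, h₂, h₃⟩, hmin⟩ := (InvImage.wf (fun R : Tag => R.W.rank) wellFounded_lt).has_min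
      {R | Item.tr R ∈ s ∧ has (M : Set V) R ∧ has (R.W : Set V) x} H
    have h₄ := hs.cls hM h₁ h₂
    refine ⟨_, h₄, ?_, Or.inr ⟨R, h₁, h₂, h₃, rfl⟩⟩
    rcases hs.tot hx h₄ hn trivial with e | (e | ⟨ν', a₁, a₂, a₃⟩) | e
    · exact Or.inl e
    · exact absurd (has_inter.1 e).1 h
    · have := has_inter.1 ((hs.cn h₄).cl.has_tr.1 a₃)
      exact absurd (rk_lt' (hs.tr h₁).cl this.2) (hmin ν' ⟨a₁, this.1, a₂⟩)
    · exact Or.inr e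
  · refine ⟨M, hM, ?_, Or.inl rfl⟩
    rcases hs.tot hx hM hn trivial with e | (e | ⟨ν', a₁, a₂, a₃⟩) | e
    exacts [Or.inl e, absurd e h, absurd ⟨ν', a₁, (hs.cn hM).cl.has_tr.1 a₃, a₂⟩ H, Or.inr e]

theorem SC.pos (hs : SC D s) {M} (hM : Item.cn M ∈ s) {N} (hN : Item.cn N ∈ s)
    (h : ¬ has (M : Set V) (Item.cn N)) {ν : Tag} (h₁ : has (M : Set V) ν) (h₂ : has (N : Set V) ν)
    (hm : MinR s ν N) : ∀ z ∈ M, Bx D ν z → z ∈ N := by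
  obtain ⟨M', a₁, a₂, a₃⟩ := hs.gap hM hN trivial h
  have b : has (M' : Set V) ν ∧ ∀ z ∈ M, Bx D ν z → z ∈ M' := by
    rcases a₃ with rfl | ⟨R, b₁, -, b₃, rfl⟩
    · exact ⟨h₁, fun _ h _ => h⟩
    · have := (hs.tr b₁).cl.sub_cn (hs.cn hN) b₃ h₂
      exact ⟨has_inter.2 ⟨h₁, this⟩, fun z hz H => ZFSet.mem_inter.2 ⟨hz, H _ (hs.tr b₁) this⟩⟩
  intro z hz H
  rcases a₂ with e | e | ⟨ν', c₁, c₂, c₃⟩
  · cases e; exact b.2 z hz H
  · exact (hs.cn hN).cl.sub_cn (hs.cn a₁) e (b.2 z hz H)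
  · exact absurd ((hs.tr c₁).cl.sub_cn (hs.cn a₁) c₂ b.1) (hm ν' c₁ ((hs.cn hN).cl.has_tr.1 c₃))

theorem bx_W {ν : Tag} {z : V} (h : z ∈ ν.W) : Bx D ν z := fun _ hW h' => hW.sub h' h

def am (s t : Set Item) : Set Item :=
  s ∪ t ∪ {z | ∃ N ν, cn N ∈ s ∧ tr ν ∈ t ∧ has (N : Set V) ν ∧ z = cn (N ∩ ν.W)}

theorem SC.am (hs : SC D s) {M} (hM : Item.cn M ∈ s) (ht : SC D t)
    (h₁ : ∀ x ∈ t, has (M : Set V) x) (h₂ : ∀ x ∈ s, has (M : Set V) x → x ∈ t) :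
    SC D (am s t) := by
  have cM := (hs.cn hM).cl
  have ss : s ⊆ MP_656653_lc.am s t := fun x h => Or.inl (Or.inl h)
  have st : t ⊆ MP_656653_lc.am s t := fun x h => Or.inl (Or.inr h)
  have htr : ∀ ν, Item.tr ν ∈ MP_656653_lc.am s t → TW D ν.W := by
    rintro ν ((a | a) | ⟨_, _, _, _, _, a⟩)
    exacts [hs.tr a, ht.tr a, by cases a]
  have tS : ∀ {x y}, x ∈ s → y ∈ s → x.Nd → y.Nd → x = y ∨ Lt (MP_656653_lc.am s t) x y ∨
      Lt (MP_656653_lc.am s t) y x := fun a b n₁ n₂ =>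
    (hs.tot a b n₁ n₂).imp id (Or.imp (fun H => H.mono ss) fun H => H.mono ss)
  have tT : ∀ {x y}, x ∈ t → y ∈ t → x.Nd → y.Nd → x = y ∨ Lt (MP_656653_lc.am s t) x y ∨
      Lt (MP_656653_lc.am s t) y x := fun a b n₁ n₂ =>
    (ht.tot a b n₁ n₂).imp id (Or.imp (fun H => H.mono st) fun H => H.mono st)
  have tST : ∀ {x y}, x ∈ s → y ∈ t → x.Nd → y.Nd → x = y ∨ Lt (MP_656653_lc.am s t) x y ∨
      Lt (MP_656653_lc.am s t) y x := by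
    intro x y hx hy n₁ n₂
    by_cases h : has (M : Set V) x
    · exact tT (h₂ x hx h) hy n₁ n₂
    obtain ⟨M', a₁, a₂, rfl | ⟨R, b₁, b₂, b₃, rfl⟩⟩ := hs.gap hM hx n₁ h
    · exact Or.inr (Or.inr ((hs.up a₁ hx n₁ (h₁ y hy) a₂).mono ss))
    · have c := h₂ _ b₁ (cM.has_tr.2 b₂)
      rcases ht.tot c hy trivial n₂ with e | e | e
      · exact Or.inr (Or.inl (lt_up htr (st c) b₃ (Or.inl e)))
      · exact Or.inr (Or.inl (lt_up htr (st c) b₃ (Or.inr (e.mono st))))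
      · exact Or.inr (Or.inr ((hs.up a₁ hx n₁ (has_inter.2 ⟨h₁ y hy, e.tr (hs.tr b₁)⟩) a₂).mono ss))
  have cs : ∀ z ∈ MP_656653_lc.am s t, z ∈ s ∨ z ∈ t ∨ ∃ N ν, Item.cn N ∈ s ∧ Item.tr ν ∈ t ∧
      Item.tr ν ∉ s ∧ has (N : Set V) ν ∧ MinR s ν N ∧ (∀ x ∈ M, x ∈ ν.W → x ∈ N) ∧
      z = Item.cn (N ∩ ν.W) := by
    rintro z ((a | a) | ⟨N, ν, a₁, a₂, a₃, rfl⟩)
    · exact Or.inl a
    · exact Or.inr (Or.inl a)
    by_cases b : Item.tr ν ∈ s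
    · exact Or.inl (hs.cls a₁ b a₃)
    obtain ⟨N', c₁, c₂, c₃, c₄, c₅⟩ := hs.minrep a₁ a₃
    have e : N ∩ ν.W = N' ∩ ν.W := by
      ext x
      simp only [ZFSet.mem_inter]
      exact ⟨fun H => ⟨c₄ x H.1 (bx_W H.2), H.2⟩, fun H => ⟨c₃ H.1, H.2⟩⟩
    rw [e]
    by_cases d : has (M : Set V) (Item.cn N')
    · exact Or.inr (Or.inl (ht.cls (h₂ _ c₁ d) a₂ c₂))
    · exact Or.inr (Or.inr ⟨N', ν, c₁, a₂, b, c₂, c₅, fun x hx hx' =>
        hs.pos hM c₁ d (cM.has_tr.1 (h₁ _ a₂)) c₂ c₅ x hx (bx_W hx'), rfl⟩)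
  have tN : ∀ N ν, Item.cn N ∈ s → Item.tr ν ∈ t → Item.tr ν ∉ s → has (N : Set V) ν →
      MinR s ν N → (∀ x ∈ M, x ∈ ν.W → x ∈ N) → ∀ y ∈ s ∪ t, y.Nd →
      Lt (MP_656653_lc.am s t) (Item.cn (N ∩ ν.W)) y ∨
        Lt (MP_656653_lc.am s t) y (Item.cn (N ∩ ν.W)) := by
    intro N ν a₁ a₂ a₃ a₄ a₅ a₆ y hy n
    have hW := ht.tr a₂
    have hz := hW.has_inter (hs.cn a₁)
    by_cases b : y ∈ t
    · rcases ht.tot a₂ b trivial n with e | e | e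
      · exact Or.inl (lt_up htr (st a₂) hz (Or.inl e))
      · exact Or.inl (lt_up htr (st a₂) hz (Or.inr (e.mono st)))
      · exact Or.inr (Or.inl (has_inter.2 ⟨a₆ _ (h₁ y b) (e.tr hW), e.tr hW⟩))
    have hy' := hy.resolve_right b
    obtain ⟨M', c₁, c₂, c₃⟩ := hs.gap hM hy' n fun H => b (h₂ y hy' H)
    by_cases d : has (M' : Set V) (Item.tr ν)
    · exact Or.inl (lt_up htr (st a₂) hz (Or.inr ((hs.up c₁ hy' n d c₂).mono ss)))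
    obtain ⟨R, b₁, b₂, b₃, rfl⟩ := c₃.resolve_left fun e => d (e ▸ h₁ _ a₂)
    have hyW : has (ν.W : Set V) y := by
      rcases ht.tot (h₂ _ b₁ (cM.has_tr.2 b₂)) a₂ trivial trivial with e | e | e
      · exact absurd (e ▸ b₁) a₃
      · exact hW.sub (hW.cl.has_tr.1 (e.tr hW)) b₃
      · exact absurd (has_inter.2 ⟨h₁ _ a₂, e.tr (hs.tr b₁)⟩) d
    have r₁ := (rk_lt hW.cl hyW).trans (rk_lt' (hs.cn a₁).cl a₄)
    rcases hs.tot hy' a₁ n trivial with e | (e | ⟨ν', f₁, f₂, f₃⟩) | e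
    · rw [e] at r₁; exact absurd r₁ (lt_irrefl _)
    · exact Or.inr (Or.inl (has_inter.2 ⟨e, hyW⟩))
    · rcases tST f₁ a₂ trivial trivial with e | e | e
      · exact absurd (e ▸ f₁) a₃
      · exact Or.inr (Or.inr ⟨ν', ss f₁, f₂, has_inter.2 ⟨f₃, e.tr hW⟩⟩)
      · exact absurd ((hs.tr f₁).cl.has_tr.1 (e.tr (hs.tr f₁)))
          (a₅ ν' f₁ ((hs.cn a₁).cl.has_tr.1 f₃))
    · exact absurd (e.rk (fun _ => hs.tr) (hs.cl hy' n)) r₁.not_gt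
  have tNN : ∀ N N' ν, Item.cn N ∈ s → Item.cn N' ∈ s → Item.tr ν ∈ t → has (N : Set V) ν →
      has (N' : Set V) ν → MinR s ν N' → Lt s (Item.cn N) (Item.cn N') →
      Lt (MP_656653_lc.am s t) (Item.cn (N ∩ ν.W)) (Item.cn (N' ∩ ν.W)) := by
    rintro N N' ν a₁ a₂ a₃ a₄ a₅ a₆ (e | ⟨ν', f₁, f₂, f₃⟩)
    · have c := (hs.cn a₂).cl
      exact Or.inl (has_inter.2 ⟨c.has_cn.2 (c.int (c.has_cn.1 e) (c.has_tag.1 a₅).1),
        (ht.tr a₃).has_inter (hs.cn a₁)⟩)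
    · exact absurd ((hs.tr f₁).cl.sub_cn (hs.cn a₁) f₂ a₄) (a₆ ν' f₁ ((hs.cn a₂).cl.has_tr.1 f₃))
  refine ⟨?_, fun h => htr _ h, ?_, fun {x y} hx hy n₁ n₂ => ?_⟩
  · rintro N ((a | a) | ⟨N', ν, a₁, a₂, -, a⟩)
    · exact hs.cn a
    · exact ht.cn a
    · cases a; exact (hs.cn a₁).inter (ht.tr a₂).cl
  · intro N ν a b c
    have b' : Item.tr ν ∈ s ∨ Item.tr ν ∈ t := by
      rcases b with b | ⟨_, _, _, _, _, b⟩
      exacts [b, by cases b]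
    have k : ∀ N, Item.cn N ∈ s → has (N : Set V) ν → Item.cn (N ∩ ν.W) ∈ MP_656653_lc.am s t :=
      fun N a c => b'.elim (fun b => ss (hs.cls a b c)) fun b => Or.inr ⟨N, ν, a, b, c, rfl⟩
    rcases a with (a | a) | ⟨N', ν', a₁, a₂, -, a⟩
    · exact k N a c
    · exact st (ht.cls a (b'.elim (fun b => h₂ _ b
        (cM.has_tr.2 (cM.sub_cn (ht.cn a) (h₁ _ a) c))) id) c)
    · cases a
      rw [inter_inter fun x => (ht.tr a₂).sub (has_inter.1 c).2]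
      exact k N' a₁ (has_inter.1 c).1
  rcases cs x hx with a | a | ⟨N, ν, a₁, a₂, a₃, a₄, a₅, a₆, rfl⟩
  · rcases cs y hy with b | b | ⟨N, ν, a₁, a₂, a₃, a₄, a₅, a₆, rfl⟩
    exacts [tS a b n₁ n₂, tST a b n₁ n₂,
      Or.inr (tN N ν a₁ a₂ a₃ a₄ a₅ a₆ x (Or.inl a) n₁).symm]
  · rcases cs y hy with b | b | ⟨N, ν, a₁, a₂, a₃, a₄, a₅, a₆, rfl⟩
    exacts [(tST b a n₂ n₁).imp Eq.symm Or.symm, tT a b n₁ n₂,
      Or.inr (tN N ν a₁ a₂ a₃ a₄ a₅ a₆ x (Or.inr a) n₁).symm]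
  · rcases cs y hy with b | b | ⟨N', ν', b₁, b₂, -, b₄, b₅, b₆, rfl⟩
    · exact Or.inr (tN N ν a₁ a₂ a₃ a₄ a₅ a₆ y (Or.inl b) n₂)
    · exact Or.inr (tN N ν a₁ a₂ a₃ a₄ a₅ a₆ y (Or.inr b) n₂)
    rcases ht.tot a₂ b₂ trivial trivial with e | e | e
    · cases e
      rcases hs.tot a₁ b₁ trivial trivial with e | e | e
      · cases e; exact Or.inl rfl
      · exact Or.inr (Or.inl (tNN N N' ν a₁ b₁ a₂ a₄ b₄ b₅ e))
      · exact Or.inr (Or.inr (tNN N' N ν b₁ a₁ a₂ b₄ a₄ a₅ e))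
    · have := e.tr (ht.tr b₂)
      exact Or.inr (Or.inl (Or.inr ⟨ν, st a₂, (ht.tr a₂).has_inter (hs.cn a₁),
        has_inter.2 ⟨b₆ _ (h₁ _ a₂) this, this⟩⟩))
    · have := e.tr (ht.tr a₂)
      exact Or.inr (Or.inr (Or.inr ⟨ν', st b₂, (ht.tr b₂).has_inter (hs.cn b₁),
        has_inter.2 ⟨a₆ _ (h₁ _ b₂) this, this⟩⟩))

/-- The nodes containing a tag form a chain. -/
theorem SC.chain (hs : SC D s) {ν : Tag} {N N'} (hN : Item.cn N ∈ s) (hN' : Item.cn N' ∈ s)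
    (h : has (N : Set V) ν) (h' : has (N' : Set V) ν) :
    (∀ z, Bx D ν z → (z ∈ N ↔ z ∈ N')) ∨
    (∃ N₁ ∈ N', CN D N₁ ∧ ∀ z, Bx D ν z → (z ∈ N ↔ z ∈ N₁)) ∨
    (∃ N₁ ∈ N, CN D N₁ ∧ ∀ z, Bx D ν z → (z ∈ N' ↔ z ∈ N₁)) := by
  obtain ⟨A, a₁, a₂, a₃, a₄, a₅⟩ := hs.minrep hN h
  obtain ⟨B, b₁, b₂, b₃, b₄, b₅⟩ := hs.minrep hN' h'
  have k : ∀ {A B}, Item.cn A ∈ s → Item.cn B ∈ s → has (A : Set V) ν → MinR s ν B →
      Lt s (Item.cn A) (Item.cn B) → A ∈ B := by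
    rintro A B a b c d (e | ⟨ν', f₁, f₂, f₃⟩)
    · exact (hs.cn b).cl.has_cn.1 e
    · exact absurd ((hs.tr f₁).cl.sub_cn (hs.cn a) f₂ c) (d ν' f₁ ((hs.cn b).cl.has_tr.1 f₃))
  rcases hs.tot a₁ b₁ trivial trivial with e | e | e
  · cases e
    exact Or.inl fun z hz => ⟨fun H => b₃ (a₄ z H hz), fun H => a₃ (b₄ z H hz)⟩
  · exact Or.inr (Or.inl ⟨A, b₃ (k a₁ b₁ a₂ b₅ e), hs.cn a₁,
      fun z hz => ⟨fun H => a₄ z H hz, fun H => a₃ H⟩⟩)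
  · exact Or.inr (Or.inr ⟨B, a₃ (k b₁ a₁ b₂ a₅ e), hs.cn b₁,
      fun z hz => ⟨fun H => b₄ z H hz, fun H => b₃ H⟩⟩)

end Pool.Agent.MP_656653_lc
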