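import Pool.Agent.MP_656653_lc.Good

/-! The forcing for the dichotomy: one step of properness. -/

set_option synthInstance.maxSize 1000000

namespace Pool.Agent.MP_656653_lc

open Set Filter

abbrev Trc := Om × V
abbrev Dat := List X × List Trc

abbrev St.vd (s : St) (σ : V) : Set Dat := s.val σ

def ls {α : Type*} (l : List α) : Set α := {x | x ∈ l}

theorem exists_ls {α : Type*} {S : Set α} (h : S.Finite) : ∃ l, ls l = S :=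
  ⟨h.toFinset.toList, by ext; simp [ls]⟩

namespace St

variable (s : St) (σ : V)

def H1 (F : V) (φ : Bool) : Prop :=
  s.Nice σ ∧ s.Unb (s.vx F) ∧ (∀ x, x ∈ s.vx F → prp x) ∧
    (φ = true → ¬ ∃ ρ, s.nam ρ ∧ ∃ Is, has s.K Is ∧ s.Large σ true (s.vx F) (s.vx ρ) Is)

def Val1 (F : V) (φ : Bool) (w : Set X) (T : Set Trc) : Prop :=
  (w.Nonempty → s.H1 σ F φ) ∧ (∀ x ∈ w, x ∈ s.vx F) ∧
  (∀ x ∈ w, ∀ y ∈ w, x ≠ y → OK (s.r σ) φ x y) ∧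
  ∀ τ ∈ T, (∀ x ∈ w, x.2 < τ.1 → ∀ p ∈ x.1, pbl τ.1 p) ∧
    ∀ x ∈ w, ∀ y ∈ w, τ.1 ≤ x.2 → τ.1 ≤ y.2 → eqv (s.r σ) τ.1 x.1 y.1 ∨ spl (s.r σ) τ.1 x.1 y.1

end St

noncomputable def nx (Y : List X) (i : ℕ) : X := Y.getD i ([], ⊥)
def nI (Is : List (List ℕ)) (i : ℕ) : List ℕ := Is.getD i []

theorem nx_mem {Y : List X} {i : ℕ} (h : i < Y.length) : nx Y i ∈ Y := by
  unfold nx
  rw [List.getD_eq_getElem _ _ h]
  exact List.getElem_mem h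

theorem exists_nx {Y : List X} {x : X} (h : x ∈ Y) : ∃ i < Y.length, nx Y i = x := by
  obtain ⟨i, hi, rfl⟩ := List.getElem_of_mem h
  exact ⟨i, hi, List.getD_eq_getElem _ _ hi⟩

theorem exists_blocks (Y : List X) : ∃ (z : List Pt) (Is : List (List ℕ)),
    (∀ i < Y.length, pj (nI Is i) z = (nx Y i).1 ∧ nI Is i ∈ Is ∧ ∀ j ∈ nI Is i, j < z.length) ∧
    (∀ I ∈ Is, ∃ i < Y.length, nI Is i = I) ∧ ∀ p ∈ z, ∃ y ∈ Y, p ∈ y.1 := by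
  have : ∀ y ∈ Y, ∃ J, (∀ j ∈ J, j < (Y.flatMap Prod.fst).length) ∧
      pj J (Y.flatMap Prod.fst) = y.1 :=
    fun y hy => exists_idx fun p hp => exists_nt (List.mem_flatMap.2 ⟨y, hy, hp⟩)
  choose! J h₁ h₂ using this
  have e : ∀ i < Y.length, nI (Y.map J) i = J (nx Y i) := fun i hi => by
    unfold nI nx
    rw [List.getD_eq_getElem _ _ (by simpa using hi), List.getD_eq_getElem _ _ hi,
      List.getElem_map]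
  refine ⟨Y.flatMap Prod.fst, Y.map J, fun i hi => ?_, fun I hI => ?_,
    fun p hp => List.mem_flatMap.1 hp⟩
  · rw [e i hi]
    exact ⟨h₂ _ (nx_mem hi), List.mem_map_of_mem (nx_mem hi), h₁ _ (nx_mem hi)⟩
  · obtain ⟨y, hy, rfl⟩ := List.mem_map.1 hI
    obtain ⟨i, hi, rfl⟩ := exists_nx hy
    exact ⟨i, hi, e i hi⟩

theorem Sub.has_x {D s N δ} (h : Sub D s N δ) {x : X} :
    has N x ↔ (∀ p ∈ x.1, pbl δ p) ∧ x.2 < δ := by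
  simp only [h.cl.has_prod (a := x), h.cl.has_list, h.has_pt, h.iff]

theorem val1_amalg {D s M δ} (hM : Sub D s M δ) {σ F φ} {w : Set X} {T : Set Trc} {β m : Om}
    {Y' : Set X} {T' : Set Trc} (hv : s.Val1 σ F φ w T)
    (hv' : s.Val1 σ F φ ({x ∈ w | has M x} ∪ Y') ({τ ∈ T | has M τ} ∪ T'))
    (hT : ∀ τ ∈ T, has M τ ∨ δ ≤ τ.1) (hw : ∀ x ∈ w, has M x ∨ δ ≤ x.2)
    (hY' : ∀ x ∈ Y', has M x ∧ m ≤ x.2) (hT' : ∀ τ ∈ T', τ.1 < δ ∧ m ≤ τ.1) (hβ : β ≤ m) (hβδ : β < δ)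
    (b₁ : ∀ x ∈ w, has M x → x.2 < β) (b₂ : ∀ τ ∈ T, has M τ → τ.1 ≤ β)
    (b₃ : ∀ x ∈ w, ∀ y ∈ w, δ ≤ x.2 → δ ≤ y.2 →
      eqv (s.r σ) δ x.1 y.1 ∨ spl (s.r σ) β x.1 y.1)
    (hd : ∀ x' ∈ Y', ∃ y ∈ w, δ ≤ y.2 ∧ eqv (s.r σ) β y.1 x'.1 ∧ spl (s.r σ) m y.1 x'.1 ∧
      ¬ (φ = true ∧ mat (s.r σ) m y.1 x'.1)) :
    s.Val1 σ F φ (w ∪ Y') (T ∪ T') := by
  have K1 : ∀ x ∈ w, δ ≤ x.2 → ∀ x' ∈ Y', spl (s.r σ) m x.1 x'.1 ∧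
      ∀ γ, ¬ (φ = true ∧ mat (s.r σ) γ x.1 x'.1) := by
    intro x hx hδ x' hx'
    obtain ⟨y, a₁, a₂, a₃, a₄, a₅⟩ := hd x' hx'
    have hm : m ≤ δ := (hY' x' hx').2.trans (hM.has_lt (hY' x' hx').1).le
    by_cases h : eqv (s.r σ) δ x.1 y.1
    · have := a₄.congr (h.mono hm).symm (eqv.refl _ _)
      exact ⟨this, fun γ H => a₅ ⟨H.1, (H.2.of_spl this).congr (h.mono hm) (eqv.refl _ _)⟩⟩
    · have h' := (b₃ x hx y a₁ hδ a₂).resolve_left h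
      have := h'.congr (eqv.refl _ _) a₃
      refine ⟨this.mono hβ, fun γ H => (hv.2.2.1 x hx y a₁ fun e => h (e ▸ eqv.refl _ _)).2
        ⟨H.1, ((H.2.of_spl this).congr (eqv.refl _ _) a₃.symm).mono
          (hβδ.le.trans (le_min hδ a₂))⟩⟩
  have K2 : ∀ x ∈ w, ∀ x' ∈ Y', x ≠ x' → OK (s.r σ) φ x x' := by
    intro x hx x' hx' hne
    rcases hw x hx with h | h
    · exact hv'.2.2.1 x (Or.inl ⟨hx, h⟩) x' (Or.inr hx') hne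
    · exact ⟨(K1 x hx h x' hx').1.mono (le_min ((hY' x' hx').2.trans
        ((hM.has_lt (hY' x' hx').1).le.trans h)) (hY' x' hx').2), (K1 x hx h x' hx').2 _⟩
  refine ⟨?_, ?_, ?_, ?_⟩
  · rintro ⟨x, hx | hx⟩
    exacts [hv.1 ⟨x, hx⟩, hv'.1 ⟨x, Or.inr hx⟩]
  · rintro x (hx | hx)
    exacts [hv.2.1 x hx, hv'.2.1 x (Or.inr hx)]
  · rintro x (hx | hx) y (hy | hy) hne
    exacts [hv.2.2.1 x hx y hy hne, K2 x hx y hy hne, (K2 y hy x hx hne.symm).symm,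
      hv'.2.2.1 x (Or.inr hx) y (Or.inr hy) hne]
  · rintro τ (hτ | hτ)
    · rcases hT τ hτ with h | h
      · refine ⟨?_, fun x hx y hy a₁ a₂ => ?_⟩
        · rintro x (hx | hx)
          exacts [(hv.2.2.2 τ hτ).1 x hx, (hv'.2.2.2 τ (Or.inl ⟨hτ, h⟩)).1 x (Or.inr hx)]
        · have key : ∀ x ∈ w ∪ Y', τ.1 ≤ x.2 →
              ∃ y ∈ w, τ.1 ≤ y.2 ∧ eqv (s.r σ) τ.1 y.1 x.1 := by
            rintro x (hx | hx) a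
            · exact ⟨x, hx, a, eqv.refl _ _⟩
            · obtain ⟨y, c₁, c₂, c₃, -⟩ := hd x hx
              exact ⟨y, c₁, (b₂ τ hτ h).trans (hβδ.le.trans c₂), c₃.mono (b₂ τ hτ h)⟩
          obtain ⟨x', c₁, c₂, c₃⟩ := key x hx a₁
          obtain ⟨y', d₁, d₂, d₃⟩ := key y hy a₂
          exact ((hv.2.2.2 τ hτ).2 x' c₁ y' d₁ c₂ d₂).imp (fun H => c₃.symm.trans (H.trans d₃))
            fun H => H.congr c₃ d₃
      · refine ⟨?_, ?_⟩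
        · rintro x (hx | hx)
          exacts [(hv.2.2.2 τ hτ).1 x hx,
            fun _ p hp => ((hM.has_x.1 (hY' x hx).1).1 p hp).mono h]
        · rintro x (hx | hx) y (hy | hy) a₁ a₂
          exacts [(hv.2.2.2 τ hτ).2 x hx y hy a₁ a₂,
            absurd (hM.has_lt (hY' y hy).1) (h.trans a₂).not_gt,
            absurd (hM.has_lt (hY' x hx).1) (h.trans a₁).not_gt,
            absurd (hM.has_lt (hY' x hx).1) (h.trans a₁).not_gt]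
    · have hv'' := hv'.2.2.2 τ (Or.inr hτ)
      have hτ' := hT' τ hτ
      have up : ∀ x ∈ w, τ.1 ≤ x.2 → δ ≤ x.2 := fun x hx a =>
        (hw x hx).resolve_left fun h => (b₁ x hx h).not_ge (hβ.trans (hτ'.2.trans a))
      refine ⟨?_, ?_⟩
      · rintro x (hx | hx) a
        · rcases hw x hx with h | h
          exacts [hv''.1 x (Or.inl ⟨hx, h⟩) a, absurd (a.trans hτ'.1) h.not_gt]
        · exact hv''.1 x (Or.inr hx) a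
      · rintro x (hx | hx) y (hy | hy) a₁ a₂
        · exact (b₃ x hx y hy (up x hx a₁) (up y hy a₂)).imp (fun H => H.mono hτ'.1.le)
            fun H => H.mono (hβ.trans hτ'.2)
        · exact Or.inr ((K1 x hx (up x hx a₁) y hy).1.mono hτ'.2)
        · exact Or.inr ((K1 y hy (up y hy a₂) x hx).1.mono hτ'.2).symm
        · exact hv''.2 x (Or.inr hx) y (Or.inr hy) a₁ a₂

def Cp1 (r : Om → Om → Prop) (β : Om) (zβ : List Pt) (Is : List (List ℕ)) (n : ℕ) (z : List Pt)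
    (γ : Om) (d : Dat) : Prop :=
  (d.1.length = n ∧ (∀ τ ∈ d.2, max β γ ≤ τ.1) ∧ ∀ x ∈ d.1, max β γ ≤ x.2) ∧
    ∀ i < n, eqv r γ (pj (nI Is i) z) (nx d.1 i).1 ∧ eqv r β (pj (nI Is i) zβ) (nx d.1 i).1

instance {α : Type*} [Code α] (σ : α → V) (β γ : α → Om) (zβ z : α → List Pt)
    (Is : α → List (List ℕ)) (n : α → ℕ) (d : α → Dat) :
    Def (fun s a => Cp1 (s.r (σ a)) (β a) (zβ a) (Is a) (n a) (z a) (γ a) (d a)) := by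
  unfold Cp1; infer_instance

theorem v3D : ∀ᶠ D in Fl, ∀ s, Sit D s → ∀ M δ, Sub D s M δ → ∀ σ ∈ M, ∀ F φ (w : Set X)
    (T : Set Trc), w.Finite → T.Finite → s.Val1 σ F φ w T → (∀ τ ∈ T, has M τ ∨ δ ≤ τ.1) →
    (∃ ρ, (δ, ρ) ∈ T) → ∀ E ∈ M,
    (∀ d : Dat, ls d.1 = {x ∈ w | ¬ has M x} → ls d.2 = {τ ∈ T | ¬ has M τ} → d ∈ s.vd E) →
    (∀ d ∈ s.vd E, s.Val1 σ F φ ({x ∈ w | has M x} ∪ ls d.1) ({τ ∈ T | has M τ} ∪ ls d.2)) →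
    ∃ d ∈ s.vd E, has M d ∧ s.Val1 σ F φ (w ∪ ls d.1) (T ∪ ls d.2) := by
  filter_upwards [rep, unbN, fs, elemV (fun _ (_ : ℕ) (d : Dat) => d.1 = []),
    compX (fun s (a : V × V × Om × List Pt × List (List ℕ) × ℕ × ℕ) (z : X) =>
      z.1.length = a.2.2.2.2.2.2 ∧ prp z ∧ ∃ d, d ∈ s.vd a.2.1 ∧
        Cp1 (s.r a.1) a.2.2.1 a.2.2.2.1 a.2.2.2.2.1 a.2.2.2.2.2.1 z.1 z.2 d),
    compX (fun s (a : V × V × Bool × List (List ℕ)) (z : X) => z ∈ s.vx a.2.1 ∧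
      ∀ y, y ∈ s.vx a.2.1 → y.2 ≤ z.2 → spl (s.r a.1) y.2 z.1 y.1 →
        a.2.2.1 = true ∧ ∃ I, I ∈ a.2.2.2 ∧ mat (s.r a.1) y.2 (pj I z.1) (pj I y.1)),
    elemV (fun s (a : V × Om × List Pt × List (List ℕ) × ℕ × List Pt × Om) (d : Dat) =>
      Cp1 (s.r a.1) a.2.1 a.2.2.1 a.2.2.2.1 a.2.2.2.2.1 a.2.2.2.2.2.1 a.2.2.2.2.2.2 d)]
    with D h₁ h₂ h₃ h₀ h₄ h₅ h₆
  rintro s hs M δ hM σ hσ F φ w T hwf hTf hv hT ⟨ρ, hρ⟩ E hE hreal hcp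
  obtain ⟨Y, hY⟩ := exists_ls (hwf.subset (sep_subset w fun x => ¬ has M x))
  obtain ⟨τs, hτs⟩ := exists_ls (hTf.subset (sep_subset T fun x => ¬ has M x))
  have hd := hreal (Y, τs) hY hτs
  have hw : ∀ x ∈ w, has M x ∨ δ ≤ x.2 := fun x hx => or_iff_not_imp_right.2 fun h =>
    hM.has_x.2 ⟨(hv.2.2.2 _ hρ).1 x hx (not_le.1 h), not_le.1 h⟩
  have hYw : ∀ x ∈ Y, x ∈ w ∧ δ ≤ x.2 := fun x hx =>
    ⟨(hY.le hx).1, (hw x (hY.le hx).1).resolve_left (hY.le hx).2⟩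
  rcases eq_or_ne Y [] with rfl | hne
  · obtain ⟨d, a₁, a₂, a₃⟩ := h₀ s hs M δ hM 0 (hM.cl.has_nat _) E hE _ hd rfl
    have e : {x ∈ w | has M x} = w := by
      ext x
      refine and_iff_left_of_imp fun hx => by_contra fun h => ?_
      exact List.not_mem_nil (hY.ge ⟨hx, h⟩)
    have hc := hcp d a₂
    rw [e, a₃] at hc
    rw [← a₃] at hc
    refine ⟨d, a₂, a₁, hc.1, hc.2.1, hc.2.2.1, ?_⟩
    rintro τ (h | h)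
    · have e' : w ∪ ls d.1 = w := by simp [a₃, ls]
      rw [e']
      exact hv.2.2.2 τ h
    · exact hc.2.2.2 τ (Or.inr h)
  obtain ⟨y₀, hy₀⟩ := List.exists_mem_of_ne_nil Y hne
  have hH := hv.1 ⟨y₀, (hYw y₀ hy₀).1⟩
  obtain ⟨β₁, a₁, b₁⟩ := hM.lim.ev hwf (Q := fun x β => has M x → x.2 < β)
    (fun _ _ _ h H H' => (H H').trans_le h) fun x _ => by
      by_cases h : has M x
      · obtain ⟨γ, c₁, c₂⟩ := hM.lim.2 _ (hM.has_lt h)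
        exact ⟨γ, c₂, fun _ => c₁⟩
      · exact ⟨⊥, hM.lim.1, fun h' => absurd h' h⟩
  obtain ⟨β₂, a₂, b₂⟩ := hM.lim.ev hTf (Q := fun τ β => has M τ → τ.1 ≤ β)
    (fun _ _ _ h H H' => (H H').trans h) fun τ _ => by
      by_cases h : has M τ
      · exact ⟨τ.1, hM.iff.1 (hM.cl.has_prod.1 h).1, fun _ => le_rfl⟩
      · exact ⟨⊥, hM.lim.1, fun h' => absurd h' h⟩
  obtain ⟨β₃, a₃, b₃⟩ := hM.lim.ev (hwf.prod hwf) (Q := fun x β => δ ≤ x.1.2 → δ ≤ x.2.2 →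
      eqv (s.r σ) δ x.1.1 x.2.1 ∨ spl (s.r σ) β x.1.1 x.2.1)
    (fun _ _ _ h H c₁ c₂ => (H c₁ c₂).imp id fun H => H.mono h) fun x hx => by
      by_cases h : δ ≤ x.1.2 ∧ δ ≤ x.2.2
      · rcases (hv.2.2.2 _ hρ).2 x.1 hx.1 x.2 hx.2 h.1 h.2 with h' | h'
        · exact ⟨⊥, hM.lim.1, fun _ _ => Or.inl h'⟩
        · obtain ⟨γ, c₁, c₂⟩ := spl_lim hM.lim h'
          exact ⟨γ, c₁, fun _ _ => Or.inr c₂⟩
      · exact ⟨⊥, hM.lim.1, fun c₁ c₂ => absurd ⟨c₁, c₂⟩ h⟩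
  set β := max β₁ (max β₂ β₃) with hβ
  have hβδ : β < δ := max_lt a₁ (max_lt a₂ a₃)
  obtain ⟨z, Is, c₁, c₂, c₃⟩ := exists_blocks Y
  have hzK : has s.K z := hs.cl.has_list.2 fun p hp => by
    obtain ⟨y, hy, hp⟩ := c₃ p hp
    exact hs.cl.has_list.1 (hs.cl.has_prod.1 (hv.2.1 y (hYw y hy).1).1).1 p hp
  have hzp : prp (z, δ) := fun p hp => by
    obtain ⟨y, hy, hp⟩ := c₃ p hp
    exact (hH.2.2.1 y (hv.2.1 y (hYw y hy).1) p hp).mono (hYw y hy).2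
  obtain ⟨zβ, d₁, d₂⟩ := h₁ s hs M δ hM σ hσ hH.1.1 β hβδ z hzK
  obtain ⟨ω, hω, -, eW⟩ := h₄ s hs M hM.cl hM.sub hM.hP (σ, E, β, zβ, Is, Y.length, z.length)
    (by simp only [hM.cl.has_pair, hM.cl.has_nat, hM.cl.alw Is, and_true]
        exact ⟨hσ, hE, hM.iff.2 hβδ, d₁⟩)
  have eW' : ∀ y : X, y ∈ s.vx ω ↔ has s.K y ∧ y.1.length = z.length ∧ prp y ∧
      ∃ d, d ∈ s.vd E ∧ Cp1 (s.r σ) β zβ Is Y.length y.1 y.2 d := fun y => by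
    rw [St.vx, ← eW]; rfl
  have hZ := h₅ s hs M hM.cl hM.sub hM.hP (σ, ω, φ, Is)
    (by simp only [hM.cl.has_pair, hM.cl.has_bool, hM.cl.alw Is, and_true]; exact ⟨hσ, hω⟩)
  set Z := {z : X | has s.K z ∧ z ∈ s.vx ω ∧
      ∀ y, y ∈ s.vx ω → y.2 ≤ z.2 → spl (s.r σ) y.2 z.1 y.1 →
        φ = true ∧ ∃ I, I ∈ Is ∧ mat (s.r σ) y.2 (pj I z.1) (pj I y.1)} with hZdef
  have down : ∀ z, z ∈ Z → ∀ γ ≤ z.2, (z.1, γ) ∈ Z := by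
    rintro y ⟨e₁, e₂, e₃⟩ γ hγ
    obtain ⟨-, f₁, f₂, d, f₃, ⟨f₄, f₅, f₆⟩, f₇⟩ := (eW' y).1 e₂
    have hK : has s.K (y.1, γ) :=
      hs.cl.has_pair.2 ⟨(hs.cl.has_prod.1 e₁).1, hs.bas.down (hs.cl.has_prod.1 e₁).2 hγ⟩
    exact ⟨hK, (eW' _).2 ⟨hK, f₁, prp.mono f₂ hγ, d, f₃,
      ⟨f₄, fun τ h => (max_le_max_left β hγ).trans (f₅ τ h),
        fun x h => (max_le_max_left β hγ).trans (f₆ x h)⟩,
      fun i hi => ⟨(f₇ i hi).1.mono hγ, (f₇ i hi).2⟩⟩, fun y' g₁ g₂ => e₃ y' g₁ (g₂.trans hγ)⟩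
  by_contra hc
  have hbr : ∀ γ < δ, (z, γ) ∈ Z := by
    intro γ hγ
    have hK : has s.K (z, γ) := hs.cl.has_pair.2 ⟨hzK, hs.has_le hM hγ.le⟩
    refine ⟨hK, (eW' _).2 ⟨hK, rfl, prp.mono hzp hγ.le, _, hd, ⟨rfl, fun τ h => ?_, fun x h =>
      (max_lt hβδ hγ).le.trans (hYw x h).2⟩, fun i hi => ?_⟩, fun y e₁ e₂ e₃ => ?_⟩
    · exact (max_lt hβδ hγ).le.trans ((hT τ (hτs.le h).1).resolve_left (hτs.le h).2)
    · rw [← (c₁ i hi).1]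
      exact ⟨eqv.refl _ _, d₂.symm.pj _⟩
    by_contra hn
    obtain ⟨f₀, f₁, -, d, f₃, f₄⟩ := (eW' y).1 e₁
    have hy : y.2 < δ := e₂.trans_lt hγ
    obtain ⟨y', g₁, g₂⟩ := h₁ s hs M δ hM σ hσ hH.1.1 y.2 hy y.1 (hs.cl.has_prod.1 f₀).1
    obtain ⟨d, g₃, g₄, ⟨g₅, g₆, g₇⟩, g₈⟩ := h₆ s hs M δ hM (σ, β, zβ, Is, Y.length, y', y.2)
      (by simp only [hM.cl.has_pair, hM.cl.has_nat, hM.cl.alw Is, true_and]
          exact ⟨hσ, hM.iff.2 hβδ, d₁, g₁, hM.iff.2 hy⟩) E hE d f₃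
      ⟨f₄.1, fun i hi => ⟨(g₂.symm.pj _).trans (f₄.2 i hi).1, (f₄.2 i hi).2⟩⟩
    obtain ⟨g₉, g₀⟩ := hM.cl.has_prod.1 g₃
    refine hc ⟨d, g₄, g₃, val1_amalg hM (β := β) (m := max β y.2) hv (hcp d g₄) hT hw
      (fun x hx => ⟨hM.cl.has_list.1 g₉ x hx, g₇ x hx⟩)
      (fun τ h => ⟨hM.iff.1 (hM.cl.has_prod.1 (hM.cl.has_list.1 g₀ τ h)).1, g₆ τ h⟩)
      (le_max_left _ _) hβδ (fun x hx h => (b₁ x hx h).trans_le (le_max_left _ _))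
      (fun τ hτ h => (b₂ τ hτ h).trans ((le_max_left _ _).trans (le_max_right _ _)))
      (fun x hx y hy k₁ k₂ => (b₃ (x, y) ⟨hx, hy⟩ k₁ k₂).imp id
        fun H => H.mono ((le_max_right _ _).trans (le_max_right _ _))) fun x' hx' => ?_⟩
    obtain ⟨i, hi, rfl⟩ := exists_nx hx'
    have hi' : i < Y.length := hi.trans_eq g₅
    have k₁ : eqv (s.r σ) y.2 (pj (nI Is i) y.1) (nx d.1 i).1 := (g₂.pj _).trans (g₈ i hi').1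
    have k₂ : spl (s.r σ) y.2 (pj (nI Is i) z) (pj (nI Is i) y.1) :=
      all2_pj.2 fun j hj => e₃.2 j ((c₁ i hi').2.2 j hj)
    refine ⟨nx Y i, (hYw _ (nx_mem hi')).1, (hYw _ (nx_mem hi')).2, ?_, ?_, fun H => ?_⟩
    · rw [← (c₁ i hi').1]
      exact (d₂.pj _).trans (g₈ i hi').2
    · rw [← (c₁ i hi').1]
      exact (k₂.congr (eqv.refl _ _) k₁).mono (le_max_right _ _)
    · rw [← (c₁ i hi').1] at H
      exact hn ⟨H.1, _, (c₁ i hi').2.1,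
        (H.2.of_spl (k₂.congr (eqv.refl _ _) k₁)).congr (eqv.refl _ _) k₁.symm⟩
  have hu := h₂ s hs M δ hM Z hZ fun γ hγ => ⟨_, hbr γ hγ, le_rfl⟩
  have hlev : ∀ γ : Om, has s.K γ → ∃ z, z ∈ Z ∧ z.2 = γ := fun γ hγ => by
    obtain ⟨x, e₁, e₂⟩ := hu γ hγ
    exact ⟨_, down x e₁ γ e₂, rfl⟩
  have hp : ∀ z, z ∈ Z → prp z := fun y hy => ((eW' y).1 hy.2.1).2.2.1
  obtain ⟨⟨z₁, _⟩, e₁, rfl⟩ := hlev δ hM.hd
  obtain ⟨z₂, γ, -, e₂, e₃, e₄⟩ := h₃ s hs M _ hM σ hσ hH.1 Z hZ down hp z₁ e₁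
  have hφ := (e₃.2.2 _ (down _ e₁ γ e₂.le).2.1 le_rfl e₄).1
  obtain ⟨ζ, -, e₅, e₆⟩ := hZ
  refine hH.2.2.2 hφ ⟨ζ, e₅, Is, hs.cl.alw Is, ?_⟩
  rw [St.vx, St.vx, ← e₆]
  refine ⟨hlev, down, hp, fun y hy y' hy' e h => ?_, fun y hy I hI => ?_⟩
  · have := hy.2.2 y' hy'.2.1 e.ge (e ▸ h)
    exact ⟨rfl, e ▸ this.2⟩
  · obtain ⟨i, hi, rfl⟩ := c₂ I hI
    obtain ⟨-, -, -, d, f₃, ⟨f₄, -, f₆⟩, f₇⟩ := (eW' y).1 hy.2.1
    exact ⟨_, (hcp d f₃).2.1 _ (Or.inr (nx_mem (f₄ ▸ hi))),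
      (le_max_right _ _).trans (f₆ _ (nx_mem (f₄ ▸ hi))), (f₇ i hi).1⟩

end Pool.Agent.MP_656653_lc
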