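import Pool.Agent.MP_656653_lc.StepD

/-! The forcing for the embedding: validity and amalgamation. -/

set_option synthInstance.maxSize 1000000

namespace Pool.Agent.MP_656653_lc

open Set Filter

namespace St

variable (s : St) (σ : V)

def End (δ : Om) (p : Pt) : Prop := (s.LoA σ δ p.1 ↔ LoU δ p.2) ∧ (s.HiA σ δ p.1 ↔ HiU δ p.2)

def Lev (f : Set Pt) (δ : Om) : Prop :=
  (∀ p ∈ f, p.1 < δ ↔ p.2.ht < δ) ∧
  (∀ p ∈ f, ∀ q ∈ f, agA (s.r σ) δ p.1 q.1 ↔ U.ag δ p.2 q.2) ∧ ∀ p ∈ f, s.End σ δ p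

def Val2 (f : Set Pt) (T : Set Trc) : Prop :=
  (f.Nonempty → s.Nice σ) ∧ (∀ p ∈ f, ∀ q ∈ f, s.r σ p.1 q.1 ↔ p.2 < q.2) ∧ s.Lev σ f ⊥ ∧
    ∀ τ ∈ T, s.Lev σ f τ.1 ∧ ((∃ p ∈ f, τ.1 ≤ p.1) → s.Good σ τ {p ∈ f | τ.1 ≤ p.1})

variable {s σ}

theorem end_of_bl {δ p} (h : pbl δ p) : s.End σ δ p :=
  ⟨iff_of_true (fun _ _ H => H.alone h.1 ▸ r_irr _) fun _ H => U.alone H h.2 ▸ lt_irrefl _,
    iff_of_true (fun _ _ H => H.alone h.1 ▸ r_irr _) fun _ H => U.alone H h.2 ▸ lt_irrefl _⟩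

theorem eq_iff {p q : Pt} (h : s.r σ p.1 q.1 ↔ p.2 < q.2) (h' : s.r σ q.1 p.1 ↔ q.2 < p.2) :
    p.1 = q.1 ↔ p.2 = q.2 := by
  constructor
  · intro e
    rw [e] at h h'
    exact le_antisymm (not_lt.1 fun H => r_irr _ (h'.2 H)) (not_lt.1 fun H => r_irr _ (h.2 H))
  · intro e
    rw [e] at h h'
    rcases r_tri (r := s.r σ) p.1 q.1 with H | H | H
    exacts [absurd (h.1 H) (lt_irrefl _), H, absurd (h'.1 H) (lt_irrefl _)]

theorem c2_of_bl {δ} {p q : Pt} (h : s.r σ p.1 q.1 ↔ p.2 < q.2) (h' : s.r σ q.1 p.1 ↔ q.2 < p.2)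
    (hp : pbl δ p ∨ pbl δ q) : agA (s.r σ) δ p.1 q.1 ↔ U.ag δ p.2 q.2 := by
  have e := eq_iff h h'
  rcases hp with hp | hp
  · exact ⟨fun H => e.1 (H.alone hp.1) ▸ U.ag.refl _ _, fun H => Or.inl (e.2 (U.alone H hp.2))⟩
  · exact ⟨fun H => e.1 (H.symm.alone hp.1).symm ▸ U.ag.refl _ _,
      fun H => Or.inl (e.2 (U.alone H.symm hp.2).symm)⟩

theorem Lev.cases {f δ p} (h : s.Lev σ f δ) (hp : p ∈ f) : pbl δ p ∨ ppr δ p := by
  rcases lt_or_ge p.1 δ with h' | h'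
  · exact Or.inl ⟨h', (h.1 p hp).1 h'⟩
  · exact Or.inr ⟨h', not_lt.1 fun H => h'.not_gt ((h.1 p hp).2 H)⟩

end St

theorem not_loU {γ : Om} {t : U} (h : γ < t.ht) : ¬ LoU γ t ∧ ¬ HiU γ t := by
  obtain ⟨m, m', h₁, h₂, h₃, h₄, h₅⟩ := U.minmax γ t
  obtain ⟨h₆, h₇⟩ := h₅ t (U.ag.refl _ _)
  exact ⟨fun H => H m h₁.symm (h₆.lt_of_ne fun e => (e ▸ h₃).not_gt h),
    fun H => H m' h₂.symm (h₇.lt_of_ne fun e => (e ▸ h₄).not_gt h)⟩

theorem not_loA : ∀ᶠ D in Fl, ∀ s, Sit D s → ∀ N δ, Sub D s N δ → ∀ σ ∈ N, s.Nice σ →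
    ∀ a, has s.K a → δ ≤ a → ∀ β < δ, ¬ s.LoA σ β a ∧ ¬ s.HiA σ β a := by
  filter_upwards [lemE] with D hD s hs N δ hN σ hσ hn a ha hδ β hβ
  obtain ⟨⟨c, h₁, h₂, h₃⟩, c', h₁', h₂', h₃'⟩ := hD s hs N δ hN σ hσ hn a ha hδ β hβ
  exact ⟨fun H => H c (hs.has_le hN h₁.le) h₂ h₃, fun H => H c' (hs.has_le hN h₁'.le) h₂' h₃'⟩

theorem val2_amalg {D s} (hs : Sit D s) {σ} {f f₀ Y' : Set Pt} {T T₀ T' : Set Trc} {β m δ : Om}
    (hv : s.Val2 σ f T) (hv' : s.Val2 σ (f₀ ∪ Y') (T₀ ∪ T')) (hβ : β ≤ m) (hm : m < δ)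
    (hK : ∀ p ∈ f ∪ Y', has s.K p)
    (hf : ∀ p ∈ f, (p ∈ f₀ ∧ pbl β p) ∨ ppr δ p) (hT : ∀ τ ∈ T, (τ ∈ T₀ ∧ τ.1 ≤ β) ∨ δ ≤ τ.1)
    (hY' : ∀ p ∈ Y', pbl δ p) (hT' : ∀ τ ∈ T', τ.1 < δ ∧ m ≤ τ.1)
    (b₃ : ∀ p ∈ f, ∀ q ∈ f, ppr δ p → ppr δ q → peq (s.r σ) δ p q ∨ psp (s.r σ) β p q)
    (hd : ∀ p ∈ Y', ∃ y ∈ f, ppr δ y ∧ peq (s.r σ) β y p ∧ pmt (s.r σ) m y p)
    (hE : ∀ y ∈ f, ppr δ y → ∀ γ < δ, s.End σ γ y)
    (hG : ∀ τ ∈ T', s.Good σ τ ({p ∈ Y' | τ.1 ≤ p.1} ∪ {y ∈ f | ppr δ y})) :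
    s.Val2 σ (f ∪ Y') (T ∪ T') := by
  have K1 : ∀ y ∈ f, ppr δ y → ∀ p ∈ Y', pmt (s.r σ) m y p := by
    intro y hy h p hp
    obtain ⟨y', a₁, a₂, a₃, a₄⟩ := hd p hp
    rcases b₃ y hy y' a₁ h a₂ with H | H
    · exact a₄.congr (H.mono hm.le).symm (peq.refl _ _)
    · exact (pmt.congr ⟨H, hv.2.1 y hy y' a₁⟩ (peq.refl _ _) a₃).mono hβ
  have C0 : ∀ p ∈ f ∪ Y', ∀ q ∈ f ∪ Y', s.r σ p.1 q.1 ↔ p.2 < q.2 := by
    rintro p (hp | hp) q (hq | hq)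
    · exact hv.2.1 p hp q hq
    · exact (hf p hp).elim (fun h => hv'.2.1 p (Or.inl h.1) q (Or.inr hq))
        fun h => (K1 p hp h q hq).2
    · exact (hf q hq).elim (fun h => hv'.2.1 p (Or.inr hp) q (Or.inl h.1))
        fun h => (K1 q hq h p hp).symm.2
    · exact hv'.2.1 p (Or.inr hp) q (Or.inr hq)
  have key : ∀ γ ≤ β, ∀ p ∈ f ∪ Y', ∃ y ∈ f, peq (s.r σ) γ p y := by
    rintro γ hγ p (hp | hp)
    · exact ⟨p, hp, peq.refl _ _⟩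
    · obtain ⟨y, a₁, -, a₃, -⟩ := hd p hp
      exact ⟨y, a₁, (a₃.mono hγ).symm⟩
  have low : ∀ γ ≤ β, s.Lev σ f γ → s.Lev σ (f₀ ∪ Y') γ → s.Lev σ (f ∪ Y') γ := by
    intro γ hγ h h'
    refine ⟨fun p hp => hp.elim (h.1 p) fun hp => h'.1 p (Or.inr hp), fun p hp q hq => ?_,
      fun p hp => hp.elim (h.2.2 p) fun hp => h'.2.2 p (Or.inr hp)⟩
    obtain ⟨p', a₁, a₂⟩ := key γ hγ p hp
    obtain ⟨q', c₁, c₂⟩ := key γ hγ q hq
    exact ⟨fun H => a₂.2.trans (((h.2.1 p' a₁ q' c₁).1 (a₂.1.symm.trans (H.trans c₂.1))).trans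
      c₂.2.symm), fun H => a₂.1.trans (((h.2.1 p' a₁ q' c₁).2
        (a₂.2.symm.trans (H.trans c₂.2))).trans c₂.1.symm)⟩
  refine ⟨?_, C0, low ⊥ bot_le hv.2.2.1 hv'.2.2.1, ?_⟩
  · rintro ⟨p, hp | hp⟩
    exacts [hv.1 ⟨p, hp⟩, hv'.1 ⟨p, Or.inr hp⟩]
  rintro τ (hτ | hτ)
  · obtain ⟨l₁, l₂⟩ := hv.2.2.2 τ hτ
    rcases hT τ hτ with h | h
    · refine ⟨low _ h.2 l₁ (hv'.2.2.2 τ (Or.inl h.1)).1, fun ⟨p, hp, hp'⟩ => ?_⟩
      obtain ⟨y, a₁, a₂⟩ := key _ h.2 p hp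
      refine (l₂ ⟨y, a₁, a₂.1.le hp'⟩).congr hs (fun q hq => hK q (Or.inl hq.1)) fun q hq => ?_
      obtain ⟨y, a₁, a₂⟩ := key _ h.2 q hq.1
      exact ⟨y, ⟨a₁, a₂.1.le hq.2⟩, a₂⟩
    · have hb : ∀ p ∈ Y', pbl τ.1 p := fun p hp => (hY' p hp).mono h
      have e : {p ∈ f ∪ Y' | τ.1 ≤ p.1} = {p ∈ f | τ.1 ≤ p.1} := by
        ext p
        exact ⟨fun hp => ⟨hp.1.resolve_right fun h => (hb p h).1.not_ge hp.2, hp.2⟩,
          fun hp => ⟨Or.inl hp.1, hp.2⟩⟩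
      refine ⟨⟨fun p hp => hp.elim (l₁.1 p) fun hp => iff_of_true (hb p hp).1 (hb p hp).2,
        fun p hp q hq => ?_,
        fun p hp => hp.elim (l₁.2.2 p) fun hp => St.end_of_bl (hb p hp)⟩, fun ⟨p, hp⟩ => ?_⟩
      · rcases hp with hp' | hp'
        · rcases hq with hq' | hq'
          · exact l₁.2.1 p hp' q hq'
          · exact St.c2_of_bl (C0 p (Or.inl hp') q (Or.inr hq')) (C0 q (Or.inr hq') p (Or.inl hp'))
              (Or.inr (hb q hq'))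
        · exact St.c2_of_bl (C0 p (Or.inr hp') q hq) (C0 q hq p (Or.inr hp')) (Or.inl (hb p hp'))
      · rw [e]
        exact l₂ ⟨p, e.le hp⟩
  · obtain ⟨l₁, -⟩ := hv'.2.2.2 τ (Or.inr hτ)
    obtain ⟨t₁, t₂⟩ := hT' τ hτ
    have cs : ∀ p ∈ f ∪ Y', (p ∈ f ∧ ppr δ p) ∨ p ∈ Y' ∨ (p ∈ f₀ ∧ pbl τ.1 p) := by
      rintro p (hp | hp)
      · exact (hf p hp).elim (fun h => Or.inr (Or.inr ⟨h.1, h.2.mono (hβ.trans t₂)⟩))
          fun h => Or.inl ⟨hp, h⟩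
      · exact Or.inr (Or.inl hp)
    refine ⟨⟨fun p hp => ?_, fun p hp q hq => ?_, fun p hp => ?_⟩, fun _ => ?_⟩
    · rcases cs p hp with h | h | h
      exacts [iff_of_false (t₁.le.trans h.2.1).not_gt (t₁.le.trans h.2.2).not_gt,
        l₁.1 p (Or.inr h), l₁.1 p (Or.inl h.1)]
    · rcases cs p hp with h | h | h
      · rcases cs q hq with h' | h' | h'
        · rcases b₃ p h.1 q h'.1 h.2 h'.2 with H | H
          · exact iff_of_true (H.1.mono t₁.le) (H.2.mono t₁.le)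
          · exact iff_of_false (H.mono (hβ.trans t₂)).1 (H.mono (hβ.trans t₂)).2
        · have := (K1 p h.1 h.2 q h').1.mono t₂
          exact iff_of_false this.1 this.2
        · exact St.c2_of_bl (C0 p hp q hq) (C0 q hq p hp) (Or.inr h'.2)
      · rcases cs q hq with h' | h' | h'
        · have := (K1 q h'.1 h'.2 p h).1.symm.mono t₂
          exact iff_of_false this.1 this.2
        · exact l₁.2.1 p (Or.inr h) q (Or.inr h')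
        · exact l₁.2.1 p (Or.inr h) q (Or.inl h'.1)
      · exact St.c2_of_bl (C0 p hp q hq) (C0 q hq p hp) (Or.inl h.2)
    · rcases cs p hp with h | h | h
      exacts [hE p h.1 h.2 _ t₁, l₁.2.2 p (Or.inr h), l₁.2.2 p (Or.inl h.1)]
    · refine (hG τ hτ).congr hs (fun q hq => hK q (hq.elim (fun h => Or.inr h.1)
        fun h => Or.inl h.1)) fun p hp => ⟨p, ?_, peq.refl _ _⟩
      rcases cs p hp.1 with h | h | h
      exacts [Or.inr h, Or.inl ⟨h, hp.2⟩, absurd h.2.1 hp.2.not_gt]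

noncomputable def pt (x : X) : Pt := nt x.1 0
noncomputable def mkX (p : Pt) : X := ([p], ⊥)
noncomputable def yl (d : Dat) : List Pt := d.1.map pt
noncomputable def nτ (l : List Trc) (j : ℕ) : Trc := l.getD j (⊥, ∅)

theorem yl_mk (Y : List Pt) (l : List Trc) : yl (Y.map mkX, l) = Y := by
  simp only [yl, List.map_map]
  exact List.map_id Y

theorem nτ_mem {l : List Trc} {i : ℕ} (h : i < l.length) : nτ l i ∈ l := by
  unfold nτ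
  rw [List.getD_eq_getElem _ _ h]
  exact List.getElem_mem h

theorem mem_take_succ {l : List Trc} {j : ℕ} {τ : Trc} (h : τ ∈ l.take (j + 1)) :
    τ ∈ l.take j ∨ τ = nτ l j := by
  rw [List.take_add_one, List.mem_append] at h
  refine h.imp id fun h => ?_
  unfold nτ
  rw [List.getD_eq_getElem?_getD, Option.mem_toList.1 h]
  rfl

theorem nτ_take {l : List Trc} {j : ℕ} (h : 0 < j) : nτ (l.take j) 0 = nτ l 0 := by
  unfold nτ
  rw [List.getD_eq_getElem?_getD, List.getD_eq_getElem?_getD, List.getElem?_take_of_lt h]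

theorem exists_sorted {S : Set Trc} (h : S.Finite) (hi : ∀ a ∈ S, ∀ b ∈ S, a.1 = b.1 → a = b) :
    ∃ l, ls l = S ∧ l.Pairwise (fun a b => a.1 < b.1) := by
  classical
  lift S to Finset Trc using h
  induction S using Finset.induction_on_min_value (Prod.fst : Trc → Om) with
  | empty => exact ⟨[], by simp [ls], List.Pairwise.nil⟩
  | insert a S ha hm ih =>
    obtain ⟨l, h₁, h₂⟩ := ih fun x hx y hy => hi x (by simp [hx]) y (by simp [hy])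
    refine ⟨a :: l, by simp [← h₁, ls, Set.insert_def], List.Pairwise.cons (fun b hb => ?_) h₂⟩
    have hb' : b ∈ S := h₁.le hb
    exact (hm b hb').lt_of_ne fun e => ha (hi a (by simp) b (by simp [hb']) e ▸ hb')

theorem sorted_take {l : List Trc} (h : l.Pairwise (fun a b => a.1 < b.1)) {j : ℕ}
    (hj : j < l.length) {τ} (hτ : τ ∈ l.take j) : τ.1 < (nτ l j).1 := by
  obtain ⟨i, hi, rfl⟩ := List.getElem_of_mem hτ
  rw [List.length_take] at hi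
  unfold nτ
  rw [List.getD_eq_getElem _ _ hj, List.getElem_take]
  exact List.pairwise_iff_getElem.1 h _ _ _ _ (by omega)

section
variable {α : Type*} [Code α]

instance (f : α → List Trc) [h : Cf f] (j : α → ℕ) : Cf (fun a => nτ (f a) (j a)) := ⟨by
  filter_upwards [h.out, ev_const ((⊥, ∅) : Trc)] with D h₁ h₂ K hK a ha
  rcases lt_or_ge (j a) (f a).length with hi | hi
  · exact hK.has_list.1 (h₁ K hK a ha) _ (nτ_mem hi)
  · unfold nτ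
    rw [List.getD_eq_default _ _ hi]
    exact h₂ K hK⟩

instance (f : α → List Trc) [h : Cf f] (j : α → ℕ) : Cf (fun a => (f a).take (j a)) := ⟨by
  filter_upwards [h.out] with D h₁ K hK a ha
  exact hK.has_list.2 fun x hx => hK.has_list.1 (h₁ K hK a ha) x (List.mem_of_mem_take hx)⟩

end

end Pool.Agent.MP_656653_lc
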