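import Pool.Agent.MP_656653_lc.StepQ

/-! The forcing for the embedding: one step of properness. -/

set_option synthInstance.maxSize 1000000

namespace Pool.Agent.MP_656653_lc

open Set Filter

structure Md (D : Set Dp) (s : St) (σ : V) (τ : Trc) (N : Set V) : Prop where
  sub : Sub D s N τ.1
  tr : s.IsTr τ N
  nm : Nm s.P ∈ N
  sg : σ ∈ N

def Ej (r : Om → Om → Prop) (j : ℕ) (l : List Trc) (Y : List Pt) (d : Dat) : Prop :=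
  d.2.take j = l ∧ ∀ τ ∈ l, eqv r τ.1 Y (yl d)

def D0 (r : Om → Om → Prop) (β : Om) (Y : List Pt) (k : ℕ) (d : Dat) : Prop :=
  eqv r β Y (yl d) ∧ d.2.length = k ∧ β ≤ (nτ d.2 0).1 ∧ ∀ τ ∈ d.2, (nτ d.2 0).1 ≤ τ.1

namespace St

variable (s : St) (σ : V)

def Acc (Z : List Pt) (d : Dat) : Prop :=
  mat (s.r σ) (nτ d.2 0).1 Z (yl d) ∧
    ∀ τ ∈ d.2, s.Good σ τ ({p ∈ ls (yl d) | τ.1 ≤ p.1} ∪ ls Z)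

def Rr (S : Set Dat) (k : ℕ) : ℕ → Set Dat
  | 0 => S
  | n + 1 => {d | d ∈ S ∧ ∀ ρ, s.nam ρ → ∃ d', d' ∈ Rr S k n ∧
      Ej (s.r σ) (k - (n + 1)) (d.2.take (k - (n + 1))) (yl d) d' ∧ ρ ∈ (nτ d'.2 (k - (n + 1))).2}

def Pos (F : Set X) : Prop := s.Unb F ∧ ∀ τ, s.nam τ → (∀ x, x ∈ s.vx τ → x ∈ F) →
  s.Unb (s.vx τ) → ∃ x, x ∈ s.vx τ ∧ ∃ y, y ∈ s.vx τ ∧ x.2 ≠ y.2 ∧
    mat (s.r σ) (min x.2 y.2) x.1 y.1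

variable {s σ}

theorem Rr_sub {S k} : ∀ {n}, s.Rr σ S k n ⊆ S
  | 0 => subset_rfl
  | _ + 1 => fun _ h => h.1

end St

section
variable {α : Type*} [Code α]

instance (σ : α → V) (j : α → ℕ) (l : α → List Trc) [Cf l] (Y : α → List Pt) (d : α → Dat) :
    Def (fun s a => Ej (s.r (σ a)) (j a) (l a) (Y a) (d a)) := by unfold Ej; infer_instance

instance (σ : α → V) (β : α → Om) (Y : α → List Pt) (k : α → ℕ) (d : α → Dat) :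
    Def (fun s a => D0 (s.r (σ a)) (β a) (Y a) (k a) (d a)) := by unfold D0; infer_instance

instance (σ : α → V) (Z : α → List Pt) (d : α → Dat) [Cf d] :
    Def (fun s a => s.Acc (σ a) (Z a) (d a)) := by unfold St.Acc; infer_instance

instance (σ F : α → V) [Cf F] : Def (fun s a => s.Pos (σ a) (s.vx (F a))) := by
  unfold St.Pos; infer_instance

end

theorem rr_name : ∀ᶠ D in Fl, ∀ s, Sit D s → ∀ N, Cl D N → N ⊆ s.K → s.P ∈ N → ∀ σ ∈ N,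
    ∀ e₀ ∈ N, ∀ k n, ∃ e ∈ N, s.vd e = s.Rr σ (s.vd e₀) k n := by
  filter_upwards [compV (fun s (a : V × V × ℕ) (d : Dat) => ∀ ρ, s.nam ρ → ∃ d', d' ∈ s.vd a.2.1 ∧
    Ej (s.r a.1) a.2.2 (d.2.take a.2.2) (yl d) d' ∧ ρ ∈ (nτ d'.2 a.2.2).2)]
    with D hD s hs N hN hNK hP σ hσ e₀ he₀ k n
  induction n with
  | zero => exact ⟨e₀, he₀, rfl⟩
  | succ n ih =>
    obtain ⟨e, h₁, h₂⟩ := ih
    obtain ⟨e', h₃, h₄⟩ := hD s hs N hN hNK hP (σ, e, k - (n + 1))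
      (by simp only [hN.has_pair, hN.has_nat, and_true]; exact ⟨hσ, h₁⟩) e₀ he₀
    refine ⟨e', h₃, Set.ext fun d => (h₄ d).trans ?_⟩
    simp only [h₂]
    rfl

theorem rr_elem : ∀ᶠ D in Fl, ∀ s, Sit D s → ∀ σ τ N, Md D s σ τ N → s.LL σ → ∀ e ∈ N,
    ∀ d ∈ s.vd e, ∀ j, nτ d.2 j = τ → (∀ τ' ∈ d.2.take j, has N τ') →
    ∀ ρ, s.nam ρ → ∃ d', d' ∈ s.vd e ∧ Ej (s.r σ) j (d.2.take j) (yl d) d' ∧ ρ ∈ (nτ d'.2 j).2 := by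
  filter_upwards [rep, ev_cf yl, elemN (fun s (a : V × V × ℕ × List Trc × List Pt) (ρ : V) =>
    ¬ ∃ d', d' ∈ s.vd a.2.1 ∧ Ej (s.r a.1) a.2.2.1 a.2.2.2.1 a.2.2.2.2 d' ∧
      ρ ∈ (nτ d'.2 a.2.2.1).2)] with D h₁ h₂ h₃ s hs σ τ N hN hL e he d hd j hj hl ρ hρ
  obtain ⟨γ, a₁, a₂⟩ := hN.sub.lim.ev (List.finite_toSet (d.2.take j))
    (Q := fun τ' β => τ'.1 ≤ β) (fun _ _ _ h h' => h'.trans h) fun τ' h =>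
      ⟨τ'.1, hN.sub.iff.1 (hN.sub.cl.has_prod.1 (hl τ' h)).1, le_rfl⟩
  obtain ⟨Y, b₁, b₂⟩ := h₁ s hs N _ hN.sub σ hN.sg hL γ a₁ (yl d) (h₂ _ hs.cl d hd.1)
  by_contra hc
  obtain ⟨ρ', c₁, c₂, c₃⟩ := h₃ s hs N _ hN.sub hN.nm (σ, e, j, d.2.take j, Y) (by
    simp only [hN.sub.cl.has_pair, hN.sub.cl.has_nat, true_and]
    exact ⟨hN.sg, he, hN.sub.cl.has_list.2 hl, b₁⟩) ρ hρ fun ⟨d', c₁, c₂, c₃⟩ =>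
      hc ⟨d', c₁, ⟨c₂.1, fun τ' h => (b₂.mono (a₂ τ' h)).trans (c₂.2 τ' h)⟩, c₃⟩
  refine c₃ ⟨d, hd, ⟨rfl, fun τ' h => (b₂.mono (a₂ τ' h)).symm⟩, ?_⟩
  change ρ' ∈ (nτ d.2 j).2
  rw [hj]
  exact (hN.tr.iff _).2 ⟨c₁, c₂.2⟩

theorem large_in : ∀ᶠ D in Fl, ∀ s, Sit D s → ∀ σ τ M, Md D s σ τ M → s.Dich σ →
    ∀ F, s.Pos σ F → (∀ x ∈ F, prp x) → ∀ F', s.Adm M F' → F' ⊆ F → s.Unb F' →
    ∃ ρ ∈ M, s.nam ρ ∧ ∃ Is, s.Large σ true F' (s.vx ρ) Is := by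
  filter_upwards [elemN (fun s (a : V × V) (ρ : V) => ∃ Is, has s.K Is ∧
    s.Large a.1 true (s.vx a.2) (s.vx ρ) Is)] with D h₁
  rintro s hs σ τ M hM hD F hF hp _ ⟨φ, a₁, a₂, rfl⟩ a₃ a₄
  rcases hD _ ⟨φ, a₂.1, a₂, rfl⟩ a₄ (fun x hx => hp x (a₃ hx)) true with
    ⟨_, ⟨ψ, -, b₁, rfl⟩, b₂, b₃, b₄⟩ | ⟨-, _, ⟨ρ, -, b₁, rfl⟩, Is, b₂⟩
  · obtain ⟨x, hx, y, hy, c₁, c₂⟩ := hF.2 ψ b₁ (fun x hx => a₃ (b₂ hx)) b₃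
    exact absurd ⟨rfl, c₂⟩ (b₄ x hx y hy c₁).2
  · obtain ⟨ρ', c₁, c₂, Is, -, c₃⟩ := h₁ s hs M _ hM.sub hM.nm (σ, φ)
      (hM.sub.cl.has_pair.2 ⟨hM.sg, a₁⟩) ρ b₁ ⟨Is, hs.cl.alw Is, b₂⟩
    exact ⟨ρ', c₁, c₂, Is, c₃⟩

theorem q_step : ∀ᶠ D in Fl, ∀ s, Sit D s → ∀ σ τ M, Md D s σ τ M → s.Dich σ → s.LL σ →
    ∀ F, s.Adm M F → s.Pos σ F → (∀ x ∈ F, prp x) → ∀ x ∈ F, τ.1 ≤ x.2 → ∀ γ < τ.1,
    ∃ ρ ∈ M, s.nam ρ ∧ ∀ τ' N, Md D s σ τ' N → τ'.1 ≤ τ.1 → ρ ∈ τ'.2 → ∀ Q : Set Pt,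
      (∀ q ∈ Q, has s.K q ∧ ppr τ'.1 q) → s.Good σ τ' Q →
      ∃ x' ∈ F, τ.1 ≤ x'.2 ∧ eqv (s.r σ) γ x.1 x'.1 ∧ s.Good σ τ' (Q ∪ ls x'.1) := by
  filter_upwards [large_in, cone, lemB] with D h₁ h₂ h₃ s hs σ τ M hM hD hL F hF hP hp x hx hδ γ hγ
  obtain ⟨F', a₁, a₂, a₃⟩ := h₂ s hs M _ hM.sub σ hM.sg hL F hF x hx hδ γ hγ
  obtain ⟨ρ, b₁, b₂, Is, b₃⟩ := h₁ s hs σ τ M hM hD F hP hp F' a₁ (fun y hy => ((a₂ y).1 hy).1) a₃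
  refine ⟨ρ, b₁, b₂, fun τ' N hN hτ hρ Q hQ hG => ?_⟩
  obtain ⟨w, c₁, c₂⟩ := b₃.1 τ.1 hM.sub.hd
  obtain ⟨I, hI, H⟩ := h₃ s hs N τ' hN.sub hN.tr σ hN.sg hD Q hQ hG F' _ Is
    (fun y hy => hp y ((a₂ y).1 hy).1) ⟨ρ, ((hN.tr.iff ρ).1 hρ).1, b₂, rfl⟩ b₃ w.1
    (b₃.2.1 w c₁ _ (c₂ ▸ hτ))
  obtain ⟨x', d₁, d₂, d₃⟩ := b₃.2.2.2.2 w c₁ I hI
  refine ⟨x', ((a₂ x').1 d₁).1, c₂ ▸ d₂, ((a₂ x').1 d₁).2.2, H.congr hs ?_ ?_⟩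
  · rintro q (hq | hq)
    exacts [(hQ q hq).1, hs.cl.has_list.1 (hs.has_pj (hs.cl.has_prod.1 c₁.1).1 I) q hq]
  · rintro p (hp | hp)
    · exact ⟨p, Or.inl hp, peq.refl _ _⟩
    · obtain ⟨q, e₁, e₂⟩ := All2.right d₃ hp
      exact ⟨q, Or.inr e₁, e₂.symm.mono (c₂ ▸ hτ)⟩

theorem St.Acc.congr {D s} (hs : Sit D s) {σ Z Z' d γ} (h : s.Acc σ Z d) (hZ : has s.K Z)
    (hd : has s.K (yl d)) (e : eqv (s.r σ) γ Z Z') (h₀ : (nτ d.2 0).1 ≤ γ)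
    (hγ : ∀ τ ∈ d.2, τ.1 ≤ γ) : s.Acc σ Z' d := by
  refine ⟨h.1.congr (e.mono h₀) (eqv.refl _ _), fun τ hτ => (h.2 τ hτ).congr hs ?_ ?_⟩
  · rintro q (hq | hq)
    exacts [hs.cl.has_list.1 hd q hq.1, hs.cl.has_list.1 hZ q hq]
  · rintro p (hp | hp)
    · exact ⟨p, Or.inl hp, peq.refl _ _⟩
    · obtain ⟨q, e₁, e₂⟩ := All2.right e hp
      exact ⟨q, Or.inr e₁, e₂.symm.mono (hγ τ hτ)⟩

/-- The combinatorial core: some copy inside the model is accepted. -/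
theorem q_core : ∀ᶠ D in Fl, ∀ s, Sit D s → ∀ σ τ M, Md D s σ τ M → s.Dich σ → s.Nice σ →
    ∀ e ∈ M, ∀ k, 0 < k → (∀ d ∈ s.vd e, d.2.length = k ∧ ∀ τ' ∈ d.2, (∃ N, Md D s σ τ' N) ∧
      (∀ p ∈ yl d, τ'.1 ≤ p.1 → τ'.1 ≤ p.2.ht) ∧ s.Good σ τ' {p ∈ ls (yl d) | τ'.1 ≤ p.1}) →
    ∀ d₀ ∈ s.Rr σ (s.vd e) k (k - 1), nτ d₀.2 0 = τ → prp (yl d₀, τ.1) →
    s.Good σ τ (ls (yl d₀)) → ∃ d ∈ s.vd e, has M d ∧ s.Acc σ (yl d₀) d := by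
  filter_upwards [rep, fs, rr_name, large_in, q_step, ev_cf yl,
    compX (fun s (a : V × V × V) (z : X) => (prp z ∧ ¬ ∃ d, d ∈ s.vd a.2.1 ∧
      (∀ τ ∈ d.2, τ.1 < z.2) ∧ s.Acc a.1 z.1 d) ∧ ∀ ρ, s.nam ρ → ∃ d, d ∈ s.vd a.2.2 ∧
        eqv (s.r a.1) z.2 z.1 (yl d) ∧ z.2 ≤ (nτ d.2 0).1 ∧ ρ ∈ (nτ d.2 0).2),
    elemV (fun s (a : V × List Pt × Om) (d : Dat) => (∀ τ ∈ d.2, τ.1 < a.2.2) ∧ s.Acc a.1 a.2.1 d),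
    elemN (fun s (a : V × V × List Pt × Om) (ρ : V) => ¬ ∃ d, d ∈ s.vd a.2.1 ∧
      eqv (s.r a.1) a.2.2.2 a.2.2.1 (yl d) ∧ a.2.2.2 ≤ (nτ d.2 0).1 ∧ ρ ∈ (nτ d.2 0).2),
    elemN (fun s (a : V × V) (ρ : V) => (∀ x, x ∈ s.vx ρ → x ∈ s.vx a.2) ∧ s.Pos a.1 (s.vx ρ)),
    elemV (fun s (a : V × List Pt × Om × V) (d : Dat) =>
      eqv (s.r a.1) a.2.2.1 a.2.1 (yl d) ∧ a.2.2.1 ≤ (nτ d.2 0).1 ∧ a.2.2.2 ∈ (nτ d.2 0).2),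
    elemV (fun s (a : V × ℕ × Dat × V) (d : Dat) =>
      Ej (s.r a.1) a.2.1 (a.2.2.1.2.take a.2.1) (yl a.2.2.1) d ∧ a.2.2.2 ∈ (nτ d.2 a.2.1).2)]
    with D h₁ h₂ h₃ h₄ h₅ h₆ h₇ h₈ h₉ h₁₀ h₁₁ h₁₂
  intro s hs σ τ M hM hD hn e he k hk hE d₀ hd₀ hτ hp hG
  have hMs := hM.sub
  have cl := hMs.cl
  choose R R₁ R₂ using h₃ s hs M cl hMs.sub hMs.hP σ hM.sg e he k
  have hY : has s.K (yl d₀) := h₆ _ hs.cl _ (St.Rr_sub hd₀).1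
  have h0 : ∀ d ∈ s.vd e, nτ d.2 0 ∈ d.2 := fun d hd => nτ_mem ((hE d hd).1 ▸ hk)
  have hlt : ∀ d : Dat, has M d → ∀ τ' ∈ d.2, τ'.1 < τ.1 := fun d hd τ' h =>
    hMs.iff.1 (cl.has_prod.1 (cl.has_list.1 (cl.has_prod.1 hd).2 τ' h)).1
  by_contra hc
  obtain ⟨θ, t₁, t₂, t₃⟩ := h₇ s hs M cl hMs.sub hMs.hP (σ, e, R (k - 1))
    (by simp only [cl.has_pair]; exact ⟨hM.sg, he, R₁ _⟩)
  have t₄ : ∀ z : X, z ∈ s.vx θ ↔ has s.K z ∧ (prp z ∧ ¬ ∃ d, d ∈ s.vd e ∧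
      (∀ τ ∈ d.2, τ.1 < z.2) ∧ s.Acc σ z.1 d) ∧ ∀ ρ, s.nam ρ → ∃ d, d ∈ s.vd (R (k - 1)) ∧
        eqv (s.r σ) z.2 z.1 (yl d) ∧ z.2 ≤ (nτ d.2 0).1 ∧ ρ ∈ (nτ d.2 0).2 := fun z => by
    rw [St.vx, ← t₃]; rfl
  have hbr : ∀ γ < τ.1, (yl d₀, γ) ∈ s.vx θ := by
    intro γ hγ
    obtain ⟨Y, a₁, a₂⟩ := h₁ s hs M _ hMs σ hM.sg hn.1 γ hγ _ hY
    refine (t₄ _).2 ⟨hs.cl.has_pair.2 ⟨hY, hs.has_le hMs hγ.le⟩, ⟨hp.mono hγ.le, ?_⟩,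
      fun ρ hρ => ?_⟩
    · rintro ⟨d, b₁, b₂, b₃⟩
      obtain ⟨d, c₀, c₁, c₂, c₃⟩ := h₈ s hs M _ hMs (σ, Y, γ)
        (by simp only [cl.has_pair]; exact ⟨hM.sg, a₁, hMs.iff.2 hγ⟩) e he d b₁
        ⟨b₂, b₃.congr hs hY (h₆ _ hs.cl _ b₁.1) a₂ (b₂ _ (h0 d b₁)).le fun τ h => (b₂ τ h).le⟩
      exact hc ⟨d, c₁, c₀, c₃.congr hs (hMs.sub a₁) (h₆ _ hs.cl _ c₁.1) a₂.symm
        (c₂ _ (h0 d c₁)).le fun τ h => (c₂ τ h).le⟩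
    · by_contra hc'
      obtain ⟨ρ', c₁, c₂, c₃⟩ := h₉ s hs M _ hMs hM.nm (σ, R (k - 1), Y, γ)
        (by simp only [cl.has_pair]; exact ⟨hM.sg, R₁ _, a₁, hMs.iff.2 hγ⟩) ρ hρ
        fun ⟨d, b₁, b₂, b₃⟩ => hc' ⟨d, b₁, a₂.trans b₂, b₃⟩
      refine c₃ ⟨d₀, (R₂ _).ge hd₀, a₂.symm, ?_, ?_⟩
      · rw [hτ]; exact hγ.le
      · rw [hτ]; exact (hM.tr.iff _).2 ⟨c₁, c₂.2⟩
  have hnn : ¬ s.Null σ (s.vx θ) := fun H => by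
    obtain ⟨γ, a₁, -, a₂⟩ := (St.good_iff hM.tr).1 hG _ hY (fun _ h => h) _ ⟨θ, t₁, t₂, rfl⟩ H ⊥
      hMs.lim.1
    exact a₂ ⟨_, hbr γ a₁, rfl, eqv.refl _ _⟩
  obtain ⟨φ, f₁, f₂, f₃, f₄⟩ : ∃ φ ∈ M, s.nam φ ∧ (∀ x, x ∈ s.vx φ → x ∈ s.vx θ) ∧
      s.Pos σ (s.vx φ) := by
    unfold St.Null at hnn
    push Not at hnn
    obtain ⟨φ, a₁, a₂, a₃, a₄⟩ := hnn
    exact h₁₀ s hs M _ hMs hM.nm (σ, θ) (cl.has_pair.2 ⟨hM.sg, t₁⟩) φ a₁ ⟨a₂, a₃, a₄⟩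
  have hF : s.Adm M (s.vx φ) := ⟨φ, f₁, f₂, rfl⟩
  have hFp : ∀ x ∈ s.vx φ, prp x := fun x hx => ((t₄ x).1 (f₃ x hx)).2.1.1
  have step := h₅ s hs σ τ M hM hD hn.1 _ hF f₄ hFp
  have step' : ∀ x ∈ s.vx φ, τ.1 ≤ x.2 → ∀ γ < τ.1, ∃ ρ ∈ M, s.nam ρ ∧ ∀ d ∈ s.vd e, has M d →
      ∀ τ' ∈ d.2, ρ ∈ τ'.2 → ∃ x' ∈ s.vx φ, τ.1 ≤ x'.2 ∧ eqv (s.r σ) γ x.1 x'.1 ∧
        s.Good σ τ' ({p ∈ ls (yl d) | τ'.1 ≤ p.1} ∪ ls x'.1) := by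
    intro x hx a₁ γ hγ
    obtain ⟨ρ, b₁, b₂, b₃⟩ := step x hx a₁ γ hγ
    refine ⟨ρ, b₁, b₂, fun d hd hd' τ' h hρ => ?_⟩
    obtain ⟨⟨N, c₁⟩, c₂, c₃⟩ := (hE d hd).2 τ' h
    exact b₃ τ' N c₁ (hlt d hd' τ' h).le hρ _ (fun q hq =>
      ⟨hs.cl.has_list.1 (h₆ _ hs.cl _ hd.1) q hq.1, hq.2, c₂ q hq.1 hq.2⟩) c₃
  have inv : ∀ j, 1 ≤ j → j ≤ k → ∃ d ∈ s.Rr σ (s.vd e) k (k - j), has M d ∧ ∃ x ∈ s.vx φ,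
      τ.1 ≤ x.2 ∧ mat (s.r σ) (nτ d.2 0).1 x.1 (yl d) ∧
        ∀ τ' ∈ d.2.take j, s.Good σ τ' ({p ∈ ls (yl d) | τ'.1 ≤ p.1} ∪ ls x.1) := by
    intro j hj
    induction j, hj using Nat.le_induction with
    | base =>
      intro _
      obtain ⟨ζ, a₁, a₂, Is, a₃⟩ := h₄ s hs σ τ M hM hD _ f₄ hFp _ hF subset_rfl f₄.1
      obtain ⟨⟨w, _⟩, b₁, rfl⟩ := a₃.1 τ.1 hMs.hd
      obtain ⟨z, γ, b₂, b₃, b₄, b₅⟩ := h₂ s hs M _ hMs σ hM.sg hn _ ⟨ζ, a₁, a₂, rfl⟩ a₃.2.1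
        a₃.2.2.1 w b₁
      obtain ⟨-, I, hI, c₁⟩ := a₃.2.2.2.1 _ b₄ _ (a₃.2.1 _ b₁ γ b₃.le) rfl b₅
      obtain ⟨y, c₂, c₃, c₄⟩ := a₃.2.2.2.2 _ b₄ I hI
      obtain ⟨x, c₅, c₆, c₇⟩ := a₃.2.2.2.2 _ b₁ I hI
      obtain ⟨ρ, e₁, e₂, e₃⟩ := step' x c₅ c₆ γ b₃
      obtain ⟨d, g₁, g₂, g₃, g₄⟩ := ((t₄ y).1 (f₃ y c₂)).2.2 ρ e₂
      obtain ⟨Y, i₁, i₂⟩ := h₁ s hs M _ hMs σ hM.sg hn.1 γ b₃ y.1 (hs.cl.has_prod.1 c₂.1).1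
      obtain ⟨d, g₀, g₁, g₂, g₃, g₄⟩ := h₁₁ s hs M _ hMs (σ, Y, γ, ρ)
        (by simp only [cl.has_pair]; exact ⟨hM.sg, i₁, hMs.iff.2 b₃, e₁⟩) _ (R₁ (k - 1)) d g₁
        ⟨i₂.symm.trans (g₂.mono c₃), c₃.trans g₃, g₄⟩
      have g₅ := (R₂ _).le g₁
      obtain ⟨x', k₁, k₂, k₃, k₄⟩ := e₃ d (St.Rr_sub g₅) g₀ _ (h0 d (St.Rr_sub g₅)) g₄
      refine ⟨d, g₅, g₀, x', k₁, k₂, (c₁.symm.congr ((c₇.mono b₃.le).trans k₃)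
        (c₄.trans (i₂.trans g₂))).mono g₃, fun τ' h => ?_⟩
      rcases mem_take_succ h with h | rfl
      exacts [absurd h (by simp), k₄]
    | succ j hj ih =>
      intro hjk
      obtain ⟨d, a₁, a₂, x, a₃, a₄, a₅, a₆⟩ := ih (by omega)
      have a₀ := St.Rr_sub a₁
      obtain ⟨γ, b₁, b₂⟩ := hMs.lim.ev (List.finite_toSet d.2) (Q := fun τ' β => τ'.1 ≤ β)
        (fun _ _ _ h h' => h'.trans h) fun τ' h => ⟨τ'.1, hlt d a₂ τ' h, le_rfl⟩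
      obtain ⟨ρ, e₁, e₂, e₃⟩ := step' x a₃ a₄ γ b₁
      have e : k - j = (k - (j + 1)) + 1 := by omega
      have e' : k - (k - (j + 1) + 1) = j := by omega
      rw [e] at a₁
      obtain ⟨d', g₁, g₂⟩ := a₁.2 ρ e₂
      rw [e'] at g₂
      obtain ⟨d', g₀, g₁, ⟨g₂, g₃⟩, g₄⟩ := h₁₂ s hs M _ hMs (σ, j, d, ρ)
        (cl.has_pair.2 ⟨hM.sg, cl.has_pair.2 ⟨cl.has_nat _, cl.has_pair.2 ⟨a₂, e₁⟩⟩⟩) _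
        (R₁ (k - (j + 1))) d' ((R₂ _).ge g₁) g₂
      replace g₂ : d'.2.take j = d.2.take j := g₂
      have g₅ := (R₂ _).le g₁
      have g₆ := St.Rr_sub g₅
      obtain ⟨x', k₁, k₂, k₃, k₄⟩ := e₃ d' g₆ g₀ _ (nτ_mem ((hE d' g₆).1 ▸ hjk)) g₄
      have m₀ : nτ d'.2 0 = nτ d.2 0 := by rw [← nτ_take hj, g₂, nτ_take hj]
      have m₁ : nτ d.2 0 ∈ d.2.take j := by
        rw [← nτ_take hj]
        exact nτ_mem (by rw [List.length_take, (hE d a₀).1]; omega)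
      refine ⟨d', g₅, g₀, x', k₁, k₂, ?_, fun τ' h => ?_⟩
      · rw [m₀]
        exact a₅.congr (k₃.mono (b₂ _ (h0 d a₀))) (g₃ _ m₁)
      rcases mem_take_succ h with h | rfl
      · rw [g₂] at h
        refine (a₆ τ' h).congr hs ?_ ?_
        · rintro q (hq | hq)
          exacts [hs.cl.has_list.1 (h₆ _ hs.cl _ a₀.1) q hq.1,
            hs.cl.has_list.1 (hs.cl.has_prod.1 a₃.1).1 q hq]
        · rintro p (hp | hp)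
          · obtain ⟨q, n₁, n₂⟩ := All2.right (g₃ τ' h) hp.1
            exact ⟨q, Or.inl ⟨n₁, n₂.1.symm.le hp.2⟩, n₂.symm⟩
          · obtain ⟨q, n₁, n₂⟩ := All2.right k₃ hp
            exact ⟨q, Or.inr n₁, n₂.symm.mono (b₂ _ (List.mem_of_mem_take h))⟩
      · exact k₄
  obtain ⟨d, a₁, a₂, x, a₃, a₄, a₅, a₆⟩ := inv k hk le_rfl
  have a₀ := St.Rr_sub a₁
  rw [← (hE d a₀).1, List.take_length] at a₆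
  exact ((t₄ x).1 (f₃ x a₃)).2.1.2 ⟨d, a₀, fun τ' h => (hlt d a₂ τ' h).trans_le a₄, a₅, a₆⟩

theorem v3Q : ∀ᶠ D in Fl, ∀ s, Sit D s → ∀ σ τ M, Md D s σ τ M → (s.Nice σ → s.Dich σ) →
    ∀ (f : Set Pt) (T : Set Trc), f.Finite → T.Finite → s.Val2 σ f T → (∀ p ∈ f, has s.K p) → τ ∈ T →
    (∀ τ' ∈ T, has M τ' ∨ τ.1 ≤ τ'.1) → (∀ a ∈ T, ∀ b ∈ T, a.1 = b.1 → a = b) → ∀ E ∈ M,
    (∀ τ' ∈ T, τ.1 < τ'.1 → ∃ N, Md D s σ τ' N ∧ E ∈ N ∧ ∀ a ∈ T, a.1 < τ'.1 → has N a) →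
    (∀ Y l, ls Y = {p ∈ f | ¬ has M p} → ls l = {a ∈ T | ¬ has M a} → (Y.map mkX, l) ∈ s.vd E) →
    (∀ d ∈ s.vd E, s.Val2 σ ({p ∈ f | has M p} ∪ ls (yl d)) ({a ∈ T | has M a} ∪ ls d.2) ∧
      ∀ a ∈ d.2, ∃ N, Md D s σ a N) →
    ∃ d ∈ s.vd E, has M d ∧ s.Val2 σ (f ∪ ls (yl d)) (T ∪ ls d.2) := by
  filter_upwards [rep, q_core, rr_name, rr_elem, good_empty, not_loA, ev_cf yl,
    elemV (fun _ (_ : ℕ) (d : Dat) => yl d = []),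
    compV (fun s (a : V × Om × List Pt × ℕ) (d : Dat) => D0 (s.r a.1) a.2.1 a.2.2.1 a.2.2.2 d)]
    with D h₁ h₂ h₃ h₄ h₅ h₆ h₇ h₈ h₉
  intro s hs σ τ M hM hD f T hff hTf hv hfK hτ hT hinj E hE hup hreal hcp
  have hMs := hM.sub
  have cl := hMs.cl
  obtain ⟨Y, hY⟩ := exists_ls (hff.subset (sep_subset f fun x => ¬ has M x))
  obtain ⟨l, hl, hsort⟩ := exists_sorted (hTf.subset (sep_subset T fun x => ¬ has M x))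
    fun a ha b hb => hinj a ha.1 b hb.1
  have hd := hreal Y l hY hl
  have hf : ∀ p ∈ f, has M p ∨ ppr τ.1 p := fun p hp =>
    ((hv.2.2.2 τ hτ).1.cases hp).imp hMs.has_pt.2 id
  have hYf : ∀ p, p ∈ Y ↔ p ∈ f ∧ ppr τ.1 p := fun p =>
    ⟨fun h => ⟨(hY.le h).1, (hf p (hY.le h).1).resolve_left (hY.le h).2⟩,
      fun h => hY.ge ⟨h.1, fun H => (hMs.has_pt.1 H).1.not_ge h.2.1⟩⟩
  rcases eq_or_ne Y [] with rfl | hne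
  · obtain ⟨d, a₁, a₂, a₃⟩ := h₈ s hs M _ hMs 0 (cl.has_nat _) E hE _ hd rfl
    have e : {x ∈ f | has M x} = f := by
      ext x
      refine and_iff_left_of_imp fun hx => by_contra fun h => ?_
      exact List.not_mem_nil (hY.ge ⟨hx, h⟩)
    have hc := (hcp d a₂).1
    rw [e] at hc
    refine ⟨d, a₂, a₁, hc.1, hc.2.1, hc.2.2.1, ?_⟩
    rintro τ (h | h)
    · have e' : f ∪ ls (yl d) = f := by simp [a₃, ls]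
      rw [e']
      exact hv.2.2.2 τ h
    · exact hc.2.2.2 τ (Or.inr h)
  obtain ⟨y₀, hy₀⟩ := List.exists_mem_of_ne_nil Y hne
  have hn := hv.1 ⟨y₀, ((hYf _).1 hy₀).1⟩
  obtain ⟨β₁, a₁, b₁⟩ := hMs.lim.ev hff (Q := fun p β => has M p → pbl β p)
    (fun _ _ _ h H H' => (H H').mono h) fun p _ => by
      by_cases h : has M p
      · obtain ⟨γ, c₁, c₂⟩ := hMs.lim.2 _ (max_lt (hMs.has_pt.1 h).1 (hMs.has_pt.1 h).2)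
        exact ⟨γ, c₂, fun _ => max_lt_iff.1 c₁⟩
      · exact ⟨⊥, hMs.lim.1, fun h' => absurd h' h⟩
  obtain ⟨β₂, a₂, b₂⟩ := hMs.lim.ev hTf (Q := fun τ β => has M τ → τ.1 ≤ β)
    (fun _ _ _ h H H' => (H H').trans h) fun τ _ => by
      by_cases h : has M τ
      · exact ⟨τ.1, hMs.iff.1 (cl.has_prod.1 h).1, fun _ => le_rfl⟩
      · exact ⟨⊥, hMs.lim.1, fun h' => absurd h' h⟩
  obtain ⟨β₃, a₃, b₃⟩ := hMs.lim.ev (hff.prod hff) (Q := fun x β =>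
      peq (s.r σ) τ.1 x.1 x.2 ∨ psp (s.r σ) β x.1 x.2)
    (fun _ _ _ h H => H.imp id fun H => H.mono h) fun x hx => by
      have := (hv.2.2.2 τ hτ).1.2.1 x.1 hx.1 x.2 hx.2
      by_cases h : U.ag τ.1 x.1.2 x.2.2
      · exact ⟨⊥, hMs.lim.1, Or.inl ⟨this.2 h, h⟩⟩
      · obtain ⟨γ, c₁, c₂⟩ := psp_lim hMs.lim (⟨fun H => h (this.1 H), h⟩ : psp (s.r σ) τ.1 x.1 x.2)
        exact ⟨γ, c₁, Or.inr c₂⟩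
  set β := max β₁ (max β₂ β₃) with hβ
  have hβδ : β < τ.1 := max_lt a₁ (max_lt a₂ a₃)
  have hYK : has s.K Y := hs.cl.has_list.2 fun p hp => hfK p ((hYf p).1 hp).1
  obtain ⟨Yβ, c₁, c₂⟩ := h₁ s hs M _ hMs σ hM.sg hn.1 β hβδ Y hYK
  have hτl : τ ∈ l := hl.ge ⟨hτ, fun h => lt_irrefl _ (hMs.iff.1 (cl.has_prod.1 h).1)⟩
  have hk : 0 < l.length := List.length_pos_of_mem hτl
  have hlT : ∀ a ∈ l, a ∈ T ∧ τ.1 ≤ a.1 := fun a ha =>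
    ⟨(hl.le ha).1, (hT a (hl.le ha).1).resolve_left (hl.le ha).2⟩
  have hl0 : nτ l 0 = τ := by
    obtain ⟨a, l', rfl⟩ := List.exists_cons_of_length_pos hk
    rcases List.mem_cons.1 hτl with h | h
    · exact h.symm
    · exact absurd ((List.pairwise_cons.1 hsort).1 τ h) (hlT a List.mem_cons_self).2.not_gt
  have nameD : ∀ N δ, Sub D s N δ → τ.1 ≤ δ → σ ∈ N → E ∈ N → ∃ e ∈ N,
      s.vd e = {d | d ∈ s.vd E ∧ D0 (s.r σ) β Yβ l.length d} := by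
    intro N δ hN hδ e₁ e₂
    obtain ⟨e, e₃, e₄⟩ := h₉ s hs N hN.cl hN.sub hN.hP (σ, β, Yβ, l.length) (by
      simp only [hN.cl.has_pair, hN.cl.has_nat, and_true]
      exact ⟨e₁, hN.iff.2 (hβδ.trans_le hδ), hN.cl.has_list.2 fun p hp =>
        hN.has_pt.2 ((hMs.has_pt.1 (cl.has_list.1 c₁ p hp)).mono hδ)⟩) E e₂
    exact ⟨e, e₃, Set.ext e₄⟩
  obtain ⟨e, he, he'⟩ := nameD M _ hMs le_rfl hM.sg hE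
  have hd₀ : (Y.map mkX, l) ∈ s.vd e := he'.ge ⟨hd, by rw [yl_mk]; exact c₂.symm, rfl,
    by rw [hl0]; exact hβδ.le, fun a ha => by rw [hl0]; exact (hlT a ha).2⟩
  have hR : ∀ n < l.length, (Y.map mkX, l) ∈ s.Rr σ (s.vd e) l.length n := by
    intro n hn'
    induction n with
    | zero => exact hd₀
    | succ n ih =>
      have hj : l.length - (n + 1) < l.length := by omega
      have hlt : τ.1 < (nτ l (l.length - (n + 1))).1 := by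
        refine sorted_take hsort hj ?_
        rw [← hl0, ← nτ_take (j := l.length - (n + 1)) (by omega)]
        exact nτ_mem (by rw [List.length_take]; omega)
      obtain ⟨N, e₁, e₂, e₃⟩ := hup _ (hlT _ (nτ_mem hj)).1 hlt
      obtain ⟨e', e₄, e₅⟩ := nameD N _ e₁.sub hlt.le e₁.sg e₂
      obtain ⟨e'', e₆, e₇⟩ := h₃ s hs N e₁.sub.cl e₁.sub.sub e₁.sub.hP σ e₁.sg e' e₄ l.length n
      rw [e₅, ← he'] at e₇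
      refine ⟨hd₀, ?_⟩
      rw [← e₇]
      exact h₄ s hs σ _ N e₁ hn.1 e'' e₆ _ (e₇.ge (ih (by omega))) _ rfl fun a ha =>
        e₃ a (hlT a (List.mem_of_mem_take ha)).1 (sorted_take hsort hj ha)
  have hb : ∀ p ∈ f, has M p → pbl β p := fun p hp h => (b₁ p hp h).mono (le_max_left _ _)
  obtain ⟨d, g₁, g₂, g₃⟩ := h₂ s hs σ τ M hM (hD hn) hn e he l.length hk (fun d hd => by
    obtain ⟨i₁, i₂, i₃, i₄, i₅⟩ := he'.le hd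
    obtain ⟨j₁, j₂⟩ := hcp d i₁
    refine ⟨i₃, fun a ha => ⟨j₂ a ha, fun p hp h => ?_, ?_⟩⟩
    · exact (((j₁.2.2.2 a (Or.inr ha)).1.cases (Or.inr hp)).resolve_left
        fun H => H.1.not_ge h).2
    · by_cases h : ∃ p ∈ ls (yl d), a.1 ≤ p.1
      · obtain ⟨p, hp, h⟩ := h
        refine ((j₁.2.2.2 a (Or.inr ha)).2 ⟨p, Or.inr hp, h⟩).congr hs ?_
          fun q hq => ⟨q, ⟨Or.inr hq.1, hq.2⟩, peq.refl _ _⟩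
        rintro q ⟨hq | hq, -⟩
        exacts [hfK q hq.1, hs.cl.has_list.1 (h₇ _ hs.cl _ i₁.1) q hq]
      · obtain ⟨N, hN⟩ := j₂ a ha
        exact (h₅ s hs N a hN.sub hN.tr σ).congr hs (by simp) fun q hq => absurd ⟨q, hq⟩ h)
    _ (hR _ (by omega)) hl0 (by rw [yl_mk]; exact fun p hp => ((hYf p).1 hp).2) (by
      rw [yl_mk]
      exact ((hv.2.2.2 τ hτ).2 ⟨y₀, ((hYf _).1 hy₀).1, ((hYf _).1 hy₀).2.1⟩).congr hs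
        (fun q hq => hfK q hq.1) fun p hp =>
          ⟨p, ⟨((hYf p).1 hp).1, ((hYf p).1 hp).2.1⟩, peq.refl _ _⟩)
  rw [yl_mk] at g₃
  obtain ⟨i₁, i₂, i₃, i₄, i₅⟩ := he'.le g₁
  have hlt : ∀ a ∈ d.2, a.1 < τ.1 := fun a h =>
    hMs.iff.1 (cl.has_prod.1 (cl.has_list.1 (cl.has_prod.1 g₂).2 a h)).1
  refine ⟨d, i₁, g₂, val2_amalg hs (β := β) (m := (nτ d.2 0).1) (δ := τ.1) hv (hcp d i₁).1 i₄
    (hlt _ (nτ_mem (i₃ ▸ hk))) ?_ (fun p hp => (hf p hp).imp (fun h => ⟨⟨hp, h⟩, hb p hp h⟩) id)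
    (fun a ha => (hT a ha).imp (fun h => ⟨⟨ha, h⟩,
      (b₂ a ha h).trans ((le_max_left _ _).trans (le_max_right _ _))⟩) id)
    (fun p hp => hMs.has_pt.1 (cl.has_list.1 (h₇ _ cl _ g₂) p hp))
    (fun a ha => ⟨hlt a ha, i₅ a ha⟩) (fun p hp q hq _ _ => (b₃ (p, q) ⟨hp, hq⟩).imp id
      fun H => H.mono ((le_max_right _ _).trans (le_max_right _ _))) (fun p hp => ?_)
    (fun y hy h γ hγ => ?_) fun a ha => ?_⟩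
  · rintro p (hp | hp)
    exacts [hfK p hp, hs.cl.has_list.1 (h₇ _ hs.cl _ i₁.1) p hp]
  · obtain ⟨i, hi, rfl⟩ := exists_nt hp
    have hi' : i < Y.length := g₃.1.1 ▸ hi
    exact ⟨nt Y i, ((hYf _).1 (nt_mem hi')).1, ((hYf _).1 (nt_mem hi')).2, (c₂.trans i₂).nt i,
      g₃.1.2 i hi'⟩
  · obtain ⟨k₁, k₂⟩ := h₆ s hs M _ hMs σ hM.sg hn y.1 (hs.cl.has_prod.1 (hfK y hy)).1 h.1 γ hγ
    obtain ⟨k₃, k₄⟩ := not_loU (hγ.trans_le h.2)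
    exact ⟨iff_of_false k₁ k₃, iff_of_false k₂ k₄⟩
  · convert g₃.2 a ha using 2
    exact Set.ext fun p => (hYf p).symm

end Pool.Agent.MP_656653_lc
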