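import Pool.Agent.MP_656653_lc.StepQ2

/-! The forcing for the embedding: density arguments. -/

set_option synthInstance.maxSize 1000000

namespace Pool.Agent.MP_656653_lc

open Set Filter

def lvl (T : Set Trc) : Set Om := insert ⊥ (Prod.fst '' T)

theorem St.Val2.lev {s : St} {σ f T δ} (h : s.Val2 σ f T) (hδ : δ ∈ lvl T) : s.Lev σ f δ := by
  rcases hδ with rfl | ⟨τ, hτ, rfl⟩
  exacts [h.2.2.1, (h.2.2.2 τ hτ).1]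

theorem U.lt_iff_of_ag {γ : Om} {t t' u : U} (h : U.ag γ t t') (h' : ¬ U.ag γ t u) :
    t < u ↔ t' < u :=
  ⟨fun H => U.lt_of_ag H h' h (U.ag.refl _ _),
    fun H => U.lt_of_ag H (fun e => h' (h.trans e)) h.symm (U.ag.refl _ _)⟩

theorem sing_iff {δ : Om} {t : U} : (LoU δ t ∧ HiU δ t) ↔ ∀ v, U.ag δ v t → v = t :=
  ⟨fun h v hv => le_antisymm (not_lt.1 (h.2 v hv.symm)) (not_lt.1 (h.1 v hv.symm)),
    fun h => ⟨fun u hu => h u hu.symm ▸ lt_irrefl _, fun u hu => h u hu.symm ▸ lt_irrefl _⟩⟩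

structure Inv (s : St) (σ : V) (f : Set Pt) (T : Set Trc) (a δ : Om) (t : U) : Prop where
  ht : δ ≤ t.ht
  hK : has s.K t
  c2 : ∀ γ ∈ lvl T, γ ≤ δ → ∀ q ∈ f, agA (s.r σ) γ a q.1 ↔ U.ag γ t q.2
  ord : ∀ q ∈ f, ¬ agA (s.r σ) δ a q.1 → (s.r σ a q.1 ↔ t < q.2)
  good : ∀ τ ∈ T, τ.1 ≤ δ → s.Good σ τ (insert (a, t) {p ∈ f | τ.1 ≤ p.1})

theorem Inv.move {D s} (hs : Sit D s) {σ f T a δ t w} (h : Inv s σ f T a δ t) (ha : has s.K a)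
    (hf : ∀ p ∈ f, has s.K p) (hw : has s.K w) (e : U.ag δ t w) (hδ : δ ∈ lvl T) :
    Inv s σ f T a δ w := by
  refine ⟨U.le_ht e h.ht, hw, fun γ h₁ h₂ q hq => (h.c2 γ h₁ h₂ q hq).trans
    ⟨fun H => (e.mono h₂).symm.trans H, fun H => (e.mono h₂).trans H⟩, fun q hq H =>
    (h.ord q hq H).trans (U.lt_iff_of_ag e fun H' => H ((h.c2 δ hδ le_rfl q hq).2 H')),
    fun τ h₁ h₂ => (h.good τ h₁ h₂).congr hs ?_ ?_⟩
  · rintro q (rfl | hq)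
    exacts [hs.cl.has_pair.2 ⟨ha, h.hK⟩, hf q hq.1]
  · rintro p (rfl | hp)
    exacts [⟨_, Or.inl rfl, agA.refl _ _, (e.mono h₂).symm⟩, ⟨p, Or.inr hp, peq.refl _ _⟩]

theorem inv_occ {D s} (hs : Sit D s) {σ f T a δ b} (hv : s.Val2 σ f T) (hf : ∀ p ∈ f, has s.K p)
    (hδ : δ ∈ lvl T) (ha : δ ≤ a) (hb : b ∈ f) (e : agA (s.r σ) δ a b.1) :
    Inv s σ f T a δ b.2 := by
  have hp : ppr δ b := ((hv.lev hδ).cases hb).resolve_left fun h => h.1.not_ge (e.le ha)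
  refine ⟨hp.2, (hs.cl.has_prod.1 (hf b hb)).2, fun γ h₁ h₂ q hq =>
    Iff.trans ⟨fun H => (e.mono h₂).symm.trans H, fun H => (e.mono h₂).trans H⟩
      ((hv.lev h₁).2.1 b hb q hq), fun q hq H => Iff.trans ⟨fun H' => r_of_ag H' H e (agA.refl _ _),
        fun H' => r_of_ag H' (fun H'' => H (e.trans H'')) e.symm (agA.refl _ _)⟩ (hv.2.1 b hb q hq),
    fun τ h₁ h₂ => ((hv.2.2.2 τ h₁).2 ⟨b, hb, h₂.trans hp.1⟩).congr hs (fun q hq => hf q hq.1) ?_⟩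
  rintro p (rfl | hp')
  exacts [⟨b, ⟨hb, h₂.trans hp.1⟩, e.mono h₂, U.ag.refl _ _⟩, ⟨p, hp', peq.refl _ _⟩]

theorem gap {s : St} {σ f T a δ t} (hv : s.Val2 σ f T) (hff : f.Finite) (ha : has s.K a)
    (hδ : δ ∈ lvl T) (h : Inv s σ f T a δ t) (hn : ¬ (LoU δ t ∧ HiU δ t)) :
    ∃ lo hi, U.ag δ t lo ∧ U.ag δ t hi ∧ lo < hi ∧
      (∀ q ∈ f, agA (s.r σ) δ a q.1 → (s.r σ q.1 a → q.2 ≤ lo) ∧ (s.r σ a q.1 → hi ≤ q.2)) ∧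
      (lo.ht ≤ δ ∨ ∃ q ∈ f, q.2 = lo ∧ s.r σ q.1 a) ∧
      ((hi.ht ≤ δ ∧ HiU δ hi) ∨ ∃ q ∈ f, q.2 = hi ∧ s.r σ a q.1) := by
  obtain ⟨m, m', m₁, m₂, m₃, m₄, m₅⟩ := U.minmax δ t
  obtain ⟨lo, a₁, a₂⟩ := exists_max_image (insert m (Prod.snd '' {q ∈ f | agA (s.r σ) δ a q.1 ∧
    s.r σ q.1 a})) id (((hff.subset (sep_subset _ _)).image _).insert m) (insert_nonempty _ _)
  obtain ⟨hi, b₁, b₂⟩ := exists_min_image (insert m' (Prod.snd '' {q ∈ f | agA (s.r σ) δ a q.1 ∧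
    s.r σ a q.1})) id (((hff.subset (sep_subset _ _)).image _).insert m') (insert_nonempty _ _)
  have c := h.c2 δ hδ le_rfl
  have e := (hv.lev hδ).2.2
  refine ⟨lo, hi, ?_, ?_, ?_, fun q hq H => ⟨fun H' => a₂ _ (Or.inr ⟨q, ⟨hq, H, H'⟩, rfl⟩),
    fun H' => b₂ _ (Or.inr ⟨q, ⟨hq, H, H'⟩, rfl⟩)⟩, ?_, ?_⟩
  · rcases a₁ with rfl | ⟨q, hq, rfl⟩
    exacts [m₁.symm, (c q hq.1).1 hq.2.1]
  · rcases b₁ with rfl | ⟨q, hq, rfl⟩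
    exacts [m₂.symm, (c q hq.1).1 hq.2.1]
  · rcases a₁ with rfl | ⟨q, hq, rfl⟩ <;> rcases b₁ with rfl | ⟨q', hq', rfl⟩
    · by_contra hc
      refine hn (sing_iff.2 fun v hv => ?_)
      have := m₅ v hv
      have := m₅ t (U.ag.refl _ _)
      order
    · by_contra hc
      refine (e q' hq'.1).1.2 (fun u hu H => ?_) a ha hq'.2.1.symm hq'.2.2
      have := (m₅ u (hu.symm.trans ((c q' hq'.1).1 hq'.2.1).symm)).1
      order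
    · by_contra hc
      refine (e q hq.1).2.2 (fun u hu H => ?_) a ha hq.2.1.symm hq.2.2
      have := (m₅ u (hu.symm.trans ((c q hq.1).1 hq.2.1).symm)).2
      order
    · exact (hv.2.1 q hq.1 q' hq'.1).1 (r_trans hq.2.2 hq'.2.2)
  · rcases a₁ with rfl | ⟨q, hq, rfl⟩
    exacts [Or.inl m₃, Or.inr ⟨q, hq.1, rfl, hq.2.2⟩]
  · rcases b₁ with rfl | ⟨q, hq, rfl⟩
    exacts [Or.inl ⟨m₄, fun u hu => (m₅ u (hu.symm.trans m₂)).2.not_gt⟩,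
      Or.inr ⟨q, hq.1, rfl, hq.2.2⟩]

theorem gap_split {s : St} {σ f T a δ ε} {lo hi : U} (hv : s.Val2 σ f T) (hε : ε ∈ lvl T)
    (h : δ < ε) (hu : ∀ q ∈ f, ¬ agA (s.r σ) ε a q.1) (hlt : lo < hi)
    (h₁ : lo.ht ≤ δ ∨ ∃ q ∈ f, q.2 = lo ∧ s.r σ q.1 a)
    (h₂ : hi.ht ≤ δ ∨ ∃ q ∈ f, q.2 = hi ∧ s.r σ a q.1) : ¬ U.ag ε lo hi := by
  intro H
  rcases h₁ with h₁ | ⟨q, hq, rfl, h₁⟩
  · exact hlt.ne (U.alone H (h₁.trans_lt h))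
  rcases h₂ with h₂ | ⟨q', hq', rfl, h₂⟩
  · exact hlt.ne' (U.alone H.symm (h₂.trans_lt h))
  exact hu q hq ((((hv.lev hε).2.1 q hq q' hq').2 H).convex h₁ h₂).symm

/-- The final extension. -/
theorem inv_final {s : St} {σ f T a δ w} (hv : s.Val2 σ f T) (hn : s.Nice σ)
    (hnd : ∀ q ∈ f, q.1 ≠ a) (ha : δ ≤ a) (h : Inv s σ f T a δ w)
    (h₁ : ∀ q ∈ f, agA (s.r σ) δ a q.1 → (s.r σ q.1 a → q.2 < w) ∧ (s.r σ a q.1 → w < q.2))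
    (h₂ : ∀ γ ∈ lvl T, γ ≤ δ → s.End σ γ (a, w)) (h₃ : ∀ γ ∈ lvl T, δ < γ → pbl γ (a, w))
    (hδ : δ ∈ lvl T) : s.Val2 σ (insert (a, w) f) T := by
  have k : ∀ q ∈ f, (s.r σ a q.1 ↔ w < q.2) ∧ (s.r σ q.1 a ↔ q.2 < w) := by
    intro q hq
    have t := r_tri (r := s.r σ) q.1 a
    rw [or_iff_right (hnd q hq)] at t
    by_cases e : agA (s.r σ) δ a q.1
    · have := h₁ q hq e
      exact ⟨⟨this.2, fun H => t.resolve_left fun H' => (this.1 H').asymm H⟩,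
        ⟨this.1, fun H => t.resolve_right fun H' => (this.2 H').asymm H⟩⟩
    · have := h.ord q hq e
      refine ⟨this, fun H => ?_, fun H => t.resolve_right fun H' => (this.1 H').asymm H⟩
      refine (lt_or_gt_of_ne fun e' : w = q.2 => e ?_).resolve_left fun H' => r_asymm H (this.2 H')
      exact (h.c2 δ hδ le_rfl q hq).2 (e' ▸ U.ag.refl _ _)
  have C0 : ∀ p ∈ insert (a, w) f, ∀ q ∈ insert (a, w) f, s.r σ p.1 q.1 ↔ p.2 < q.2 := by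
    rintro p (rfl | hp) q (rfl | hq)
    exacts [iff_of_false (r_irr _) (lt_irrefl _), (k q hq).1, (k p hp).2, hv.2.1 p hp q hq]
  have lev : ∀ γ ∈ lvl T, s.Lev σ (insert (a, w) f) γ := by
    intro γ hγ
    have l := hv.lev hγ
    rcases le_or_gt γ δ with h' | h'
    · refine ⟨?_, ?_, ?_⟩
      · rintro p (rfl | hp)
        exacts [iff_of_false (h'.trans ha).not_gt (h'.trans h.ht).not_gt, l.1 p hp]
      · rintro p (rfl | hp) q (rfl | hq)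
        exacts [iff_of_true (agA.refl _ _) (U.ag.refl _ _), h.c2 γ hγ h' q hq,
          ⟨fun H => ((h.c2 γ hγ h' p hp).1 H.symm).symm,
            fun H => ((h.c2 γ hγ h' p hp).2 H.symm).symm⟩, l.2.1 p hp q hq]
      · rintro p (rfl | hp)
        exacts [h₂ γ hγ h', l.2.2 p hp]
    · have b := h₃ γ hγ h'
      refine ⟨?_, ?_, ?_⟩
      · rintro p (rfl | hp)
        exacts [iff_of_true b.1 b.2, l.1 p hp]
      · rintro p (rfl | hp) q (rfl | hq)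
        exacts [iff_of_true (agA.refl _ _) (U.ag.refl _ _),
          St.c2_of_bl (k q hq).1 (k q hq).2 (Or.inl b),
          St.c2_of_bl (k p hp).2 (k p hp).1 (Or.inr b), l.2.1 p hp q hq]
      · rintro p (rfl | hp)
        exacts [St.end_of_bl b, l.2.2 p hp]
  refine ⟨fun _ => hn, C0, lev ⊥ (Or.inl rfl), fun τ hτ => ⟨lev _ (Or.inr ⟨τ, hτ, rfl⟩), ?_⟩⟩
  rcases le_or_gt τ.1 δ with h' | h'
  · intro _
    convert h.good τ hτ h' using 1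
    ext p
    exact ⟨fun hp => hp.1.imp id fun H => ⟨H, hp.2⟩,
      fun hp => hp.elim (fun e => ⟨Or.inl e, e ▸ h'.trans ha⟩) fun H => ⟨Or.inr H.1, H.2⟩⟩
  · have e : {p ∈ insert (a, w) f | τ.1 ≤ p.1} = {p ∈ f | τ.1 ≤ p.1} := by
      ext p
      exact ⟨fun hp => ⟨hp.1.resolve_left fun e =>
        (h₃ _ (Or.inr ⟨τ, hτ, rfl⟩) h').1.not_ge (e ▸ hp.2 :), hp.2⟩, fun hp => ⟨Or.inr hp.1, hp.2⟩⟩
    rintro ⟨p, hp⟩
    rw [e]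
    exact (hv.2.2.2 τ hτ).2 ⟨p, e.le hp⟩

/-- The setting of the density arguments. -/
structure Ctx (D : Set Dp) (s : St) (σ : V) (f : Set Pt) (T : Set Trc) : Prop where
  sit : Sit D s
  nice : s.Nice σ
  ff : f.Finite
  tf : T.Finite
  val : s.Val2 σ f T
  fK : ∀ p ∈ f, has s.K p
  md : ∀ τ ∈ T, ∃ N, Md D s σ τ N

theorem Ctx.lf {D s σ f T} (h : Ctx D s σ f T) : (lvl T).Finite := (h.tf.image _).insert _

theorem Ctx.md' {D s σ f T} (h : Ctx D s σ f T) {γ δ} (hδ : δ ∈ lvl T) (h' : γ < δ) :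
    ∃ τ ∈ T, τ.1 = δ ∧ ∃ N, Md D s σ τ N := by
  rcases hδ with rfl | ⟨τ, hτ, rfl⟩
  exacts [absurd h' not_lt_bot, ⟨τ, hτ, rfl, h.md τ hτ⟩]

theorem end_low : ∀ᶠ D in Fl, ∀ s σ f T, Ctx D s σ f T → ∀ a δ w, has s.K a → δ ∈ lvl T → δ ≤ a →
    δ ≤ U.ht w → s.End σ δ (a, w) → ∀ γ ∈ lvl T, γ ≤ δ → s.End σ γ (a, w) := by
  filter_upwards [not_loA] with D h₁ s σ f T h a δ w ha hδ h₂ h₃ h₄ γ _ hγ
  rcases hγ.eq_or_lt with rfl | hγ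
  · exact h₄
  obtain ⟨τ, -, rfl, N, hN⟩ := h.md' hδ hγ
  obtain ⟨k₁, k₂⟩ := h₁ s h.sit N _ hN.sub σ hN.sg h.nice a ha h₂ γ hγ
  obtain ⟨k₃, k₄⟩ := not_loU (hγ.trans_le h₃)
  exact ⟨iff_of_false k₁ k₃, iff_of_false k₂ k₄⟩

theorem exists_next {S : Set Om} (δ : Om) {R : Prop} (h₀ : (∀ γ ∈ S, γ ≤ δ) → R)
    (h₁ : ∀ ε ∈ S, δ < ε → (∀ γ ∈ S, δ < γ → ε ≤ γ) → R) : R := by
  by_cases h : ∃ ε ∈ S, δ < ε
  · obtain ⟨ε, h₂, h₃⟩ := (wellFounded_lt (α := Om)).has_min {ε ∈ S | δ < ε} h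
    exact h₁ ε h₂.1 h₂.2 fun γ a b => not_lt.1 (h₃ γ ⟨a, b⟩)
  · push Not at h
    exact h₀ h

/-- Filling a gap in the top occupied node. -/
theorem fill : ∀ᶠ D in Fl, ∀ s σ f T, Ctx D s σ f T → ∀ a δ t, has s.K a → δ ∈ lvl T → δ ≤ a →
    (∀ γ ∈ lvl T, δ < γ → a < γ) → (∀ q ∈ f, q.1 ≠ a) → Inv s σ f T a δ t →
    ¬ s.LoA σ δ a → ¬ s.HiA σ δ a → ∀ lo hi : U, has s.K lo → U.ag δ t lo → U.ag δ t hi → lo < hi →
    (∀ q ∈ f, agA (s.r σ) δ a q.1 → (s.r σ q.1 a → q.2 ≤ lo) ∧ (s.r σ a q.1 → hi ≤ q.2)) →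
    (∀ γ ∈ lvl T, δ < γ → ¬ U.ag γ lo hi) →
    ∃ w, has s.K w ∧ lo < w ∧ w < hi ∧ s.Val2 σ (insert (a, w) f) T := by
  filter_upwards [end_low] with D h₁ s σ f T h a δ t ha hδ h₂ h₃ h₄ hI h₅ h₆ lo hi b₀ b₁ b₂ b₃ b₄ b₅
  have hs := h.sit
  obtain ⟨w, c₀, c₁, c₂, c₃⟩ : ∃ w, has s.K w ∧ lo < w ∧ w < hi ∧
      ∀ γ ∈ lvl T, δ < γ → w.ht < γ := by
    obtain ⟨ε, e₁, e₂⟩ := hs.bas.up (hs.bas.ht.1 b₀)
    obtain ⟨w, c₁, c₂, c₃⟩ := U.exists_btwn b₃ fun H => b₃.ne (U.alone H e₂)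
    refine exists_next (S := lvl T) δ
      (fun H => ⟨w, hs.bas.ht.2 (hs.bas.down e₁ c₃.le), c₁, c₂,
        fun γ a b => absurd b (H γ a).not_gt⟩) fun ε e₃ e₄ e₅ => ?_
    obtain ⟨w, c₁, c₂, c₃⟩ := U.exists_btwn b₃ (b₅ ε e₃ e₄)
    obtain ⟨τ, -, rfl, N, hN⟩ := h.md' e₃ e₄
    exact ⟨w, hs.bas.ht.2 (hs.has_le hN.sub c₃.le), c₁, c₂,
      fun γ a b => c₃.trans_le (e₅ γ a b)⟩
  have e : U.ag δ lo w := U.convex c₁.le c₂.le (b₁.symm.trans b₂)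
  have hI' := hI.move hs ha h.fK c₀ (b₁.trans e) hδ
  refine ⟨w, c₀, c₁, c₂, inv_final h.val h.nice h₄ h₂ hI' (fun q hq H =>
    ⟨fun H' => ((b₄ q hq H).1 H').trans_lt c₁, fun H' => c₂.trans_le ((b₄ q hq H).2 H')⟩)
    (h₁ s σ f T h a δ w ha hδ h₂ hI'.ht ⟨iff_of_false h₅ fun H => H lo e.symm c₁,
      iff_of_false h₆ fun H => H hi (e.symm.trans (b₁.symm.trans b₂)) c₂⟩)
    (fun γ a b => ⟨h₃ γ a b, c₃ γ a b⟩) hδ⟩

theorem dens1 : ∀ᶠ D in Fl, ∀ s σ f T, Ctx D s σ f T → s.Dich σ →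
    (∀ a ∈ T, ∀ b ∈ T, a.1 = b.1 → a = b) → ∀ a, has s.K a →
    ∃ t, has s.K t ∧ s.Val2 σ (insert (a, t) f) T := by
  filter_upwards [end_low, fill, not_loA, lemC, good_empty] with D h₁ h₂ h₃ h₄ h₅ s σ f T h hD hinj
    a ha
  have hs := h.sit
  have hv := h.val
  by_cases hd : ∃ q ∈ f, q.1 = a
  · obtain ⟨q, hq, rfl⟩ := hd
    exact ⟨q.2, (hs.cl.has_prod.1 (h.fK q hq)).2, by rwa [insert_eq_of_mem hq]⟩
  push Not at hd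
  obtain ⟨δ, ⟨hδ, hδa, t, hI, hS⟩, hmax⟩ := exists_max_image {δ ∈ lvl T | δ ≤ a ∧ ∃ t,
      Inv s σ f T a δ t ∧ ((s.LoA σ δ a ∧ s.HiA σ δ a) ↔ (LoU δ t ∧ HiU δ t))} id
    (h.lf.subset (sep_subset _ _)) ⟨⊥, Or.inl rfl, bot_le, d0.2,
      ⟨bot_le, (hs.cl.has_prod.1 hs.has_d0).2, fun γ _ hγ q _ => by
        rw [le_bot_iff.1 hγ]; exact iff_of_true (agA_bot _ _) (U.ag_bot _ _),
      fun q _ H => absurd (agA_bot _ _) H, fun τ hτ H => by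
        obtain ⟨N, hN⟩ := h.md τ hτ
        exact absurd hN.sub.lim.1 H.not_gt⟩, iff_of_false (fun H => by
        obtain ⟨b, b₁, b₂⟩ := hs.bas.up ha
        rcases r_tri (r := s.r σ) a b with e | e | e
        exacts [H.2 b b₁ (agA_bot _ _) e, b₂.ne e, H.1 b b₁ (agA_bot _ _) e]) fun H => by
        obtain ⟨u, u', -, -, e⟩ := U.exists_ht ⊥
        exact e.ne ((sing_iff.1 H u (U.ag_bot _ _)).trans (sing_iff.1 H u' (U.ag_bot _ _)).symm)⟩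
  have htop : ∀ γ ∈ lvl T, δ < γ → a < γ := by
    refine exists_next (S := lvl T) δ
      (fun H γ a b => absurd b (H γ a).not_gt) fun ε e₁ e₂ e₃ γ g₁ g₂ => ?_
    refine lt_of_lt_of_le (not_le.1 fun hεa => e₂.not_ge (hmax ε ⟨e₁, hεa, ?_⟩)) (e₃ γ g₁ g₂)
    by_cases ho : ∃ b ∈ f, agA (s.r σ) ε a b.1
    · obtain ⟨b, b₁, b₂⟩ := ho
      have hb := (hs.cl.has_prod.1 (h.fK b b₁)).1
      refine ⟨b.2, inv_occ hs hv h.fK e₁ hεa b₁ b₂, iff_of_false (fun H => ?_) fun H => ?_⟩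
      · rcases r_tri (r := s.r σ) a b.1 with e | e | e
        exacts [H.2 _ hb b₂ e, hd b b₁ e.symm, H.1 _ hb b₂ e]
      · have := (hv.lev e₁).2.2 b b₁
        rcases r_tri (r := s.r σ) a b.1 with e | e | e
        exacts [this.1.2 H.1 a ha b₂.symm e, hd b b₁ e.symm, this.2.2 H.2 a ha b₂.symm e]
    push Not at ho
    obtain ⟨τ, hτ, rfl, N, hN⟩ := h.md' e₁ e₂
    obtain ⟨lo, hi, b₁, b₂, b₃, b₄, b₅, b₆⟩ := gap hv h.ff ha hδ hI fun H =>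
      (h₃ s hs N _ hN.sub σ hN.sg h.nice a ha hεa δ e₂).1 (hS.2 H).1
    classical
    obtain ⟨t', β, c₁, c₂, c₃⟩ := U.exists_opp hN.sub.lim b₃
      (gap_split hv e₁ e₂ ho b₃ b₅ (b₆.imp And.left id)) (decide (s.LoA σ τ.1 a ∧ s.HiA σ τ.1 a))
    have hQ : ∀ q ∈ {p ∈ f | τ.1 ≤ p.1}, has s.K q ∧ ppr τ.1 q := fun q hq => ⟨h.fK q hq.1,
      ((hv.lev e₁).cases hq.1).resolve_left fun H => H.1.not_ge hq.2⟩
    have hK : ∀ b, has s.K (t' b) := fun b => hs.bas.ht.2 ((c₃ b).2.2.2.2.1 ▸ hN.sub.hd)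
    obtain ⟨b, hG⟩ := h₄ s hs N τ hN.sub hN.tr σ hN.sg hD _ hQ (by
      by_cases H : ∃ p ∈ f, τ.1 ≤ p.1
      · exact (hv.2.2.2 τ hτ).2 H
      · exact (h₅ s hs N τ hN.sub hN.tr σ).congr hs (by simp) fun q hq => absurd ⟨q, hq⟩ H)
      a t' β ha hεa hK (fun b => (c₃ b).2.2.2.2.1.ge) c₁ c₂
    obtain ⟨d₁, d₂, d₃, d₄, d₅, d₆⟩ := c₃ b
    have hI' := hI.move hs ha h.fK (hK b) (b₁.trans (U.convex d₁.le d₂.le (b₁.symm.trans b₂))) hδ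
    have side : ∀ q ∈ f, agA (s.r σ) δ a q.1 → (s.r σ q.1 a ∧ q.2 ≤ lo) ∨ (s.r σ a q.1 ∧ hi ≤ q.2) := by
      intro q hq H
      rcases r_tri (r := s.r σ) q.1 a with e | e | e
      exacts [Or.inl ⟨e, (b₄ q hq H).1 e⟩, absurd e (hd q hq), Or.inr ⟨e, (b₄ q hq H).2 e⟩]
    refine ⟨t' b, ⟨d₅.ge, hK b, fun γ i₁ i₂ q hq => ?_, fun q hq _ => ?_, fun τ' i₁ i₂ => ?_⟩,
      by rw [sing_iff, ← d₆, decide_eq_true_iff]⟩
    · rcases le_or_gt γ δ with i₃ | i₃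
      · exact hI'.c2 γ i₁ i₃ q hq
      obtain rfl := le_antisymm i₂ (e₃ γ i₁ i₃)
      refine iff_of_false (ho q hq) fun H => ?_
      rcases side q hq ((hI'.c2 δ hδ le_rfl q hq).2 (H.mono e₂.le)) with e | e
      · exact d₃ ((U.convex e.2 d₁.le H.symm).symm.trans H.symm)
      · exact d₄ (U.convex d₂.le e.2 H)
    · by_cases H : agA (s.r σ) δ a q.1
      · rcases side q hq H with e | e
        exacts [iff_of_false (r_asymm e.1) (e.2.trans d₁.le).not_gt,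
          iff_of_true e.1 (d₂.trans_le e.2)]
      · exact hI'.ord q hq H
    · rcases le_or_gt τ'.1 δ with i₃ | i₃
      · exact hI'.good τ' i₁ i₃
      · obtain rfl := hinj τ' i₁ τ hτ (le_antisymm i₂ (e₃ _ (Or.inr ⟨τ', i₁, rfl⟩) i₃))
        exact hG
  have hδK : has s.K δ := hs.bas.down ha hδa
  obtain ⟨m, m', m₁, m₂, m₃, m₄, m₅⟩ := U.minmax δ t
  have c := hI.c2 δ hδ le_rfl
  have fin : ∀ w : U, w.ht ≤ δ → U.ag δ w t → s.End σ δ (a, w) →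
      (∀ q ∈ f, agA (s.r σ) δ a q.1 → (s.r σ q.1 a → q.2 < w) ∧ (s.r σ a q.1 → w < q.2)) →
      ∃ t, has s.K t ∧ s.Val2 σ (insert (a, t) f) T := by
    intro w w₁ w₂ w₃ w₄
    have hw : has s.K w := hs.bas.ht.2 (hs.bas.down hδK w₁)
    have hI' := hI.move hs ha h.fK hw w₂.symm hδ
    exact ⟨w, hw, inv_final hv h.nice hd hδa hI' w₄ (h₁ s σ f T h a δ w ha hδ hδa hI'.ht w₃)
      (fun γ i₁ i₂ => ⟨htop γ i₁ i₂, w₁.trans_lt i₂⟩) hδ⟩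
  have sg : ∀ w : U, U.ag δ w t → (LoU δ w ∧ HiU δ w ↔ LoU δ t ∧ HiU δ t) := fun w hw =>
    ⟨fun H => sing_iff.1 H t hw.symm ▸ H, fun H => sing_iff.1 H w hw ▸ H⟩
  by_cases hLo : s.LoA σ δ a
  · have l : LoU δ m := fun u hu => (m₅ u (hu.symm.trans m₁)).1.not_gt
    refine fin m m₃ m₁ ⟨iff_of_true hLo l, fun H => ((sg m m₁).2 (hS.1 ⟨hLo, H⟩)).2,
      fun H => (hS.2 ((sg m m₁).1 ⟨l, H⟩)).2⟩ fun q hq H => ⟨fun H' => absurd H'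
        (hLo _ (hs.cl.has_prod.1 (h.fK q hq)).1 H), fun H' => ?_⟩
    refine (m₅ _ ((c q hq).1 H).symm).1.lt_of_ne fun e => ?_
    exact ((hv.lev hδ).2.2 q hq).1.2 (e ▸ l) a ha H.symm H'
  by_cases hHi : s.HiA σ δ a
  · have l : HiU δ m' := fun u hu => (m₅ u (hu.symm.trans m₂)).2.not_gt
    refine fin m' m₄ m₂ ⟨iff_of_false hLo fun H => hLo (hS.2 ((sg m' m₂).1 ⟨H, l⟩)).1,
      iff_of_true hHi l⟩ fun q hq H => ⟨fun H' => ?_, fun H' => absurd H'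
        (hHi _ (hs.cl.has_prod.1 (h.fK q hq)).1 H)⟩
    refine (m₅ _ ((c q hq).1 H).symm).2.lt_of_ne fun e => ?_
    exact ((hv.lev hδ).2.2 q hq).2.2 (e ▸ l) a ha H.symm H'
  obtain ⟨lo, hi, b₁, b₂, b₃, b₄, b₅, b₆⟩ := gap hv h.ff ha hδ hI fun H => hLo (hS.2 H).1
  obtain ⟨w, w₁, -, -, w₂⟩ := h₂ s σ f T h a δ t ha hδ hδa htop hd hI hLo hHi lo hi (by
    rcases b₅ with H | ⟨q, hq, rfl, -⟩
    exacts [hs.bas.ht.2 (hs.bas.down hδK H), (hs.cl.has_prod.1 (h.fK q hq)).2]) b₁ b₂ b₃ b₄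
    fun γ i₁ i₂ => gap_split hv i₁ i₂ (fun q hq H => hd q hq (H.alone (htop γ i₁ i₂)).symm) b₃ b₅
      (b₆.imp And.left id)
  exact ⟨w, w₁, w₂⟩

end Pool.Agent.MP_656653_lc
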