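import Pool.Agent.MP_656653_lc.Iter2
import Pool.Agent.MP_c6cf52_lc.Tools

/-! The class forcing and its generic filter. -/

set_option synthInstance.maxSize 1000000

namespace Pool.Agent.MP_656653_lc

open Set Filter Item
open Pool.Agent.MP_c6cf52_lc hiding tr

theorem exists_gen2 {P : Type 1} [Preorder P] [OrderTop P] {β : Type 1} [Inhabited β]
    {ι₁ ι₂ ι₃ : Type*} [Countable ι₁] [Countable ι₂] [Countable ι₃] (F : ι₁ → β → β → β)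
    (Θ : ι₂ → β → Name P) (Ξ : Name P → β) (e : P → β) (Ψ : ι₃ → β → Name P → P → Prop) :
    ∃ (g : Gen P) (K : Set β), (∀ i, ∀ a ∈ K, ∀ b ∈ K, F i a b ∈ K) ∧
      (∀ i, ∀ a ∈ K, Θ i a ∈ g.N) ∧ (∀ τ ∈ g.N, Ξ τ ∈ K) ∧
      (∀ p ∈ g.G, ∃ q ≤ p, e q ∈ K) ∧
      ∀ i, ∀ a ∈ K, ∀ τ ∈ g.N, ∃ q ∈ g.G, Ψ i a τ q ∨ ∀ r ≤ q, ¬ Ψ i a τ r := by
  have : Inhabited P := ⟨⊤⟩
  let R : (ℕ × Fml × ℕ) ⊕ ι₁ ⊕ ι₂ ⊕ ι₃ ⊕ Bool → List (Name P × β × P) → P → Name P → β → Prop :=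
    fun i l q ρ y => match i with
    | .inl i => Name.basic i.1 i.2.1 i.2.2 (l.map Prod.fst) q ρ
    | .inr (.inl i) => y = F i (l.getD 0 default).2.1 (l.getD 1 default).2.1
    | .inr (.inr (.inl i)) => ρ = Θ i (l.getD 0 default).2.1
    | .inr (.inr (.inr (.inl i))) => Ψ i (l.getD 0 default).2.1 (l.getD 1 default).1 q ∨
        ∀ r ≤ q, ¬ Ψ i (l.getD 0 default).2.1 (l.getD 1 default).1 r
    | .inr (.inr (.inr (.inr true))) => y = Ξ (l.getD 0 default).1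
    | .inr (.inr (.inr (.inr false))) => y = e (l.getD 0 default).2.2
  have : Nonempty ((ℕ × Fml × ℕ) ⊕ ι₁ ⊕ ι₂ ⊕ ι₃ ⊕ Bool) := ⟨.inl (0, .bot, 0)⟩
  obtain ⟨S, s, hs, -, h⟩ := exists_generic (fun i l q (a : Name P × β × P) =>
    a.2.2 = q ∧ R i l q a.1 a.2.1) (by
    rintro (i | i | i | i | _ | _) l p
    · obtain ⟨q, h₁, ρ, h₂⟩ := Name.basic_dense i.1 i.2.1 i.2.2 (l.map Prod.fst) p
      exact ⟨q, h₁, (ρ, default, q), rfl, h₂⟩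
    · exact ⟨p, le_rfl, (default, _, p), rfl, rfl⟩
    · exact ⟨p, le_rfl, (_, default, p), rfl, rfl⟩
    · by_cases H : ∀ r ≤ p, ¬ Ψ i (l.getD 0 default).2.1 (l.getD 1 default).1 r
      · exact ⟨p, le_rfl, (default, default, p), rfl, Or.inr H⟩
      · push Not at H
        obtain ⟨r, h₁, h₂⟩ := H
        exact ⟨r, h₁, (default, default, r), rfl, Or.inl h₂⟩
    · exact ⟨p, le_rfl, (default, _, p), rfl, rfl⟩
    · exact ⟨p, le_rfl, (default, _, p), rfl, rfl⟩) ⊤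
  have top : ∃ n, (∃ a ∈ S, a.2.2 = s n) := by
    obtain ⟨n, a, h₁, h₂, -⟩ := h (.inl (0, .bot, 0)) [] (by simp)
    exact ⟨n, a, h₁, h₂⟩
  refine ⟨⟨Prod.fst '' S, {q | ∃ n, (∃ a ∈ S, a.2.2 = s n) ∧ s n ≤ q}, ?_, ?_,
    top.imp fun n h => ⟨h, le_top⟩, ?_⟩, (·.2.1) '' S, ?_, ?_, ?_, ?_, ?_⟩
  · rintro p q ⟨n, h₁, h₂⟩ hpq
    exact ⟨n, h₁, h₂.trans hpq⟩
  · rintro p q ⟨n, h₁, h₂⟩ ⟨m, h₃, h₄⟩
    rcases le_total n m with h | h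
    exacts [⟨s m, ⟨m, h₃, le_rfl⟩, (hs h).trans h₂, h₄⟩, ⟨s n, ⟨n, h₁, le_rfl⟩, h₂, (hs h).trans h₄⟩]
  · intro t φ k l hl
    obtain ⟨l', h₁, rfl⟩ : ∃ l' : List (Name P × β × P), (∀ x ∈ l', x ∈ S) ∧ l'.map Prod.fst = l := by
      induction l with
      | nil => exact ⟨[], by simp, rfl⟩
      | cons x l ih =>
        obtain ⟨l', h₁, rfl⟩ := ih fun y hy => hl y (List.mem_cons_of_mem _ hy)
        obtain ⟨a, ha, rfl⟩ := hl x List.mem_cons_self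
        exact ⟨a :: l', List.forall_mem_cons.2 ⟨ha, h₁⟩, rfl⟩
    obtain ⟨n, a, h₂, h₃, h₄⟩ := h (.inl (t, φ, k)) l' h₁
    exact ⟨s n, ⟨n, ⟨a, h₂, h₃⟩, le_rfl⟩, a.1, ⟨a, h₂, rfl⟩, h₄⟩
  · rintro i _ ⟨a, ha, rfl⟩ _ ⟨b, hb, rfl⟩
    obtain ⟨n, c, h₂, -, h₄⟩ := h (.inr (.inl i)) [a, b] (by simp [ha, hb])
    exact ⟨c, h₂, h₄⟩
  · rintro i _ ⟨a, ha, rfl⟩
    obtain ⟨n, c, h₂, -, h₄⟩ := h (.inr (.inr (.inl i))) [a] (by simp [ha])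
    exact ⟨c, h₂, h₄⟩
  · rintro _ ⟨a, ha, rfl⟩
    obtain ⟨n, c, h₂, -, h₄⟩ := h (.inr (.inr (.inr (.inr true)))) [a] (by simp [ha])
    exact ⟨c, h₂, h₄⟩
  · rintro p ⟨n, ⟨a, ha, h₁⟩, h₂⟩
    obtain ⟨m, c, h₃, -, h₄⟩ := h (.inr (.inr (.inr (.inr false)))) [a] (by simp [ha])
    exact ⟨s n, h₂, c, h₃, h₁ ▸ h₄⟩
  · rintro i _ ⟨a, ha, rfl⟩ _ ⟨b, hb, rfl⟩
    obtain ⟨n, c, h₂, h₃, h₄⟩ := h (.inr (.inr (.inr (.inl i)))) [a, b] (by simp [ha, hb])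
    exact ⟨s n, ⟨n, ⟨c, h₂, h₃⟩, le_rfl⟩, h₄⟩

def P1 (D : Set Dp) : Type 1 := {p : C // PP D p}

variable {D : Set Dp}

instance : Preorder (P1 D) where
  le p q := q.1 ⊆ p.1
  le_refl _ := subset_rfl
  le_trans _ _ _ h h' := h'.trans h

instance : OrderTop (P1 D) where
  top := ⟨∅, pp_empty⟩
  le_top _ := Finset.empty_subset _

theorem wfO : WellFounded (fun a b : ULift.{1} Om => a.down < b.down) :=
  InvImage.wf ULift.down wellFounded_lt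

theorem triO (a b : ULift.{1} Om) : a.down < b.down ∨ a = b ∨ b.down < a.down :=
  (lt_trichotomy a.down b.down).imp id (Or.imp (ULift.ext _ _) id)

noncomputable def oN (a : Om) : Name (P1 D) := Name.ordN wfO ⟨a⟩

noncomputable def wN : Name (P1 D) := Name.setN wfO univ

def RR : Bool → V → Om → Om → C → Prop
  | true, z, a, b, q => enc ((a, b), q) ∈ z
  | false, z, a, b, q => ∃ ν, enc ν = z ∧ atm ν (mkX (a, eU b)) ∈ q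

noncomputable def rN (i : Bool) (z : V) : Name (P1 D) :=
  Gen.relN (ι := {x : Om × Om × P1 D // RR i z x.1 x.2.1 x.2.2.1}) (fun x => oN x.1.1)
    (fun x => oN x.1.2.1) fun x => x.1.2.2

def FM (τ : Name (P1 D)) (a b : Om) (c : C) : Prop :=
  ∃ h : PP D c, Name.FMem (Name.pairN (oN a) (oN b)) τ ⟨c, h⟩

def DecN (τ : Name (P1 D)) (a b : Om) (c : C) : Prop :=
  PP D c ∧ (FM τ a b c ∨ ∀ r, c ⊆ r → ¬ FM τ a b r)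

structure CapN (τ : Name (P1 D)) (ν ν' : Tag) : Prop where
  k2 : ν.k2 = true
  mem : has (ν.W : Set V) ν'
  dec : ∀ a b c, enc c ∈ ν'.P → ∃ c', enc c' ∈ ν'.P ∧ c ⊆ c' ∧ DecN τ a b c'
  iff : ∀ a b (c : C), enc ((a, b), c) ∈ ν.sA ↔ enc c ∈ ν'.P ∧ FM τ a b c

def sch : Fin 6 → V → Name (P1 D) → C → Prop
  | 0, z, _, q => ∃ a : V × V, enc a = z ∧ enc (res a.1 q) ∈ a.2
  | 1, z, _, q => ∃ N, cn N ∈ q ∧ z ∈ N
  | 2, _, τ, q => ∃ ν ν', tr ν ∈ q ∧ tr ν' ∈ q ∧ CapN τ ν ν'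
  | 3, z, τ, q => ∃ a : V × Om × Om, enc a = z ∧ DecN τ a.2.1 a.2.2 (res a.1 q)
  | 4, z, _, q => ∃ a : Tag × Om, enc a = z ∧ ∃ t, atm a.1 (mkX (a.2, t)) ∈ q
  | 5, z, _, q => ∃ a : Tag × U × U, enc a = z ∧
      ∃ c w, a.2.1 < w ∧ w < a.2.2 ∧ atm a.1 (mkX (c, w)) ∈ q

structure Top (D : Set Dp) where
  g : Gen (P1 D)
  K : Set V
  cl : Cl D K
  nm : ∀ x ∈ K, Nm x ∈ K
  subK : ∀ q ∈ g.G, has K q.1
  ord : ∀ a : Om, oN a ∈ g.N ↔ has K a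
  om : wN ∈ g.N
  rel : ∀ i, ∀ z ∈ K, rN i z ∈ g.N
  dec : ∀ i, ∀ z ∈ K, ∀ τ ∈ g.N, ∃ q ∈ g.G, sch i z τ q.1 ∨ ∀ r ≤ q, ¬ sch i z τ r.1

theorem exists_top (hD : D.Countable) : Nonempty (Top D) := by
  classical
  have := hD.to_subtype
  obtain ⟨g, K, h₁, h₂, h₃, h₄, h₅⟩ := exists_gen2 (P := P1 D) (β := V)
    (Option.elim' (fun a _ => Nm a) (cop D))
    (Sum.elim rN fun (i : Bool) z =>
      if i then wN else if h : ∃ a : Om, enc a = z then oN h.choose else wN)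
    (fun τ => if h : ∃ a, oN a = τ then enc h.choose else ∅) (fun q => enc q.1)
    fun i z τ q => sch i z τ q.1
  have h0 : ∅ ∈ K := by
    obtain ⟨q, -, h⟩ := h₄ _ g.top
    exact h₁ (some (.inl 0)) _ h _ h
  have cl : Cl D K := cl_of_cop h0 fun i => h₁ (some i)
  refine ⟨⟨g, K, cl, fun x hx => h₁ none _ hx _ hx, fun q hq => ?_, fun a => ⟨fun h => ?_, fun h => ?_⟩,
    h₂ (.inr true) _ h0, fun i => h₂ (.inl i), h₅⟩⟩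
  · obtain ⟨r, a, b⟩ := h₄ q hq
    exact cl.has_finset.2 fun x hx => cl.has_finset.1 b x (a hx)
  · have e : ∃ a', oN a' = (oN a : Name (P1 D)) := ⟨a, rfl⟩
    have := h₃ _ h
    rw [dif_pos e] at this
    have e' := Gen.ord_inj wfO triO (a := ⟨e.choose⟩) (b := ⟨a⟩) (e.choose_spec.symm ▸ h :
      oN e.choose ∈ g.N) h (congrArg g.v e.choose_spec)
    rwa [show e.choose = a from congrArg ULift.down e'] at this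
  · have e : ∃ a' : Om, enc a' = enc a := ⟨a, rfl⟩
    have := h₂ (.inr false) _ h
    simp only [Sum.elim_inr, Bool.false_eq_true, if_false, dif_pos e] at this
    rwa [Code.inj e.choose_spec] at this

namespace Top

variable (T : Top D)

def G : Set C := {q | ∃ h : PP D q, (⟨q, h⟩ : P1 D) ∈ T.g.G}

def st (ν : Tag) : St := ⟨T.K, ν.P, {b ∈ T.G | has (ν.W : Set V) b}⟩

noncomputable def o (a : Om) : T.g.M := T.g.v (oN a)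

noncomputable def w1 : T.g.M := T.g.v wN

def On (ν : Tag) : Prop := ∃ q ∈ T.G, tr ν ∈ q

variable {T}

theorem pp {q} (h : q ∈ T.G) : PP D q := h.1

theorem hK {q} (h : q ∈ T.G) : has T.K q := T.subK _ h.2

theorem up {p q} (h : q ∈ T.G) (h' : p ⊆ q) (hp : PP D p) : p ∈ T.G := ⟨hp, T.g.up h.2 h'⟩

theorem dir {p q} (h : p ∈ T.G) (h' : q ∈ T.G) : ∃ r ∈ T.G, p ⊆ r ∧ q ⊆ r := by
  obtain ⟨r, a, b, c⟩ := T.g.dir h.2 h'.2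
  exact ⟨r.1, ⟨r.2, a⟩, b, c⟩

theorem dens (i) {z} (hz : z ∈ T.K) {τ} (hτ : τ ∈ T.g.N) {p} (hp : p ∈ T.G)
    (h : ∀ q, PP D q → p ⊆ q → ∃ r, PP D r ∧ q ⊆ r ∧ sch i z τ r) : ∃ q ∈ T.G, sch i z τ q := by
  obtain ⟨q, a, b | b⟩ := T.dec i z hz τ hτ
  · exact ⟨q.1, ⟨q.2, a⟩, b⟩
  · obtain ⟨q', c₁, c₂, c₃⟩ := dir ⟨q.2, a⟩ hp
    obtain ⟨r, d₁, d₂, d₃⟩ := h q' (pp c₁) c₃
    exact absurd d₃ (b ⟨r, d₁⟩ (c₂.trans d₂))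

theorem emp : ∅ ∈ T.G := ⟨pp_empty, T.g.top⟩

theorem On.tg {ν} (h : T.On ν) : Tg D ν := h.elim fun _ a => (pp a.1).tg a.2

theorem On.hK {ν} (h : T.On ν) : has T.K ν :=
  h.elim fun _ a => T.cl.has_tr.1 (T.cl.has_finset.1 (Top.hK a.1) _ a.2)

theorem res_mem (n : N0 D) {ν q} (h : q ∈ T.G) (h' : tr ν ∈ q) : res ν.W q ∈ (T.st ν).g :=
  have := ((pp h).tg h').mem.1 ((pp h).res_mem n h')
  ⟨up h (fun _ a => (mem_res.1 a).1) this.2, this.1⟩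

theorem On.sit (n : N0 D) {ν} (h : T.On ν) : Sit D (T.st ν) := by
  have h' := h.tg
  have hK := h.hK
  obtain ⟨p, p₁, p₂⟩ := h
  refine sit_res0 n h' T.cl hK (T.nm _ (T.cl.has_tag.1 hK).2.1) (fun _ => pp) (fun _ => Top.hK)
    (fun _ a _ b => dir a b) (fun b hb a c d => up hb c (h'.mem.1 d).2) ⟨_, emp⟩ fun E hE => ?_
  obtain ⟨q, a, b | b⟩ := T.dec 0 (enc (ν.W, E)) (T.cl.has_pair.2 ⟨(T.cl.has_tag.1 hK).1, hE⟩) _ T.om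
  · obtain ⟨x, b₁, b₂⟩ := b
    obtain rfl := Code.inj b₁
    exact ⟨q.1, ⟨q.2, a⟩, Or.inl b₂⟩
  · obtain ⟨c, c₁, c₂, c₃⟩ := dir ⟨q.2, a⟩ p₁
    refine ⟨c, c₁, Or.inr fun u d₁ d₂ d₃ => b ⟨_, (pp c₁).union n (c₃ p₂) d₁ d₂⟩
      (c₂.trans Finset.subset_union_left) ⟨_, rfl, ?_⟩⟩
    rwa [res_union (h'.tw.cl.has_finset.1 (h'.mem.1 d₁).1) d₂]

theorem o_inj {a b : Om} (ha : has T.K a) (hb : has T.K b) (h : T.o a = T.o b) : a = b :=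
  congrArg ULift.down (Gen.ord_inj wfO triO ((T.ord a).2 ha) ((T.ord b).2 hb) h)

theorem o_lt {a b : Om} (ha : has T.K a) (hb : has T.K b) : T.g.E (T.o a) (T.o b) ↔ a < b :=
  Gen.ord_lt_iff wfO triO ((T.ord a).2 ha) ((T.ord b).2 hb)

theorem E_w1 {x} : T.g.E x T.w1 ↔ ∃ a, has T.K a ∧ T.o a = x :=
  (Gen.E_setN wfO T.om).trans ⟨fun ⟨a, _, b, c⟩ => ⟨a.down, (T.ord _).1 b, c⟩,
    fun ⟨a, b, c⟩ => ⟨⟨a⟩, trivial, (T.ord _).2 b, c⟩⟩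

theorem E_o {x b} (hb : has T.K b) : T.g.E x (T.o b) ↔ ∃ a < b, has T.K a ∧ T.o a = x :=
  (Gen.E_ordN wfO ((T.ord b).2 hb)).trans ⟨fun ⟨a, b, c, d⟩ => ⟨a.down, b, (T.ord _).1 c, d⟩,
    fun ⟨a, b, c, d⟩ => ⟨⟨a⟩, b, (T.ord _).2 c, d⟩⟩

theorem exists_rN (i) {z} (hz : z ∈ T.K) : ∃ x : T.g.M, ∀ p, T.g.E p x ↔ ∃ a b, has T.K a ∧
    has T.K b ∧ (∃ q ∈ T.G, RR i z a b q) ∧ p = Gen.pr (T.o a) (T.o b) :=
  ⟨T.g.v (rN i z), fun _ => (Gen.E_relN (T.rel i z hz)).trans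
    ⟨fun ⟨x, a, b, c, d⟩ => ⟨_, _, (T.ord _).1 b, (T.ord _).1 c, ⟨_, ⟨_, a⟩, x.2⟩, d⟩,
      fun ⟨a, b, c, d, ⟨q, ⟨e, f⟩, h⟩, k⟩ =>
        ⟨⟨(a, b, ⟨q, e⟩), h⟩, f, (T.ord _).2 c, (T.ord _).2 d, k⟩⟩⟩

end Top

theorem modl : ∀ᶠ D in Fl, D.Countable → ∀ (T : Top D) ν, T.On ν → ∀ z ∈ T.K,
    ∃ (N : Set V) (δ : Om), Sub D (T.st ν) N δ ∧ z ∈ N ∧ has N ν := by
  filter_upwards [ev_n0, sub_node, pprime] with D n h₁ h₂ hD T ν h z hz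
  obtain ⟨q, a, N, b, c⟩ := Top.dens 1 (z := enc (z, ν)) (T.cl.has_pair.2 ⟨hz, h.hK⟩) T.om Top.emp fun q hq _ => by
    obtain ⟨N, a, b⟩ := exists_cn hD ((z, ν), q)
    exact ⟨_, hq.node n a (a.cl.has_pair.1 b).2, Finset.subset_union_right.trans sub_amF, N,
      sub_amF (by simp), (a.cl.has_pair.1 b).1⟩
  obtain ⟨p, p₁, p₂⟩ := id h
  obtain ⟨r, r₁, r₂, r₃⟩ := Top.dir a p₁
  have c' := ((Top.pp a).sc.cn b).cl.has_pair.1 c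
  exact ⟨N, _, h₁ ν (h₂ hD ν h.tg) _ _ (h.sit n) r (Top.hK r₁) (Top.pp r₁).sc (r₃ p₂)
    (Top.res_mem n r₁ (r₃ p₂)) N (r₂ b) c'.2, c'⟩

theorem FM.mono {τ : Name (P1 D)} {a b c c'} (h : FM τ a b c) (h' : c ⊆ c') (hc : PP D c') :
    FM τ a b c' := ⟨hc, h.2.mono h'⟩

theorem exists_tag {W : V} (hW : TW D W) {nm : V → V} {bb : V → V} {k2 : Bool} {sA : V}
    (h : ∀ P, k2 = true → nm P = Nm P ∧ (∀ z : V, z ⊆ (dtOf (nm P)).prod P → z ∈ bb P) ∧ Refl W) :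
    ∃ ν, Tg D ν ∧ ν.W = W ∧ ν.k2 = k2 ∧ ν.sA = sA := by
  refine ⟨⟨W, W.sep fun z => ∃ b, enc b = z ∧ PP D b, nm _, dtOf (nm _), bb _, k2, false, sA, ∅⟩,
    ⟨hW, ⟨(exists_dt _).choose_spec, h _⟩, (gt_iff hW).2 fun b => ?_⟩, rfl, rfl, rfl⟩
  rw [ZFSet.mem_sep]
  exact and_congr_right fun _ => ⟨fun ⟨_, e, a⟩ => Code.inj e ▸ a, fun a => ⟨b, rfl, a⟩⟩

theorem capt : ∀ᶠ D in Fl, D.Countable → ∀ (T : Top D) (x : T.g.M), ∃ ν, T.On ν ∧ ν.k2 = true ∧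
    ∀ a b : Om, has T.K a → has T.K b →
      ((a, b) ∈ (T.st ν).val ν.sA ↔ App T.g.E x (T.o a) (T.o b)) := by
  filter_upwards [ev_n0] with D n hD T x
  obtain ⟨τ, hτ, rfl⟩ := Gen.exists_v x
  obtain ⟨q, q₁, ν, ν', q₂, q₃, h⟩ := Top.dens 2 T.cl.emp hτ Top.emp fun q hq _ => by
    have : ∀ y : V, ∃ z : V, ∀ a b c, enc ((a, b), c) = y → PP D c →
        ∃ c', enc c' = z ∧ c ⊆ c' ∧ DecN τ a b c' := fun y => by
      by_cases e : ∃ a b c, enc (((a, b), c) : (Om × Om) × C) = y ∧ PP D c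
      · obtain ⟨a, b, c, rfl, e⟩ := e
        obtain ⟨c', e₁, e₂⟩ : ∃ c', c ⊆ c' ∧ DecN τ a b c' := by
          by_cases H : ∀ r, c ⊆ r → ¬ FM τ a b r
          · exact ⟨c, subset_rfl, e, Or.inr H⟩
          · push Not at H
            obtain ⟨r, a, b⟩ := H
            exact ⟨r, a, b.1, Or.inl b⟩
        refine ⟨enc c', fun a' b' c'' e' _ => ?_⟩
        cases Code.inj e'
        exact ⟨c', rfl, e₁, e₂⟩
      · exact ⟨∅, fun a b c e₁ e₂ => absurd ⟨a, b, c, e₁, e₂⟩ e⟩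
    choose F hF using this
    obtain ⟨W', a₁, a₂, a₃⟩ := exists_tw hD F (enc q)
    obtain ⟨ν', b₁, rfl, -, -⟩ := exists_tag a₁ (nm := fun _ => ∅) (bb := fun _ => ∅) (k2 := false)
      (sA := ∅) (by simp)
    have q₁ := hq.top n b₁ (a₁.cl.has_finset.1 a₂)
    obtain ⟨W, c₁, c₂, c₃⟩ := exists_refl hD (enc (insert (tr ν') q))
    obtain ⟨ν, d₁, rfl, d₂, d₃⟩ := exists_tag c₁ (nm := Nm)
      (bb := fun P => ((dtOf (Nm P)).prod P).powerset) (k2 := true)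
      (sA := ((allc (Om × Om)).prod ν'.P).sep fun z => ∃ a b c, enc ((a, b), c) = z ∧ FM τ a b c)
      fun P _ => ⟨rfl, fun _ => ZFSet.mem_powerset.2, c₃⟩
    refine ⟨_, q₁.top n d₁ (c₁.cl.has_finset.1 c₂), (Finset.subset_insert _ _).trans
      (Finset.subset_insert _ _), ν, ν', by simp, by simp, d₂,
      c₁.cl.has_tr.1 (c₁.cl.has_finset.1 c₂ _ (by simp)), fun a b c e => ?_, fun a b c => ?_⟩
    · obtain ⟨e₁, e₂⟩ := b₁.mem.1 e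
      obtain ⟨c', f₁, f₂, f₃⟩ := hF _ a b c rfl e₂
      refine ⟨c', b₁.mem.2 ⟨?_, f₃.1⟩, f₂, f₃⟩
      unfold has
      rw [f₁]
      exact a₃ _ (a₁.cl.has_pair.2 ⟨a₁.cl.has_pair.2 ⟨n.has_om a₁ a, n.has_om a₁ b⟩, e₁⟩)
    · rw [d₃, ZFSet.mem_sep]
      refine and_congr (ZFSet.pair_mem_prod.trans (and_iff_right (enc_mem_allc _)))
        ⟨fun ⟨_, _, _, e, f⟩ => ?_, fun f => ⟨a, b, c, rfl, f⟩⟩
      cases Code.inj e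
      exact f
  have hν : T.On ν := ⟨q, q₁, q₂⟩
  have hν' : T.On ν' := ⟨q, q₁, q₃⟩
  refine ⟨ν, hν, h.k2, fun a b ha hb => ?_⟩
  have hN := Gen.pairN_mem_iff.2 ⟨(T.ord a).2 ha, (T.ord b).2 hb⟩
  rw [Gen.app_iff, Top.o, Top.o, ← Gen.v_pairN ((T.ord a).2 ha) ((T.ord b).2 hb),
    Gen.v_mem_iff hN hτ]
  constructor
  · rintro ⟨-, c, ⟨⟨c₁, c₂⟩, -⟩, c₃⟩
    exact ⟨_, c₂, ((h.iff a b c).1 c₃).2.2⟩
  · rintro ⟨p, p₁, p₂⟩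
    obtain ⟨r, r₁, y, e, r₂⟩ := Top.dens 3 (z := enc (ν'.W, a, b)) (T.cl.has_pair.2
      ⟨(T.cl.has_tag.1 hν'.hK).1, T.cl.has_pair.2 ⟨ha, hb⟩⟩) hτ q₁ fun r r₁ r₂ => by
      obtain ⟨u, u₁, u₂, u₃⟩ := h.dec a b _ (r₁.res_mem n (r₂ q₃))
      refine ⟨_, r₁.union n (r₂ q₃) u₁ u₂, Finset.subset_union_left, _, rfl, ?_⟩
      rwa [res_union (hν'.tg.tw.cl.has_finset.1 (hν'.tg.mem.1 u₁).1) u₂]
    obtain rfl := Code.inj e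
    have hW : has (ν'.W : Set V) (res ν'.W r) :=
      hν'.tg.tw.cl.has_finset.2 fun _ a => (mem_res.1 a).2
    have hG := Top.up r₁ (fun _ a => (mem_res.1 a).1) r₂.1
    rcases r₂.2 with f | f
    · exact ⟨T.cl.has_pair.2 ⟨ha, hb⟩, _, ⟨hG, hν.tg.tw.has_sub h.mem hW⟩,
        (h.iff a b _).2 ⟨hν'.tg.mem.2 ⟨hW, r₂.1⟩, f⟩⟩
    · obtain ⟨t, t₁, t₂, t₃⟩ := Top.dir hG ⟨p.2, p₁⟩
      exact absurd (FM.mono ⟨p.2, p₂⟩ t₃ (Top.pp t₁)) (f t t₂)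

end Pool.Agent.MP_656653_lc
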