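import Pool.Agent.MP_656653_lc.Frc

/-! Tuples of nodes, matching, null families, good tuples. -/

set_option synthInstance.maxSize 1000000

namespace Pool.Agent.MP_656653_lc

open Set Filter

section R

variable (r : Om → Om → Prop)

def agA (γ a a' : Om) : Prop := a = a' ∨ (γ ≤ a ∧ γ ≤ a' ∧ ∀ ξ < γ, (r a ξ ↔ r a' ξ))

def peq (γ : Om) (p q : Pt) : Prop := agA r γ p.1 q.1 ∧ U.ag γ p.2 q.2
def psp (γ : Om) (p q : Pt) : Prop := ¬ agA r γ p.1 q.1 ∧ ¬ U.ag γ p.2 q.2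
def pmt (γ : Om) (p q : Pt) : Prop := psp r γ p q ∧ (r p.1 q.1 ↔ p.2 < q.2)

noncomputable def d0 : Pt := (⊥, (U.exists_ht ⊥).choose)
theorem d0_ht : d0.2.ht = ⊥ := (U.exists_ht ⊥).choose_spec.choose_spec.1
noncomputable def nt (x : List Pt) (i : ℕ) : Pt := x.getD i d0
noncomputable def pj (I : List ℕ) (z : List Pt) : List Pt := I.map (nt z)

def All2 (R : Pt → Pt → Prop) (x y : List Pt) : Prop :=
  x.length = y.length ∧ ∀ i < x.length, R (nt x i) (nt y i)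

def eqv (γ : Om) (x y : List Pt) : Prop := All2 (peq r γ) x y
def spl (γ : Om) (x y : List Pt) : Prop := All2 (psp r γ) x y
def mat (γ : Om) (x y : List Pt) : Prop := All2 (pmt r γ) x y

def ppr (γ : Om) (p : Pt) : Prop := γ ≤ p.1 ∧ γ ≤ p.2.ht
def pbl (γ : Om) (p : Pt) : Prop := p.1 < γ ∧ p.2.ht < γ
def prp (x : X) : Prop := ∀ p ∈ x.1, ppr x.2 p

def OK (φ : Bool) (x y : X) : Prop :=
  spl r (min x.2 y.2) x.1 y.1 ∧ ¬ (φ = true ∧ mat r (min x.2 y.2) x.1 y.1)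

def inS (T : Set X) (x : List Pt) (γ : Om) : Prop := ∃ y, y ∈ T ∧ y.2 = γ ∧ eqv r γ x y.1

variable {r}

theorem nt_mem {x : List Pt} {i : ℕ} (h : i < x.length) : nt x i ∈ x := by
  unfold nt
  rw [List.getD_eq_getElem _ _ h]
  exact List.getElem_mem h

theorem exists_nt {x : List Pt} {p : Pt} (h : p ∈ x) : ∃ i < x.length, nt x i = p := by
  obtain ⟨i, hi, rfl⟩ := List.getElem_of_mem h
  exact ⟨i, hi, List.getD_eq_getElem _ _ hi⟩

theorem nt_map {α : Type*} (f : α → Pt) (l : List α) {i : ℕ} (h : i < l.length) :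
    nt (l.map f) i = f l[i] := by
  unfold nt
  rw [List.getD_eq_getElem _ _ (by simpa using h), List.getElem_map]

theorem nt_append_left {x y : List Pt} {i : ℕ} (h : i < x.length) : nt (x ++ y) i = nt x i :=
  List.getD_append _ _ _ _ h

theorem nt_append_right (x y : List Pt) (i : ℕ) : nt (x ++ y) (x.length + i) = nt y i := by
  unfold nt
  rw [List.getD_append_right _ _ _ _ (by omega)]
  simp

theorem all2_map {α : Type*} {R : Pt → Pt → Prop} (f g : α → Pt) (l : List α) :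
    All2 R (l.map f) (l.map g) ↔ ∀ a ∈ l, R (f a) (g a) := by
  simp only [All2, List.length_map, true_and]
  constructor
  · intro h a ha
    obtain ⟨i, hi, rfl⟩ := List.getElem_of_mem ha
    have := h i hi
    rwa [nt_map _ _ hi, nt_map _ _ hi] at this
  · intro h i hi
    rw [nt_map _ _ hi, nt_map _ _ hi]
    exact h _ (List.getElem_mem hi)

theorem all2_pj {R : Pt → Pt → Prop} {I : List ℕ} {z z' : List Pt} :
    All2 R (pj I z) (pj I z') ↔ ∀ i ∈ I, R (nt z i) (nt z' i) := all2_map _ _ _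

theorem pj_range (z : List Pt) : pj (List.range z.length) z = z := by
  refine List.ext_getElem (by simp [pj]) fun i h₁ h₂ => ?_
  simp [pj, nt, h₂]

theorem All2.imp {R R' : Pt → Pt → Prop} {x y : List Pt} (h : All2 R x y)
    (H : ∀ p q, R p q → R' p q) : All2 R' x y := ⟨h.1, fun i hi => H _ _ (h.2 i hi)⟩

theorem All2.nt {R : Pt → Pt → Prop} {x y : List Pt} (h : All2 R x y) (h0 : R d0 d0) (i : ℕ) :
    R (nt x i) (nt y i) := by
  rcases lt_or_ge i x.length with hi | hi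
  · exact h.2 i hi
  · unfold Pool.Agent.MP_656653_lc.nt
    rwa [List.getD_eq_default _ _ hi, List.getD_eq_default _ _ (h.1 ▸ hi)]

theorem All2.left {R : Pt → Pt → Prop} {x y : List Pt} (h : All2 R x y) {p} (hp : p ∈ x) :
    ∃ q ∈ y, R p q := by
  obtain ⟨i, hi, rfl⟩ := exists_nt hp
  exact ⟨_, nt_mem (h.1 ▸ hi), h.2 i hi⟩

theorem All2.right {R : Pt → Pt → Prop} {x y : List Pt} (h : All2 R x y) {q} (hq : q ∈ y) :
    ∃ p ∈ x, R p q := by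
  obtain ⟨i, hi, rfl⟩ := exists_nt hq
  exact ⟨_, nt_mem (h.1 ▸ hi), h.2 i (h.1 ▸ hi)⟩

theorem exists_all2 {R : Pt → Pt → Prop} {Q : Pt → Prop} {x : List Pt}
    (h : ∀ p ∈ x, ∃ q, Q q ∧ R p q) : ∃ y, (∀ q ∈ y, Q q) ∧ All2 R x y := by
  choose! f h₁ h₂ using h
  refine ⟨x.map f, List.forall_mem_map.2 h₁, ?_⟩
  have := (all2_map (R := R) id f x).2 h₂
  rwa [List.map_id] at this

theorem agA.refl (γ a : Om) : agA r γ a a := Or.inl rfl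

theorem agA.symm {γ a b : Om} (h : agA r γ a b) : agA r γ b a :=
  h.imp Eq.symm fun h => ⟨h.2.1, h.1, fun ξ hξ => (h.2.2 ξ hξ).symm⟩

theorem agA.trans {γ a b c : Om} (h : agA r γ a b) (h' : agA r γ b c) : agA r γ a c := by
  rcases h with rfl | h
  · exact h'
  rcases h' with rfl | h'
  · exact Or.inr h
  exact Or.inr ⟨h.1, h'.2.1, fun ξ hξ => (h.2.2 ξ hξ).trans (h'.2.2 ξ hξ)⟩

theorem agA.mono {γ γ' a b : Om} (h : agA r γ a b) (h' : γ' ≤ γ) : agA r γ' a b :=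
  h.imp id fun h => ⟨h'.trans h.1, h'.trans h.2.1, fun ξ hξ => h.2.2 ξ (hξ.trans_le h')⟩

theorem agA.alone {γ a b : Om} (h : agA r γ a b) (ha : a < γ) : a = b :=
  h.resolve_right fun h => ha.not_ge h.1

theorem agA.le {γ a b : Om} (h : agA r γ a b) (ha : γ ≤ a) : γ ≤ b := by
  rcases h with rfl | h
  exacts [ha, h.2.1]

theorem agA_bot (a b : Om) : agA r ⊥ a b :=
  Or.inr ⟨bot_le, bot_le, fun _ h => absurd h not_lt_bot⟩

theorem agA_lim {δ a b : Om} (hδ : Lim δ) (h : ∀ γ < δ, agA r γ a b) : agA r δ a b := by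
  by_cases e : a = b
  · exact Or.inl e
  have key : ∀ c, (∀ γ < δ, γ ≤ c) → δ ≤ c := fun c H => not_lt.1 fun hc => by
    obtain ⟨γ, h₁, h₂⟩ := hδ.2 c hc
    exact (H γ h₂).not_gt h₁
  refine Or.inr ⟨key a fun γ hγ => ((h γ hγ).resolve_left e).1,
    key b fun γ hγ => ((h γ hγ).resolve_left e).2.1, fun ξ hξ => ?_⟩
  obtain ⟨γ, h₁, h₂⟩ := hδ.2 ξ hξ
  exact ((h γ h₂).resolve_left e).2.2 ξ h₁

theorem peq.refl (γ : Om) (p : Pt) : peq r γ p p := ⟨agA.refl _ _, U.ag.refl _ _⟩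
theorem peq.symm {γ p q} (h : peq r γ p q) : peq r γ q p := ⟨h.1.symm, h.2.symm⟩
theorem peq.trans {γ p q t} (h : peq r γ p q) (h' : peq r γ q t) : peq r γ p t :=
  ⟨h.1.trans h'.1, h.2.trans h'.2⟩
theorem peq.mono {γ γ' p q} (h : peq r γ p q) (h' : γ' ≤ γ) : peq r γ' p q :=
  ⟨h.1.mono h', h.2.mono h'⟩
theorem peq.ppr {γ p q} (h : peq r γ p q) (h' : ppr γ p) : ppr γ q :=
  ⟨h.1.le h'.1, U.le_ht h.2 h'.2⟩
theorem psp.symm {γ p q} (h : psp r γ p q) : psp r γ q p :=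
  ⟨fun H => h.1 H.symm, fun H => h.2 H.symm⟩
theorem psp.mono {γ γ' p q} (h : psp r γ p q) (h' : γ ≤ γ') : psp r γ' p q :=
  ⟨fun H => h.1 (H.mono h'), fun H => h.2 (H.mono h')⟩
theorem psp.congr {γ p q p' q'} (h : psp r γ p q) (hp : peq r γ p p') (hq : peq r γ q q') :
    psp r γ p' q' :=
  ⟨fun H => h.1 (hp.1.trans (H.trans hq.1.symm)), fun H => h.2 (hp.2.trans (H.trans hq.2.symm))⟩
theorem pmt.mono {γ γ' p q} (h : pmt r γ p q) (h' : γ ≤ γ') : pmt r γ' p q := ⟨h.1.mono h', h.2⟩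
theorem ppr.mono {γ γ' p} (h : ppr γ p) (h' : γ' ≤ γ) : ppr γ' p := ⟨h'.trans h.1, h'.trans h.2⟩
theorem pbl.mono {γ γ' p} (h : pbl γ p) (h' : γ ≤ γ') : pbl γ' p :=
  ⟨h.1.trans_le h', h.2.trans_le h'⟩

theorem eqv.refl (γ : Om) (x : List Pt) : eqv r γ x x := ⟨rfl, fun _ _ => peq.refl _ _⟩
theorem eqv.symm {γ x y} (h : eqv r γ x y) : eqv r γ y x :=
  ⟨h.1.symm, fun i hi => (h.2 i (h.1 ▸ hi)).symm⟩
theorem eqv.trans {γ x y z} (h : eqv r γ x y) (h' : eqv r γ y z) : eqv r γ x z :=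
  ⟨h.1.trans h'.1, fun i hi => (h.2 i hi).trans (h'.2 i (h.1 ▸ hi))⟩
theorem eqv.mono {γ γ' x y} (h : eqv r γ x y) (h' : γ' ≤ γ) : eqv r γ' x y :=
  h.imp fun _ _ H => H.mono h'
theorem eqv.nt {γ x y} (h : eqv r γ x y) (i : ℕ) : peq r γ (nt x i) (nt y i) :=
  All2.nt h (peq.refl _ _) i
theorem eqv.pj {γ x y} (h : eqv r γ x y) (I : List ℕ) : eqv r γ (pj I x) (pj I y) :=
  all2_pj.2 fun i _ => h.nt i
theorem eqv.prp {γ x y} (h : eqv r γ x y) (h' : prp (x, γ)) : prp (y, γ) := fun q hq => by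
  obtain ⟨p, hp, H⟩ := All2.right h hq
  exact H.ppr (h' p hp)
theorem spl.symm {γ x y} (h : spl r γ x y) : spl r γ y x :=
  ⟨h.1.symm, fun i hi => (h.2 i (h.1 ▸ hi)).symm⟩
theorem spl.mono {γ γ' x y} (h : spl r γ x y) (h' : γ ≤ γ') : spl r γ' x y :=
  h.imp fun _ _ H => H.mono h'
theorem spl.congr {γ x y x' y'} (h : spl r γ x y) (hx : eqv r γ x x') (hy : eqv r γ y y') :
    spl r γ x' y' :=
  ⟨hx.1.symm.trans (h.1.trans hy.1), fun i hi =>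
    (h.2 i (hx.1 ▸ hi)).congr (hx.nt i) (hy.nt i)⟩
theorem mat.mono {γ γ' x y} (h : mat r γ x y) (h' : γ ≤ γ') : mat r γ' x y :=
  h.imp fun _ _ H => H.mono h'
theorem mat.of_spl {γ γ' x y} (h : mat r γ x y) (h' : spl r γ' x y) : mat r γ' x y :=
  ⟨h.1, fun i hi => ⟨h'.2 i hi, (h.2 i hi).2⟩⟩
theorem prp.mono {x γ γ'} (h : prp (x, γ)) (h' : γ' ≤ γ) : prp (x, γ') :=
  fun p hp => (h p hp).mono h'
theorem inS.congr {T x y γ} (h : inS r T x γ) (h' : eqv r γ x y) : inS r T y γ := by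
  obtain ⟨z, h₁, h₂, h₃⟩ := h
  exact ⟨z, h₁, h₂, h'.symm.trans h₃⟩

theorem psp_lim {δ p q} (hδ : Lim δ) (h : psp r δ p q) : ∃ β < δ, psp r β p q := by
  obtain ⟨β₁, h₁, h₂⟩ : ∃ β < δ, ¬ agA r β p.1 q.1 := by
    by_contra hc
    push Not at hc
    exact h.1 (agA_lim hδ hc)
  obtain ⟨β₂, h₃, h₄⟩ : ∃ β < δ, ¬ U.ag β p.2 q.2 := by
    by_contra hc
    push Not at hc
    exact h.2 (U.ag_lim hδ hc)
  exact ⟨max β₁ β₂, max_lt h₁ h₃, fun H => h₂ (H.mono (le_max_left _ _)),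
    fun H => h₄ (H.mono (le_max_right _ _))⟩

theorem spl_lim {δ x y} (hδ : Lim δ) (h : spl r δ x y) : ∃ β < δ, spl r β x y := by
  obtain ⟨β, h₁, h₂⟩ := hδ.ev (finite_Iio x.length) (Q := fun i β => psp r β (nt x i) (nt y i))
    (fun _ _ _ h H => H.mono h) fun i hi => psp_lim hδ (h.2 i hi)
  exact ⟨β, h₁, h.1, h₂⟩

variable [IsStrictTotalOrder Om r]

theorem r_tri (a b : Om) : r a b ∨ a = b ∨ r b a := trichotomous_of r a b
theorem r_asymm {a b : Om} (h : r a b) : ¬ r b a := asymm_of r h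
theorem r_irr (a : Om) : ¬ r a a := irrefl_of r a
theorem r_trans {a b c : Om} (h : r a b) (h' : r b c) : r a c := trans_of r h h'

theorem agA.convex {γ a b c : Om} (h : agA r γ a c) (h₁ : r a b) (h₂ : r b c) : agA r γ a b := by
  rcases h with rfl | h
  · exact absurd h₂ (r_asymm h₁)
  have hb : γ ≤ b := not_lt.1 fun hb => r_asymm h₂ ((h.2.2 b hb).1 h₁)
  exact Or.inr ⟨h.1, hb, fun ξ hξ => ⟨fun H => r_trans h₂ ((h.2.2 ξ hξ).1 H), r_trans h₁⟩⟩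

theorem r_of_ag {γ a b a' b' : Om} (h : r a b) (h' : ¬ agA r γ a b) (ha : agA r γ a a')
    (hb : agA r γ b b') : r a' b' := by
  have h₁ : r a' b := by
    rcases r_tri (r := r) a' b with H | rfl | H
    exacts [H, absurd ha h', absurd (ha.convex h H) h']
  rcases r_tri (r := r) a' b' with H | rfl | H
  · exact H
  · exact absurd (ha.trans hb.symm) h'
  · exact absurd (ha.trans ((hb.symm.convex H h₁).symm.trans hb.symm)) h'

theorem psp.r_or {γ p q} (h : psp r γ p q) : r p.1 q.1 ∨ r q.1 p.1 := by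
  rcases r_tri (r := r) p.1 q.1 with H | H | H
  exacts [Or.inl H, absurd (Or.inl H) h.1, Or.inr H]

omit [IsStrictTotalOrder Om r] in
theorem psp.lt_or {γ p q} (h : psp r γ p q) : p.2 < q.2 ∨ q.2 < p.2 :=
  lt_or_gt_of_ne fun e => h.2 (e ▸ U.ag.refl _ _)

theorem pmt.symm {γ p q} (h : pmt r γ p q) : pmt r γ q p := by
  refine ⟨h.1.symm, fun H => ?_, fun H => ?_⟩
  · exact h.1.lt_or.resolve_left fun H' => r_asymm H (h.2.2 H')
  · exact h.1.r_or.resolve_left fun H' => H.asymm (h.2.1 H')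

theorem pmt.congr {γ p q p' q'} (h : pmt r γ p q) (hp : peq r γ p p') (hq : peq r γ q q') :
    pmt r γ p' q' := by
  refine ⟨h.1.congr hp hq, fun H => ?_, fun H => ?_⟩
  · exact U.lt_of_ag (h.2.1 (r_of_ag H (h.1.congr hp hq).1 hp.1.symm hq.1.symm)) h.1.2 hp.2 hq.2
  · exact r_of_ag (h.2.2 (U.lt_of_ag H (h.1.congr hp hq).2 hp.2.symm hq.2.symm)) h.1.1 hp.1 hq.1

theorem mat.symm {γ x y} (h : mat r γ x y) : mat r γ y x :=
  ⟨h.1.symm, fun i hi => (h.2 i (h.1 ▸ hi)).symm⟩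

theorem mat.congr {γ x y x' y'} (h : mat r γ x y) (hx : eqv r γ x x') (hy : eqv r γ y y') :
    mat r γ x' y' :=
  ⟨hx.1.symm.trans (h.1.trans hy.1), fun i hi =>
    (h.2 i (hx.1 ▸ hi)).congr (hx.nt i) (hy.nt i)⟩

theorem OK.symm {φ x y} (h : OK r φ x y) : OK r φ y x := by
  unfold OK at h ⊢
  rw [min_comm]
  exact ⟨h.1.symm, fun H => h.2 ⟨H.1, H.2.symm⟩⟩

end R

namespace St

variable (s : St) (σ : V)

def Lin : Prop := ∀ a : Om, has s.K a → ∀ b : Om, has s.K b → ∀ c : Om, has s.K c →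
  ¬ (a, a) ∈ s.val σ ∧ ((a, b) ∈ s.val σ → (b, c) ∈ s.val σ → (a, c) ∈ s.val σ) ∧
    ((a, b) ∈ s.val σ ∨ a = b ∨ (b, a) ∈ s.val σ)

/-- The named order, extended to a total order. -/
def r (a b : Om) : Prop :=
  (has s.K a ∧ has s.K b ∧ ((s.Lin σ ∧ (a, b) ∈ s.val σ) ∨ (¬ s.Lin σ ∧ a < b))) ∨
    (¬ has s.K b ∧ (has s.K a ∨ a < b))

instance : IsStrictTotalOrder Om (s.r σ) where
  trichotomous a b h₁ h₂ := by
    by_contra hne
    unfold r at h₁ h₂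
    by_cases ha : has s.K a <;> by_cases hb : has s.K b <;> by_cases hl : s.Lin σ
    · have := (hl a ha b hb a ha).2.2
      tauto
    all_goals have := lt_trichotomy a b; tauto
  irrefl a h := by
    rcases h with ⟨ha, -, ⟨hl, h⟩ | h⟩ | ⟨ha, h | h⟩
    exacts [(hl a ha a ha a ha).1 h, lt_irrefl _ h.2, ha h, lt_irrefl _ h]
  trans a b c h₁ h₂ := by
    rcases h₁ with ⟨ha, hb, h₁⟩ | ⟨hb, h₁⟩
    · rcases h₂ with ⟨-, hc, h₂⟩ | ⟨hc, -⟩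
      · refine Or.inl ⟨ha, hc, ?_⟩
        rcases h₁ with h₁ | h₁ <;> rcases h₂ with h₂ | h₂
        exacts [Or.inl ⟨h₁.1, (h₁.1 a ha b hb c hc).2.1 h₁.2 h₂.2⟩, absurd h₁.1 h₂.1,
          absurd h₂.1 h₁.1, Or.inr ⟨h₁.1, h₁.2.trans h₂.2⟩]
      · exact Or.inr ⟨hc, Or.inl ha⟩
    · rcases h₂ with ⟨hb', -⟩ | ⟨hc, h₂⟩
      · exact absurd hb' hb
      · exact Or.inr ⟨hc, h₁.imp id fun h => h.trans (h₂.resolve_left hb)⟩

def Unb (S : Set X) : Prop := ∀ β : Om, has s.K β → ∃ x, x ∈ S ∧ β ≤ x.2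

def Null (T : Set X) : Prop :=
  ∀ τ, s.nam τ → (∀ x, x ∈ s.val τ → x ∈ T) → s.Unb (s.val τ) →
    ∃ τ', s.nam τ' ∧ (∀ x : X, x ∈ s.val τ' → x ∈ s.val τ) ∧ s.Unb (s.val τ') ∧
      ∀ x : X, x ∈ s.val τ' → ∀ y : X, y ∈ s.val τ' → x.2 ≠ y.2 →
        ¬ mat (s.r σ) (min x.2 y.2) x.1 y.1

def Good (τ : Om × V) (Q : Set Pt) : Prop :=
  ∀ x : List Pt, has s.K x → (∀ p ∈ x, p ∈ Q) → ∀ ρ, s.inn τ.2 ρ → s.Null σ (s.val ρ) →
    ∀ β < τ.1, ∃ γ, γ < τ.1 ∧ β ≤ γ ∧ ¬ inS (s.r σ) (s.val ρ) x γ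

def LL : Prop := ∀ γ : Om, has s.K γ → ∃ β : Om, has s.K β ∧ ∀ a : Om, has s.K a →
  ∃ a', a' < β ∧ agA (s.r σ) γ a a'

def NB : Prop := ∀ τ, s.nam τ → s.Unb (s.val τ) → ∀ i : ℕ, has s.K i →
  (∀ x : X, x ∈ s.val τ → x.2 ≤ (nt x.1 i).1) →
  ∃ x : X, x ∈ s.val τ ∧ ∃ y : X, y ∈ s.val τ ∧
    ¬ agA (s.r σ) (min x.2 y.2) (nt x.1 i).1 (nt y.1 i).1

def Nice : Prop := s.LL σ ∧ s.NB σ

def Large (φ : Bool) (F Z : Set X) (Is : List (List ℕ)) : Prop :=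
  (∀ γ : Om, has s.K γ → ∃ z, z ∈ Z ∧ z.2 = γ) ∧
  (∀ z, z ∈ Z → ∀ γ ≤ z.2, (z.1, γ) ∈ Z) ∧ (∀ z, z ∈ Z → prp z) ∧
  (∀ z, z ∈ Z → ∀ z', z' ∈ Z → z.2 = z'.2 → spl (s.r σ) z.2 z.1 z'.1 →
    φ = true ∧ ∃ I, I ∈ Is ∧ mat (s.r σ) z.2 (pj I z.1) (pj I z'.1)) ∧
  ∀ z, z ∈ Z → ∀ I ∈ Is, ∃ x, x ∈ F ∧ z.2 ≤ x.2 ∧ eqv (s.r σ) z.2 (pj I z.1) x.1

def Dich : Prop := ∀ F, s.Adm s.K F → s.Unb F → (∀ x ∈ F, prp x) → ∀ φ : Bool,
  (∃ F', s.Adm s.K F' ∧ F' ⊆ F ∧ s.Unb F' ∧ ∀ x ∈ F', ∀ y ∈ F', x.2 ≠ y.2 → OK (s.r σ) φ x y) ∨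
    (φ = true ∧ ∃ Z, s.Adm s.K Z ∧ ∃ Is, s.Large σ true F Z Is)

def LoA (δ a : Om) : Prop := ∀ a' : Om, has s.K a' → agA (s.r σ) δ a a' → ¬ s.r σ a' a
def HiA (δ a : Om) : Prop := ∀ a' : Om, has s.K a' → agA (s.r σ) δ a a' → ¬ s.r σ a a'

variable {s σ}

theorem null_iff {T : Set X} : s.Null σ T ↔ ∀ F, s.Adm s.K F → F ⊆ T → s.Unb F →
    ∃ F', s.Adm s.K F' ∧ F' ⊆ F ∧ s.Unb F' ∧
      ∀ x ∈ F', ∀ y ∈ F', x.2 ≠ y.2 → ¬ mat (s.r σ) (min x.2 y.2) x.1 y.1 := by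
  constructor
  · rintro h F ⟨τ, -, h₁, rfl⟩ h₂ h₃
    obtain ⟨τ', h₄, h₅⟩ := h τ h₁ h₂ h₃
    exact ⟨_, ⟨τ', h₄.1, h₄, rfl⟩, h₅⟩
  · intro h τ h₁ h₂ h₃
    obtain ⟨_, ⟨τ', -, h₄, rfl⟩, h₅⟩ := h _ ⟨τ, h₁.1, h₁, rfl⟩ h₂ h₃
    exact ⟨τ', h₄, h₅⟩

theorem NB.adm (h : s.NB σ) {D} (hs : Sit D s) {F} (hF : s.Adm s.K F) (hu : s.Unb F) (i : ℕ)
    (hp : ∀ x ∈ F, x.2 ≤ (nt x.1 i).1) :
    ∃ x ∈ F, ∃ y ∈ F, ¬ agA (s.r σ) (min x.2 y.2) (nt x.1 i).1 (nt y.1 i).1 := by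
  obtain ⟨τ, -, h₁, rfl⟩ := hF
  exact h τ h₁ hu i (hs.cl.has_nat i) hp

/-- The trace `τ` comes from the model `N`. -/
structure IsTr (s : St) (τ : Om × V) (N : Set V) : Prop where
  sub : N ⊆ s.K
  iff : ∀ ρ, ρ ∈ τ.2 ↔ ρ ∈ N ∧ ρ ∈ Nm s.P

theorem good_iff {τ N Q} (h : s.IsTr τ N) : s.Good σ τ Q ↔ ∀ x : List Pt, has s.K x →
    (∀ p ∈ x, p ∈ Q) → ∀ T, s.Adm N T → s.Null σ T →
      ∀ β < τ.1, ∃ γ, γ < τ.1 ∧ β ≤ γ ∧ ¬ inS (s.r σ) T x γ := by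
  refine forall₃_congr fun x _ _ => ⟨?_, fun H ρ hρ => ?_⟩
  · rintro H _ ⟨ρ, h₁, h₂, rfl⟩
    exact H ρ ⟨h₂.1, (h.iff ρ).2 ⟨h₁, h₂.2⟩⟩
  · exact H _ ⟨ρ, ((h.iff ρ).1 hρ.2).1, ⟨hρ.1, ((h.iff ρ).1 hρ.2).2⟩, rfl⟩

theorem Good.congr {D} (hs : Sit D s) {τ Q Q'} (h : s.Good σ τ Q) (hQ : ∀ q ∈ Q, has s.K q)
    (H : ∀ p ∈ Q', ∃ q ∈ Q, peq (s.r σ) τ.1 p q) : s.Good σ τ Q' := by
  intro x _ hx ρ h₁ h₂ β hβ
  obtain ⟨y, h₃, h₄⟩ := exists_all2 (R := peq (s.r σ) τ.1) (Q := (· ∈ Q))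
    fun p hp => H p (hx p hp)
  obtain ⟨γ, h₅, h₆, h₇⟩ := h y (hs.cl.has_list.2 fun q hq => hQ q (h₃ q hq)) h₃ ρ h₁ h₂ β hβ
  exact ⟨γ, h₅, h₆, fun H => h₇ (H.congr (eqv.mono h₄ h₅.le))⟩

end St

def LoU (δ : Om) (t : U) : Prop := ∀ u, U.ag δ t u → ¬ u < t
def HiU (δ : Om) (t : U) : Prop := ∀ u, U.ag δ t u → ¬ t < u

section D

variable {α : Type*} [Code α]

instance (σ : α → V) : Def (fun s a => s.Lin (σ a)) := by unfold St.Lin; infer_instance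

instance (σ : α → V) (f g : α → Om) : Def (fun s a => s.r (σ a) (f a) (g a)) := by
  unfold St.r; infer_instance

instance (σ : α → V) (γ f g : α → Om) : Def (fun s a => agA (s.r (σ a)) (γ a) (f a) (g a)) := by
  unfold agA; infer_instance

instance (σ : α → V) (γ : α → Om) (f g : α → Pt) :
    Def (fun s a => peq (s.r (σ a)) (γ a) (f a) (g a)) := by unfold peq; infer_instance

instance (σ : α → V) (γ : α → Om) (f g : α → Pt) :
    Def (fun s a => psp (s.r (σ a)) (γ a) (f a) (g a)) := by unfold psp; infer_instance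

instance (σ : α → V) (γ : α → Om) (f g : α → Pt) :
    Def (fun s a => pmt (s.r (σ a)) (γ a) (f a) (g a)) := by unfold pmt; infer_instance

instance (σ : α → V) (γ : α → Om) (f g : α → List Pt) :
    Def (fun s a => eqv (s.r (σ a)) (γ a) (f a) (g a)) := by unfold eqv All2; infer_instance

instance (σ : α → V) (γ : α → Om) (f g : α → List Pt) :
    Def (fun s a => spl (s.r (σ a)) (γ a) (f a) (g a)) := by unfold spl All2; infer_instance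

instance (σ : α → V) (γ : α → Om) (f g : α → List Pt) :
    Def (fun s a => mat (s.r (σ a)) (γ a) (f a) (g a)) := by unfold mat All2; infer_instance

instance (σ : α → V) (φ : α → Bool) (f g : α → X) :
    Def (fun s a => OK (s.r (σ a)) (φ a) (f a) (g a)) := by unfold OK; infer_instance

instance (σ τ : α → V) [Cf τ] (γ : α → Om) (f : α → List Pt) :
    Def (fun s a => inS (s.r (σ a)) (s.val (τ a)) (f a) (γ a)) := by unfold inS; infer_instance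

instance (τ : α → V) [Cf τ] : Def (fun s a => s.Unb (s.val (τ a))) := by
  have := Cf.comp τ (fun x : α × Om => x.1)
  unfold St.Unb; infer_instance

instance (σ τ : α → V) : Def (fun s a => s.Null (σ a) (s.val (τ a))) := by
  unfold St.Null; infer_instance

instance (σ : α → V) (τ : α → Om × V) [Cf τ] (Q : α → Set Pt) :
    Def (fun s a => s.Good (σ a) (τ a) (Q a)) := by
  have := Cf.comp τ (fun x : α × List Pt => x.1)
  unfold St.Good; infer_instance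

instance (σ : α → V) : Def (fun s a => s.Nice (σ a)) := by
  unfold St.Nice St.LL St.NB; infer_instance

instance (σ F Z : α → V) [Cf F] [Cf Z] (φ : α → Bool) (Is : α → List (List ℕ)) :
    Def (fun s a => s.Large (σ a) (φ a) (s.val (F a)) (s.val (Z a)) (Is a)) := by
  have := Cf.comp Z (fun x : α × Om => x.1)
  have := Cf.comp Z (fun x : α × X => x.1)
  have := Cf.comp F (fun x : (α × X) × List ℕ => x.1.1)
  unfold St.Large; infer_instance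

instance (σ : α → V) (δ f : α → Om) : Def (fun s a => s.LoA (σ a) (δ a) (f a)) := by
  unfold St.LoA; infer_instance

instance (σ : α → V) (δ f : α → Om) : Def (fun s a => s.HiA (σ a) (δ a) (f a)) := by
  unfold St.HiA; infer_instance

end D

end Pool.Agent.MP_656653_lc
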