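import Pool.Agent.MP_656653_lc.Om

/-! The target line. -/

namespace Pool.Agent.MP_656653_lc

open Set

open Classical in
noncomputable def sg : List (Om × Bool) → Om → Bool
  | [], _ => true
  | e :: l, ξ => if e.1 ≤ ξ then e.2 else sg l ξ

open Classical in
noncomputable def mag (γ : Om) (fl : Bool) (ξ : Om) : ℕ :=
  2 * co γ ξ + 1 + (if fl = true ∧ ξ ∈ lad γ then 1 else 0)

noncomputable def can (γ : Om) (l : List (Om × Bool)) (fl : Bool) (ξ : Om) : ℝ :=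
  (if sg l ξ = true then 1 else -1) / (mag γ fl ξ : ℝ)

def Fm (γ : Om) (fl : Bool) (t : Om → ℝ) : Prop :=
  ∃ l, {ξ | ξ < γ ∧ t ξ ≠ can γ l fl ξ}.Finite

def Cont (x : ℝ) : Prop := (∃ q : ℚ, x = q) ∧ |x| < 2

def Term (x : ℝ) : Prop := x = -2 ∨ x = 2 ∨ ((∃ q : ℚ, x = q + √2) ∧ |x| < 2)

def IsU (t : Om → ℝ) (h : Om) : Prop :=
  (∀ ξ < h, Cont (t ξ)) ∧ Term (t h) ∧ (∀ ξ, h < ξ → t ξ = 0) ∧
    (Fm h false t ∨ (Fm h true t ∧ t h = -2))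

theorem Cont.not_term {x : ℝ} (h : Cont x) : ¬ Term x := by
  obtain ⟨⟨q, rfl⟩, h⟩ := h
  rintro (h' | h' | ⟨⟨r, h'⟩, -⟩)
  · rw [h'] at h; norm_num at h
  · rw [h'] at h; norm_num at h
  · exact irrational_sqrt_two ⟨q - r, by push_cast; linarith⟩

theorem Term.abs_le {x : ℝ} (h : Term x) : |x| ≤ 2 := by
  rcases h with rfl | rfl | h
  exacts [by norm_num, by norm_num, h.2.le]

theorem exists_cont {x y : ℝ} (h : x < y) (hx : |x| ≤ 2) (hy : |y| ≤ 2) :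
    ∃ z, x < z ∧ z < y ∧ Cont z := by
  obtain ⟨q, h₁, h₂⟩ := exists_rat_btwn h
  rw [abs_le] at hx hy
  exact ⟨q, h₁, h₂, ⟨q, rfl⟩, abs_lt.2 ⟨by linarith, by linarith⟩⟩

theorem exists_term {x y : ℝ} (h : x < y) (hx : |x| ≤ 2) (hy : |y| ≤ 2) :
    ∃ z, x < z ∧ z < y ∧ Term z := by
  obtain ⟨q, h₁, h₂⟩ := exists_rat_btwn (sub_lt_sub_right h √2)
  rw [abs_le] at hx hy
  exact ⟨q + √2, by linarith, by linarith,
    Or.inr (Or.inr ⟨⟨q, rfl⟩, abs_lt.2 ⟨by linarith, by linarith⟩⟩)⟩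

theorem mag_pos (γ fl ξ) : (0 : ℝ) < mag γ fl ξ := by
  unfold mag; positivity

theorem abs_can (γ l fl ξ) : |can γ l fl ξ| = 1 / (mag γ fl ξ : ℝ) := by
  unfold can
  rw [abs_div, abs_of_pos (mag_pos γ fl ξ)]
  split_ifs <;> simp

theorem cont_can (γ l fl ξ) : Cont (can γ l fl ξ) := by
  refine ⟨⟨(if sg l ξ = true then 1 else -1) / (mag γ fl ξ : ℚ), ?_⟩, ?_⟩
  · unfold can; split_ifs <;> simp
  · rw [abs_can, div_lt_iff₀ (mag_pos γ fl ξ)]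
    have : (1 : ℝ) ≤ mag γ fl ξ := by
      have : 1 ≤ mag γ fl ξ := by unfold mag; omega
      exact_mod_cast this
    linarith

theorem Fm.down {γ h : Om} {fl : Bool} {t : Om → ℝ} (H : Fm h fl t) (hγ : γ < h) :
    Fm γ false t := by
  obtain ⟨l, H⟩ := H
  refine ⟨l, ((H.union (co_coh hγ.le)).union (lad_fin hγ)).subset ?_⟩
  rintro ξ ⟨h₁, h₂⟩
  by_contra hc
  simp only [mem_union, mem_ofPred_eq, h₁, h₁.trans hγ, true_and, not_or, not_not] at hc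
  apply h₂
  rw [hc.1.1]
  simp [can, mag, hc.1.2, hc.2]

theorem Fm.congr {γ : Om} {fl : Bool} {t u : Om → ℝ} (H : Fm γ fl t) (e : ∀ ξ < γ, t ξ = u ξ) :
    Fm γ fl u := by
  obtain ⟨l, H⟩ := H
  exact ⟨l, H.subset fun ξ hξ => ⟨hξ.1, e ξ hξ.1 ▸ hξ.2⟩⟩

theorem Fm.not_both {γ : Om} {t : Om → ℝ} (hγ : Lim γ) (H : Fm γ true t) : ¬ Fm γ false t := by
  obtain ⟨l, H⟩ := H
  rintro ⟨l', H'⟩
  refine lad_inf hγ ((H.union H').subset fun ξ hξ => ?_)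
  by_contra hc
  simp only [mem_union, mem_ofPred_eq, hξ.1, true_and, not_or, not_not] at hc
  have := congrArg abs (hc.1.symm.trans hc.2)
  rw [abs_can, abs_can, one_div, one_div, inv_inj, Nat.cast_inj] at this
  simp [mag, hξ] at this

theorem Fm.fin {γ : Om} {fl : Bool} {t : Om → ℝ} (H : Fm γ fl t) (x : ℝ) :
    {ξ | ξ < γ ∧ t ξ = x}.Finite := by
  obtain ⟨l, H⟩ := H
  refine (H.union (co_fin γ ⌈1 / |x|⌉₊)).subset ?_
  rintro ξ ⟨h₁, rfl⟩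
  by_cases h : t ξ = can γ l fl ξ
  · refine Or.inr ⟨h₁, ?_⟩
    rw [h, abs_can, one_div_one_div, Nat.ceil_natCast]
    unfold mag; omega
  · exact Or.inl ⟨h₁, h⟩

/-- The target line. -/
def U : Type := {t : Lex (Om → ℝ) // ∃ h, IsU (ofLex t) h}

noncomputable instance : LinearOrder U :=
  inferInstanceAs (LinearOrder {t : Lex (Om → ℝ) // ∃ h, IsU (ofLex t) h})

namespace U

def val (t : U) : Om → ℝ := ofLex t.1

noncomputable def ht (t : U) : Om := t.2.choose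

theorem spec (t : U) : IsU t.val t.ht := t.2.choose_spec

theorem ext {t u : U} (h : ∀ ξ, t.val ξ = u.val ξ) : t = u := Subtype.ext (funext h)

theorem lt_iff {t u : U} : t < u ↔ ∃ ξ, (∀ η < ξ, t.val η = u.val η) ∧ t.val ξ < u.val ξ :=
  Iff.rfl

theorem ht_eq {t : U} {h : Om} (H : IsU t.val h) : t.ht = h := by
  rcases lt_trichotomy t.ht h with h' | h' | h'
  · exact absurd t.spec.2.1 (H.1 _ h').not_term
  · exact h'
  · exact absurd H.2.1 (t.spec.1 _ h').not_term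

def ag (γ : Om) (t u : U) : Prop := ∀ ξ < γ, t.val ξ = u.val ξ

theorem ag.refl (γ : Om) (t : U) : ag γ t t := fun _ _ => rfl
theorem ag.symm {γ : Om} {t u : U} (h : ag γ t u) : ag γ u t := fun ξ hξ => (h ξ hξ).symm
theorem ag.trans {γ : Om} {t u v : U} (h : ag γ t u) (h' : ag γ u v) : ag γ t v :=
  fun ξ hξ => (h ξ hξ).trans (h' ξ hξ)
theorem ag.mono {γ γ' : Om} {t u : U} (h : ag γ t u) (h' : γ' ≤ γ) : ag γ' t u :=
  fun ξ hξ => h ξ (hξ.trans_le h')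
theorem ag_bot (t u : U) : ag ⊥ t u := fun _ h => absurd h not_lt_bot

theorem ag_lim {δ : Om} (hδ : Lim δ) {t u : U} (h : ∀ γ < δ, ag γ t u) : ag δ t u := by
  intro ξ hξ
  obtain ⟨γ, h₁, h₂⟩ := hδ.2 ξ hξ
  exact h γ h₂ ξ h₁

theorem alone {γ : Om} {t u : U} (h : ag γ t u) (ht : t.ht < γ) : t = u := by
  have e : u.ht = t.ht := by
    rcases lt_trichotomy u.ht t.ht with h' | h' | h'
    · exact absurd u.spec.2.1 (h _ (h'.trans ht) ▸ t.spec.1 _ h').not_term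
    · exact h'
    · exact absurd t.spec.2.1 (h _ ht ▸ u.spec.1 _ h').not_term
  refine ext fun ξ => ?_
  rcases le_or_gt ξ t.ht with h' | h'
  · exact h ξ (h'.trans_lt ht)
  · rw [t.spec.2.2.1 ξ h', u.spec.2.2.1 ξ (e ▸ h')]

theorem lt_below {γ : Om} {t u : U} (h : t < u) (h' : ¬ ag γ t u) :
    ∃ ξ < γ, (∀ η < ξ, t.val η = u.val η) ∧ t.val ξ < u.val ξ := by
  obtain ⟨ξ, h₁, h₂⟩ := lt_iff.1 h
  refine ⟨ξ, ?_, h₁, h₂⟩
  by_contra hc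
  exact h' fun η hη => h₁ η (hη.trans_le (not_lt.1 hc))

theorem lt_of_ag {γ : Om} {t u t' u' : U} (h : t < u) (h' : ¬ ag γ t u) (ht : ag γ t t')
    (hu : ag γ u u') : t' < u' := by
  obtain ⟨ξ, h₀, h₁, h₂⟩ := lt_below h h'
  refine lt_iff.2 ⟨ξ, fun η hη => ?_, ?_⟩
  · rw [← ht η (hη.trans h₀), ← hu η (hη.trans h₀), h₁ η hη]
  · rwa [← ht ξ h₀, ← hu ξ h₀]

theorem convex {γ : Om} {t u v : U} (h₁ : t ≤ u) (h₂ : u ≤ v) (h : ag γ t v) : ag γ t u := by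
  by_contra hc
  rcases h₁.eq_or_lt with rfl | h₁
  · exact hc (ag.refl _ _)
  · exact (lt_of_ag h₁ hc h (ag.refl _ _)).not_ge h₂

theorem reg {γ : Om} {t : U} (h : γ < t.ht) : Fm γ false t.val :=
  t.spec.2.2.2.elim (fun H => H.down h) fun H => H.1.down h

theorem abs_le {ξ : Om} {t : U} (h : ξ ≤ t.ht) : |t.val ξ| ≤ 2 := by
  rcases h.eq_or_lt with rfl | h
  · exact t.spec.2.1.abs_le
  · exact (t.spec.1 ξ h).2.le

open Classical in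
/-- Cut a function at a level and put a terminal value. -/
noncomputable def cut (f : Om → ℝ) (γ : Om) (x : ℝ) : Om → ℝ :=
  fun ξ => if ξ < γ then f ξ else if ξ = γ then x else 0

theorem cut_lt {f : Om → ℝ} {γ ξ : Om} {x : ℝ} (h : ξ < γ) : cut f γ x ξ = f ξ := by simp [cut, h]
theorem cut_self {f : Om → ℝ} {γ : Om} {x : ℝ} : cut f γ x γ = x := by simp [cut]

theorem exists_cut {f : Om → ℝ} {γ : Om} {x : ℝ} (h₁ : ∀ ξ < γ, Cont (f ξ)) (h₂ : Term x)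
    (h₃ : Fm γ false f ∨ (Fm γ true f ∧ x = -2)) :
    ∃ w : U, w.ht = γ ∧ (∀ ξ < γ, w.val ξ = f ξ) ∧ w.val γ = x := by
  have H : IsU (cut f γ x) γ := by
    refine ⟨fun ξ hξ => by rw [cut_lt hξ]; exact h₁ ξ hξ, by rwa [cut_self],
      fun ξ hξ => by simp [cut, hξ.ne', hξ.le], ?_⟩
    exact h₃.imp (fun H => H.congr fun ξ hξ => (cut_lt hξ).symm)
      fun H => ⟨H.1.congr fun ξ hξ => (cut_lt hξ).symm, cut_self.trans H.2⟩
  exact ⟨⟨toLex (cut f γ x), γ, H⟩, ht_eq H, fun ξ hξ => cut_lt hξ, cut_self⟩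

theorem le_ht {γ : Om} {t u : U} (h : ag γ t u) (ht : γ ≤ t.ht) : γ ≤ u.ht := by
  by_contra hc
  rw [not_le] at hc
  obtain rfl := alone h.symm hc
  exact hc.not_ge ht

theorem eq_of_ht {γ : Om} {t u : U} (h : ag γ t u) (ht : t.ht = γ) (e : t.val γ = u.val γ) :
    t = u := by
  obtain ⟨γ', h₁, h₂⟩ : ∃ γ', γ < γ' ∧ ∀ ξ < γ', ξ ≤ γ := by
    obtain ⟨γ', h₁, h₂⟩ := (wellFounded_lt (α := Om)).has_min {x | γ < x} (exists_gt γ)
    exact ⟨γ', h₁, fun ξ hξ => not_lt.1 fun h => h₂ ξ h hξ⟩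
  refine alone (γ := γ') (fun ξ hξ => ?_) (ht ▸ h₁)
  rcases (h₂ ξ hξ).eq_or_lt with rfl | h'
  exacts [e, h ξ h']

theorem single {γ : Om} {t u : U} (ht : γ ≤ t.ht) (h : ¬ Fm γ false t.val) (e : ag γ t u) :
    t = u := by
  have key : ∀ v : U, γ ≤ v.ht → ¬ Fm γ false v.val → v.ht = γ ∧ v.val γ = -2 := by
    intro v hv h
    rcases hv.eq_or_lt with rfl | hv
    · exact ⟨rfl, (v.spec.2.2.2.resolve_left h).2⟩
    · exact absurd (reg hv) h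
  obtain ⟨h₁, h₂⟩ := key t ht h
  obtain ⟨-, h₄⟩ := key u (le_ht e ht) fun H => h (H.congr e.symm)
  exact eq_of_ht e h₁ (h₂.trans h₄.symm)

/-- Every node has a least and a greatest element, of small height. -/
theorem minmax (γ : Om) (t : U) : ∃ m m' : U, ag γ m t ∧ ag γ m' t ∧ m.ht ≤ γ ∧ m'.ht ≤ γ ∧
    ∀ u, ag γ u t → m ≤ u ∧ u ≤ m' := by
  rcases lt_or_ge t.ht γ with h | h
  · exact ⟨t, t, ag.refl _ _, ag.refl _ _, h.le, h.le, fun u hu => by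
      rw [alone hu.symm h]; exact ⟨le_rfl, le_rfl⟩⟩
  by_cases hF : Fm γ false t.val
  · have hc : ∀ ξ < γ, Cont (t.val ξ) := fun ξ hξ => t.spec.1 ξ (hξ.trans_le h)
    obtain ⟨m, h₁, h₂, h₃⟩ := exists_cut hc (Or.inl rfl) (Or.inl hF)
    obtain ⟨m', h₁', h₂', h₃'⟩ := exists_cut hc (Or.inr (Or.inl rfl)) (Or.inl hF)
    refine ⟨m, m', h₂, h₂', h₁.le, h₁'.le, fun u hu => ?_⟩
    have hb := _root_.abs_le.1 (abs_le (le_ht hu.symm h))
    have e : ag γ m u := ag.trans h₂ hu.symm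
    have e' : ag γ m' u := ag.trans h₂' hu.symm
    constructor
    · rcases hb.1.eq_or_lt with h' | h'
      · exact (eq_of_ht e h₁ (h₃.trans h')).le
      · exact (lt_iff.2 ⟨γ, e, h₃ ▸ h'⟩).le
    · rcases hb.2.eq_or_lt with h' | h'
      · exact (eq_of_ht e' h₁' (h₃'.trans h'.symm)).ge
      · exact (lt_iff.2 ⟨γ, e'.symm, h₃' ▸ h'⟩).le
  · have hh : t.ht ≤ γ := not_lt.1 fun h' => hF (reg h')
    exact ⟨t, t, ag.refl _ _, ag.refl _ _, hh, hh, fun u hu => by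
      rw [single h hF hu.symm]; exact ⟨le_rfl, le_rfl⟩⟩

theorem split_data {t u : U} {ξ : Om} (h₁ : ∀ η < ξ, t.val η = u.val η) (h₂ : t.val ξ < u.val ξ) :
    (∀ η < ξ, Cont (t.val η)) ∧ Fm ξ false t.val ∧ |t.val ξ| ≤ 2 ∧ |u.val ξ| ≤ 2 := by
  have hne : t ≠ u := fun e => by rw [e] at h₂; exact lt_irrefl _ h₂
  have ht : ξ ≤ t.ht := not_lt.1 fun h => hne (alone h₁ h)
  refine ⟨fun η hη => t.spec.1 η (hη.trans_le ht), ?_, abs_le ht, abs_le (le_ht h₁ ht)⟩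
  by_contra hc
  exact hne (single ht hc h₁)

theorem exists_btwn {γ : Om} {t u : U} (h : t < u) (h' : ¬ ag γ t u) :
    ∃ w, t < w ∧ w < u ∧ w.ht < γ := by
  obtain ⟨ξ, h₀, h₁, h₂⟩ := lt_below h h'
  obtain ⟨a, b, c, d⟩ := split_data h₁ h₂
  obtain ⟨x, hx₁, hx₂, hx⟩ := exists_term h₂ c d
  obtain ⟨w, e₁, e₂, e₃⟩ := exists_cut a hx (Or.inl b)
  exact ⟨w, lt_iff.2 ⟨ξ, fun η hη => (e₂ η hη).symm, e₃ ▸ hx₁⟩,
    lt_iff.2 ⟨ξ, fun η hη => (e₂ η hη).trans (h₁ η hη), e₃ ▸ hx₂⟩, e₁ ▸ h₀⟩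

def Opp (β γ : Om) (x y : U) : Prop := ∀ ξ, β ≤ ξ → ξ < γ → y.val ξ = - x.val ξ

theorem Opp.mono {β γ γ' : Om} {x y : U} (h : Opp β γ x y) (h' : γ' ≤ γ) : Opp β γ' x y :=
  fun ξ h₁ h₂ => h ξ h₁ (h₂.trans_le h')

theorem Opp.lt {β γ : Om} {x y x' y' : U} (h : ag β x y) (h' : ag β x' y') (hx : Opp β γ x x')
    (hy : Opp β γ y y') (hn : ¬ ag γ x y) (hl : x < y) : y' < x' := by
  obtain ⟨ξ, h₀, h₁, h₂⟩ := lt_below hl hn
  have hβ : β ≤ ξ := not_lt.1 fun hc => h₂.ne (h ξ hc)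
  refine lt_iff.2 ⟨ξ, fun η hη => ?_, ?_⟩
  · rcases lt_or_ge η β with h₃ | h₃
    · exact (h' η h₃).symm
    · rw [hx η h₃ (hη.trans h₀), hy η h₃ (hη.trans h₀), h₁ η hη]
  · rw [hx ξ hβ h₀, hy ξ hβ h₀]; linarith

theorem exists_opp {δ : Om} (hδ : Lim δ) {u u' : U} (h : u < u') (h' : ¬ ag δ u u') (fl : Bool) :
    ∃ (t : Bool → U) (β : Om), β < δ ∧ Opp β δ (t true) (t false) ∧ ∀ ε, u < t ε ∧ t ε < u' ∧
      ¬ ag δ u (t ε) ∧ ¬ ag δ (t ε) u' ∧ (t ε).ht = δ ∧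
      (fl = true ↔ ∀ v, ag δ v (t ε) → v = t ε) := by
  classical
  obtain ⟨ξ, h₀, h₁, h₂⟩ := lt_below h h'
  obtain ⟨a, ⟨l, b⟩, c, d⟩ := split_data h₁ h₂
  obtain ⟨x, hx₁, hx₂, hx⟩ := exists_cont h₂ c d
  obtain ⟨β, hβ₁, hβ₂⟩ := hδ.2 ξ h₀
  let f : Bool → Om → ℝ := fun ε η =>
    if η < ξ then u.val η else if η = ξ then x else can δ ((ξ, ε) :: l) fl η
  have hc : ∀ ε, ∀ η < δ, Cont (f ε η) := by
    intro ε η _
    simp only [f]
    split_ifs with h₃ h₄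
    exacts [a η h₃, hx, cont_can _ _ _ _]
  have hF : ∀ ε, Fm δ fl (f ε) := by
    intro ε
    refine ⟨(ξ, ε) :: l, (((b.union (co_coh h₀.le)).union (lad_fin h₀)).insert ξ).subset ?_⟩
    rintro η ⟨-, h₄⟩
    by_contra hn
    simp only [mem_insert_iff, mem_union, mem_ofPred_eq, not_or, not_and, not_not] at hn
    apply h₄
    simp only [f]
    split_ifs with h₅ h₆
    · rw [hn.2.1.1 h₅]
      simp [can, mag, sg, hn.2.1.2 h₅, hn.2.2 h₅, h₅.not_ge]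
    · exact absurd h₆ hn.1
    · rfl
  have hF' : ∀ ε, Fm δ false (f ε) ∨ (Fm δ true (f ε) ∧ (-2 : ℝ) = -2) := by
    intro ε
    cases fl
    exacts [Or.inl (hF ε), Or.inr ⟨hF ε, rfl⟩]
  choose t e₁ e₂ e₃ using fun ε => exists_cut (hc ε) (Or.inl rfl) (hF' ε)
  have lo : ∀ ε, ∀ η < ξ, (t ε).val η = u.val η := fun ε η hη => by
    rw [e₂ ε η (hη.trans h₀)]; simp [f, hη]
  have mid : ∀ ε, (t ε).val ξ = x := fun ε => by rw [e₂ ε ξ h₀]; simp [f]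
  refine ⟨t, β, hβ₂, fun η h₃ h₄ => ?_, fun ε => ⟨?_, ?_, fun H => ?_, fun H => ?_,
    e₁ ε, ?_⟩⟩
  · have : ξ < η := hβ₁.trans_le h₃
    rw [e₂ _ η h₄, e₂ _ η h₄]
    simp [f, this.not_gt, this.ne', can, sg, this.le, neg_div]
  · exact lt_iff.2 ⟨ξ, fun η hη => (lo ε η hη).symm, mid ε ▸ hx₁⟩
  · exact lt_iff.2 ⟨ξ, fun η hη => (lo ε η hη).trans (h₁ η hη), mid ε ▸ hx₂⟩
  · exact hx₁.ne ((H ξ h₀).trans (mid ε))
  · exact hx₂.ne ((mid ε).symm.trans (H ξ h₀))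
  · cases fl
    · refine iff_of_false (by simp) fun H => ?_
      obtain ⟨v, -, e₂', e₃'⟩ := exists_cut (hc ε) (Or.inr (Or.inl rfl)) (Or.inl (hF ε))
      have := H v fun η hη => (e₂' η hη).trans (e₂ ε η hη).symm
      rw [this, e₃] at e₃'
      norm_num at e₃'
    · refine iff_of_true rfl fun v hv => (single (e₁ ε).ge (fun H => ?_) hv.symm).symm
      exact (hF ε).not_both hδ (H.congr (e₂ ε))

theorem col_fin (t : U) (x : ℝ) : {ξ | ξ < t.ht ∧ t.val ξ = x}.Finite :=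
  t.spec.2.2.2.elim (fun H => H.fin x) fun H => H.1.fin x

theorem sg_filter (γ : Om) (l : List (Om × Bool)) : ∃ l' : List (Iio γ × Bool),
    ∀ ξ < γ, sg (l'.map fun e => (e.1.1, e.2)) ξ = sg l ξ := by
  induction l with
  | nil => exact ⟨[], fun _ _ => rfl⟩
  | cons e l ih =>
    obtain ⟨l', H⟩ := ih
    by_cases h : e.1 < γ
    · exact ⟨(⟨e.1, h⟩, e.2) :: l', fun ξ hξ => by simp [sg, H ξ hξ]⟩
    · exact ⟨l', fun ξ hξ => by simp [sg, H ξ hξ, (hξ.trans_le (not_lt.1 h)).not_ge]⟩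

theorem cnt_ht_eq (γ : Om) : {t : U | t.ht = γ}.Countable := by
  have := (cnt_Iio γ).to_subtype
  let A : Set ℝ := range (fun q : ℚ => (q : ℝ)) ∪ range (fun q : ℚ => q + √2)
  have hA : A.Countable := (countable_range _).union (countable_range _)
  have h₁ : ∀ (l : List (Iio γ × Bool)) (fl : Bool), {t : U | t.ht = γ ∧
      {ξ | ξ < γ ∧ t.val ξ ≠ can γ (l.map fun e => (e.1.1, e.2)) fl ξ}.Finite}.Countable := by
    intro l fl
    let c := can γ (l.map fun e => (e.1.1, e.2)) fl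
    refine MapsTo.countable_of_injOn
      (f := fun t : U => {p : Om × ℝ | p.2 = t.val p.1 ∧ (p.1 = γ ∨ (p.1 < γ ∧ p.2 ≠ c p.1))})
      ?_ ?_ (countable_ofPred_finite_subset ((cnt_Iic γ).prod hA))
    · rintro t ⟨h₁, h₂⟩
      refine ⟨((h₂.insert γ).image fun ξ => (ξ, t.val ξ)).subset ?_, ?_⟩
      · rintro ⟨ξ, x⟩ ⟨e, h⟩
        obtain rfl : x = t.val ξ := e
        exact ⟨ξ, h, rfl⟩
      · rintro ⟨ξ, x⟩ ⟨e, h⟩
        obtain rfl : x = t.val ξ := e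
        rcases h with rfl | h
        · refine ⟨mem_Iic.2 le_rfl, ?_⟩
          rcases h₁ ▸ t.spec.2.1 with h | h | ⟨⟨q, h⟩, -⟩
          · exact Or.inl ⟨-2, by simp [h]⟩
          · exact Or.inl ⟨2, by simp [h]⟩
          · exact Or.inr ⟨q, h.symm⟩
        · obtain ⟨⟨q, hq⟩, -⟩ := t.spec.1 ξ (h₁ ▸ h.1)
          exact ⟨h.1.le, Or.inl ⟨q, hq.symm⟩⟩
    · rintro t ⟨h₁, -⟩ u ⟨-, -⟩ e
      have e' := fun p => Set.ext_iff.1 e p
      refine eq_of_ht (γ := γ) (fun ξ hξ => ?_) h₁ ((e' (γ, t.val γ)).1 ⟨rfl, Or.inl rfl⟩).1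
      by_cases ht : t.val ξ = c ξ
      · by_cases hu : u.val ξ = c ξ
        · exact ht.trans hu.symm
        · exact ((e' (ξ, u.val ξ)).2 ⟨rfl, Or.inr ⟨hξ, hu⟩⟩).1.symm
      · exact ((e' (ξ, t.val ξ)).1 ⟨rfl, Or.inr ⟨hξ, ht⟩⟩).1
  refine (countable_iUnion fun l => countable_iUnion fun fl => h₁ l fl).mono fun t ht => ?_
  obtain ⟨fl, l, H⟩ : ∃ fl, Fm γ fl t.val :=
    (ht ▸ t.spec.2.2.2).elim (fun H => ⟨_, H⟩) fun H => ⟨_, H.1⟩
  obtain ⟨l', hl⟩ := sg_filter γ l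
  refine mem_iUnion.2 ⟨l', mem_iUnion.2 ⟨fl, ht, H.subset fun ξ hξ => ⟨hξ.1, ?_⟩⟩⟩
  have := hξ.2
  unfold can at this ⊢
  rwa [hl ξ hξ.1] at this

theorem cnt_ht (γ : Om) : {t : U | t.ht ≤ γ}.Countable :=
  ((cnt_Iic γ).biUnion fun a _ => cnt_ht_eq a).mono fun t ht =>
    mem_biUnion (t := fun a => {t : U | t.ht = a}) (show t.ht ∈ Iic γ from ht) rfl

theorem exists_ht (γ : Om) : ∃ t u : U, t.ht = γ ∧ u.ht = γ ∧ t < u := by
  have hF : Fm γ false (can γ [] false) := ⟨[], by simp⟩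
  obtain ⟨m, h₁, h₂, h₃⟩ := exists_cut (fun ξ _ => cont_can γ [] false ξ) (Or.inl rfl) (Or.inl hF)
  obtain ⟨m', h₁', h₂', h₃'⟩ := exists_cut (fun ξ _ => cont_can γ [] false ξ)
    (Or.inr (Or.inl rfl)) (Or.inl hF)
  exact ⟨m, m', h₁, h₁', lt_iff.2 ⟨γ, fun ξ hξ => (h₂ ξ hξ).trans (h₂' ξ hξ).symm,
    by rw [h₃, h₃']; norm_num⟩⟩

instance : Nonempty U := ⟨(exists_ht ⊥).choose⟩

theorem mk_U : Cardinal.mk U = Cardinal.mk Om := by
  refine le_antisymm ?_ ?_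
  · have : (univ : Set U) = ⋃ γ : Om, {t : U | t.ht = γ} := by ext t; simp
    rw [← Cardinal.mk_univ, this]
    refine (Cardinal.mk_iUnion_le _).trans ?_
    have h : ⨆ γ : Om, Cardinal.mk {t : U | t.ht = γ} ≤ Cardinal.aleph0 :=
      ciSup_le' fun γ => Cardinal.le_aleph0_iff_set_countable.2 (cnt_ht_eq γ)
    refine (mul_le_mul_right h _).trans ?_
    rw [mk_Om, Cardinal.mul_aleph0_eq Cardinal.aleph0_lt_aleph_one.le]
  · choose f g h₁ _ _ using exists_ht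
    exact Cardinal.mk_le_of_injective (f := f) fun a b e => by rw [← h₁ a, e, h₁]

end U

noncomputable def eU : Om ≃ U := (Cardinal.eq.1 U.mk_U.symm).some

end Pool.Agent.MP_656653_lc
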